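import Pool.Agent.Helper55K1.JKDefs

/-!
Coordinates of a normal form whose Jordan blocks are all of size two.
-/

namespace Pool.Agent.Helper55K1.JK

/-- Coordinates of a normal form whose Jordan blocks are all of size two. -/
structure Fm {V : Type} [AddCommGroup V] [Module ℂ V] (A B : V →ₗ[ℂ] V →ₗ[ℂ] ℂ) {m : ℕ}
    (k : Fin m → ℕ) (n : ℕ) where
  μ : Fin n → ℂ
  e : (i : Fin m) → Fin (k i) → V
  f : (i : Fin m) → Fin (k i + 1) → V
  g : Fin n → V
  h : Fin n → V
  ce : (i : Fin m) → Fin (k i) → V →ₗ[ℂ] ℂ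
  cf : (i : Fin m) → Fin (k i + 1) → V →ₗ[ℂ] ℂ
  cg : Fin n → V →ₗ[ℂ] ℂ
  ch : Fin n → V →ₗ[ℂ] ℂ
  ext0 : ∀ v, (∀ i s, ce i s v = 0) → (∀ i s, cf i s v = 0) → (∀ j, cg j v = 0) →
    (∀ j, ch j v = 0) → v = 0
  mkv : ∀ (q : (i : Fin m) → Fin (k i + 1) → ℂ) (u w : Fin n → ℂ), ∃ v, (∀ i s, ce i s v = 0) ∧
    (∀ i s, cf i s v = q i s) ∧ (∀ j, cg j v = u j) ∧ ∀ j, ch j v = w j
  sp : ∀ v, (∀ i s, ce i s v = 0) → (∀ j, cg j v = 0) → (∀ j, ch j v = 0) →
    v ∈ Submodule.span ℂ (Set.range fun p : Σ i, Fin (k i + 1) => f p.1 p.2)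
  ind : ∀ φ : V →ₗ[ℂ] ℂ, (∀ i s, φ (e i s) = 0) → (∀ i s, φ (f i s) = 0) → (∀ j, φ (g j) = 0) →
    (∀ j, φ (h j) = 0) → φ = 0
  Ae : ∀ i s v, A (e i s) v = cf i s.castSucc v
  Be : ∀ i s v, B (e i s) v = - cf i s.succ v
  Af : ∀ i (s : Fin (k i)) v, A (f i s.castSucc) v = - ce i s v
  Af' : ∀ i v, A (f i (Fin.last _)) v = 0
  Bf : ∀ i (s : Fin (k i)) v, B (f i s.succ) v = ce i s v
  Bf' : ∀ i v, B (f i 0) v = 0
  Ag : ∀ j v, A (g j) v = μ j * ch j v
  Bg : ∀ j v, B (g j) v = - ch j v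
  Ah : ∀ j v, A (h j) v = - (μ j * cg j v)
  Bh : ∀ j v, B (h j) v = cg j v
  gg : ∀ i j, cg i (g j) = if i = j then 1 else 0
  gh : ∀ i j, cg i (h j) = 0
  hg : ∀ i j, ch i (g j) = 0
  hh : ∀ i j, ch i (h j) = if i = j then 1 else 0

section

variable {V : Type} [AddCommGroup V] [Module ℂ V] {A B : V →ₗ[ℂ] V →ₗ[ℂ] ℂ}

/-- The blocks. -/
abbrev kb {m n : ℕ} (k : Fin m → ℕ) (μ : Fin n → ℂ) : Fin m ⊕ Fin n → Block :=
  Sum.elim (fun i => Block.kronecker (k i)) fun j => Block.jordan 1 (μ j)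

lemma form_repr {I : Type} (T : V →ₗ[ℂ] V →ₗ[ℂ] ℂ) (blk : I → Block)
    (M : Block → ℕ → ℕ → ℂ) (b : Module.Basis (Σ i, (blk i).Ix) ℂ V)
    (h1 : ∀ i s t, T (b ⟨i, s⟩) (b ⟨i, t⟩) = skew (M (blk i)) s t)
    (h2 : ∀ i j s t, i ≠ j → T (b ⟨i, s⟩) (b ⟨j, t⟩) = 0) (i : I) (s : (blk i).Ix) (v : V) :
    T (b ⟨i, s⟩) v = ∑ t, skew (M (blk i)) s t * b.repr v ⟨i, t⟩ := by
  classical
  let φ : V →ₗ[ℂ] ℂ := ∑ t, skew (M (blk i)) s t • (b.coord ⟨i, t⟩)
  have hφ : ∀ v, φ v = ∑ t, skew (M (blk i)) s t * b.repr v ⟨i, t⟩ := fun v => by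
    simp [φ, LinearMap.sum_apply, Module.Basis.coord_apply]
  rw [← hφ]
  suffices T (b ⟨i, s⟩) = φ by rw [this]
  refine b.ext fun idx => ?_
  rw [hφ]
  obtain ⟨j, t⟩ := idx
  by_cases hij : i = j
  · subst hij
    rw [h1, Finset.sum_eq_single t]
    · simp
    · intro t' _ ht'
      rw [b.repr_self, Finsupp.single_apply, if_neg, mul_zero]
      intro h
      exact ht' (eq_of_heq (Sigma.mk.inj h).2).symm
    · intro h; exact absurd (Finset.mem_univ _) h
  · rw [h2 _ _ _ _ hij]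
    symm
    refine Finset.sum_eq_zero fun t' _ => ?_
    rw [b.repr_self, Finsupp.single_apply, if_neg, mul_zero]
    intro h
    exact hij (Sigma.mk.inj h).1.symm

theorem exists_fm {m n : ℕ} {k : Fin m → ℕ} {c : Fin n → ℕ}
    (h : HasType (fun u v => A u v) (fun u v => B u v) k (fun _ : Fin n => 1) c) :
    ∃ F : Fm A B k n, ∀ i j, F.μ i = F.μ j ↔ c i = c j := by
  classical
  obtain ⟨μ, hμ, b, h1, h2⟩ := h
  have hA := form_repr A (kb k μ) Block.first b (fun i s t => (h1 i s t).1)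
    (fun i j s t hij => (h2 i j s t hij).1)
  have hB := form_repr B (kb k μ) Block.second b (fun i s t => (h1 i s t).2)
    (fun i j s t hij => (h2 i j s t hij).2)
  let ie : (i : Fin m) → Fin (k i) → Σ i, (kb k μ i).Ix := fun i s => ⟨Sum.inl i, Sum.inl s⟩
  let if' : (i : Fin m) → Fin (k i + 1) → Σ i, (kb k μ i).Ix := fun i s => ⟨Sum.inl i, Sum.inr s⟩
  let ig : Fin n → Σ i, (kb k μ i).Ix := fun j => ⟨Sum.inr j, Sum.inl (0 : Fin 1)⟩
  let ih : Fin n → Σ i, (kb k μ i).Ix := fun j => ⟨Sum.inr j, Sum.inr (0 : Fin 1)⟩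
  have hcase : ∀ P : (Σ i, (kb k μ i).Ix) → Prop, (∀ i s, P (ie i s)) → (∀ i s, P (if' i s)) →
      (∀ j, P (ig j)) → (∀ j, P (ih j)) → ∀ idx, P idx := by
    rintro P p1 p2 p3 p4 ⟨i | j, s | s⟩
    · exact p1 i s
    · exact p2 i s
    · have := p3 j
      obtain rfl : s = (0 : Fin 1) := @Subsingleton.elim (Fin 1) _ _ _
      exact this
    · have := p4 j
      obtain rfl : s = (0 : Fin 1) := @Subsingleton.elim (Fin 1) _ _ _
      exact this
  refine ⟨{
    μ := μ
    e := fun i s => b (ie i s)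
    f := fun i s => b (if' i s)
    g := fun j => b (ig j)
    h := fun j => b (ih j)
    ce := fun i s => b.coord (ie i s)
    cf := fun i s => b.coord (if' i s)
    cg := fun j => b.coord (ig j)
    ch := fun j => b.coord (ih j)
    ext0 := ?_
    mkv := ?_
    sp := ?_
    ind := ?_
    Ae := ?_
    Be := ?_
    Af := ?_
    Af' := ?_
    Bf := ?_
    Bf' := ?_
    Ag := ?_
    Bg := ?_
    Ah := ?_
    Bh := ?_
    gg := ?_
    gh := ?_
    hg := ?_
    hh := ?_ }, hμ⟩
  · intro v h1 h2 h3 h4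
    refine b.ext_elem fun idx => ?_
    rw [map_zero, Finsupp.zero_apply]
    exact hcase (fun idx => b.repr v idx = 0) h1 h2 h3 h4 idx
  · intro q u w
    let F : (Σ i, (kb k μ i).Ix) → ℂ := fun idx => match idx with
      | ⟨Sum.inl i, Sum.inl _⟩ => 0
      | ⟨Sum.inl i, Sum.inr s⟩ => q i s
      | ⟨Sum.inr j, Sum.inl _⟩ => u j
      | ⟨Sum.inr j, Sum.inr _⟩ => w j
    refine ⟨b.equivFun.symm F, fun i s => ?_, fun i s => ?_, fun j => ?_, fun j => ?_⟩
    · rw [Module.Basis.coord_apply, ← Module.Basis.equivFun_apply, LinearEquiv.apply_symm_apply]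
    · rw [Module.Basis.coord_apply, ← Module.Basis.equivFun_apply, LinearEquiv.apply_symm_apply]
    · rw [Module.Basis.coord_apply, ← Module.Basis.equivFun_apply, LinearEquiv.apply_symm_apply]
    · rw [Module.Basis.coord_apply, ← Module.Basis.equivFun_apply, LinearEquiv.apply_symm_apply]
  · intro v h1 h3 h4
    rw [← b.sum_repr v]
    refine Submodule.sum_mem _ fun idx _ => ?_
    refine hcase (fun idx => b.repr v idx • b idx ∈ _) ?_ ?_ ?_ ?_ idx
    · intro i s
      have := h1 i s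
      rw [Module.Basis.coord_apply] at this
      rw [this, zero_smul]
      exact Submodule.zero_mem _
    · intro i s
      exact Submodule.smul_mem _ _ (Submodule.subset_span ⟨⟨i, s⟩, rfl⟩)
    · intro j
      have := h3 j
      rw [Module.Basis.coord_apply] at this
      rw [this, zero_smul]
      exact Submodule.zero_mem _
    · intro j
      have := h4 j
      rw [Module.Basis.coord_apply] at this
      rw [this, zero_smul]
      exact Submodule.zero_mem _
  · intro φ h1 h2 h3 h4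
    refine b.ext fun idx => ?_
    exact hcase (fun idx => φ (b idx) = (0 : V →ₗ[ℂ] ℂ) (b idx)) h1 h2 h3 h4 idx
  · intro i s v
    have h3 : A (b (ie i s)) v = ∑ t : Fin (k i) ⊕ Fin (k i + 1),
        skew (Block.first (Block.kronecker (k i))) (Sum.inl s : Fin (k i) ⊕ Fin (k i + 1)) t *
          b.repr v ⟨Sum.inl i, t⟩ := hA (Sum.inl i) (Sum.inl s) v
    rw [h3, Fintype.sum_sum_type, Finset.sum_eq_zero (fun t _ => by simp [skew]), zero_add,
      Finset.sum_eq_single s.castSucc]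
    · simp only [skew, Block.first, Fin.val_castSucc, if_true, one_mul]
      rfl
    · intro t _ ht
      have : (t : ℕ) ≠ s := fun e => ht (Fin.ext e)
      simp [skew, Block.first, this]
    · intro e; exact absurd (Finset.mem_univ _) e
  · intro i s v
    have h3 : B (b (ie i s)) v = ∑ t : Fin (k i) ⊕ Fin (k i + 1),
        skew (Block.second (Block.kronecker (k i))) (Sum.inl s : Fin (k i) ⊕ Fin (k i + 1)) t *
          b.repr v ⟨Sum.inl i, t⟩ := hB (Sum.inl i) (Sum.inl s) v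
    rw [h3, Fintype.sum_sum_type, Finset.sum_eq_zero (fun t _ => by simp [skew]), zero_add,
      Finset.sum_eq_single s.succ]
    · simp only [skew, Block.second, Fin.val_succ, if_true, neg_one_mul]
      rfl
    · intro t _ ht
      have : (t : ℕ) ≠ s + 1 := fun e => ht (Fin.ext e)
      simp [skew, Block.second, this]
    · intro e; exact absurd (Finset.mem_univ _) e
  · intro i s v
    have h3 : A (b (if' i s.castSucc)) v = ∑ t : Fin (k i) ⊕ Fin (k i + 1),
        skew (Block.first (Block.kronecker (k i)))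
          (Sum.inr s.castSucc : Fin (k i) ⊕ Fin (k i + 1)) t *
          b.repr v ⟨Sum.inl i, t⟩ := hA (Sum.inl i) (Sum.inr s.castSucc) v
    rw [h3, Fintype.sum_sum_type, add_comm, Finset.sum_eq_zero (fun t _ => by simp [skew]),
      zero_add, Finset.sum_eq_single s]
    · simp only [skew, Block.first, Fin.val_castSucc, if_true, neg_one_mul]
      rfl
    · intro t _ ht
      have : (s : ℕ) ≠ t := fun e => ht (Fin.ext e.symm)
      simp [skew, Block.first, this]
    · intro e; exact absurd (Finset.mem_univ _) e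
  · intro i v
    have h3 : A (b (if' i (Fin.last _))) v = ∑ t : Fin (k i) ⊕ Fin (k i + 1),
        skew (Block.first (Block.kronecker (k i)))
          (Sum.inr (Fin.last _) : Fin (k i) ⊕ Fin (k i + 1)) t *
          b.repr v ⟨Sum.inl i, t⟩ := hA (Sum.inl i) (Sum.inr (Fin.last _)) v
    rw [h3, Fintype.sum_sum_type, add_comm, Finset.sum_eq_zero (fun t _ => by simp [skew]),
      zero_add]
    refine Finset.sum_eq_zero fun t _ => ?_
    have : (k i : ℕ) ≠ t := fun e => absurd t.2 (by omega)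
    simp [skew, Block.first, this]
  · intro i s v
    have h3 : B (b (if' i s.succ)) v = ∑ t : Fin (k i) ⊕ Fin (k i + 1),
        skew (Block.second (Block.kronecker (k i)))
          (Sum.inr s.succ : Fin (k i) ⊕ Fin (k i + 1)) t *
          b.repr v ⟨Sum.inl i, t⟩ := hB (Sum.inl i) (Sum.inr s.succ) v
    rw [h3, Fintype.sum_sum_type, add_comm, Finset.sum_eq_zero (fun t _ => by simp [skew]),
      zero_add, Finset.sum_eq_single s]
    · simp only [skew, Block.second, Fin.val_succ, if_true, neg_neg, one_mul]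
      rfl
    · intro t _ ht
      have : (s : ℕ) ≠ t := fun e => ht (Fin.ext e.symm)
      simp [skew, Block.second, this]
    · intro e; exact absurd (Finset.mem_univ _) e
  · intro i v
    have h3 : B (b (if' i 0)) v = ∑ t : Fin (k i) ⊕ Fin (k i + 1),
        skew (Block.second (Block.kronecker (k i)))
          (Sum.inr 0 : Fin (k i) ⊕ Fin (k i + 1)) t *
          b.repr v ⟨Sum.inl i, t⟩ := hB (Sum.inl i) (Sum.inr (0 : Fin (k i + 1))) v
    rw [h3, Fintype.sum_sum_type, add_comm, Finset.sum_eq_zero (fun t _ => by simp [skew]),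
      zero_add]
    refine Finset.sum_eq_zero fun t _ => ?_
    simp [skew, Block.second]
  · intro j v
    have h3 : A (b (ig j)) v = ∑ t : Fin 1 ⊕ Fin 1,
        skew (Block.first (Block.jordan 1 (μ j))) (Sum.inl 0 : Fin 1 ⊕ Fin 1) t *
          b.repr v ⟨Sum.inr j, t⟩ := hA (Sum.inr j) (Sum.inl (0 : Fin 1)) v
    rw [h3, Fintype.sum_sum_type]
    simp [skew, Block.first]
    exact Or.inl rfl
  · intro j v
    have h3 : B (b (ig j)) v = ∑ t : Fin 1 ⊕ Fin 1,
        skew (Block.second (Block.jordan 1 (μ j))) (Sum.inl 0 : Fin 1 ⊕ Fin 1) t *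
          b.repr v ⟨Sum.inr j, t⟩ := hB (Sum.inr j) (Sum.inl (0 : Fin 1)) v
    rw [h3, Fintype.sum_sum_type]
    simp [skew, Block.second]
    rfl
  · intro j v
    have h3 : A (b (ih j)) v = ∑ t : Fin 1 ⊕ Fin 1,
        skew (Block.first (Block.jordan 1 (μ j))) (Sum.inr 0 : Fin 1 ⊕ Fin 1) t *
          b.repr v ⟨Sum.inr j, t⟩ := hA (Sum.inr j) (Sum.inr (0 : Fin 1)) v
    rw [h3, Fintype.sum_sum_type]
    simp [skew, Block.first]
    exact Or.inl rfl
  · intro j v
    have h3 : B (b (ih j)) v = ∑ t : Fin 1 ⊕ Fin 1,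
        skew (Block.second (Block.jordan 1 (μ j))) (Sum.inr 0 : Fin 1 ⊕ Fin 1) t *
          b.repr v ⟨Sum.inr j, t⟩ := hB (Sum.inr j) (Sum.inr (0 : Fin 1)) v
    rw [h3, Fintype.sum_sum_type]
    simp [skew, Block.second]
    rfl
  · intro i j
    rw [Module.Basis.coord_apply, b.repr_self, Finsupp.single_apply]
    by_cases hij : i = j
    · subst hij; simp
    · rw [if_neg hij, if_neg]
      intro e
      exact hij (Sum.inr.inj (Sigma.mk.inj e).1).symm
  · intro i j
    rw [Module.Basis.coord_apply, b.repr_self, Finsupp.single_apply, if_neg]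
    intro e
    have e1 := Sum.inr.inj (Sigma.mk.inj e).1
    subst e1
    have e2 := eq_of_heq (Sigma.mk.inj e).2
    exact nomatch e2
  · intro i j
    rw [Module.Basis.coord_apply, b.repr_self, Finsupp.single_apply, if_neg]
    intro e
    have e1 := Sum.inr.inj (Sigma.mk.inj e).1
    subst e1
    have e2 := eq_of_heq (Sigma.mk.inj e).2
    exact nomatch e2
  · intro i j
    rw [Module.Basis.coord_apply, b.repr_self, Finsupp.single_apply]
    by_cases hij : i = j
    · subst hij; simp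
    · rw [if_neg hij, if_neg]
      intro e
      exact hij (Sum.inr.inj (Sigma.mk.inj e).1).symm

end

end Pool.Agent.Helper55K1.JK
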