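import Pool.Agent.Helper55K1.JKBd1

/-!
The kernels of the forms of a Lie–Poisson pencil in coordinates (Jordan blocks of size two).
-/

namespace Pool.Agent.Helper55K1.JK

variable {L : Type} [LieRing L] [LieAlgebra ℂ L]

/-- The form `y([u, v])`. -/
noncomputable def bl (y : Module.Dual ℂ L) : L →ₗ[ℂ] L →ₗ[ℂ] ℂ :=
  LinearMap.mk₂ ℂ (fun u v => y ⁅u, v⁆) (fun u u' v => by rw [add_lie, map_add])
    (fun r u v => by rw [smul_lie, map_smul]) (fun u v v' => by rw [lie_add, map_add])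
    (fun r u v => by rw [lie_smul, map_smul])

lemma bl_apply (y : Module.Dual ℂ L) (u v : L) : bl y u v = y ⁅u, v⁆ := rfl

/-- The kernel of the form `y([u, v])`. -/
def Kr (y : Module.Dual ℂ L) : Submodule ℂ L where
  carrier := {v | ∀ w : L, y ⁅w, v⁆ = 0}
  add_mem' := fun {u v} hu hv w => by rw [lie_add, map_add, hu w, hv w, add_zero]
  zero_mem' := fun w => by rw [lie_zero, map_zero]
  smul_mem' := fun r v hv w => by rw [lie_smul, map_smul, hv w, smul_zero]

lemma mem_Kr {y : Module.Dual ℂ L} {v : L} : v ∈ Kr y ↔ ∀ w : L, y ⁅w, v⁆ = 0 := Iff.rfl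

lemma mem_Kr' {y : Module.Dual ℂ L} {v : L} (h : v ∈ Kr y) (w : L) : y ⁅v, w⁆ = 0 := by
  rw [← lie_skew, map_neg, h w, neg_zero]

namespace Fm

variable {x a : Module.Dual ℂ L} {m n : ℕ} {k : Fin m → ℕ} (F : Fm (bl x) (bl a) k n)

lemma Ae' (i : Fin m) (s : Fin (k i)) (v : L) : x ⁅F.e i s, v⁆ = F.cf i s.castSucc v := F.Ae i s v
lemma Be' (i : Fin m) (s : Fin (k i)) (v : L) : a ⁅F.e i s, v⁆ = - F.cf i s.succ v := F.Be i s v
lemma Afc (i : Fin m) (s : Fin (k i)) (v : L) : x ⁅F.f i s.castSucc, v⁆ = - F.ce i s v :=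
  F.Af i s v
lemma Afl (i : Fin m) (v : L) : x ⁅F.f i (Fin.last _), v⁆ = 0 := F.Af' i v
lemma Bfs (i : Fin m) (s : Fin (k i)) (v : L) : a ⁅F.f i s.succ, v⁆ = F.ce i s v :=
  F.Bf i s v
lemma Bf0 (i : Fin m) (v : L) : a ⁅F.f i 0, v⁆ = 0 := F.Bf' i v
lemma Agj (j : Fin n) (v : L) : x ⁅F.g j, v⁆ = F.μ j * F.ch j v := F.Ag j v
lemma Bgj (j : Fin n) (v : L) : a ⁅F.g j, v⁆ = - F.ch j v := F.Bg j v
lemma Ahj (j : Fin n) (v : L) : x ⁅F.h j, v⁆ = - (F.μ j * F.cg j v) := F.Ah j v
lemma Bhj (j : Fin n) (v : L) : a ⁅F.h j, v⁆ = F.cg j v := F.Bh j v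

lemma mem_iff (l : ℂ) (v : L) : v ∈ Kr (x + l • a) ↔ (∀ i s, F.ce i s v = 0) ∧
    (∀ i (s : Fin (k i)), F.cf i s.castSucc v = l * F.cf i s.succ v) ∧
    ∀ j, F.μ j ≠ l → F.cg j v = 0 ∧ F.ch j v = 0 := by
  constructor
  · intro hv
    have h0 : ∀ w : L, x ⁅w, v⁆ + l * a ⁅w, v⁆ = 0 := fun w => hv w
    refine ⟨fun i => ?_, fun i s => ?_, fun j hj => ?_⟩
    · suffices ∀ t : ℕ, ∀ ht : t < k i, F.ce i ⟨t, ht⟩ v = 0 from fun s => this s s.2
      intro t
      induction t with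
      | zero =>
        intro ht
        have h1 := h0 (F.f i (⟨0, ht⟩ : Fin (k i)).castSucc)
        rw [F.Afc] at h1
        have h2 : (⟨0, ht⟩ : Fin (k i)).castSucc = 0 := rfl
        rw [h2, F.Bf0] at h1
        linear_combination -h1
      | succ t ih =>
        intro ht
        have h1 := h0 (F.f i (⟨t + 1, ht⟩ : Fin (k i)).castSucc)
        rw [F.Afc] at h1
        have h2 : (⟨t + 1, ht⟩ : Fin (k i)).castSucc = (⟨t, by omega⟩ : Fin (k i)).succ := rfl
        rw [h2, F.Bfs, ih] at h1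
        linear_combination -h1
    · have h1 := h0 (F.e i s)
      rw [F.Ae', F.Be'] at h1
      linear_combination h1
    · have hne : F.μ j - l ≠ 0 := sub_ne_zero.mpr hj
      constructor
      · have h1 := h0 (F.h j)
        rw [F.Ahj, F.Bhj] at h1
        have h2 : (F.μ j - l) * F.cg j v = 0 := by linear_combination -h1
        exact (mul_eq_zero.mp h2).resolve_left hne
      · have h1 := h0 (F.g j)
        rw [F.Agj, F.Bgj] at h1
        have h2 : (F.μ j - l) * F.ch j v = 0 := by linear_combination h1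
        exact (mul_eq_zero.mp h2).resolve_left hne
  · rintro ⟨h1, h2, h3⟩
    have h4 : (bl (x + l • a)).flip v = 0 := by
      refine F.ind _ (fun i s => ?_) (fun i s => ?_) (fun j => ?_) (fun j => ?_)
      · show x ⁅F.e i s, v⁆ + l * a ⁅F.e i s, v⁆ = 0
        rw [F.Ae', F.Be', h2]; ring
      · show x ⁅F.f i s, v⁆ + l * a ⁅F.f i s, v⁆ = 0
        have e1 : x ⁅F.f i s, v⁆ = 0 := by
          refine Fin.lastCases (motive := fun s => x ⁅F.f i s, v⁆ = 0) ?_ (fun s => ?_) s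
          · exact F.Afl i v
          · rw [F.Afc, h1, neg_zero]
        have e2 : a ⁅F.f i s, v⁆ = 0 := by
          refine Fin.cases (motive := fun s => a ⁅F.f i s, v⁆ = 0) ?_ (fun s => ?_) s
          · exact F.Bf0 i v
          · rw [F.Bfs, h1]
        rw [e1, e2]; ring
      · show x ⁅F.g j, v⁆ + l * a ⁅F.g j, v⁆ = 0
        rw [F.Agj, F.Bgj]
        by_cases hj : F.μ j = l
        · rw [hj]; ring
        · rw [(h3 j hj).2]; ring
      · show x ⁅F.h j, v⁆ + l * a ⁅F.h j, v⁆ = 0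
        rw [F.Ahj, F.Bhj]
        by_cases hj : F.μ j = l
        · rw [hj]; ring
        · rw [(h3 j hj).1]; ring
    exact fun w => LinearMap.congr_fun h4 w

lemma finrank_Kr (l : ℂ) : Module.finrank ℂ (Kr (x + l • a)) =
    m + 2 * (Finset.univ.filter fun j => F.μ j = l).card := by
  classical
  let T := {j : Fin n // F.μ j = l}
  let Ψ : Kr (x + l • a) →ₗ[ℂ] (Fin m → ℂ) × (T → ℂ) × (T → ℂ) :=
    (LinearMap.pi fun i => (F.cf i (Fin.last _)).comp (Kr (x + l • a)).subtype).prod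
      ((LinearMap.pi fun j : T => (F.cg j.1).comp (Kr (x + l • a)).subtype).prod
        (LinearMap.pi fun j : T => (F.ch j.1).comp (Kr (x + l • a)).subtype))
  have hinj : Function.Injective Ψ := by
    rw [injective_iff_map_eq_zero]
    rintro ⟨v, hv⟩ h0
    have h1 : ∀ i, F.cf i (Fin.last _) v = 0 := fun i =>
      congrFun (congrArg Prod.fst h0) i
    have h2 : ∀ j : T, F.cg j.1 v = 0 := fun j =>
      congrFun (congrArg (fun p => p.2.1) h0) j
    have h3 : ∀ j : T, F.ch j.1 v = 0 := fun j =>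
      congrFun (congrArg (fun p => p.2.2) h0) j
    obtain ⟨c1, c2, c3⟩ := (F.mem_iff l v).mp hv
    refine Subtype.ext (F.ext0 v c1 (fun i s => ?_) (fun j => ?_) (fun j => ?_))
    · refine Fin.reverseInduction (motive := fun s => F.cf i s v = 0) (h1 i) (fun s hs => ?_) s
      rw [c2, hs, mul_zero]
    · by_cases hj : F.μ j = l
      · exact h2 ⟨j, hj⟩
      · exact (c3 j hj).1
    · by_cases hj : F.μ j = l
      · exact h3 ⟨j, hj⟩
      · exact (c3 j hj).2
  have hsurj : Function.Surjective Ψ := by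
    rintro ⟨α, β, γ⟩
    obtain ⟨v, v1, v2, v3, v4⟩ := F.mkv (fun i s => l ^ (k i - s) * α i)
      (fun j => if hj : F.μ j = l then β ⟨j, hj⟩ else 0)
      (fun j => if hj : F.μ j = l then γ ⟨j, hj⟩ else 0)
    have hv : v ∈ Kr (x + l • a) := by
      rw [F.mem_iff]
      refine ⟨v1, fun i s => ?_, fun j hj => ?_⟩
      · rw [v2, v2, ← mul_assoc, ← pow_succ']
        have hs := s.2
        have : k i - (s.castSucc : ℕ) = k i - (s.succ : ℕ) + 1 := by
          simp only [Fin.val_castSucc, Fin.val_succ]; omega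
        rw [this]
      · rw [v3, v4, dif_neg hj, dif_neg hj]; exact ⟨rfl, rfl⟩
    refine ⟨⟨v, hv⟩, ?_⟩
    refine Prod.ext (funext fun i => ?_) (Prod.ext (funext fun j => ?_) (funext fun j => ?_))
    · show F.cf i (Fin.last _) v = α i
      rw [v2, Fin.val_last, Nat.sub_self, pow_zero, one_mul]
    · show F.cg j.1 v = β j
      rw [v3, dif_pos j.2]
    · show F.ch j.1 v = γ j
      rw [v4, dif_pos j.2]
  have h1 := (LinearEquiv.ofBijective Ψ ⟨hinj, hsurj⟩).finrank_eq
  rw [h1, Module.finrank_prod, Module.finrank_prod, Module.finrank_fintype_fun_eq_card,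
    Module.finrank_fintype_fun_eq_card, Fintype.card_fin, Fintype.card_subtype]
  ring

lemma g_mem (j : Fin n) : F.g j ∈ Kr (x + F.μ j • a) := by
  intro w
  rw [← lie_skew, map_neg, neg_eq_zero]
  show x ⁅F.g j, w⁆ + F.μ j * a ⁅F.g j, w⁆ = 0
  rw [F.Agj, F.Bgj]; ring

lemma h_mem (j : Fin n) : F.h j ∈ Kr (x + F.μ j • a) := by
  intro w
  rw [← lie_skew, map_neg, neg_eq_zero]
  show x ⁅F.h j, w⁆ + F.μ j * a ⁅F.h j, w⁆ = 0
  rw [F.Ahj, F.Bhj]; ring

/-- The span of the vectors `f`. -/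
def core : Submodule ℂ L := Submodule.span ℂ (Set.range fun p : Σ i, Fin (k i + 1) => F.f p.1 p.2)

lemma core_finrank : Module.finrank ℂ F.core ≤ ∑ i, (k i + 1) := by
  refine (finrank_range_le_card _).trans ?_
  simp

lemma mem_core (l : ℂ) {u : L} (hu : u ∈ Kr (x + l • a)) (h : ∀ w ∈ Kr (x + l • a), a ⁅w, u⁆ = 0) :
    u ∈ F.core := by
  obtain ⟨c1, -, c3⟩ := (F.mem_iff l u).mp hu
  refine F.sp u c1 (fun j => ?_) (fun j => ?_)
  · by_cases hj : F.μ j = l
    · have h1 := h (F.h j) (by rw [← hj]; exact F.h_mem j)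
      rwa [F.Bhj] at h1
    · exact (c3 j hj).1
  · by_cases hj : F.μ j = l
    · have h1 := h (F.g j) (by rw [← hj]; exact F.g_mem j)
      rw [F.Bgj] at h1
      linear_combination -h1
    · exact (c3 j hj).2

include F in
/-- Kernel polynomials of degree at most one. -/
lemma deg_one (hk1 : ∀ i, k i ≠ 1) (hk0 : ∀ i i', k i = 0 → k i' = 0 → i = i') {g0 g1 : L}
    (h0 : ∀ w : L, x ⁅w, g0⁆ = 0) (h01 : ∀ w : L, x ⁅w, g1⁆ + a ⁅w, g0⁆ = 0)
    (h1 : ∀ w : L, a ⁅w, g1⁆ = 0)
    (hne : g1 ≠ 0) : ∃ r : ℂ, g0 = r • g1 := by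
  have e0 : ∀ i s, F.ce i s g0 = 0 := fun i s => by
    have := h0 (F.f i s.castSucc)
    rw [F.Afc] at this
    linear_combination -this
  have e1 : ∀ i s, F.ce i s g1 = 0 := fun i s => by
    have := h1 (F.f i s.succ)
    rwa [F.Bfs] at this
  have p0 : ∀ i (s : Fin (k i)), F.cf i s.castSucc g0 = 0 := fun i s => by
    have := h0 (F.e i s)
    rwa [F.Ae'] at this
  have p1 : ∀ i (s : Fin (k i)), F.cf i s.succ g1 = 0 := fun i s => by
    have := h1 (F.e i s)
    rw [F.Be'] at this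
    linear_combination -this
  have p01 : ∀ i (s : Fin (k i)), F.cf i s.castSucc g1 = F.cf i s.succ g0 := fun i s => by
    have := h01 (F.e i s)
    rw [F.Ae', F.Be'] at this
    linear_combination this
  have q1 : ∀ j, F.ch j g1 = 0 := fun j => by
    have := h1 (F.g j)
    rw [F.Bgj] at this
    linear_combination -this
  have q0 : ∀ j, F.ch j g0 = 0 := fun j => by
    have := h01 (F.g j)
    rw [F.Agj, F.Bgj, q1] at this
    linear_combination -this
  have r1 : ∀ j, F.cg j g1 = 0 := fun j => by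
    have := h1 (F.h j)
    rwa [F.Bhj] at this
  have r0 : ∀ j, F.cg j g0 = 0 := fun j => by
    have := h01 (F.h j)
    rw [F.Ahj, F.Bhj, r1] at this
    linear_combination this
  have hbig : ∀ i, k i ≠ 0 → (∀ s, F.cf i s g0 = 0) ∧ ∀ s, F.cf i s g1 = 0 := by
    intro i hi
    have hi1 := hk1 i
    have hlt : 1 < k i := by omega
    refine ⟨fun s => ?_, fun s => ?_⟩
    · refine Fin.lastCases (motive := fun s => F.cf i s g0 = 0) ?_ (fun s => p0 i s) s
      have h2 := p01 i ⟨k i - 1, by omega⟩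
      have h3 : (⟨k i - 1, by omega⟩ : Fin (k i)).succ = Fin.last _ := Fin.ext (by simp; omega)
      have h4 : (⟨k i - 1, by omega⟩ : Fin (k i)).castSucc =
          (⟨k i - 2, by omega⟩ : Fin (k i)).succ := Fin.ext (by simp; omega)
      rw [h3, h4, p1] at h2
      exact h2.symm
    · refine Fin.cases (motive := fun s => F.cf i s g1 = 0) ?_ (fun s => p1 i s) s
      have h2 := p01 i ⟨0, by omega⟩
      have h3 : (⟨0, by omega⟩ : Fin (k i)).castSucc = 0 := rfl
      have h4 : (⟨0, by omega⟩ : Fin (k i)).succ = (⟨1, by omega⟩ : Fin (k i)).castSucc := rfl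
      rw [h3, h4, p0] at h2
      exact h2
  by_cases hex : ∃ i0, k i0 = 0
  · obtain ⟨i0, hi0⟩ := hex
    have hother : ∀ i, i ≠ i0 → k i ≠ 0 := fun i hi h => hi (hk0 i i0 h hi0)
    have hlast : ∀ s : Fin (k i0 + 1), s = 0 := fun s => Fin.ext (by
      have := s.2
      simp; omega)
    have hτ : F.cf i0 0 g1 ≠ 0 := by
      intro hτ
      refine hne (F.ext0 g1 e1 (fun i s => ?_) r1 q1)
      by_cases hi : i = i0
      · subst hi; rw [hlast s]; exact hτ
      · exact (hbig i (hother i hi)).2 s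
    refine ⟨F.cf i0 0 g0 / F.cf i0 0 g1, ?_⟩
    rw [← sub_eq_zero]
    refine F.ext0 _ (fun i s => ?_) (fun i s => ?_) (fun j => ?_) (fun j => ?_)
    · rw [map_sub, map_smul, e0, e1, smul_zero, sub_zero]
    · by_cases hi : i = i0
      · subst hi
        rw [hlast s, map_sub, map_smul, smul_eq_mul, div_mul_cancel₀ _ hτ, sub_self]
      · rw [map_sub, map_smul, (hbig i (hother i hi)).1, (hbig i (hother i hi)).2, smul_zero,
          sub_zero]
    · rw [map_sub, map_smul, r0, r1, smul_zero, sub_zero]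
    · rw [map_sub, map_smul, q0, q1, smul_zero, sub_zero]
  · push Not at hex
    exact absurd (F.ext0 g1 e1 (fun i s => (hbig i (hex i)).2 s) r1 q1) hne

end Fm

end Pool.Agent.Helper55K1.JK
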