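import Pool.Agent.Helper55K1.JKBd2

/-!
Functions with finitely many slopes at each point; forms with a kernel of constant dimension; the
consequences of the Jacobi identity.
-/

namespace Pool.Agent.Helper55K1.JK

open Filter Topology

/-- A function on an infinite set with finitely many slopes at each point is affine. -/
lemma affine_of_slopes {S : Set ℂ} (hS : S.Infinite) (m : ℂ → ℂ)
    (h : ∀ s1 ∈ S, {σ : ℂ | ∃ s2 ∈ S, s2 ≠ s1 ∧ m s2 - m s1 = σ * (s2 - s1)}.Finite) :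
    ∃ β : ℂ, ∀ s ∈ S, ∀ s' ∈ S, m s' - m s = β * (s' - s) := by
  obtain ⟨s1, hs1⟩ := hS.nonempty
  set F := {σ : ℂ | ∃ s2 ∈ S, s2 ≠ s1 ∧ m s2 - m s1 = σ * (s2 - s1)} with hF
  have hFin : Finite F := h s1 hs1
  have hInf : Infinite (S \ {s1} : Set ℂ) := (hS.sdiff (Set.finite_singleton s1)).to_subtype
  have hsl : ∀ s : (S \ {s1} : Set ℂ), (m s - m s1) / (s - s1) ∈ F := by
    rintro ⟨s, hs, hs'⟩
    have hne : s ≠ s1 := hs'
    exact ⟨s, hs, hne, (div_mul_cancel₀ _ (sub_ne_zero.mpr hne)).symm⟩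
  obtain ⟨⟨β, hβ⟩, hT⟩ := Finite.exists_infinite_fiber
    (fun s : (S \ {s1} : Set ℂ) => (⟨(m s - m s1) / (s - s1), hsl s⟩ : F))
  have hT2 : {s : ℂ | s ∈ S ∧ m s - m s1 = β * (s - s1)}.Infinite := by
    have h1 := Set.infinite_coe_iff.mp hT
    have h2 := h1.image (f := fun s : (S \ {s1} : Set ℂ) => (s : ℂ))
      (Subtype.val_injective.injOn)
    refine h2.mono ?_
    rintro _ ⟨⟨s, hs, hs'⟩, h3, rfl⟩
    have hne : s ≠ s1 := hs'
    have h4 : (m s - m s1) / (s - s1) = β := congrArg Subtype.val h3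
    exact ⟨hs, by rw [← h4, div_mul_cancel₀ _ (sub_ne_zero.mpr hne)]⟩
  have key : ∀ s2 ∈ S, m s2 - m s1 = β * (s2 - s1) := by
    intro s2 hs2
    have h5 : ({s : ℂ | s ∈ S ∧ m s - m s1 = β * (s - s1)} \ {s2}).Infinite :=
      hT2.sdiff (Set.finite_singleton s2)
    obtain ⟨s, hs, s', hs', hne, heq⟩ := h5.exists_ne_map_eq_of_mapsTo
      (f := fun s => (m s - m s2) / (s - s2))
      (t := {σ : ℂ | ∃ s3 ∈ S, s3 ≠ s2 ∧ m s3 - m s2 = σ * (s3 - s2)})
      (fun s hs => ⟨s, hs.1.1, hs.2, (div_mul_cancel₀ _ (sub_ne_zero.mpr hs.2)).symm⟩) (h s2 hs2)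
    have n1 : s - s2 ≠ 0 := sub_ne_zero.mpr hs.2
    have n2 : s' - s2 ≠ 0 := sub_ne_zero.mpr hs'.2
    have n3 : s - s' ≠ 0 := sub_ne_zero.mpr hne
    have e1 : m s - m s2 = (m s - m s2) / (s - s2) * (s - s2) := (div_mul_cancel₀ _ n1).symm
    have e2 : m s' - m s2 = (m s - m s2) / (s - s2) * (s' - s2) := by
      have : (m s - m s2) / (s - s2) = (m s' - m s2) / (s' - s2) := heq
      rw [this, div_mul_cancel₀ _ n2]
    set σ := (m s - m s2) / (s - s2) with hσ
    have e3 : (σ - β) * (s - s') = 0 := by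
      linear_combination e2 - e1 + hs.1.2 - hs'.1.2
    have e4 : σ = β := sub_eq_zero.mp ((mul_eq_zero.mp e3).resolve_right n3)
    rw [e4] at e1
    linear_combination hs.1.2 - e1
  refine ⟨β, fun s hs s' hs' => ?_⟩
  linear_combination key s' hs' - key s hs

variable {L : Type} [LieRing L] [LieAlgebra ℂ L]

lemma ker_bl (y : Module.Dual ℂ L) : LinearMap.ker (bl y) = Kr y := by
  ext v
  rw [LinearMap.mem_ker]
  constructor
  · intro h w
    have : y ⁅v, w⁆ = 0 := LinearMap.congr_fun h w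
    rw [← lie_skew, map_neg, this, neg_zero]
  · intro h
    ext w
    exact mem_Kr' h w

/-- The first variation of forms with a kernel of constant dimension vanishes on the kernel. -/
lemma var_zero [FiniteDimensional ℂ L] {y z : Module.Dual ℂ L}
    (h : ∀ᶠ s in 𝓝[≠] (0 : ℂ), Module.finrank ℂ (Kr y) ≤ Module.finrank ℂ (Kr (y + s • z)))
    {η ζ : L} (hη : η ∈ Kr y) (hζ : ζ ∈ Kr y) : z ⁅η, ζ⁆ = 0 := by
  classical
  obtain ⟨N, hN⟩ := Submodule.exists_isCompl (Kr y)
  have hdim := Submodule.finrank_add_eq_of_isCompl hN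
  let b := Module.finBasis ℂ N
  let r := Module.finrank ℂ N
  let row : Fin r ⊕ Unit → L := Sum.elim (fun i => (b i : L)) fun _ => η
  let H : ℂ → Matrix (Fin r ⊕ Unit) (Fin r ⊕ Unit) ℂ := fun s =>
    Matrix.fromBlocks (Matrix.of fun i j => y ⁅(b i : L), (b j : L)⁆ + s * z ⁅(b i : L), (b j : L)⁆)
      (Matrix.of fun i _ => z ⁅(b i : L), ζ⁆) (Matrix.of fun _ j => s * z ⁅η, (b j : L)⁆)
      (Matrix.of fun _ _ => z ⁅η, ζ⁆)
  have hcont : Continuous fun s => (H s).det := by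
    refine Continuous.matrix_det ?_
    refine continuous_matrix fun i j => ?_
    rcases i with i | i <;> rcases j with j | j
    · exact continuous_const.add (continuous_id.mul continuous_const)
    · exact continuous_const
    · exact continuous_id.mul continuous_const
    · exact continuous_const
  have hzero : ∀ᶠ s in 𝓝[≠] (0 : ℂ), (H s).det = 0 := by
    filter_upwards [h, self_mem_nhdsWithin] with s hs hs0
    have hs0' : s ≠ 0 := hs0
    have hrk : Module.finrank ℂ (LinearMap.range (bl (y + s • z))) ≤ r := by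
      have h1 := LinearMap.finrank_range_add_finrank_ker (bl (y + s • z))
      rw [ker_bl] at h1
      omega
    -- a relation
    have hdep : ¬ LinearIndependent ℂ fun i => (⟨bl (y + s • z) (row i), row i, rfl⟩ :
        LinearMap.range (bl (y + s • z))) := by
      intro hli
      have h2 := hli.fintype_card_le_finrank
      rw [Fintype.card_sum, Fintype.card_fin, Fintype.card_unit] at h2
      omega
    rw [Fintype.not_linearIndependent_iff] at hdep
    obtain ⟨g, hg, i0, hi0⟩ := hdep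
    rw [← Matrix.exists_vecMul_eq_zero_iff]
    refine ⟨g, fun h3 => hi0 (congrFun h3 i0), ?_⟩
    have hg2 : ∀ v : L, ∑ i, g i * (y + s • z) ⁅row i, v⁆ = 0 := by
      intro v
      have h4 := congrArg Subtype.val hg
      have h5 := LinearMap.congr_fun h4 v
      simpa [bl_apply] using h5
    funext j
    rw [Pi.zero_apply, Matrix.vecMul, dotProduct]
    rcases j with j | j
    · have h6 := hg2 (b j)
      rw [Fintype.sum_sum_type] at h6 ⊢
      have h7 : y ⁅η, (b j : L)⁆ = 0 := mem_Kr' hη _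
      simpa [row, H, h7] using h6
    · have h6 := hg2 ζ
      rw [Fintype.sum_sum_type] at h6 ⊢
      have h7 : y ⁅η, ζ⁆ = 0 := hζ _
      have h8 : ∀ i, y ⁅(b i : L), ζ⁆ = 0 := fun i => hζ _
      have h9 : s * (∑ i, g (Sum.inl i) * z ⁅(b i : L), ζ⁆ + g (Sum.inr ()) * z ⁅η, ζ⁆) = 0 := by
        rw [mul_add, Finset.mul_sum]
        simp only [row, Sum.elim_inl, Sum.elim_inr, LinearMap.add_apply, LinearMap.smul_apply,
          h8, h7, zero_add, smul_eq_mul, Finset.univ_unique, Finset.sum_singleton] at h6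
        rw [← h6]
        congr 1
        · exact Finset.sum_congr rfl fun i _ => by ring
        · ring
      have h10 := (mul_eq_zero.mp h9).resolve_left hs0'
      simpa [H] using h10
  have hdet0 : (H 0).det = 0 := by
    have h1 : Tendsto (fun s => (H s).det) (𝓝[≠] 0) (𝓝 (H 0).det) :=
      hcont.continuousAt.mono_left nhdsWithin_le_nhds
    have h2 : Tendsto (fun s => (H s).det) (𝓝[≠] 0) (𝓝 0) :=
      tendsto_const_nhds.congr' (hzero.mono fun t ht => ht.symm)
    exact tendsto_nhds_unique h1 h2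
  have hH0 : H 0 = Matrix.fromBlocks (Matrix.of fun i j => y ⁅(b i : L), (b j : L)⁆)
      (Matrix.of fun i _ => z ⁅(b i : L), ζ⁆) 0 (Matrix.of fun _ _ => z ⁅η, ζ⁆) := by
    ext i j
    rcases i with i | i <;> rcases j with j | j <;> simp [H]
  rw [hH0, Matrix.det_fromBlocks_zero₂₁, mul_eq_zero] at hdet0
  rcases hdet0 with h1 | h1
  · exfalso
    rw [← Matrix.exists_vecMul_eq_zero_iff] at h1
    obtain ⟨v, hv0, hv⟩ := h1
    let u : N := ∑ i, v i • b i
    have hu0 : (u : L) ∈ Kr y := by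
      intro w
      have hw : w ∈ Kr y ⊔ N := by rw [hN.sup_eq_top]; exact Submodule.mem_top
      obtain ⟨p, hp, q, hq, rfl⟩ := Submodule.mem_sup.mp hw
      rw [add_lie, map_add, mem_Kr' hp, zero_add]
      have h2 : ∀ j, y ⁅(u : L), (b j : L)⁆ = 0 := by
        intro j
        have h3 := congrFun hv j
        rw [Pi.zero_apply, Matrix.vecMul, dotProduct] at h3
        have h4 : (u : L) = ∑ i, v i • (b i : L) := by simp [u]
        rw [h4, sum_lie, map_sum]
        rw [← h3]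
        refine Finset.sum_congr rfl fun i _ => ?_
        rw [smul_lie, map_smul]
        rfl
      have h5 : q = ∑ j, (b.repr ⟨q, hq⟩ j) • (b j : L) := by
        have := congrArg N.subtype (b.sum_repr ⟨q, hq⟩)
        rw [map_sum] at this
        exact this.symm
      rw [h5, sum_lie, map_sum]
      refine Finset.sum_eq_zero fun j _ => ?_
      rw [smul_lie, map_smul, ← lie_skew, map_neg, h2, neg_zero, smul_zero]
    have hu1 : (u : L) = 0 := (Submodule.disjoint_def.mp hN.disjoint) _ hu0 u.2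
    have hu2 : u = 0 := Subtype.ext hu1
    have h6 := Fintype.linearIndependent_iff.mp b.linearIndependent v hu2
    exact hv0 (funext h6)
  · simpa using h1

/-- The consequences of the Jacobi identity. -/
lemma jac {y a : Module.Dual ℂ L} {u : L}
    (h : ∀ η ∈ Kr y, ∀ ζ ∈ Kr y, ⁅η, ζ⁆ = a ⁅η, ζ⁆ • u) {e1 f1 e2 f2 : L}
    (he1 : e1 ∈ Kr y) (hf1 : f1 ∈ Kr y) (he2 : e2 ∈ Kr y) (hf2 : f2 ∈ Kr y)
    (h1 : a ⁅e1, f1⁆ = -1) (h2 : a ⁅e2, f2⁆ = -1) (h3 : a ⁅e1, e2⁆ = 0) (h4 : a ⁅e1, f2⁆ = 0)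
    (h5 : a ⁅f1, e2⁆ = 0) (h6 : a ⁅f1, f2⁆ = 0) : u ∈ Kr y ∧ ∀ w ∈ Kr y, a ⁅w, u⁆ = 0 := by
  have hu : u = - ⁅e1, f1⁆ := by
    rw [h e1 he1 f1 hf1, h1]; simp
  have jid : ∀ ξ ∈ Kr y, ∀ η ∈ Kr y, ∀ ζ ∈ Kr y,
      a ⁅η, ζ⁆ * a ⁅ξ, u⁆ + a ⁅ζ, ξ⁆ * a ⁅η, u⁆ + a ⁅ξ, η⁆ * a ⁅ζ, u⁆ = 0 := by
    intro ξ hξ η hη ζ hζ
    have j := congrArg a (lie_jacobi ξ η ζ)
    rw [h η hη ζ hζ, h ζ hζ ξ hξ, h ξ hξ η hη] at j
    simpa [lie_smul, map_add, map_smul] using j
  have s3 : a ⁅e2, e1⁆ = 0 := by rw [← lie_skew, map_neg, h3, neg_zero]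
  have s4 : a ⁅f2, e1⁆ = 0 := by rw [← lie_skew, map_neg, h4, neg_zero]
  have c1 : a ⁅e2, u⁆ = 0 := by
    have := jid e2 he2 e1 he1 f1 hf1
    rw [h1, h5, s3] at this
    linear_combination -this
  have c2 : a ⁅f2, u⁆ = 0 := by
    have := jid f2 hf2 e1 he1 f1 hf1
    rw [h1, h6, s4] at this
    linear_combination -this
  refine ⟨fun w => ?_, fun w hw => ?_⟩
  · rw [hu, lie_neg, map_neg, leibniz_lie, map_add, hf1 _, mem_Kr' he1, add_zero, neg_zero]
  · have := jid w hw e2 he2 f2 hf2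
    rw [h2, c1, c2] at this
    linear_combination -this

end Pool.Agent.Helper55K1.JK
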