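import Pool.Agent.Helper55K1.JKBd3

/-!
An eigenvalue of a Lie–Poisson pencil which is determined by the dimension of the kernel and whose
kernel carries a form of rank at least four is a linear semi-invariant in the core.
-/

namespace Pool.Agent.Helper55K1.JK

open Filter Topology

variable {L : Type} [LieRing L] [LieAlgebra ℂ L]

/-- Two orthogonal hyperbolic pairs in the kernel. -/
def Hyp (y a : Module.Dual ℂ L) : Prop :=
  ∃ e1 f1 e2 f2 : L, e1 ∈ Kr y ∧ f1 ∈ Kr y ∧ e2 ∈ Kr y ∧ f2 ∈ Kr y ∧ a ⁅e1, f1⁆ = -1 ∧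
    a ⁅e2, f2⁆ = -1 ∧ a ⁅e1, e2⁆ = 0 ∧ a ⁅e1, f2⁆ = 0 ∧ a ⁅f1, e2⁆ = 0 ∧ a ⁅f1, f2⁆ = 0

lemma Kr_smul {t : ℂ} (ht : t ≠ 0) (y : Module.Dual ℂ L) : Kr (t • y) = Kr y := by
  ext v
  constructor
  · intro h w
    have h1 : t * y ⁅w, v⁆ = 0 := h w
    exact (mul_eq_zero.mp h1).resolve_left ht
  · intro h w
    show t * y ⁅w, v⁆ = 0
    rw [h w, mul_zero]

section

set_option linter.unusedSectionVars false

variable (G : Module.Dual ℂ L → Module.Dual ℂ L → Prop)
  (hG : ∀ x a w z, G x a → {s : ℂ | ¬ G (x + s • w) (a + s • z)}.Finite) (N : ℕ)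
  (μ : Module.Dual ℂ L → Module.Dual ℂ L → ℂ)
  (hμ : ∀ x a, G x a → Module.finrank ℂ (Kr (x + μ x a • a)) = N)
  (hμu : ∀ x a, G x a → ∀ l, Module.finrank ℂ (Kr (x + l • a)) = N → l = μ x a)

include hG hμ hμu

lemma bad_fin {a x : Module.Dual ℂ L} (hx : G x a) (w : Module.Dual ℂ L) :
    {s : ℂ | ¬ G (x + s • w) a}.Finite := by
  have := hG x a w 0 hx
  simpa using this

lemma good_inf {a x : Module.Dual ℂ L} (hx : G x a) (w : Module.Dual ℂ L) :
    {s : ℂ | G (x + s • w) a}.Infinite := by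
  have h1 := bad_fin G hG N μ hμ hμu hx w
  have h2 := h1.infinite_compl
  refine h2.mono fun s hs => ?_
  by_contra h3
  exact hs h3

lemma line_affine {a x : Module.Dual ℂ L} (hx : G x a) (w : Module.Dual ℂ L) :
    ∃ β : ℂ, ∀ s : ℂ, G (x + s • w) a → μ (x + s • w) a = μ x a + β * s := by
  obtain ⟨β, hβ⟩ := affine_of_slopes (good_inf G hG N μ hμ hμu hx w)
    (fun s => μ (x + s • w) a) (by
      intro s1 hs1
      have hs1' : G (x + s1 • w) a := hs1
      set t1 := μ (x + s1 • w) a with ht1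
      have hfin := hG (x + s1 • w) a ((-t1) • w) w hs1'
      refine ((hfin.image fun e => e⁻¹).union (Set.finite_singleton 0)).subset ?_
      rintro σ ⟨s2, hs2, hne, hσ⟩
      have hs2' : G (x + s2 • w) a := hs2
      by_cases hσ0 : σ = 0
      · right; exact hσ0
      left
      refine ⟨σ⁻¹, ?_, inv_inv σ⟩
      intro hgen
      set t2 := μ (x + s2 • w) a with ht2
      have hσ' : t2 - t1 = σ * (s2 - s1) := hσ
      have e0 : s2 - s1 = σ⁻¹ * (t2 - t1) := by rw [hσ']; field_simp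
      have f1 : x + s1 • w + σ⁻¹ • (-t1) • w + t1 • (a + σ⁻¹ • w) = x + s1 • w + t1 • a := by
        module
      have f2 : x + s1 • w + σ⁻¹ • (-t1) • w + t2 • (a + σ⁻¹ • w) = x + s2 • w + t2 • a := by
        have : s2 = s1 + σ⁻¹ * (t2 - t1) := by linear_combination e0
        rw [this]
        module
      have u1 := hμu _ _ hgen t1 (by rw [f1]; exact hμ _ _ hs1')
      have u2 := hμu _ _ hgen t2 (by rw [f2]; exact hμ _ _ hs2')
      have u3 : t2 - t1 = 0 := by rw [u1]; linear_combination u2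
      rw [u3] at hσ'
      rcases mul_eq_zero.mp hσ'.symm with h | h
      · exact hσ0 h
      · exact hne (sub_eq_zero.mp h))
  refine ⟨β, fun s hs => ?_⟩
  have h0 : (0 : ℂ) ∈ {s : ℂ | G (x + s • w) a} := by
    show G (x + (0 : ℂ) • w) a
    rw [zero_smul, add_zero]; exact hx
  have h1 := hβ 0 h0 s hs
  simp only [zero_smul, add_zero, sub_zero] at h1
  linear_combination h1

lemma local_u [FiniteDimensional ℂ L] {a x : Module.Dual ℂ L} (hx : G x a)
    (hH : Hyp (x + μ x a • a) a) :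
    ∃ u : L, a u = 1 ∧
      (∀ η ∈ Kr (x + μ x a • a), ∀ ζ ∈ Kr (x + μ x a • a), ⁅η, ζ⁆ = a ⁅η, ζ⁆ • u) ∧
      ∀ x', G x' a → μ x' a = μ x a - (x' - x) u := by
  obtain ⟨e1, f1, e2, f2, he1, hf1, -, -, h1, -⟩ := hH
  have key : ∀ w : Module.Dual ℂ L, ∃ β : ℂ,
      (∀ s : ℂ, G (x + s • w) a → μ (x + s • w) a = μ x a + β * s) ∧
      ∀ η ∈ Kr (x + μ x a • a), ∀ ζ ∈ Kr (x + μ x a • a), w ⁅η, ζ⁆ + β * a ⁅η, ζ⁆ = 0 := by
    intro w
    obtain ⟨β, hβ⟩ := line_affine G hG N μ hμ hμu hx w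
    refine ⟨β, hβ, fun η hη ζ hζ => ?_⟩
    have hev : ∀ᶠ s in 𝓝[≠] (0 : ℂ), Module.finrank ℂ (Kr (x + μ x a • a)) ≤
        Module.finrank ℂ (Kr (x + μ x a • a + s • (w + β • a))) := by
      have h2 := bad_fin G hG N μ hμ hμu hx w
      have h3 : ∀ᶠ s in 𝓝 (0 : ℂ), G (x + s • w) a := by
        have h4 : {s : ℂ | ¬ G (x + s • w) a}ᶜ ∈ 𝓝 (0 : ℂ) := by
          refine h2.isClosed.isOpen_compl.mem_nhds ?_
          intro h5
          apply h5
          rw [zero_smul, add_zero]; exact hx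
        filter_upwards [h4] with s hs
        by_contra h5
        exact hs h5
      filter_upwards [h3.filter_mono nhdsWithin_le_nhds] with s hs
      have h4 : x + μ x a • a + s • (w + β • a) = x + s • w + μ (x + s • w) a • a := by
        rw [hβ s hs]; module
      rw [h4, hμ _ _ hs, hμ _ _ hx]
    exact var_zero hev hη hζ
  let u : L := - ⁅e1, f1⁆
  have hau : a u = 1 := by
    show a (- ⁅e1, f1⁆) = 1
    rw [map_neg, h1, neg_neg]
  have hβu : ∀ (w : Module.Dual ℂ L) (β : ℂ), (∀ η ∈ Kr (x + μ x a • a),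
      ∀ ζ ∈ Kr (x + μ x a • a), w ⁅η, ζ⁆ + β * a ⁅η, ζ⁆ = 0) → β = - w u := by
    intro w β h2
    have h3 := h2 e1 he1 f1 hf1
    rw [h1] at h3
    show β = - w (- ⁅e1, f1⁆)
    rw [map_neg]
    linear_combination -h3
  refine ⟨u, hau, fun η hη ζ hζ => ?_, fun x' hx' => ?_⟩
  · rw [← sub_eq_zero, ← Module.forall_dual_apply_eq_zero_iff ℂ]
    intro w
    obtain ⟨β, -, h2⟩ := key w
    have h3 := hβu w β h2
    have h4 := h2 η hη ζ hζ
    rw [h3] at h4
    rw [map_sub, map_smul, smul_eq_mul]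
    linear_combination h4
  · obtain ⟨β, h2, h3⟩ := key (x' - x)
    have h4 := hβu _ β h3
    have h5 : x + (1 : ℂ) • (x' - x) = x' := by module
    have h6 := h2 1 (by rw [h5]; exact hx')
    rw [h5, h4] at h6
    linear_combination h6

theorem one_label [FiniteDimensional ℂ L] {a x0 : Module.Dual ℂ L} (hx0 : G x0 a)
    (hH : ∀ x, G x a → Hyp (x + μ x a • a) a) :
    ∃ u : L, a u = 1 ∧ ∀ x, G x a → μ x a = - x u ∧ u ∈ Kr (x + μ x a • a) ∧
      ∀ w ∈ Kr (x + μ x a • a), a ⁅w, u⁆ = 0 := by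
  have hloc := fun x hx => local_u G hG N μ hμ hμu (x := x) (a := a) hx (hH x hx)
  have hne : ∀ x, G x a → ∀ w, ∃ s : ℂ, s ≠ 0 ∧ G (x + s • w) a := by
    intro x hx w
    obtain ⟨s, hs, hs0⟩ := ((good_inf G hG N μ hμ hμu hx w).sdiff (Set.finite_singleton 0)).nonempty
    exact ⟨s, hs0, hs⟩
  obtain ⟨u, hu, -, hmu⟩ := hloc x0 hx0
  refine ⟨u, hu, fun x hx => ?_⟩
  obtain ⟨u', hu', hbr, hmu'⟩ := hloc x hx
  have huu : u' = u := by
    rw [← sub_eq_zero, ← Module.forall_dual_apply_eq_zero_iff ℂ]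
    intro w
    obtain ⟨s, hs0, hs⟩ := hne x hx w
    have e1 := hmu _ hs
    have e2 := hmu' _ hs
    have e3 := hmu _ hx
    simp only [LinearMap.sub_apply, LinearMap.add_apply, LinearMap.smul_apply, smul_eq_mul]
      at e1 e2 e3
    rw [map_sub]
    have e4 : s * (w u' - w u) = 0 := by linear_combination e2 - e1 + e3
    exact (mul_eq_zero.mp e4).resolve_left hs0
  subst huu
  have hscale : μ x a = - x u' := by
    have hfin : ({s : ℂ | G (x + s • x) a} \ ({0, -1} : Set ℂ)).Infinite :=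
      (good_inf G hG N μ hμ hμu hx x).sdiff (Set.toFinite _)
    obtain ⟨s, hs, hs0⟩ := hfin.nonempty
    have hs0' : s ≠ 0 := fun h => hs0 (by simp [h])
    have hs1 : 1 + s ≠ 0 := fun h => hs0 (by
      have : s = -1 := by linear_combination h
      simp [this])
    have e1 := hμu _ _ hs ((1 + s) * μ x a) (by
      have : x + s • x + ((1 + s) * μ x a) • a = (1 + s) • (x + μ x a • a) := by module
      rw [this, Kr_smul hs1]
      exact hμ x a hx)
    have e2 := hmu' _ hs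
    simp only [LinearMap.sub_apply, LinearMap.add_apply, LinearMap.smul_apply, smul_eq_mul] at e2
    rw [← e1] at e2
    have e3 : s * (μ x a + x u') = 0 := by linear_combination e2
    have e4 := (mul_eq_zero.mp e3).resolve_left hs0'
    linear_combination e4
  obtain ⟨e1, f1, e2, f2, he1, hf1, he2, hf2, h1, h2, h3, h4, h5, h6⟩ := hH x hx
  exact ⟨hscale, jac hbr he1 hf1 he2 hf2 h1 h2 h3 h4 h5 h6⟩

end

end Pool.Agent.Helper55K1.JK
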