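import Pool.Agent.Helper55K1.JKBd4

/-!
The obstruction for types with larger Kronecker blocks, all Jordan blocks being of size two.
-/

namespace Pool.Agent.Helper55K1.JK

open Polynomial

/-- Common eigenvectors with different characters are linearly independent. -/
lemma li_char {L : Type} [LieRing L] [LieAlgebra ℂ L] {ι : Type} (u : ι → L) (hu : ∀ i, u i ≠ 0)
    (χ : ι → L → ℂ) (h : ∀ i ξ, ⁅ξ, u i⁆ = χ i ξ • u i)
    (hd : ∀ i j, i ≠ j → ∃ ξ, χ i ξ ≠ χ j ξ) : LinearIndependent ℂ u := by
  classical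
  rw [linearIndependent_iff']
  intro s
  induction s using Finset.induction_on with
  | empty => intro g _ i hi; exact absurd hi (Finset.notMem_empty i)
  | insert i0 s hi0 ih =>
    intro g hg
    rw [Finset.sum_insert hi0] at hg
    have h1 : ∀ i ∈ s, g i = 0 := by
      intro i hi
      have hne : i ≠ i0 := fun e => hi0 (e ▸ hi)
      obtain ⟨ξ, hξ⟩ := hd i i0 hne
      have h2 : ∑ i ∈ s, (g i * (χ i ξ - χ i0 ξ)) • u i = 0 := by
        have h3 : ⁅ξ, g i0 • u i0 + ∑ i ∈ s, g i • u i⁆ = 0 := by rw [hg, lie_zero]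
        rw [lie_add, lie_smul, lie_sum, h] at h3
        have h4 : ∑ i ∈ s, ⁅ξ, g i • u i⁆ = ∑ i ∈ s, (g i * χ i ξ) • u i :=
          Finset.sum_congr rfl fun i _ => by rw [lie_smul, h, smul_smul]
        rw [h4] at h3
        have h5 : χ i0 ξ • (g i0 • u i0 + ∑ i ∈ s, g i • u i) = 0 := by rw [hg, smul_zero]
        rw [smul_add, Finset.smul_sum] at h5
        have h6 : ∑ i ∈ s, (g i * (χ i ξ - χ i0 ξ)) • u i =
            ∑ i ∈ s, (g i * χ i ξ) • u i - ∑ i ∈ s, χ i0 ξ • g i • u i := by
          rw [← Finset.sum_sub_distrib]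
          exact Finset.sum_congr rfl fun i _ => by module
        rw [h6]
        have h7 : g i0 • χ i0 ξ • u i0 = χ i0 ξ • g i0 • u i0 := by module
        rw [h7] at h3
        have h8 := sub_eq_zero.mpr (h3.trans h5.symm)
        rw [add_sub_add_left_eq_sub] at h8
        exact h8
      have h9 := ih _ h2 i hi
      exact (mul_eq_zero.mp h9).resolve_right (sub_ne_zero.mpr hξ)
    intro i hi
    rcases Finset.mem_insert.mp hi with rfl | hi
    · rw [Finset.sum_eq_zero (fun j hj => by rw [h1 j hj, zero_smul]), add_zero] at hg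
      exact (smul_eq_zero.mp hg).resolve_right (hu i)
    · exact h1 i hi

/-- A polynomial condition which holds at a point of a line fails only finitely often on it. -/
lemma line_fin {J : Type} (p : MvPolynomial J ℂ) (v w : J → ℂ) (h : MvPolynomial.eval v p ≠ 0) :
    {s : ℂ | ¬ MvPolynomial.eval (v + s • w) p ≠ 0}.Finite := by
  let P : ℂ[X] := MvPolynomial.aeval (fun j => C (v j) + X * C (w j)) p
  have hP : ∀ s : ℂ, P.eval s = MvPolynomial.eval (v + s • w) p := by
    intro s
    have h1 : ((Polynomial.aeval s).comp (MvPolynomial.aeval fun j => C (v j) + X * C (w j))) =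
        MvPolynomial.aeval (v + s • w) := by
      refine MvPolynomial.algHom_ext fun j => ?_
      simp
      exact mul_comm _ _
    have h2 := DFunLike.congr_fun h1 p
    simp only [AlgHom.comp_apply] at h2
    rw [← MvPolynomial.coe_aeval_eq_eval]
    rw [← Polynomial.coe_aeval_eq_eval]
    exact h2
  have hP0 : P ≠ 0 := by
    intro h0
    apply h
    have := hP 0
    rw [h0, eval_zero, zero_smul, add_zero] at this
    exact this.symm
  refine (Polynomial.finite_setOfPred_isRoot hP0).subset fun s hs => ?_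
  have hs' : MvPolynomial.eval (v + s • w) p = 0 := not_not.mp hs
  show P.eval s = 0
  rw [hP, hs']

/-- If there are no Kronecker blocks of size three and at most one of size one, and all the Jordan
blocks are of size two, then the number of the eigenvalues with at least two blocks whose numbers
of blocks are unique is at most the sum of the numbers `k i + 1`. -/
theorem few_needed {m n : ℕ} (k : Fin m → ℕ) (c : Fin n → ℕ) (hk1 : ∀ i, k i ≠ 1)
    (hk0 : ∀ i i', k i = 0 → k i' = 0 → i = i') (S : Finset ℕ)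
    (hS : ∀ e ∈ S, 2 ≤ (Finset.univ.filter fun j => c j = e).card ∧
      ∀ e', (Finset.univ.filter fun j => c j = e').card =
        (Finset.univ.filter fun j => c j = e).card → e' = e)
    (h : Realised k (fun _ => 1) c) : S.card ≤ ∑ i, (k i + 1) := by
  classical
  obtain ⟨L, _, _, J, _, b, p, hp, hgen⟩ := h
  have : FiniteDimensional ℂ L := Module.Finite.of_basis b
  let G : Module.Dual ℂ L → Module.Dual ℂ L → Prop := fun x a =>
    MvPolynomial.eval (Sum.elim (fun j => x (b j)) fun j => a (b j)) p ≠ 0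
  have hG : ∀ x a w z, G x a → {s : ℂ | ¬ G (x + s • w) (a + s • z)}.Finite := by
    intro x a w z hx
    refine (line_fin p _ (Sum.elim (fun j => w (b j)) fun j => z (b j)) hx).subset fun s hs => ?_
    have e : (Sum.elim (fun j => x (b j)) fun j => a (b j)) +
        s • (Sum.elim (fun j => w (b j)) fun j => z (b j)) =
        Sum.elim (fun j => (x + s • w) (b j)) fun j => (a + s • z) (b j) := by
      funext i
      rcases i with i | i <;> simp
    show ¬ MvPolynomial.eval _ p ≠ 0
    rw [e]
    exact hs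
  have hF : ∀ x a, G x a → ∃ F : Fm (bl x) (bl a) k n, ∀ i j, F.μ i = F.μ j ↔ c i = c j :=
    fun x a hx => exists_fm (A := bl x) (B := bl a) (hgen x a hx)
  choose F hFc using hF
  obtain ⟨v0, hv0⟩ : ∃ v, MvPolynomial.eval v p ≠ 0 := by
    by_contra hcon
    push Not at hcon
    exact hp (MvPolynomial.funext fun x => by rw [hcon x, map_zero])
  let x0 : Module.Dual ℂ L := b.constr ℂ fun j => v0 (Sum.inl j)
  let a : Module.Dual ℂ L := b.constr ℂ fun j => v0 (Sum.inr j)
  have hx0 : G x0 a := by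
    have e : (Sum.elim (fun j => x0 (b j)) fun j => a (b j)) = v0 := by
      funext i
      rcases i with i | i
      · simp [x0]
      · simp [a]
    show MvPolynomial.eval _ p ≠ 0
    rw [e]
    exact hv0
  let q : ℕ → ℕ := fun e => (Finset.univ.filter fun j => c j = e).card
  have hcount : ∀ x a (hx : G x a) (j : Fin n),
      (Finset.univ.filter fun i => (F x a hx).μ i = (F x a hx).μ j).card = q (c j) := by
    intro x a hx j
    show _ = (Finset.univ.filter fun i => c i = c j).card
    congr 1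
    ext i
    simp only [Finset.mem_filter, Finset.mem_univ, true_and]
    exact hFc x a hx i j
  -- the statement for one label
  have hone : ∀ e ∈ S, ∃ u : L, a u = 1 ∧ (∀ ξ : L, ⁅ξ, u⁆ = a ⁅ξ, u⁆ • u) ∧
      u ∈ (F x0 a hx0).core ∧ ∀ j, c j = e → (F x0 a hx0).μ j = - x0 u := by
    intro e he
    obtain ⟨hq2, hqu⟩ := hS e he
    obtain ⟨j1, hj1, j2, hj2, hj12⟩ := Finset.one_lt_card.mp (show 1 < _ from hq2)
    have hc1 : c j1 = e := (Finset.mem_filter.mp hj1).2
    have hc2 : c j2 = e := (Finset.mem_filter.mp hj2).2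
    let μ : Module.Dual ℂ L → Module.Dual ℂ L → ℂ := fun x a =>
      if hx : G x a then (F x a hx).μ j1 else 0
    have hμd : ∀ x a (hx : G x a), μ x a = (F x a hx).μ j1 := fun x a hx => dif_pos hx
    have hμ : ∀ x a, G x a → Module.finrank ℂ (Kr (x + μ x a • a)) = m + 2 * q e := by
      intro x a hx
      rw [hμd x a hx, (F x a hx).finrank_Kr, hcount, hc1]
    have hμu : ∀ x a, G x a → ∀ l, Module.finrank ℂ (Kr (x + l • a)) = m + 2 * q e →
        l = μ x a := by
      intro x a hx l hl
      rw [(F x a hx).finrank_Kr] at hl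
      have h1 : (Finset.univ.filter fun i => (F x a hx).μ i = l).card = q e := by omega
      have h2 : 0 < (Finset.univ.filter fun i => (F x a hx).μ i = l).card := by
        rw [h1]
        exact lt_of_lt_of_le two_pos hq2
      obtain ⟨j, hj⟩ := Finset.card_pos.mp h2
      have h3 : (F x a hx).μ j = l := (Finset.mem_filter.mp hj).2
      rw [← h3, hcount] at h1
      have h4 : c j = e := hqu _ h1
      rw [hμd x a hx, ← h3]
      exact (hFc x a hx j j1).mpr (h4.trans hc1.symm)
    have hH : ∀ x, G x a → Hyp (x + μ x a • a) a := by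
      intro x hx
      set F1 := F x a hx
      have e12 : F1.μ j2 = F1.μ j1 := (hFc x a hx j2 j1).mpr (hc2.trans hc1.symm)
      rw [hμd x a hx]
      refine ⟨F1.g j1, F1.h j1, F1.g j2, F1.h j2, F1.g_mem j1, F1.h_mem j1, ?_, ?_, ?_, ?_, ?_, ?_,
        ?_, ?_⟩
      · have := F1.g_mem j2
        rwa [e12] at this
      · have := F1.h_mem j2
        rwa [e12] at this
      · rw [F1.Bgj, F1.hh, if_pos rfl]
      · rw [F1.Bgj, F1.hh, if_pos rfl]
      · rw [F1.Bgj, F1.hg, neg_zero]
      · rw [F1.Bgj, F1.hh, if_neg hj12, neg_zero]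
      · rw [F1.Bhj, F1.gg, if_neg hj12]
      · rw [F1.Bhj, F1.gh]
    obtain ⟨u, hu, hall⟩ := one_label G hG _ μ hμ hμu hx0 hH
    refine ⟨u, hu, fun ξ => ?_, ?_, ?_⟩
    · rw [← sub_eq_zero, ← Module.forall_dual_apply_eq_zero_iff ℂ]
      intro w
      obtain ⟨s, hs, hs0⟩ := ((good_inf G hG _ μ hμ hμu hx0 w).sdiff
        (Set.finite_singleton 0)).nonempty
      have hs' : G (x0 + s • w) a := hs
      have hs0' : s ≠ 0 := hs0
      obtain ⟨m1, m2, -⟩ := hall _ hx0
      obtain ⟨m3, m4, -⟩ := hall _ hs'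
      have m5 := m2 ξ
      have m6 := m4 ξ
      rw [m1] at m5
      rw [m3] at m6
      simp only [LinearMap.add_apply, LinearMap.smul_apply, smul_eq_mul] at m5 m6
      rw [map_sub, map_smul, smul_eq_mul]
      have m7 : s * (w ⁅ξ, u⁆ - a ⁅ξ, u⁆ * w u) = 0 := by linear_combination m6 - m5
      exact (mul_eq_zero.mp m7).resolve_left hs0'
    · obtain ⟨-, m2, m3⟩ := hall _ hx0
      exact (F x0 a hx0).mem_core _ m2 m3
    · intro j hj
      obtain ⟨m1, -, -⟩ := hall _ hx0
      rw [← m1, hμd x0 a hx0]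
      exact (hFc x0 a hx0 j j1).mpr (hj.trans hc1.symm)
  choose! u hu1 hu2 hu3 hu4 using hone
  set F0 := F x0 a hx0 with hF0
  have hne : ∀ e ∈ S, ∀ e' ∈ S, e ≠ e' → x0 (u e) ≠ x0 (u e') := by
    intro e he e' he' hee hx
    obtain ⟨j, hj⟩ := Finset.card_pos.mp (lt_of_lt_of_le two_pos (hS e he).1)
    obtain ⟨j', hj'⟩ := Finset.card_pos.mp (lt_of_lt_of_le two_pos (hS e' he').1)
    have hcj : c j = e := (Finset.mem_filter.mp hj).2
    have hcj' : c j' = e' := (Finset.mem_filter.mp hj').2
    have h1 := hu4 e he j hcj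
    have h2 := hu4 e' he' j' hcj'
    have h3 : F0.μ j = F0.μ j' := by rw [h1, h2, hx]
    exact hee (by rw [← hcj, ← hcj']; exact (hFc x0 a hx0 j j').mp h3)
  have hli : LinearIndependent ℂ fun e : S => u e.1 := by
    refine li_char _ (fun e h0 => ?_) (fun e ξ => a ⁅ξ, u e.1⁆) (fun e ξ => hu2 e.1 e.2 ξ)
      (fun e e' hee => ?_)
    · have := hu1 e.1 e.2
      rw [h0, map_zero] at this
      exact zero_ne_one this
    · by_contra hcon
      push Not at hcon
      have hee' : e.1 ≠ e'.1 := fun h => hee (Subtype.ext h)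
      have hx := hne e.1 e.2 e'.1 e'.2 hee'
      have b1 : ∀ w : L, x0 ⁅w, u e.1⁆ = a ⁅w, u e.1⁆ * x0 (u e.1) := fun w => by
        conv_lhs => rw [hu2 e.1 e.2 w]
        rw [map_smul, smul_eq_mul]
      have b2 : ∀ w : L, x0 ⁅w, u e'.1⁆ = a ⁅w, u e.1⁆ * x0 (u e'.1) := fun w => by
        conv_lhs => rw [hu2 e'.1 e'.2 w]
        rw [map_smul, smul_eq_mul, hcon w]
      have c0 : ∀ w : L, x0 ⁅w, (x0 (u e.1) - x0 (u e'.1)) • u e.1 -
          x0 (u e.1) • (u e.1 - u e'.1)⁆ = 0 := by
        intro w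
        simp only [lie_sub, lie_smul, map_sub, map_smul, smul_eq_mul, b1, b2]
        ring
      have c01 : ∀ w : L, x0 ⁅w, - (u e.1 - u e'.1)⁆ + a ⁅w, (x0 (u e.1) - x0 (u e'.1)) • u e.1 -
          x0 (u e.1) • (u e.1 - u e'.1)⁆ = 0 := by
        intro w
        simp only [lie_sub, lie_smul, lie_neg, map_neg, map_sub, map_smul, smul_eq_mul, b1, b2,
          ← hcon w]
        ring
      have c1 : ∀ w : L, a ⁅w, - (u e.1 - u e'.1)⁆ = 0 := by
        intro w
        simp only [lie_sub, lie_neg, map_neg, map_sub, ← hcon w, sub_self, neg_zero]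
      have c2 : - (u e.1 - u e'.1) ≠ 0 := by
        intro h0
        apply hx
        have h1 : u e.1 = u e'.1 := by
          rw [neg_eq_zero] at h0
          exact sub_eq_zero.mp h0
        rw [h1]
      obtain ⟨r, hr⟩ := F0.deg_one hk1 hk0 c0 c01 c1 c2
      have h1 := congrArg a hr
      rw [map_sub, map_smul, map_smul, map_smul, map_neg, map_sub, hu1 e.1 e.2,
        hu1 e'.1 e'.2, sub_self, neg_zero, smul_zero, smul_zero, sub_zero, smul_eq_mul,
        mul_one] at h1
      exact hx (sub_eq_zero.mp h1)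
  have hli2 : LinearIndependent ℂ fun e : S => (⟨u e.1, hu3 e.1 e.2⟩ : F0.core) :=
    LinearIndependent.of_comp F0.core.subtype hli
  have h1 := hli2.fintype_card_le_finrank
  rw [Fintype.card_coe] at h1
  exact h1.trans F0.core_finrank

end Pool.Agent.Helper55K1.JK
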