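import Pool.Agent.Helper55K1.JKBd1

/-!
Coordinates of a normal form of a pair of skew-symmetric forms.
-/

namespace Pool.Agent.Helper55K1.JK

/-- Coordinates of a normal form: `G j s` are the vectors `e_s` and `H j s` the vectors `f_s` in the
opposite order of the Jordan block `j`. -/
structure Fq {V : Type} [AddCommGroup V] [Module ℂ V] (A B : V →ₗ[ℂ] V →ₗ[ℂ] ℂ) {m n : ℕ}
    (k : Fin m → ℕ) (d : Fin n → ℕ) where
  μ : Fin n → ℂ
  e : (i : Fin m) → Fin (k i) → V
  f : (i : Fin m) → Fin (k i + 1) → V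
  G : Fin n → ℕ → V
  H : Fin n → ℕ → V
  ce : (i : Fin m) → Fin (k i) → V →ₗ[ℂ] ℂ
  cf : (i : Fin m) → Fin (k i + 1) → V →ₗ[ℂ] ℂ
  CG : Fin n → ℕ → V →ₗ[ℂ] ℂ
  CH : Fin n → ℕ → V →ₗ[ℂ] ℂ
  G0 : ∀ j s, d j ≤ s → G j s = 0
  H0 : ∀ j s, d j ≤ s → H j s = 0
  CG0 : ∀ j s, d j ≤ s → CG j s = 0
  CH0 : ∀ j s, d j ≤ s → CH j s = 0
  ext0 : ∀ v, (∀ i s, ce i s v = 0) → (∀ i s, cf i s v = 0) → (∀ j s, CG j s v = 0) →
    (∀ j s, CH j s v = 0) → v = 0
  mkv : ∀ (q : (i : Fin m) → Fin (k i + 1) → ℂ) (u w : Fin n → ℕ → ℂ), ∃ v,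
    (∀ i s, ce i s v = 0) ∧ (∀ i s, cf i s v = q i s) ∧ (∀ j s, s < d j → CG j s v = u j s) ∧
      ∀ j s, s < d j → CH j s v = w j s
  sp : ∀ v, (∀ i s, ce i s v = 0) → (∀ j s, CG j s v = 0) → (∀ j s, CH j s v = 0) →
    v ∈ Submodule.span ℂ (Set.range fun p : Σ i, Fin (k i + 1) => f p.1 p.2)
  ind : ∀ φ : V →ₗ[ℂ] ℂ, (∀ i s, φ (e i s) = 0) → (∀ i s, φ (f i s) = 0) →
    (∀ j s, φ (G j s) = 0) → (∀ j s, φ (H j s) = 0) → φ = 0
  Ae : ∀ i s v, A (e i s) v = cf i s.castSucc v
  Be : ∀ i s v, B (e i s) v = - cf i s.succ v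
  Af : ∀ i (s : Fin (k i)) v, A (f i s.castSucc) v = - ce i s v
  Af' : ∀ i v, A (f i (Fin.last _)) v = 0
  Bf : ∀ i (s : Fin (k i)) v, B (f i s.succ) v = ce i s v
  Bf' : ∀ i v, B (f i 0) v = 0
  AG : ∀ j s v, A (G j s) v = μ j * CH j s v + CH j (s + 1) v
  BG : ∀ j s v, B (G j s) v = - CH j s v
  AH : ∀ j s v, A (H j s) v = - (μ j * CG j s v + CG j (s + 1) v)
  BH : ∀ j s v, B (H j s) v = CG j s v
  GG : ∀ i j s t, CG i s (G j t) = if i = j ∧ s + t + 1 = d i then 1 else 0
  GH : ∀ i j s t, CG i s (H j t) = 0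
  HG : ∀ i j s t, CH i s (G j t) = 0
  HH : ∀ i j s t, CH i s (H j t) = if i = j ∧ s + t + 1 = d i then 1 else 0

lemma sum_first1 {d : ℕ} (μ : ℂ) (s : Fin d) (r : Fin d → ℂ) :
    ∑ t : Fin d, (Block.jordan d μ).first s t * r t =
      μ * r s + if h : (s : ℕ) + 1 < d then r ⟨s + 1, h⟩ else 0 := by
  have h1 : ∀ t : Fin d, (Block.jordan d μ).first s t * r t =
      (if t = s then μ * r t else 0) + (if (t : ℕ) = s + 1 then r t else 0) := by
    intro t
    simp only [Block.first]
    by_cases h : t = s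
    · subst h
      simp
    · have : (t : ℕ) ≠ s := fun e => h (Fin.ext e)
      rw [if_neg this, if_neg h]
      split_ifs <;> simp
  rw [Finset.sum_congr rfl fun t _ => h1 t, Finset.sum_add_distrib, Finset.sum_ite_eq',
    if_pos (Finset.mem_univ _)]
  congr 1
  by_cases h : (s : ℕ) + 1 < d
  · rw [dif_pos h, Finset.sum_eq_single ⟨s + 1, h⟩]
    · simp
    · intro t _ ht
      exact if_neg fun e => ht (Fin.ext e)
    · intro h; exact absurd (Finset.mem_univ _) h
  · rw [dif_neg h]
    refine Finset.sum_eq_zero fun t _ => if_neg fun e => h ?_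
    rw [← e]; exact t.2

lemma sum_first2 {d : ℕ} (μ : ℂ) (s : Fin d) (r : Fin d → ℂ) :
    ∑ t : Fin d, (Block.jordan d μ).first t s * r t =
      μ * r s + if h : 1 ≤ (s : ℕ) then r ⟨s - 1, by omega⟩ else 0 := by
  have h1 : ∀ t : Fin d, (Block.jordan d μ).first t s * r t =
      (if t = s then μ * r t else 0) + (if (t : ℕ) + 1 = s then r t else 0) := by
    intro t
    simp only [Block.first]
    by_cases h : t = s
    · subst h
      simp
    · have : (s : ℕ) ≠ t := fun e => h (Fin.ext e.symm)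
      rw [if_neg this, if_neg h]
      by_cases h2 : (s : ℕ) = t + 1
      · rw [if_pos h2, if_pos h2.symm]; ring
      · rw [if_neg h2, if_neg (fun e => h2 e.symm)]; ring
  rw [Finset.sum_congr rfl fun t _ => h1 t, Finset.sum_add_distrib, Finset.sum_ite_eq',
    if_pos (Finset.mem_univ _)]
  congr 1
  by_cases h : 1 ≤ (s : ℕ)
  · rw [dif_pos h, Finset.sum_eq_single ⟨s - 1, by omega⟩]
    · rw [if_pos]
      show (s : ℕ) - 1 + 1 = s
      omega
    · intro t _ ht
      refine if_neg fun e => ht (Fin.ext ?_)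
      show (t : ℕ) = s - 1
      omega
    · intro h; exact absurd (Finset.mem_univ _) h
  · rw [dif_neg h]
    refine Finset.sum_eq_zero fun t _ => if_neg fun e => h ?_
    omega

section

variable {V : Type} [AddCommGroup V] [Module ℂ V] {A B : V →ₗ[ℂ] V →ₗ[ℂ] ℂ}

/-- The blocks. -/
abbrev kd {m n : ℕ} (k : Fin m → ℕ) (d : Fin n → ℕ) (μ : Fin n → ℂ) : Fin m ⊕ Fin n → Block :=
  Sum.elim (fun i => Block.kronecker (k i)) fun j => Block.jordan (d j) (μ j)

theorem exists_fq {m n : ℕ} {k : Fin m → ℕ} {d c : Fin n → ℕ}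
    (h : HasType (fun u v => A u v) (fun u v => B u v) k d c) :
    ∃ F : Fq A B k d, ∀ i j, F.μ i = F.μ j ↔ c i = c j := by
  classical
  obtain ⟨μ, hμ, b, h1, h2⟩ := h
  have hA := form_repr A (kd k d μ) Block.first b (fun i s t => (h1 i s t).1)
    (fun i j s t hij => (h2 i j s t hij).1)
  have hB := form_repr B (kd k d μ) Block.second b (fun i s t => (h1 i s t).2)
    (fun i j s t hij => (h2 i j s t hij).2)
  let ie : (i : Fin m) → Fin (k i) → Σ i, (kd k d μ i).Ix := fun i s => ⟨Sum.inl i, Sum.inl s⟩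
  let if' : (i : Fin m) → Fin (k i + 1) → Σ i, (kd k d μ i).Ix :=
    fun i s => ⟨Sum.inl i, Sum.inr s⟩
  let ig : (j : Fin n) → Fin (d j) → Σ i, (kd k d μ i).Ix := fun j s => ⟨Sum.inr j, Sum.inl s⟩
  let ih : (j : Fin n) → Fin (d j) → Σ i, (kd k d μ i).Ix := fun j s => ⟨Sum.inr j, Sum.inr s⟩
  have hcase : ∀ P : (Σ i, (kd k d μ i).Ix) → Prop, (∀ i s, P (ie i s)) →
      (∀ i s, P (if' i s)) → (∀ j s, P (ig j s)) → (∀ j s, P (ih j s)) → ∀ idx, P idx := by
    rintro P p1 p2 p3 p4 ⟨i | j, s | s⟩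
    · exact p1 i s
    · exact p2 i s
    · exact p3 j s
    · exact p4 j s
  let rv : (j : Fin n) → (s : ℕ) → s < d j → Fin (d j) := fun j s hs => ⟨d j - 1 - s, by omega⟩
  have hrv : ∀ j (s : Fin (d j)), ∃ (t : ℕ) (ht : t < d j), rv j t ht = s := fun j s =>
    ⟨d j - 1 - s, by have := s.2; omega, Fin.ext (by
      have := s.2
      show d j - 1 - (d j - 1 - (s : ℕ)) = s
      omega)⟩
  let gG : Fin n → ℕ → V := fun j s => if hs : s < d j then b (ig j ⟨s, hs⟩) else 0
  let gH : Fin n → ℕ → V := fun j s => if hs : s < d j then b (ih j (rv j s hs)) else 0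
  let cG : Fin n → ℕ → V →ₗ[ℂ] ℂ := fun j s =>
    if hs : s < d j then b.coord (ig j (rv j s hs)) else 0
  let cH : Fin n → ℕ → V →ₗ[ℂ] ℂ := fun j s =>
    if hs : s < d j then b.coord (ih j ⟨s, hs⟩) else 0
  have gGp : ∀ j s (hs : s < d j), gG j s = b (ig j ⟨s, hs⟩) := fun j s hs => dif_pos hs
  have gHp : ∀ j s (hs : s < d j), gH j s = b (ih j (rv j s hs)) := fun j s hs => dif_pos hs
  have cGp : ∀ j s (hs : s < d j) v, cG j s v = b.repr v (ig j (rv j s hs)) := fun j s hs v => by
    simp only [cG, dif_pos hs]; rfl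
  have cHp : ∀ j s (hs : s < d j) v, cH j s v = b.repr v (ih j ⟨s, hs⟩) := fun j s hs v => by
    simp only [cH, dif_pos hs]; rfl
  have gG0 : ∀ j s, d j ≤ s → gG j s = 0 := fun j s hs => dif_neg (not_lt.mpr hs)
  have gH0 : ∀ j s, d j ≤ s → gH j s = 0 := fun j s hs => dif_neg (not_lt.mpr hs)
  have cG0 : ∀ j s, d j ≤ s → cG j s = 0 := fun j s hs => dif_neg (not_lt.mpr hs)
  have cH0 : ∀ j s, d j ≤ s → cH j s = 0 := fun j s hs => dif_neg (not_lt.mpr hs)
  refine ⟨{
    μ := μ
    e := fun i s => b (ie i s)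
    f := fun i s => b (if' i s)
    G := gG
    H := gH
    ce := fun i s => b.coord (ie i s)
    cf := fun i s => b.coord (if' i s)
    CG := cG
    CH := cH
    G0 := gG0
    H0 := gH0
    CG0 := cG0
    CH0 := cH0
    ext0 := ?_
    mkv := ?_
    sp := ?_
    ind := ?_
    Ae := ?_
    Be := ?_
    Af := ?_
    Af' := ?_
    Bf := ?_
    Bf' := ?_
    AG := ?_
    BG := ?_
    AH := ?_
    BH := ?_
    GG := ?_
    GH := ?_
    HG := ?_
    HH := ?_ }, hμ⟩
  · intro v h1 h2 h3 h4
    refine b.ext_elem fun idx => ?_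
    rw [map_zero, Finsupp.zero_apply]
    refine hcase (fun idx => b.repr v idx = 0) h1 h2 (fun j s => ?_) (fun j s => ?_) idx
    · obtain ⟨t, ht, hts⟩ := hrv j s
      have := h3 j t
      rw [cGp j t ht, hts] at this
      exact this
    · have := h4 j s
      rw [cHp j s s.2] at this
      exact this
  · intro q u w
    let F : (Σ i, (kd k d μ i).Ix) → ℂ := fun idx => match idx with
      | ⟨Sum.inl i, Sum.inl _⟩ => 0
      | ⟨Sum.inl i, Sum.inr s⟩ => q i s
      | ⟨Sum.inr j, Sum.inl s⟩ => u j (d j - 1 - (s : Fin (d j)))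
      | ⟨Sum.inr j, Sum.inr s⟩ => w j (s : Fin (d j))
    refine ⟨b.equivFun.symm F, fun i s => ?_, fun i s => ?_, fun j s hs => ?_, fun j s hs => ?_⟩
    · rw [Module.Basis.coord_apply, ← Module.Basis.equivFun_apply, LinearEquiv.apply_symm_apply]
    · rw [Module.Basis.coord_apply, ← Module.Basis.equivFun_apply, LinearEquiv.apply_symm_apply]
    · rw [cGp j s hs, ← Module.Basis.equivFun_apply, LinearEquiv.apply_symm_apply]
      show u j (d j - 1 - (d j - 1 - s)) = u j s
      congr 1
      omega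
    · rw [cHp j s hs, ← Module.Basis.equivFun_apply, LinearEquiv.apply_symm_apply]
  · intro v h1 h3 h4
    rw [← b.sum_repr v]
    refine Submodule.sum_mem _ fun idx _ => ?_
    refine hcase (fun idx => b.repr v idx • b idx ∈ _) ?_ ?_ ?_ ?_ idx
    · intro i s
      have := h1 i s
      rw [Module.Basis.coord_apply] at this
      rw [this, zero_smul]
      exact Submodule.zero_mem _
    · intro i s
      exact Submodule.smul_mem _ _ (Submodule.subset_span ⟨⟨i, s⟩, rfl⟩)
    · intro j s
      obtain ⟨t, ht, hts⟩ := hrv j s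
      have := h3 j t
      rw [cGp j t ht, hts] at this
      rw [this, zero_smul]
      exact Submodule.zero_mem _
    · intro j s
      have := h4 j s
      rw [cHp j s s.2] at this
      rw [this, zero_smul]
      exact Submodule.zero_mem _
  · intro φ h1 h2 h3 h4
    refine b.ext fun idx => ?_
    refine hcase (fun idx => φ (b idx) = (0 : V →ₗ[ℂ] ℂ) (b idx)) h1 h2 (fun j s => ?_)
      (fun j s => ?_) idx
    · have := h3 j s
      rw [gGp j s s.2] at this
      exact this
    · obtain ⟨t, ht, hts⟩ := hrv j s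
      have := h4 j t
      rw [gHp j t ht, hts] at this
      exact this
  · intro i s v
    have h3 : A (b (ie i s)) v = ∑ t : Fin (k i) ⊕ Fin (k i + 1),
        skew (Block.first (Block.kronecker (k i))) (Sum.inl s : Fin (k i) ⊕ Fin (k i + 1)) t *
          b.repr v ⟨Sum.inl i, t⟩ := hA (Sum.inl i) (Sum.inl s) v
    rw [h3, Fintype.sum_sum_type, Finset.sum_eq_zero (fun t _ => by simp [skew]), zero_add,
      Finset.sum_eq_single s.castSucc]
    · simp only [skew, Block.first, Fin.val_castSucc, if_true, one_mul]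
      rfl
    · intro t _ ht
      have : (t : ℕ) ≠ s := fun e => ht (Fin.ext e)
      simp [skew, Block.first, this]
    · intro e; exact absurd (Finset.mem_univ _) e
  · intro i s v
    have h3 : B (b (ie i s)) v = ∑ t : Fin (k i) ⊕ Fin (k i + 1),
        skew (Block.second (Block.kronecker (k i))) (Sum.inl s : Fin (k i) ⊕ Fin (k i + 1)) t *
          b.repr v ⟨Sum.inl i, t⟩ := hB (Sum.inl i) (Sum.inl s) v
    rw [h3, Fintype.sum_sum_type, Finset.sum_eq_zero (fun t _ => by simp [skew]), zero_add,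
      Finset.sum_eq_single s.succ]
    · simp only [skew, Block.second, Fin.val_succ, if_true, neg_one_mul]
      rfl
    · intro t _ ht
      have : (t : ℕ) ≠ s + 1 := fun e => ht (Fin.ext e)
      simp [skew, Block.second, this]
    · intro e; exact absurd (Finset.mem_univ _) e
  · intro i s v
    have h3 : A (b (if' i s.castSucc)) v = ∑ t : Fin (k i) ⊕ Fin (k i + 1),
        skew (Block.first (Block.kronecker (k i)))
          (Sum.inr s.castSucc : Fin (k i) ⊕ Fin (k i + 1)) t *
          b.repr v ⟨Sum.inl i, t⟩ := hA (Sum.inl i) (Sum.inr s.castSucc) v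
    rw [h3, Fintype.sum_sum_type, add_comm, Finset.sum_eq_zero (fun t _ => by simp [skew]),
      zero_add, Finset.sum_eq_single s]
    · simp only [skew, Block.first, Fin.val_castSucc, if_true, neg_one_mul]
      rfl
    · intro t _ ht
      have : (s : ℕ) ≠ t := fun e => ht (Fin.ext e.symm)
      simp [skew, Block.first, this]
    · intro e; exact absurd (Finset.mem_univ _) e
  · intro i v
    have h3 : A (b (if' i (Fin.last _))) v = ∑ t : Fin (k i) ⊕ Fin (k i + 1),
        skew (Block.first (Block.kronecker (k i)))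
          (Sum.inr (Fin.last _) : Fin (k i) ⊕ Fin (k i + 1)) t *
          b.repr v ⟨Sum.inl i, t⟩ := hA (Sum.inl i) (Sum.inr (Fin.last _)) v
    rw [h3, Fintype.sum_sum_type, add_comm, Finset.sum_eq_zero (fun t _ => by simp [skew]),
      zero_add]
    refine Finset.sum_eq_zero fun t _ => ?_
    have : (k i : ℕ) ≠ t := fun e => absurd t.2 (by omega)
    simp [skew, Block.first, this]
  · intro i s v
    have h3 : B (b (if' i s.succ)) v = ∑ t : Fin (k i) ⊕ Fin (k i + 1),
        skew (Block.second (Block.kronecker (k i)))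
          (Sum.inr s.succ : Fin (k i) ⊕ Fin (k i + 1)) t *
          b.repr v ⟨Sum.inl i, t⟩ := hB (Sum.inl i) (Sum.inr s.succ) v
    rw [h3, Fintype.sum_sum_type, add_comm, Finset.sum_eq_zero (fun t _ => by simp [skew]),
      zero_add, Finset.sum_eq_single s]
    · simp only [skew, Block.second, Fin.val_succ, if_true, neg_neg, one_mul]
      rfl
    · intro t _ ht
      have : (s : ℕ) ≠ t := fun e => ht (Fin.ext e.symm)
      simp [skew, Block.second, this]
    · intro e; exact absurd (Finset.mem_univ _) e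
  · intro i v
    have h3 : B (b (if' i 0)) v = ∑ t : Fin (k i) ⊕ Fin (k i + 1),
        skew (Block.second (Block.kronecker (k i)))
          (Sum.inr 0 : Fin (k i) ⊕ Fin (k i + 1)) t *
          b.repr v ⟨Sum.inl i, t⟩ := hB (Sum.inl i) (Sum.inr (0 : Fin (k i + 1))) v
    rw [h3, Fintype.sum_sum_type, add_comm, Finset.sum_eq_zero (fun t _ => by simp [skew]),
      zero_add]
    refine Finset.sum_eq_zero fun t _ => ?_
    simp [skew, Block.second]
  · intro j s v
    by_cases hs : s < d j
    · have h3 : A (b (ig j ⟨s, hs⟩)) v = ∑ t : Fin (d j) ⊕ Fin (d j),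
          skew (Block.first (Block.jordan (d j) (μ j))) (Sum.inl ⟨s, hs⟩ : Fin (d j) ⊕ Fin (d j)) t *
            b.repr v ⟨Sum.inr j, t⟩ := hA (Sum.inr j) (Sum.inl (⟨s, hs⟩ : Fin (d j))) v
      rw [gGp j s hs, h3, Fintype.sum_sum_type, Finset.sum_eq_zero (fun t _ => by simp [skew]),
        zero_add]
      have h4 := sum_first1 (μ j) (⟨s, hs⟩ : Fin (d j)) (fun t => b.repr v (ih j t))
      refine h4.trans ?_
      rw [cHp j s hs]
      congr 1
      by_cases hs1 : s + 1 < d j
      · rw [dif_pos hs1, cHp j (s + 1) hs1]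
      · rw [dif_neg hs1, cH0 j (s + 1) (not_lt.mp hs1), LinearMap.zero_apply]
    · rw [gG0 j s (not_lt.mp hs), cH0 j s (not_lt.mp hs),
        cH0 j (s + 1) (le_trans (not_lt.mp hs) (Nat.le_succ _))]
      simp
  · intro j s v
    by_cases hs : s < d j
    · have h3 : B (b (ig j ⟨s, hs⟩)) v = ∑ t : Fin (d j) ⊕ Fin (d j),
          skew (Block.second (Block.jordan (d j) (μ j))) (Sum.inl ⟨s, hs⟩ : Fin (d j) ⊕ Fin (d j))
            t * b.repr v ⟨Sum.inr j, t⟩ := hB (Sum.inr j) (Sum.inl (⟨s, hs⟩ : Fin (d j))) v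
      rw [gGp j s hs, h3, Fintype.sum_sum_type, Finset.sum_eq_zero (fun t _ => by simp [skew]),
        zero_add, cHp j s hs, Finset.sum_eq_single (⟨s, hs⟩ : Fin (d j))]
      · simp [skew, Block.second]
        rfl
      · intro t _ ht
        have : (t : ℕ) ≠ s := fun e => ht (Fin.ext e)
        simp [skew, Block.second, this]
      · intro e; exact absurd (Finset.mem_univ _) e
    · rw [gG0 j s (not_lt.mp hs), cH0 j s (not_lt.mp hs)]
      simp
  · intro j s v
    by_cases hs : s < d j
    · have h3 : A (b (ih j (rv j s hs))) v = ∑ t : Fin (d j) ⊕ Fin (d j),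
          skew (Block.first (Block.jordan (d j) (μ j)))
            (Sum.inr (rv j s hs) : Fin (d j) ⊕ Fin (d j)) t *
            b.repr v ⟨Sum.inr j, t⟩ := hA (Sum.inr j) (Sum.inr (rv j s hs)) v
      rw [gHp j s hs, h3, Fintype.sum_sum_type, add_comm,
        Finset.sum_eq_zero (fun t _ => by simp [skew]), zero_add]
      have h4 := sum_first2 (μ j) (rv j s hs) (fun t => b.repr v (ig j t))
      have h5 : ∀ t : Fin (d j), skew (Block.first (Block.jordan (d j) (μ j)))
          (Sum.inr (rv j s hs) : Fin (d j) ⊕ Fin (d j)) (Sum.inl t) *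
            b.repr v ⟨Sum.inr j, Sum.inl t⟩ = - ((Block.jordan (d j) (μ j)).first t (rv j s hs) *
            b.repr v (ig j t)) := fun t => by
        simp only [skew, neg_mul]; rfl
      refine (Finset.sum_congr rfl fun t _ => h5 t).trans ?_
      rw [Finset.sum_neg_distrib, h4, cGp j s hs]
      congr 2
      by_cases hs1 : s + 1 < d j
      · have hr : 1 ≤ ((rv j s hs : Fin (d j)) : ℕ) := by
          show 1 ≤ d j - 1 - s
          omega
        rw [dif_pos hr, cGp j (s + 1) hs1]
        congr 2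
      · have hr : ¬ 1 ≤ ((rv j s hs : Fin (d j)) : ℕ) := by
          show ¬ 1 ≤ d j - 1 - s
          omega
        rw [dif_neg hr, cG0 j (s + 1) (not_lt.mp hs1), LinearMap.zero_apply]
    · rw [gH0 j s (not_lt.mp hs), cG0 j s (not_lt.mp hs),
        cG0 j (s + 1) (le_trans (not_lt.mp hs) (Nat.le_succ _))]
      simp
  · intro j s v
    by_cases hs : s < d j
    · have h3 : B (b (ih j (rv j s hs))) v = ∑ t : Fin (d j) ⊕ Fin (d j),
          skew (Block.second (Block.jordan (d j) (μ j)))
            (Sum.inr (rv j s hs) : Fin (d j) ⊕ Fin (d j)) t *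
            b.repr v ⟨Sum.inr j, t⟩ := hB (Sum.inr j) (Sum.inr (rv j s hs)) v
      rw [gHp j s hs, h3, Fintype.sum_sum_type, add_comm,
        Finset.sum_eq_zero (fun t _ => by simp [skew]), zero_add, cGp j s hs,
        Finset.sum_eq_single (rv j s hs)]
      · simp [skew, Block.second]
        rfl
      · intro t _ ht
        have : ((rv j s hs : Fin (d j)) : ℕ) ≠ t := fun e => ht (Fin.ext e.symm)
        simp [skew, Block.second, this]
      · intro e; exact absurd (Finset.mem_univ _) e
    · rw [gH0 j s (not_lt.mp hs), cG0 j s (not_lt.mp hs)]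
      simp
  · intro i j s t
    by_cases hs : s < d i
    · by_cases ht : t < d j
      · rw [cGp i s hs, gGp j t ht, b.repr_self, Finsupp.single_apply]
        congr 1
        apply propext
        constructor
        · intro e
          have e1 := Sum.inr.inj (Sigma.mk.inj e).1
          subst e1
          have e2 := Sum.inl.inj (eq_of_heq (Sigma.mk.inj e).2)
          have e3 : t = d j - 1 - s := congrArg Fin.val e2
          exact ⟨rfl, by omega⟩
        · rintro ⟨rfl, e⟩
          have : (⟨t, ht⟩ : Fin (d i)) = rv i s hs := Fin.ext (by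
            show t = d i - 1 - s
            omega)
          rw [this]
      · rw [gG0 j t (not_lt.mp ht), map_zero, if_neg]
        rintro ⟨rfl, e⟩
        omega
    · rw [cG0 i s (not_lt.mp hs), LinearMap.zero_apply, if_neg]
      rintro ⟨rfl, e⟩
      omega
  · intro i j s t
    by_cases hs : s < d i
    · by_cases ht : t < d j
      · rw [cGp i s hs, gHp j t ht, b.repr_self, Finsupp.single_apply, if_neg]
        intro e
        have e1 := Sum.inr.inj (Sigma.mk.inj e).1
        subst e1
        have e2 := eq_of_heq (Sigma.mk.inj e).2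
        exact nomatch e2
      · rw [gH0 j t (not_lt.mp ht), map_zero]
    · rw [cG0 i s (not_lt.mp hs), LinearMap.zero_apply]
  · intro i j s t
    by_cases hs : s < d i
    · by_cases ht : t < d j
      · rw [cHp i s hs, gGp j t ht, b.repr_self, Finsupp.single_apply, if_neg]
        intro e
        have e1 := Sum.inr.inj (Sigma.mk.inj e).1
        subst e1
        have e2 := eq_of_heq (Sigma.mk.inj e).2
        exact nomatch e2
      · rw [gG0 j t (not_lt.mp ht), map_zero]
    · rw [cH0 i s (not_lt.mp hs), LinearMap.zero_apply]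
  · intro i j s t
    by_cases hs : s < d i
    · by_cases ht : t < d j
      · rw [cHp i s hs, gHp j t ht, b.repr_self, Finsupp.single_apply]
        congr 1
        apply propext
        constructor
        · intro e
          have e1 := Sum.inr.inj (Sigma.mk.inj e).1
          subst e1
          have e2 := Sum.inr.inj (eq_of_heq (Sigma.mk.inj e).2)
          have e3 : d j - 1 - t = s := congrArg Fin.val e2
          exact ⟨rfl, by omega⟩
        · rintro ⟨rfl, e⟩
          have : rv i t ht = (⟨s, hs⟩ : Fin (d i)) := Fin.ext (by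
            show d i - 1 - t = s
            omega)
          rw [this]
      · rw [gH0 j t (not_lt.mp ht), map_zero, if_neg]
        rintro ⟨rfl, e⟩
        omega
    · rw [cH0 i s (not_lt.mp hs), LinearMap.zero_apply, if_neg]
      rintro ⟨rfl, e⟩
      omega

end

end Pool.Agent.Helper55K1.JK
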