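import Pool.Agent.Helper55K1.JKBd4

/-!
Chains of vectors at an eigenvalue of a Lie–Poisson pencil: first variations and the consequences
of the Jacobi identity.
-/

namespace Pool.Agent.Helper55K1.JK

open Filter Topology

/-- The first variation of skew-symmetric forms with a kernel of constant dimension vanishes on the
kernel. -/
lemma var_form {V : Type} [AddCommGroup V] [Module ℂ V] [FiniteDimensional ℂ V]
    (T0 T1 : V →ₗ[ℂ] V →ₗ[ℂ] ℂ) (sk : ∀ u v, T0 u v = - T0 v u)
    (h : ∀ᶠ s in 𝓝[≠] (0 : ℂ), Module.finrank ℂ (LinearMap.ker T0) ≤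
      Module.finrank ℂ (LinearMap.ker (T0 + s • T1)))
    {η ζ : V} (hη : T0 η = 0) (hζ : T0 ζ = 0) : T1 η ζ = 0 := by
  classical
  have hη' : ∀ v, T0 η v = 0 := fun v => by rw [hη, LinearMap.zero_apply]
  have hζ' : ∀ v, T0 v ζ = 0 := fun v => by rw [sk, hζ, LinearMap.zero_apply, neg_zero]
  obtain ⟨N, hN⟩ := Submodule.exists_isCompl (LinearMap.ker T0)
  have hdim := Submodule.finrank_add_eq_of_isCompl hN
  let b := Module.finBasis ℂ N
  let r := Module.finrank ℂ N
  let row : Fin r ⊕ Unit → V := Sum.elim (fun i => (b i : V)) fun _ => η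
  let H : ℂ → Matrix (Fin r ⊕ Unit) (Fin r ⊕ Unit) ℂ := fun s =>
    Matrix.fromBlocks (Matrix.of fun i j => T0 (b i : V) (b j : V) + s * T1 (b i : V) (b j : V))
      (Matrix.of fun i _ => T1 (b i : V) ζ) (Matrix.of fun _ j => s * T1 η (b j : V))
      (Matrix.of fun _ _ => T1 η ζ)
  have hcont : Continuous fun s => (H s).det := by
    refine Continuous.matrix_det ?_
    refine continuous_matrix fun i j => ?_
    rcases i with i | i <;> rcases j with j | j
    · exact continuous_const.add (continuous_id.mul continuous_const)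
    · exact continuous_const
    · exact continuous_id.mul continuous_const
    · exact continuous_const
  have hzero : ∀ᶠ s in 𝓝[≠] (0 : ℂ), (H s).det = 0 := by
    filter_upwards [h, self_mem_nhdsWithin] with s hs hs0
    have hs0' : s ≠ 0 := hs0
    have hrk : Module.finrank ℂ (LinearMap.range (T0 + s • T1)) ≤ r := by
      have h1 := LinearMap.finrank_range_add_finrank_ker (T0 + s • T1)
      omega
    have hdep : ¬ LinearIndependent ℂ fun i => (⟨(T0 + s • T1) (row i), row i, rfl⟩ :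
        LinearMap.range (T0 + s • T1)) := by
      intro hli
      have h2 := hli.fintype_card_le_finrank
      rw [Fintype.card_sum, Fintype.card_fin, Fintype.card_unit] at h2
      omega
    rw [Fintype.not_linearIndependent_iff] at hdep
    obtain ⟨g, hg, i0, hi0⟩ := hdep
    rw [← Matrix.exists_vecMul_eq_zero_iff]
    refine ⟨g, fun h3 => hi0 (congrFun h3 i0), ?_⟩
    have hg2 : ∀ v : V, ∑ i, g i * (T0 (row i) v + s * T1 (row i) v) = 0 := by
      intro v
      have h4 := congrArg Subtype.val hg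
      have h5 := LinearMap.congr_fun h4 v
      simpa [mul_add] using h5
    funext j
    rw [Pi.zero_apply, Matrix.vecMul, dotProduct]
    rcases j with j | j
    · have h6 := hg2 (b j)
      rw [Fintype.sum_sum_type] at h6 ⊢
      simpa [row, H, hη'] using h6
    · have h6 := hg2 ζ
      rw [Fintype.sum_sum_type] at h6 ⊢
      have h9 : s * (∑ i, g (Sum.inl i) * T1 (b i : V) ζ + g (Sum.inr ()) * T1 η ζ) = 0 := by
        rw [mul_add, Finset.mul_sum]
        simp only [row, Sum.elim_inl, Sum.elim_inr, hζ', zero_add, Finset.univ_unique,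
          Finset.sum_singleton] at h6
        rw [← h6]
        congr 1
        · exact Finset.sum_congr rfl fun i _ => by ring
        · ring
      have h10 := (mul_eq_zero.mp h9).resolve_left hs0'
      simpa [H] using h10
  have hdet0 : (H 0).det = 0 := by
    have h1 : Tendsto (fun s => (H s).det) (𝓝[≠] 0) (𝓝 (H 0).det) :=
      hcont.continuousAt.mono_left nhdsWithin_le_nhds
    have h2 : Tendsto (fun s => (H s).det) (𝓝[≠] 0) (𝓝 0) :=
      tendsto_const_nhds.congr' (hzero.mono fun t ht => ht.symm)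
    exact tendsto_nhds_unique h1 h2
  have hH0 : H 0 = Matrix.fromBlocks (Matrix.of fun i j => T0 (b i : V) (b j : V))
      (Matrix.of fun i _ => T1 (b i : V) ζ) 0 (Matrix.of fun _ _ => T1 η ζ) := by
    ext i j
    rcases i with i | i <;> rcases j with j | j <;> simp [H]
  rw [hH0, Matrix.det_fromBlocks_zero₂₁, mul_eq_zero] at hdet0
  rcases hdet0 with h1 | h1
  · exfalso
    rw [← Matrix.exists_vecMul_eq_zero_iff] at h1
    obtain ⟨v, hv0, hv⟩ := h1
    let u : N := ∑ i, v i • b i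
    have hu0 : (u : V) ∈ LinearMap.ker T0 := by
      rw [LinearMap.mem_ker]
      ext w
      have hw : w ∈ LinearMap.ker T0 ⊔ N := by rw [hN.sup_eq_top]; exact Submodule.mem_top
      obtain ⟨p, hp, q, hq, rfl⟩ := Submodule.mem_sup.mp hw
      have hp' : T0 p = 0 := hp
      rw [map_add, sk _ p, hp', LinearMap.zero_apply, neg_zero, zero_add, LinearMap.zero_apply]
      have h2 : ∀ j, T0 (u : V) (b j : V) = 0 := by
        intro j
        have h3 := congrFun hv j
        rw [Pi.zero_apply, Matrix.vecMul, dotProduct] at h3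
        have h4 : (u : V) = ∑ i, v i • (b i : V) := by simp [u]
        rw [h4, map_sum, LinearMap.sum_apply]
        rw [← h3]
        refine Finset.sum_congr rfl fun i _ => ?_
        rw [map_smul]
        rfl
      have h5 : q = ∑ j, (b.repr ⟨q, hq⟩ j) • (b j : V) := by
        have := congrArg N.subtype (b.sum_repr ⟨q, hq⟩)
        rw [map_sum] at this
        exact this.symm
      rw [h5, map_sum]
      refine Finset.sum_eq_zero fun j _ => ?_
      rw [map_smul, h2, smul_zero]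
    have hu1 : (u : V) = 0 := (Submodule.disjoint_def.mp hN.disjoint) _ hu0 u.2
    have hu2 : u = 0 := Subtype.ext hu1
    have h6 := Fintype.linearIndependent_iff.mp b.linearIndependent v hu2
    exact hv0 (funext h6)
  · simpa using h1

section

set_option linter.unusedSectionVars false

variable {L : Type} [LieRing L] [LieAlgebra ℂ L] {h : ℕ}

/-- The shift of a sequence. -/
def sh (p : Fin (h + 1) → L) : Fin (h + 1) → L := Fin.cons 0 fun i => p i.castSucc

lemma sh_zero (p : Fin (h + 1) → L) : sh p 0 = 0 := rfl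

lemma sh_succ (p : Fin (h + 1) → L) (i : Fin h) : sh p i.succ = p i.castSucc := rfl

lemma sh_add (p q : Fin (h + 1) → L) (i : Fin (h + 1)) : sh (p + q) i = sh p i + sh q i := by
  refine Fin.cases ?_ (fun i => ?_) i
  · rw [sh_zero, sh_zero, sh_zero, add_zero]
  · rfl

lemma sh_smul (r : ℂ) (p : Fin (h + 1) → L) (i : Fin (h + 1)) : sh (r • p) i = r • sh p i := by
  refine Fin.cases ?_ (fun i => ?_) i
  · rw [sh_zero, sh_zero, smul_zero]
  · rfl

/-- The chains. -/
def Ck (y a : Module.Dual ℂ L) (h : ℕ) : Submodule ℂ (Fin (h + 1) → L) where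
  carrier := {p | ∀ i, ∀ v : L, y ⁅p i, v⁆ + a ⁅sh p i, v⁆ = 0}
  add_mem' := fun {p q} hp hq i v => by
    rw [Pi.add_apply, sh_add, add_lie, add_lie, map_add, map_add]
    linear_combination hp i v + hq i v
  zero_mem' := fun i v => by
    have : sh (0 : Fin (h + 1) → L) i = 0 := by
      refine Fin.cases rfl (fun i => rfl) i
    rw [this, Pi.zero_apply, zero_lie, map_zero, map_zero, add_zero]
  smul_mem' := fun r p hp i v => by
    rw [Pi.smul_apply, sh_smul, smul_lie, smul_lie, map_smul, map_smul, ← smul_add, hp i v,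
      smul_zero]

lemma mem_Ck' {y a : Module.Dual ℂ L} {p : Fin (h + 1) → L} (hp : p ∈ Ck y a h) (i : Fin (h + 1))
    (v : L) : y ⁅v, p i⁆ + a ⁅v, sh p i⁆ = 0 := by
  rw [← lie_skew, ← lie_skew v (sh p i), map_neg, map_neg, ← neg_add, hp i v, neg_zero]

/-- The top coefficient of the bracket. -/
def tb (p q : Fin (h + 1) → L) : L := ∑ i, ⁅p i, q (Fin.rev i)⁆

lemma tb_skew (p q : Fin (h + 1) → L) : tb p q = - tb q p := by
  unfold tb
  rw [← Finset.sum_neg_distrib]
  refine Fintype.sum_equiv Fin.revPerm _ _ fun i => ?_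
  rw [Fin.revPerm_apply, Fin.rev_rev, lie_skew]

lemma sh_adj {M : Type} [AddCommMonoid M] (F : L → L → M) (h1 : ∀ v, F 0 v = 0)
    (h2 : ∀ v, F v 0 = 0) (p q : Fin (h + 1) → L) :
    ∑ i, F (sh p i) (q (Fin.rev i)) = ∑ i, F (p i) (sh q (Fin.rev i)) := by
  rw [Fin.sum_univ_succ, Fin.sum_univ_castSucc, sh_zero, h1, zero_add, Fin.rev_last, sh_zero, h2,
    add_zero]
  refine Finset.sum_congr rfl fun i _ => ?_
  rw [sh_succ, Fin.rev_succ, Fin.rev_castSucc, sh_succ]

/-- The form on sequences. -/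
noncomputable def Tf (y a : Module.Dual ℂ L) (h : ℕ) :
    (Fin (h + 1) → L) →ₗ[ℂ] (Fin (h + 1) → L) →ₗ[ℂ] ℂ :=
  LinearMap.mk₂ ℂ (fun p q => ∑ i, (y ⁅p i, q (Fin.rev i)⁆ + a ⁅sh p i, q (Fin.rev i)⁆))
    (fun p p' q => by
      rw [← Finset.sum_add_distrib]
      refine Finset.sum_congr rfl fun i _ => ?_
      rw [Pi.add_apply, sh_add, add_lie, add_lie, map_add, map_add]; ring)
    (fun r p q => by
      rw [Finset.smul_sum]
      refine Finset.sum_congr rfl fun i _ => ?_
      rw [Pi.smul_apply, sh_smul, smul_lie, smul_lie, map_smul, map_smul, smul_add])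
    (fun p q q' => by
      rw [← Finset.sum_add_distrib]
      refine Finset.sum_congr rfl fun i _ => ?_
      rw [Pi.add_apply, lie_add, lie_add, map_add, map_add]; ring)
    (fun r p q => by
      rw [Finset.smul_sum]
      refine Finset.sum_congr rfl fun i _ => ?_
      rw [Pi.smul_apply, lie_smul, lie_smul, map_smul, map_smul, smul_add])

lemma Tf_apply (y a : Module.Dual ℂ L) (p q : Fin (h + 1) → L) :
    Tf y a h p q = ∑ i, (y ⁅p i, q (Fin.rev i)⁆ + a ⁅sh p i, q (Fin.rev i)⁆) := rfl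

lemma Tf_skew (y a : Module.Dual ℂ L) (p q : Fin (h + 1) → L) :
    Tf y a h p q = - Tf y a h q p := by
  rw [Tf_apply, Tf_apply, Finset.sum_add_distrib, Finset.sum_add_distrib,
    sh_adj (fun u v => a ⁅u, v⁆) (fun v => by rw [zero_lie, map_zero])
      (fun v => by rw [lie_zero, map_zero]), neg_add, ← Finset.sum_neg_distrib,
    ← Finset.sum_neg_distrib]
  congr 1
  · refine Fintype.sum_equiv Fin.revPerm _ _ fun i => ?_
    rw [Fin.revPerm_apply, Fin.rev_rev, ← map_neg, lie_skew]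
  · refine Fintype.sum_equiv Fin.revPerm _ _ fun i => ?_
    rw [Fin.revPerm_apply, Fin.rev_rev, ← map_neg, lie_skew]

lemma ker_Tf (y a : Module.Dual ℂ L) : LinearMap.ker (Tf y a h) = Ck y a h := by
  classical
  ext p
  rw [LinearMap.mem_ker]
  constructor
  · intro hp i v
    have h1 := LinearMap.congr_fun hp (Pi.single (Fin.rev i) v)
    rw [Tf_apply, LinearMap.zero_apply, Finset.sum_eq_single i] at h1
    · simpa using h1
    · intro j _ hj
      have : Fin.rev j ≠ Fin.rev i := fun e => hj (Fin.rev_injective e)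
      rw [Pi.single_eq_of_ne this, lie_zero, lie_zero, map_zero, map_zero, add_zero]
    · intro hi; exact absurd (Finset.mem_univ _) hi
  · intro hp
    refine LinearMap.ext fun q => ?_
    rw [Tf_apply, LinearMap.zero_apply]
    exact Finset.sum_eq_zero fun i _ => hp i _

lemma var_chain [FiniteDimensional ℂ L] {y z a : Module.Dual ℂ L}
    (H : ∀ᶠ s in 𝓝[≠] (0 : ℂ), Module.finrank ℂ (Ck y a h) ≤
      Module.finrank ℂ (Ck (y + s • z) a h))
    {p q : Fin (h + 1) → L} (hp : p ∈ Ck y a h) (hq : q ∈ Ck y a h) : z (tb p q) = 0 := by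
  have h0 : ∀ s : ℂ, Tf y a h + s • Tf z 0 h = Tf (y + s • z) a h := by
    intro s
    refine LinearMap.ext fun p => LinearMap.ext fun q => ?_
    rw [LinearMap.add_apply, LinearMap.add_apply, LinearMap.smul_apply, LinearMap.smul_apply,
      Tf_apply, Tf_apply, Tf_apply, Finset.smul_sum, ← Finset.sum_add_distrib]
    refine Finset.sum_congr rfl fun i _ => ?_
    simp only [LinearMap.add_apply, LinearMap.smul_apply, LinearMap.zero_apply, smul_eq_mul]
    ring
  have h1 := var_form (Tf y a h) (Tf z 0 h) (Tf_skew y a) (by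
    filter_upwards [H] with s hs
    rw [h0, ker_Tf, ker_Tf]
    exact hs) (η := p) (ζ := q) (by rw [← LinearMap.mem_ker, ker_Tf]; exact hp)
    (by rw [← LinearMap.mem_ker, ker_Tf]; exact hq)
  rw [Tf_apply] at h1
  unfold tb
  rw [map_sum, ← h1]
  refine Finset.sum_congr rfl fun i _ => ?_
  rw [LinearMap.zero_apply, add_zero]

/-- The bracket of two chains. -/
lemma J1 {y a : Module.Dual ℂ L} {p q : Fin (h + 1) → L} (hp : p ∈ Ck y a h)
    (hq : q ∈ Ck y a h) (ξ : L) : y ⁅ξ, tb p q⁆ + a ⁅ξ, tb (sh p) q⁆ = 0 := by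
  unfold tb
  rw [lie_sum, lie_sum, map_sum, map_sum, ← Finset.sum_add_distrib]
  have e1 : ∀ i, y ⁅ξ, ⁅p i, q (Fin.rev i)⁆⁆ + a ⁅ξ, ⁅sh p i, q (Fin.rev i)⁆⁆ =
      y ⁅⁅ξ, p i⁆, q (Fin.rev i)⁆ + a ⁅⁅ξ, sh p i⁆, q (Fin.rev i)⁆ := by
    intro i
    rw [leibniz_lie, leibniz_lie ξ (sh p i), map_add, map_add]
    linear_combination hp i ⁅ξ, q (Fin.rev i)⁆
  rw [Finset.sum_congr rfl fun i _ => e1 i, Finset.sum_add_distrib]
  let P : Fin (h + 1) → L := fun i => ⁅ξ, p i⁆
  have e2 : ∀ i, ⁅ξ, sh p i⁆ = sh P i := by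
    intro i
    refine Fin.cases ?_ (fun i => ?_) i
    · rw [sh_zero, sh_zero, lie_zero]
    · rfl
  have e3 : ∑ i, a ⁅⁅ξ, sh p i⁆, q (Fin.rev i)⁆ = ∑ i, a ⁅P i, sh q (Fin.rev i)⁆ := by
    rw [← sh_adj (fun u v => a ⁅u, v⁆) (fun v => by rw [zero_lie, map_zero])
      (fun v => by rw [lie_zero, map_zero])]
    exact Finset.sum_congr rfl fun i _ => by rw [e2]
  rw [e3, ← Finset.sum_add_distrib]
  exact Finset.sum_eq_zero fun i _ => mem_Ck' hq _ _

/-- The value of a sequence. -/
noncomputable def vl (p : Fin (h + 1) → L) (t : ℂ) : L := ∑ i : Fin (h + 1), t ^ (i : ℕ) • p i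

lemma vl_pair {y a : Module.Dual ℂ L} {p : Fin (h + 1) → L} (hp : p ∈ Ck y a h) (t : ℂ) (v : L) :
    (y + t • a) ⁅vl p t, v⁆ = t ^ (h + 1) * a ⁅p (Fin.last h), v⁆ := by
  unfold vl
  rw [sum_lie, map_sum]
  have e1 : ∀ i : Fin (h + 1), (y + t • a) ⁅t ^ (i : ℕ) • p i, v⁆ =
      t ^ ((i : ℕ) + 1) * a ⁅p i, v⁆ - t ^ (i : ℕ) * a ⁅sh p i, v⁆ := by
    intro i
    rw [smul_lie, map_smul, LinearMap.add_apply, LinearMap.smul_apply, smul_eq_mul, smul_eq_mul]
    linear_combination t ^ (i : ℕ) * hp i v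
  rw [Finset.sum_congr rfl fun i _ => e1 i, Finset.sum_sub_distrib, Fin.sum_univ_castSucc,
    Fin.sum_univ_succ (f := fun i : Fin (h + 1) => t ^ (i : ℕ) * a ⁅sh p i, v⁆), sh_zero,
    zero_lie, map_zero, mul_zero, zero_add]
  have e2 : ∀ i : Fin h, t ^ ((i.succ : Fin (h + 1)) : ℕ) * a ⁅sh p i.succ, v⁆ =
      t ^ (((i.castSucc : Fin (h + 1)) : ℕ) + 1) * a ⁅p i.castSucc, v⁆ := by
    intro i
    rw [sh_succ]
    rfl
  rw [Finset.sum_congr rfl fun i _ => e2 i, Fin.val_last]
  ring

/-- The polynomial `φ [q(t), r(t)]`. -/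
noncomputable def pol (φ : Module.Dual ℂ L) (q r : Fin (h + 1) → L) : Polynomial ℂ :=
  ∑ i : Fin (h + 1), ∑ j : Fin (h + 1),
    Polynomial.C (φ ⁅q i, r j⁆) * Polynomial.X ^ ((i : ℕ) + (j : ℕ))

lemma pol_eval (φ : Module.Dual ℂ L) (q r : Fin (h + 1) → L) (t : ℂ) :
    (pol φ q r).eval t = φ ⁅vl q t, vl r t⁆ := by
  unfold pol vl
  rw [Polynomial.eval_finsetSum, sum_lie, map_sum]
  refine Finset.sum_congr rfl fun i _ => ?_
  rw [Polynomial.eval_finsetSum, lie_sum, map_sum]
  refine Finset.sum_congr rfl fun j _ => ?_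
  rw [smul_lie, lie_smul, map_smul, map_smul]
  simp only [Polynomial.eval_mul, Polynomial.eval_C, Polynomial.eval_pow, Polynomial.eval_X,
    smul_eq_mul]
  ring

lemma pol_coeff (φ : Module.Dual ℂ L) (q r : Fin (h + 1) → L) :
    (pol φ q r).coeff h = φ (tb q r) := by
  unfold pol tb
  rw [Polynomial.finsetSum_coeff, map_sum]
  refine Finset.sum_congr rfl fun i _ => ?_
  rw [Polynomial.finsetSum_coeff, Finset.sum_eq_single (Fin.rev i)]
  · rw [Polynomial.coeff_C_mul, Polynomial.coeff_X_pow, if_pos, mul_one]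
    have := i.2
    rw [Fin.val_rev]
    omega
  · intro j _ hj
    rw [Polynomial.coeff_C_mul, Polynomial.coeff_X_pow, if_neg, mul_zero]
    intro e
    apply hj
    apply Fin.ext
    rw [Fin.val_rev]
    omega
  · intro e; exact absurd (Finset.mem_univ _) e

/-- The Jacobi identity for three chains. -/
lemma J2 {y a : Module.Dual ℂ L} {p q r : Fin (h + 1) → L} (hp : p ∈ Ck y a h)
    (hq : q ∈ Ck y a h) (hr : r ∈ Ck y a h) :
    a ⁅p (Fin.last h), tb q r⁆ + a ⁅q (Fin.last h), tb r p⁆ + a ⁅r (Fin.last h), tb p q⁆ = 0 := by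
  let ph : L → Module.Dual ℂ L := fun v => bl a v
  let P : Polynomial ℂ := pol (ph (p (Fin.last h))) q r + pol (ph (q (Fin.last h))) r p +
    pol (ph (r (Fin.last h))) p q
  have hP : P = 0 := by
    refine Polynomial.eq_zero_of_infinite_isRoot P ?_
    refine (Set.finite_singleton (0 : ℂ)).infinite_compl.mono fun t ht => ?_
    have ht0 : t ≠ 0 := ht
    show P.eval t = 0
    have j := congrArg (y + t • a) (lie_jacobi (vl p t) (vl q t) (vl r t))
    rw [map_add, map_add, vl_pair hp, vl_pair hq, vl_pair hr, map_zero, ← mul_add, ← mul_add] at j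
    have j2 := (mul_eq_zero.mp j).resolve_left (pow_ne_zero _ ht0)
    simp only [P, Polynomial.eval_add, pol_eval]
    exact j2
  have h1 := congrArg (fun Q : Polynomial ℂ => Q.coeff h) hP
  simp only [P, Polynomial.coeff_add, pol_coeff, Polynomial.coeff_zero] at h1
  exact h1

/-- The consequences for an eigenvalue whose first variation is a vector `u`. -/
lemma jac_chain {y a : Module.Dual ℂ L} {u : L}
    (hR : ∀ p ∈ Ck y a h, ∀ q ∈ Ck y a h, tb p q = a (tb p q) • u)
    {e1 f1 e2 f2 : Fin (h + 1) → L} (he1 : e1 ∈ Ck y a h) (hf1 : f1 ∈ Ck y a h)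
    (he2 : e2 ∈ Ck y a h) (hf2 : f2 ∈ Ck y a h) (hs1 : sh e1 ∈ Ck y a h)
    (h1 : a (tb e1 f1) ≠ 0) (h2 : a (tb e2 f2) ≠ 0) (h0 : a (tb (sh e1) f1) = 0)
    (h3 : a (tb e1 e2) = 0) (h4 : a (tb e1 f2) = 0)
    (h5 : a (tb f1 e2) = 0) (h6 : a (tb f1 f2) = 0) :
    u ∈ Kr y ∧ ∀ p ∈ Ck y a h, a ⁅p (Fin.last h), u⁆ = 0 := by
  have jid : ∀ p ∈ Ck y a h, ∀ q ∈ Ck y a h, ∀ r ∈ Ck y a h,
      a (tb q r) * a ⁅p (Fin.last h), u⁆ + a (tb r p) * a ⁅q (Fin.last h), u⁆ +
        a (tb p q) * a ⁅r (Fin.last h), u⁆ = 0 := by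
    intro p hp q hq r hr
    have j := J2 hp hq hr
    rw [hR q hq r hr, hR r hr p hp, hR p hp q hq] at j
    simpa [lie_smul, map_smul] using j
  have s3 : a (tb e2 e1) = 0 := by rw [tb_skew, map_neg, h3, neg_zero]
  have s4 : a (tb f2 e1) = 0 := by rw [tb_skew, map_neg, h4, neg_zero]
  have c1 : a ⁅e2 (Fin.last h), u⁆ = 0 := by
    have := jid e2 he2 e1 he1 f1 hf1
    rw [h5, s3, zero_mul, zero_mul, add_zero, add_zero] at this
    exact (mul_eq_zero.mp this).resolve_left h1
  have c2 : a ⁅f2 (Fin.last h), u⁆ = 0 := by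
    have := jid f2 hf2 e1 he1 f1 hf1
    rw [h6, s4, zero_mul, zero_mul, add_zero, add_zero] at this
    exact (mul_eq_zero.mp this).resolve_left h1
  refine ⟨fun w => ?_, fun p hp => ?_⟩
  · have j := J1 he1 hf1 w
    rw [hR _ hs1 _ hf1, h0, zero_smul, lie_zero, map_zero, add_zero, hR _ he1 _ hf1, lie_smul,
      map_smul, smul_eq_mul] at j
    exact (mul_eq_zero.mp j).resolve_left h1
  · have := jid p hp e2 he2 f2 hf2
    rw [c1, c2, mul_zero, mul_zero, add_zero, add_zero] at this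
    exact (mul_eq_zero.mp this).resolve_left h2

end

end Pool.Agent.Helper55K1.JK
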