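import Pool.Agent.Helper55K1.JKBe1
import Pool.Agent.Helper55K1.JKBe3

/-!
Kernels and chains of a Lie–Poisson pencil in coordinates.
-/

namespace Pool.Agent.Helper55K1.JK

/-- The shift of a sequence of numbers. -/
def shc {h : ℕ} (b : Fin (h + 1) → ℂ) : Fin (h + 1) → ℂ := Fin.cons 0 fun i => b i.castSucc

lemma shc_zero' {h : ℕ} : shc (0 : Fin (h + 1) → ℂ) = 0 := by
  funext i
  refine Fin.cases rfl (fun i => rfl) i

lemma shc_it_zero {h : ℕ} (s : ℕ) : shc^[s] (0 : Fin (h + 1) → ℂ) = 0 :=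
  Function.iterate_fixed shc_zero' s

variable {L : Type} [LieRing L] [LieAlgebra ℂ L]

lemma map_sh {h : ℕ} (φ : L →ₗ[ℂ] ℂ) (p : Fin (h + 1) → L) (i : Fin (h + 1)) :
    φ (sh p i) = shc (fun i => φ (p i)) i := by
  refine Fin.cases ?_ (fun i => ?_) i
  · rw [sh_zero, map_zero]; rfl
  · rfl

lemma sh_mem {h : ℕ} {y a : Module.Dual ℂ L} {p : Fin (h + 1) → L} (hp : p ∈ Ck y a h) :
    sh p ∈ Ck y a h := by
  intro i v
  refine Fin.cases ?_ (fun i => ?_) i
  · rw [sh_zero, sh_zero, zero_lie, map_zero, map_zero, add_zero]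
  · rw [sh_succ, sh_succ]
    exact hp i.castSucc v

/-- The space of the parameters of the chains. -/
def Qs (m : ℕ) {n : ℕ} (T : Fin n → Prop) (d : Fin n → ℕ) (h : ℕ) :
    Submodule ℂ ((Fin m → Fin (h + 1) → ℂ) × (Fin n → Fin (h + 1) → ℂ) ×
      (Fin n → Fin (h + 1) → ℂ)) :=
  Submodule.span ℂ {z | ∀ j, (¬ T j → z.2.1 j = 0 ∧ z.2.2 j = 0) ∧ shc^[d j] (z.2.1 j) = 0 ∧
    shc^[d j] (z.2.2 j) = 0}

namespace Fq

variable {x a : Module.Dual ℂ L} {m n : ℕ} {k : Fin m → ℕ} {d : Fin n → ℕ}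
  (F : Fq (bl x) (bl a) k d)

lemma Ae' (i : Fin m) (s : Fin (k i)) (v : L) : x ⁅F.e i s, v⁆ = F.cf i s.castSucc v := F.Ae i s v
lemma Be' (i : Fin m) (s : Fin (k i)) (v : L) : a ⁅F.e i s, v⁆ = - F.cf i s.succ v := F.Be i s v
lemma Afc (i : Fin m) (s : Fin (k i)) (v : L) : x ⁅F.f i s.castSucc, v⁆ = - F.ce i s v :=
  F.Af i s v
lemma Afl (i : Fin m) (v : L) : x ⁅F.f i (Fin.last _), v⁆ = 0 := F.Af' i v
lemma Bfs (i : Fin m) (s : Fin (k i)) (v : L) : a ⁅F.f i s.succ, v⁆ = F.ce i s v :=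
  F.Bf i s v
lemma Bf0 (i : Fin m) (v : L) : a ⁅F.f i 0, v⁆ = 0 := F.Bf' i v
lemma AGj (j : Fin n) (s : ℕ) (v : L) : x ⁅F.G j s, v⁆ = F.μ j * F.CH j s v + F.CH j (s + 1) v :=
  F.AG j s v
lemma BGj (j : Fin n) (s : ℕ) (v : L) : a ⁅F.G j s, v⁆ = - F.CH j s v := F.BG j s v
lemma AHj (j : Fin n) (s : ℕ) (v : L) :
    x ⁅F.H j s, v⁆ = - (F.μ j * F.CG j s v + F.CG j (s + 1) v) := F.AH j s v
lemma BHj (j : Fin n) (s : ℕ) (v : L) : a ⁅F.H j s, v⁆ = F.CG j s v := F.BH j s v

lemma chain_iff {h : ℕ} (l : ℂ) (p : Fin (h + 1) → L) : p ∈ Ck (x + l • a) a h ↔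
    (∀ q i s, F.ce i s (p q) = 0) ∧
    (∀ q i (s : Fin (k i)), F.cf i s.castSucc (p q) =
      l * F.cf i s.succ (p q) + F.cf i s.succ (sh p q)) ∧
    (∀ q j s, (F.μ j - l) * F.CG j s (p q) + F.CG j (s + 1) (p q) = F.CG j s (sh p q)) ∧
    ∀ q j s, (F.μ j - l) * F.CH j s (p q) + F.CH j (s + 1) (p q) = F.CH j s (sh p q) := by
  constructor
  · intro hp
    have h0 : ∀ q, ∀ w : L, x ⁅w, p q⁆ + l * a ⁅w, p q⁆ + a ⁅w, sh p q⁆ = 0 :=
      fun q w => mem_Ck' hp q w
    refine ⟨fun q => ?_, fun q i s => ?_, fun q j s => ?_, fun q j s => ?_⟩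
    · have step : ∀ q, (∀ i s, F.ce i s (sh p q) = 0) → ∀ i s, F.ce i s (p q) = 0 := by
        intro q hq i
        suffices ∀ t : ℕ, ∀ ht : t < k i, F.ce i ⟨t, ht⟩ (p q) = 0 from fun s => this s s.2
        intro t
        induction t with
        | zero =>
          intro ht
          have h1 := h0 q (F.f i (⟨0, ht⟩ : Fin (k i)).castSucc)
          rw [F.Afc] at h1
          have h2 : (⟨0, ht⟩ : Fin (k i)).castSucc = 0 := rfl
          rw [h2, F.Bf0, F.Bf0] at h1
          linear_combination -h1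
        | succ t ih =>
          intro ht
          have h1 := h0 q (F.f i (⟨t + 1, ht⟩ : Fin (k i)).castSucc)
          rw [F.Afc] at h1
          have h2 : (⟨t + 1, ht⟩ : Fin (k i)).castSucc = (⟨t, by omega⟩ : Fin (k i)).succ := rfl
          rw [h2, F.Bfs, F.Bfs, ih, hq] at h1
          linear_combination -h1
      induction q using Fin.induction with
      | zero => exact step 0 fun i s => by rw [sh_zero, map_zero]
      | succ q ih => exact step _ fun i s => by rw [sh_succ]; exact ih i s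
    · have h1 := h0 q (F.e i s)
      rw [F.Ae', F.Be', F.Be'] at h1
      linear_combination h1
    · have h1 := h0 q (F.H j s)
      rw [F.AHj, F.BHj, F.BHj] at h1
      linear_combination -h1
    · have h1 := h0 q (F.G j s)
      rw [F.AGj, F.BGj, F.BGj] at h1
      linear_combination h1
  · rintro ⟨h1, h2, h3, h4⟩ q v
    have h1' : ∀ i s, F.ce i s (sh p q) = 0 := by
      intro i s
      refine Fin.cases ?_ (fun q => ?_) q
      · rw [sh_zero, map_zero]
      · rw [sh_succ]; exact h1 _ i s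
    have h5 : (bl (x + l • a)).flip (p q) + (bl a).flip (sh p q) = 0 := by
      refine F.ind _ (fun i s => ?_) (fun i s => ?_) (fun j s => ?_) (fun j s => ?_)
      · show x ⁅F.e i s, p q⁆ + l * a ⁅F.e i s, p q⁆ + a ⁅F.e i s, sh p q⁆ = 0
        rw [F.Ae', F.Be', F.Be', h2]; ring
      · show x ⁅F.f i s, p q⁆ + l * a ⁅F.f i s, p q⁆ + a ⁅F.f i s, sh p q⁆ = 0
        have e1 : x ⁅F.f i s, p q⁆ = 0 := by
          refine Fin.lastCases (motive := fun s => x ⁅F.f i s, p q⁆ = 0) ?_ (fun s => ?_) s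
          · exact F.Afl i _
          · rw [F.Afc, h1, neg_zero]
        have e2 : a ⁅F.f i s, p q⁆ = 0 := by
          refine Fin.cases (motive := fun s => a ⁅F.f i s, p q⁆ = 0) ?_ (fun s => ?_) s
          · exact F.Bf0 i _
          · rw [F.Bfs, h1]
        have e3 : a ⁅F.f i s, sh p q⁆ = 0 := by
          refine Fin.cases (motive := fun s => a ⁅F.f i s, sh p q⁆ = 0) ?_ (fun s => ?_) s
          · exact F.Bf0 i _
          · rw [F.Bfs, h1']
        rw [e1, e2, e3]; ring
      · show x ⁅F.G j s, p q⁆ + l * a ⁅F.G j s, p q⁆ + a ⁅F.G j s, sh p q⁆ = 0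
        rw [F.AGj, F.BGj, F.BGj]
        linear_combination h4 q j s
      · show x ⁅F.H j s, p q⁆ + l * a ⁅F.H j s, p q⁆ + a ⁅F.H j s, sh p q⁆ = 0
        rw [F.AHj, F.BHj, F.BHj]
        linear_combination -(h3 q j s)
    have h6 : (x + l • a) ⁅v, p q⁆ + a ⁅v, sh p q⁆ = 0 := LinearMap.congr_fun h5 v
    rw [← lie_skew, ← lie_skew (sh p q) v, map_neg, map_neg, ← neg_add, h6, neg_zero]

lemma aux_zero {h : ℕ} {T : ℕ → L →ₗ[ℂ] ℂ} {D : ℕ} (hT : ∀ s, D ≤ s → T s = 0) {ν : ℂ}
    (hν : ν ≠ 0) {p : Fin (h + 1) → L}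
    (hr : ∀ q s, ν * T s (p q) + T (s + 1) (p q) = T s (sh p q)) : ∀ q s, T s (p q) = 0 := by
  have step : ∀ q, (∀ s, T s (sh p q) = 0) → ∀ s, T s (p q) = 0 := by
    intro q hq
    have : ∀ r s, D ≤ s + r → T s (p q) = 0 := by
      intro r
      induction r with
      | zero => intro s hs; rw [hT s hs, LinearMap.zero_apply]
      | succ r ih =>
        intro s hs
        have h1 := hr q s
        rw [ih (s + 1) (by omega), hq, add_zero] at h1
        exact (mul_eq_zero.mp h1).resolve_left hν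
    exact fun s => this D s (by omega)
  intro q
  induction q using Fin.induction with
  | zero => exact step 0 fun s => by rw [sh_zero, map_zero]
  | succ q ih => exact step _ fun s => by rw [sh_succ]; exact ih s

lemma aux_it {h : ℕ} {T : ℕ → L →ₗ[ℂ] ℂ} {p : Fin (h + 1) → L}
    (hr : ∀ q s, T (s + 1) (p q) = T s (sh p q)) (s : ℕ) :
    (fun q => T s (p q)) = shc^[s] fun q => T 0 (p q) := by
  induction s with
  | zero => rfl
  | succ s ih =>
    rw [Function.iterate_succ_apply', ← ih]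
    funext q
    rw [hr, map_sh]

lemma Kr_iff (l : ℂ) (v : L) : v ∈ Kr (x + l • a) ↔
    (∀ i s, F.ce i s v = 0) ∧ (∀ i (s : Fin (k i)), F.cf i s.castSucc v = l * F.cf i s.succ v) ∧
    (∀ j s, (F.μ j - l) * F.CG j s v + F.CG j (s + 1) v = 0) ∧
    ∀ j s, (F.μ j - l) * F.CH j s v + F.CH j (s + 1) v = 0 := by
  have h0 : v ∈ Kr (x + l • a) ↔ (fun _ : Fin 1 => v) ∈ Ck (x + l • a) a 0 := by
    constructor
    · intro hv i w
      have : sh (fun _ : Fin 1 => v) i = 0 := by
        obtain rfl : i = 0 := @Subsingleton.elim (Fin 1) _ i 0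
        rfl
      rw [this, zero_lie, map_zero, add_zero]
      exact mem_Kr' hv w
    · intro hv w
      have h1 := hv 0 w
      rw [sh_zero, zero_lie, map_zero, add_zero] at h1
      rw [← lie_skew, map_neg, h1, neg_zero]
  rw [h0, F.chain_iff]
  have h2 : ∀ q, sh (fun _ : Fin 1 => v) q = 0 := fun q => by
    obtain rfl : q = 0 := @Subsingleton.elim (Fin 1) _ q 0
    rfl
  constructor
  · rintro ⟨h1, h3, h4, h5⟩
    refine ⟨h1 0, fun i s => ?_, fun j s => ?_, fun j s => ?_⟩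
    · rw [h3 0 i s, h2, map_zero, add_zero]
    · rw [h4 0 j s, h2, map_zero]
    · rw [h5 0 j s, h2, map_zero]
  · rintro ⟨h1, h3, h4, h5⟩
    refine ⟨fun _ => h1, fun q i s => ?_, fun q j s => ?_, fun q j s => ?_⟩
    · rw [h3 i s, h2, map_zero, add_zero]
    · rw [h4 j s, h2, map_zero]
    · rw [h5 j s, h2, map_zero]

lemma aux_top {T : ℕ → L →ₗ[ℂ] ℂ} {D : ℕ} (hT : ∀ s, D ≤ s → T s = 0) {ν : ℂ}
    (hν : ν ≠ 0) {v : L} (hr : ∀ s, ν * T s v + T (s + 1) v = 0) (s : ℕ) : T s v = 0 := by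
  have : ∀ r s, D ≤ s + r → T s v = 0 := by
    intro r
    induction r with
    | zero => intro s hs; rw [hT s hs, LinearMap.zero_apply]
    | succ r ih =>
      intro s hs
      have h1 := hr s
      rw [ih (s + 1) (by omega), add_zero] at h1
      exact (mul_eq_zero.mp h1).resolve_left hν
  exact this D s (by omega)

lemma finrank_Kr (hd : ∀ j, 0 < d j) (l : ℂ) : Module.finrank ℂ (Kr (x + l • a)) =
    m + 2 * (Finset.univ.filter fun j => F.μ j = l).card := by
  classical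
  let T := {j : Fin n // F.μ j = l}
  let Ψ : Kr (x + l • a) →ₗ[ℂ] (Fin m → ℂ) × (T → ℂ) × (T → ℂ) :=
    (LinearMap.pi fun i => (F.cf i (Fin.last _)).comp (Kr (x + l • a)).subtype).prod
      ((LinearMap.pi fun j : T => (F.CG j.1 0).comp (Kr (x + l • a)).subtype).prod
        (LinearMap.pi fun j : T => (F.CH j.1 0).comp (Kr (x + l • a)).subtype))
  have hinj : Function.Injective Ψ := by
    rw [injective_iff_map_eq_zero]
    rintro ⟨v, hv⟩ h0
    have h1 : ∀ i, F.cf i (Fin.last _) v = 0 := fun i =>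
      congrFun (congrArg Prod.fst h0) i
    have h2 : ∀ j : T, F.CG j.1 0 v = 0 := fun j =>
      congrFun (congrArg (fun p => p.2.1) h0) j
    have h3 : ∀ j : T, F.CH j.1 0 v = 0 := fun j =>
      congrFun (congrArg (fun p => p.2.2) h0) j
    obtain ⟨c1, c2, c3, c4⟩ := (F.Kr_iff l v).mp hv
    refine Subtype.ext (F.ext0 v c1 (fun i s => ?_) (fun j s => ?_) (fun j s => ?_))
    · refine Fin.reverseInduction (motive := fun s => F.cf i s v = 0) (h1 i) (fun s hs => ?_) s
      rw [c2, hs, mul_zero]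
    · by_cases hj : F.μ j = l
      · rcases s with _ | s
        · exact h2 ⟨j, hj⟩
        · have := c3 j s
          rw [hj, sub_self, zero_mul, zero_add] at this
          exact this
      · exact aux_top (F.CG0 j) (sub_ne_zero.mpr hj) (c3 j) s
    · by_cases hj : F.μ j = l
      · rcases s with _ | s
        · exact h3 ⟨j, hj⟩
        · have := c4 j s
          rw [hj, sub_self, zero_mul, zero_add] at this
          exact this
      · exact aux_top (F.CH0 j) (sub_ne_zero.mpr hj) (c4 j) s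
  have hsurj : Function.Surjective Ψ := by
    rintro ⟨α, β, γ⟩
    obtain ⟨v, v1, v2, v3, v4⟩ := F.mkv (fun i s => l ^ (k i - s) * α i)
      (fun j s => if hj : F.μ j = l ∧ s = 0 then β ⟨j, hj.1⟩ else 0)
      (fun j s => if hj : F.μ j = l ∧ s = 0 then γ ⟨j, hj.1⟩ else 0)
    have hG : ∀ j s, (F.μ j ≠ l ∨ s ≠ 0) → F.CG j s v = 0 := by
      intro j s hs
      by_cases hsd : s < d j
      · rw [v3 j s hsd, dif_neg]
        rintro ⟨h1, h2⟩
        rcases hs with h | h
        · exact h h1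
        · exact h h2
      · rw [F.CG0 j s (not_lt.mp hsd), LinearMap.zero_apply]
    have hH : ∀ j s, (F.μ j ≠ l ∨ s ≠ 0) → F.CH j s v = 0 := by
      intro j s hs
      by_cases hsd : s < d j
      · rw [v4 j s hsd, dif_neg]
        rintro ⟨h1, h2⟩
        rcases hs with h | h
        · exact h h1
        · exact h h2
      · rw [F.CH0 j s (not_lt.mp hsd), LinearMap.zero_apply]
    have hv : v ∈ Kr (x + l • a) := by
      rw [F.Kr_iff]
      refine ⟨v1, fun i s => ?_, fun j s => ?_, fun j s => ?_⟩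
      · rw [v2, v2, ← mul_assoc, ← pow_succ']
        have hs := s.2
        have : k i - (s.castSucc : ℕ) = k i - (s.succ : ℕ) + 1 := by
          simp only [Fin.val_castSucc, Fin.val_succ]; omega
        rw [this]
      · rw [hG j (s + 1) (Or.inr (Nat.succ_ne_zero s)), add_zero]
        by_cases hj : F.μ j = l
        · rw [hj, sub_self, zero_mul]
        · rw [hG j s (Or.inl hj), mul_zero]
      · rw [hH j (s + 1) (Or.inr (Nat.succ_ne_zero s)), add_zero]
        by_cases hj : F.μ j = l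
        · rw [hj, sub_self, zero_mul]
        · rw [hH j s (Or.inl hj), mul_zero]
    refine ⟨⟨v, hv⟩, ?_⟩
    refine Prod.ext (funext fun i => ?_) (Prod.ext (funext fun j => ?_) (funext fun j => ?_))
    · show F.cf i (Fin.last _) v = α i
      rw [v2, Fin.val_last, Nat.sub_self, pow_zero, one_mul]
    · show F.CG j.1 0 v = β j
      rw [v3 j.1 0 (hd _), dif_pos ⟨j.2, rfl⟩]
    · show F.CH j.1 0 v = γ j
      rw [v4 j.1 0 (hd _), dif_pos ⟨j.2, rfl⟩]
  have h1 := (LinearEquiv.ofBijective Ψ ⟨hinj, hsurj⟩).finrank_eq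
  rw [h1, Module.finrank_prod, Module.finrank_prod, Module.finrank_fintype_fun_eq_card,
    Module.finrank_fintype_fun_eq_card, Fintype.card_fin, Fintype.card_subtype]
  ring

end Fq

end Pool.Agent.Helper55K1.JK
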