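import Pool.Agent.Helper55K1.JKBe2

/-!
The dimension of the space of the chains, chains from the Jordan blocks, and the core.
-/

namespace Pool.Agent.Helper55K1.JK

/-- The sequences of the coordinates of a chain in a Kronecker block. -/
def Rk {h : ℕ} (l : ℂ) (α : Fin (h + 1) → ℂ) : ℕ → Fin (h + 1) → ℂ
  | 0 => α
  | r + 1 => fun i => l * Rk l α r i + shc (Rk l α r) i

variable {L : Type} [LieRing L] [LieAlgebra ℂ L]

namespace Fq

variable {x a : Module.Dual ℂ L} {m n : ℕ} {k : Fin m → ℕ} {d : Fin n → ℕ}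
  (F : Fq (bl x) (bl a) k d)

lemma finrank_Ck [FiniteDimensional ℂ L] (l : ℂ) (h : ℕ) :
    Module.finrank ℂ (Ck (x + l • a) a h) =
      Module.finrank ℂ (Qs m (fun j => F.μ j = l) d h) := by
  classical
  let C := Ck (x + l • a) a h
  let Ψ : C →ₗ[ℂ] (Fin m → Fin (h + 1) → ℂ) × (Fin n → Fin (h + 1) → ℂ) ×
      (Fin n → Fin (h + 1) → ℂ) :=
    (LinearMap.pi fun i => LinearMap.pi fun q =>
      ((F.cf i (Fin.last _)).comp (LinearMap.proj q)).comp C.subtype).prod
      ((LinearMap.pi fun j => LinearMap.pi fun q =>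
        ((F.CG j 0).comp (LinearMap.proj q)).comp C.subtype).prod
        (LinearMap.pi fun j => LinearMap.pi fun q =>
          ((F.CH j 0).comp (LinearMap.proj q)).comp C.subtype))
  have hΨ1 : ∀ (p : C) i q, (Ψ p).1 i q = F.cf i (Fin.last _) (p.1 q) := fun _ _ _ => rfl
  have hΨ2 : ∀ (p : C) j q, (Ψ p).2.1 j q = F.CG j 0 (p.1 q) := fun _ _ _ => rfl
  have hΨ3 : ∀ (p : C) j q, (Ψ p).2.2 j q = F.CH j 0 (p.1 q) := fun _ _ _ => rfl
  -- the coordinates of a chain
  have hc : ∀ p : C, ∀ j,
      (F.μ j ≠ l → (∀ q s, F.CG j s (p.1 q) = 0) ∧ ∀ q s, F.CH j s (p.1 q) = 0) ∧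
      (F.μ j = l → (∀ s, (fun q => F.CG j s (p.1 q)) = shc^[s] ((Ψ p).2.1 j)) ∧
        ∀ s, (fun q => F.CH j s (p.1 q)) = shc^[s] ((Ψ p).2.2 j)) := by
    rintro ⟨p, hp⟩ j
    obtain ⟨c1, c2, c3, c4⟩ := (F.chain_iff l p).mp hp
    refine ⟨fun hj => ⟨?_, ?_⟩, fun hj => ⟨?_, ?_⟩⟩
    · exact aux_zero (F.CG0 j) (sub_ne_zero.mpr hj) fun q s => c3 q j s
    · exact aux_zero (F.CH0 j) (sub_ne_zero.mpr hj) fun q s => c4 q j s
    · exact aux_it (T := F.CG j) fun q s => by
        have := c3 q j s
        rwa [hj, sub_self, zero_mul, zero_add] at this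
    · exact aux_it (T := F.CH j) fun q s => by
        have := c4 q j s
        rwa [hj, sub_self, zero_mul, zero_add] at this
  have hinj : Function.Injective Ψ := by
    rw [injective_iff_map_eq_zero]
    intro p h0
    obtain ⟨c1, c2, c3, c4⟩ := (F.chain_iff l p.1).mp p.2
    have z1 : ∀ i (s : Fin (k i + 1)), ∀ q, F.cf i s (p.1 q) = 0 := by
      intro i s
      refine Fin.reverseInduction (motive := fun s => ∀ q, F.cf i s (p.1 q) = 0) (fun q => ?_)
        (fun s hs q => ?_) s
      · rw [← hΨ1, h0]; rfl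
      · rw [c2, hs]
        have : F.cf i s.succ (sh p.1 q) = 0 := by
          refine Fin.cases ?_ (fun q => ?_) q
          · rw [sh_zero, map_zero]
          · rw [sh_succ]; exact hs _
        rw [this, mul_zero, add_zero]
    have z2 : ∀ j s q, F.CG j s (p.1 q) = 0 := by
      intro j s q
      by_cases hj : F.μ j = l
      · have h1 := congrFun (((hc p j).2 hj).1 s) q
        have h2 : (Ψ p).2.1 j = 0 := by rw [h0]; rfl
        rw [h2, shc_it_zero] at h1
        exact h1
      · exact ((hc p j).1 hj).1 q s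
    have z3 : ∀ j s q, F.CH j s (p.1 q) = 0 := by
      intro j s q
      by_cases hj : F.μ j = l
      · have h1 := congrFun (((hc p j).2 hj).2 s) q
        have h2 : (Ψ p).2.2 j = 0 := by rw [h0]; rfl
        rw [h2, shc_it_zero] at h1
        exact h1
      · exact ((hc p j).1 hj).2 q s
    refine Subtype.ext (funext fun q => ?_)
    exact F.ext0 _ (fun i s => c1 q i s) (fun i s => z1 i s q) (fun j s => z2 j s q)
      (fun j s => z3 j s q)
  have hrange : LinearMap.range Ψ = Qs m (fun j => F.μ j = l) d h := by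
    apply le_antisymm
    · rintro _ ⟨p, rfl⟩
      refine Submodule.subset_span fun j => ⟨fun hj => ?_, ?_, ?_⟩
      · exact ⟨funext fun q => ((hc p j).1 hj).1 q 0, funext fun q => ((hc p j).1 hj).2 q 0⟩
      · by_cases hj : F.μ j = l
        · rw [← ((hc p j).2 hj).1 (d j), F.CG0 j (d j) le_rfl]; rfl
        · have : (Ψ p).2.1 j = 0 := funext fun q => ((hc p j).1 hj).1 q 0
          rw [this, shc_it_zero]
      · by_cases hj : F.μ j = l
        · rw [← ((hc p j).2 hj).2 (d j), F.CH0 j (d j) le_rfl]; rfl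
        · have : (Ψ p).2.2 j = 0 := funext fun q => ((hc p j).1 hj).2 q 0
          rw [this, shc_it_zero]
    · refine Submodule.span_le.mpr ?_
      rintro ⟨α, β, γ⟩ hz
      have hz' : ∀ j, (¬ F.μ j = l → β j = 0 ∧ γ j = 0) ∧ shc^[d j] (β j) = 0 ∧
        shc^[d j] (γ j) = 0 := hz
      choose p p1 p2 p3 p4 using fun q : Fin (h + 1) => F.mkv
        (fun i s => Rk l (α i) (k i - s) q) (fun j s => shc^[s] (β j) q)
        (fun j s => shc^[s] (γ j) q)
      have big : ∀ (b : Fin (h + 1) → ℂ) (D : ℕ), shc^[D] b = 0 → ∀ s, D ≤ s → shc^[s] b = 0 := by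
        intro b D hb s hs
        obtain ⟨r, rfl⟩ := Nat.exists_eq_add_of_le hs
        rw [Nat.add_comm D r, Function.iterate_add_apply, hb, shc_it_zero]
      have g3 : ∀ q j s, F.CG j s (p q) = shc^[s] (β j) q := by
        intro q j s
        by_cases hs : s < d j
        · exact p3 q j s hs
        · rw [F.CG0 j s (not_lt.mp hs), LinearMap.zero_apply,
            big _ _ (hz' j).2.1 s (not_lt.mp hs)]; rfl
      have g4 : ∀ q j s, F.CH j s (p q) = shc^[s] (γ j) q := by
        intro q j s
        by_cases hs : s < d j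
        · exact p4 q j s hs
        · rw [F.CH0 j s (not_lt.mp hs), LinearMap.zero_apply,
            big _ _ (hz' j).2.2 s (not_lt.mp hs)]; rfl
      have hp : p ∈ Ck (x + l • a) a h := by
        rw [F.chain_iff]
        refine ⟨fun q i s => p1 q i s, fun q i s => ?_, fun q j s => ?_, fun q j s => ?_⟩
        · rw [map_sh, p2, p2]
          have hs := s.2
          have e1 : k i - (s.castSucc : ℕ) = k i - (s.succ : ℕ) + 1 := by
            simp only [Fin.val_castSucc, Fin.val_succ]; omega
          have e2 : (fun q => F.cf i s.succ (p q)) = Rk l (α i) (k i - (s.succ : ℕ)) :=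
            funext fun q => p2 q i _
          rw [e1, e2]
          rfl
        · rw [map_sh, g3, g3]
          have e2 : (fun q => F.CG j s (p q)) = shc^[s] (β j) := funext fun q => g3 q j s
          rw [e2, Function.iterate_succ_apply']
          by_cases hj : F.μ j = l
          · rw [hj, sub_self, zero_mul, zero_add]
          · rw [((hz' j).1 hj).1, shc_it_zero]
            simp [shc_zero']
        · rw [map_sh, g4, g4]
          have e2 : (fun q => F.CH j s (p q)) = shc^[s] (γ j) := funext fun q => g4 q j s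
          rw [e2, Function.iterate_succ_apply']
          by_cases hj : F.μ j = l
          · rw [hj, sub_self, zero_mul, zero_add]
          · rw [((hz' j).1 hj).2, shc_it_zero]
            simp [shc_zero']
      refine ⟨⟨p, hp⟩, Prod.ext (funext fun i => funext fun q => ?_)
        (Prod.ext (funext fun j => funext fun q => ?_) (funext fun j => funext fun q => ?_))⟩
      · rw [hΨ1]
        show F.cf i (Fin.last _) (p q) = α i q
        rw [p2, Fin.val_last, Nat.sub_self]
        rfl
      · rw [hΨ2]; exact g3 q j 0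
      · rw [hΨ3]; exact g4 q j 0
  rw [← hrange]
  exact (LinearMap.finrank_range_of_inj hinj).symm

/-- Chains from the vectors `G`. -/
lemma chG {h : ℕ} {j : Fin n} (hj : d j ≤ h + 1) :
    (fun q : Fin (h + 1) => F.G j (h - q)) ∈ Ck (x + F.μ j • a) a h := by
  intro q v
  have h1 : sh (fun q : Fin (h + 1) => F.G j (h - q)) q = F.G j (h - q + 1) := by
    refine Fin.cases ?_ (fun q => ?_) q
    · rw [sh_zero, F.G0 j _ (by simpa using hj)]
    · rw [sh_succ]
      have := q.2
      congr 1
      simp only [Fin.val_castSucc, Fin.val_succ]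
      omega
  rw [h1]
  show x ⁅F.G j (h - q), v⁆ + F.μ j * a ⁅F.G j (h - q), v⁆ + a ⁅F.G j (h - q + 1), v⁆ = 0
  rw [F.AGj, F.BGj, F.BGj]; ring

/-- Chains from the vectors `H`. -/
lemma chH {h : ℕ} {j : Fin n} (hj : d j ≤ h + 1) :
    (fun q : Fin (h + 1) => F.H j (h - q)) ∈ Ck (x + F.μ j • a) a h := by
  intro q v
  have h1 : sh (fun q : Fin (h + 1) => F.H j (h - q)) q = F.H j (h - q + 1) := by
    refine Fin.cases ?_ (fun q => ?_) q
    · rw [sh_zero, F.H0 j _ (by simpa using hj)]
    · rw [sh_succ]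
      have := q.2
      congr 1
      simp only [Fin.val_castSucc, Fin.val_succ]
      omega
  rw [h1]
  show x ⁅F.H j (h - q), v⁆ + F.μ j * a ⁅F.H j (h - q), v⁆ + a ⁅F.H j (h - q + 1), v⁆ = 0
  rw [F.AHj, F.BHj, F.BHj]; ring

/-- The span of the vectors `f`. -/
def core : Submodule ℂ L := Submodule.span ℂ (Set.range fun p : Σ i, Fin (k i + 1) => F.f p.1 p.2)

lemma core_finrank : Module.finrank ℂ F.core ≤ ∑ i, (k i + 1) := by
  refine (finrank_range_le_card _).trans ?_
  simp

lemma mem_core {h : ℕ} (l : ℂ) (hd : ∀ j, F.μ j = l → d j ≤ h + 1) {u : L}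
    (hu : u ∈ Kr (x + l • a))
    (hp : ∀ p ∈ Ck (x + l • a) a h, a ⁅p (Fin.last h), u⁆ = 0) : u ∈ F.core := by
  obtain ⟨c1, -, c3, c4⟩ := (F.Kr_iff l u).mp hu
  refine F.sp u c1 (fun j s => ?_) (fun j s => ?_)
  · by_cases hj : F.μ j = l
    · rcases s with _ | s
      · have h1 := hp _ (by rw [← hj]; exact F.chH (hd j hj))
        simp only [Fin.val_last, Nat.sub_self] at h1
        rwa [F.BHj] at h1
      · have := c3 j s
        rw [hj, sub_self, zero_mul, zero_add] at this
        exact this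
    · exact aux_top (F.CG0 j) (sub_ne_zero.mpr hj) (c3 j) s
  · by_cases hj : F.μ j = l
    · rcases s with _ | s
      · have h1 := hp _ (by rw [← hj]; exact F.chG (hd j hj))
        simp only [Fin.val_last, Nat.sub_self] at h1
        rw [F.BGj] at h1
        linear_combination -h1
      · have := c4 j s
        rw [hj, sub_self, zero_mul, zero_add] at this
        exact this
    · exact aux_top (F.CH0 j) (sub_ne_zero.mpr hj) (c4 j) s

include F in
/-- Kernel polynomials of degree at most one. -/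
lemma deg_one (hk1 : ∀ i, k i ≠ 1) (hk0 : ∀ i i', k i = 0 → k i' = 0 → i = i') {g0 g1 : L}
    (h0 : ∀ w : L, x ⁅w, g0⁆ = 0) (h01 : ∀ w : L, x ⁅w, g1⁆ + a ⁅w, g0⁆ = 0)
    (h1 : ∀ w : L, a ⁅w, g1⁆ = 0) (hne : g1 ≠ 0) : ∃ r : ℂ, g0 = r • g1 := by
  have e0 : ∀ i s, F.ce i s g0 = 0 := fun i s => by
    have := h0 (F.f i s.castSucc)
    rw [F.Afc] at this
    linear_combination -this
  have e1 : ∀ i s, F.ce i s g1 = 0 := fun i s => by
    have := h1 (F.f i s.succ)
    rwa [F.Bfs] at this
  have p0 : ∀ i (s : Fin (k i)), F.cf i s.castSucc g0 = 0 := fun i s => by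
    have := h0 (F.e i s)
    rwa [F.Ae'] at this
  have p1 : ∀ i (s : Fin (k i)), F.cf i s.succ g1 = 0 := fun i s => by
    have := h1 (F.e i s)
    rw [F.Be'] at this
    linear_combination -this
  have p01 : ∀ i (s : Fin (k i)), F.cf i s.castSucc g1 = F.cf i s.succ g0 := fun i s => by
    have := h01 (F.e i s)
    rw [F.Ae', F.Be'] at this
    linear_combination this
  have q1 : ∀ j s, F.CH j s g1 = 0 := fun j s => by
    have := h1 (F.G j s)
    rw [F.BGj] at this
    linear_combination -this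
  have q0 : ∀ j s, F.CH j s g0 = 0 := fun j s => by
    have := h01 (F.G j s)
    rw [F.AGj, F.BGj, q1, q1] at this
    linear_combination -this
  have r1 : ∀ j s, F.CG j s g1 = 0 := fun j s => by
    have := h1 (F.H j s)
    rwa [F.BHj] at this
  have r0 : ∀ j s, F.CG j s g0 = 0 := fun j s => by
    have := h01 (F.H j s)
    rw [F.AHj, F.BHj, r1, r1] at this
    linear_combination this
  have hbig : ∀ i, k i ≠ 0 → (∀ s, F.cf i s g0 = 0) ∧ ∀ s, F.cf i s g1 = 0 := by
    intro i hi
    have hi1 := hk1 i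
    have hlt : 1 < k i := by omega
    refine ⟨fun s => ?_, fun s => ?_⟩
    · refine Fin.lastCases (motive := fun s => F.cf i s g0 = 0) ?_ (fun s => p0 i s) s
      have h2 := p01 i ⟨k i - 1, by omega⟩
      have h3 : (⟨k i - 1, by omega⟩ : Fin (k i)).succ = Fin.last _ := Fin.ext (by simp; omega)
      have h4 : (⟨k i - 1, by omega⟩ : Fin (k i)).castSucc =
          (⟨k i - 2, by omega⟩ : Fin (k i)).succ := Fin.ext (by simp; omega)
      rw [h3, h4, p1] at h2
      exact h2.symm
    · refine Fin.cases (motive := fun s => F.cf i s g1 = 0) ?_ (fun s => p1 i s) s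
      have h2 := p01 i ⟨0, by omega⟩
      have h3 : (⟨0, by omega⟩ : Fin (k i)).castSucc = 0 := rfl
      have h4 : (⟨0, by omega⟩ : Fin (k i)).succ = (⟨1, by omega⟩ : Fin (k i)).castSucc := rfl
      rw [h3, h4, p0] at h2
      exact h2
  by_cases hex : ∃ i0, k i0 = 0
  · obtain ⟨i0, hi0⟩ := hex
    have hother : ∀ i, i ≠ i0 → k i ≠ 0 := fun i hi h => hi (hk0 i i0 h hi0)
    have hlast : ∀ s : Fin (k i0 + 1), s = 0 := fun s => Fin.ext (by
      have := s.2
      simp; omega)
    have hτ : F.cf i0 0 g1 ≠ 0 := by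
      intro hτ
      refine hne (F.ext0 g1 e1 (fun i s => ?_) r1 q1)
      by_cases hi : i = i0
      · subst hi; rw [hlast s]; exact hτ
      · exact (hbig i (hother i hi)).2 s
    refine ⟨F.cf i0 0 g0 / F.cf i0 0 g1, ?_⟩
    rw [← sub_eq_zero]
    refine F.ext0 _ (fun i s => ?_) (fun i s => ?_) (fun j s => ?_) (fun j s => ?_)
    · rw [map_sub, map_smul, e0, e1, smul_zero, sub_zero]
    · by_cases hi : i = i0
      · subst hi
        rw [hlast s, map_sub, map_smul, smul_eq_mul, div_mul_cancel₀ _ hτ, sub_self]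
      · rw [map_sub, map_smul, (hbig i (hother i hi)).1, (hbig i (hother i hi)).2, smul_zero,
          sub_zero]
    · rw [map_sub, map_smul, r0, r1, smul_zero, sub_zero]
    · rw [map_sub, map_smul, q0, q1, smul_zero, sub_zero]
  · push Not at hex
    exact absurd (F.ext0 g1 e1 (fun i s => (hbig i (hex i)).2 s) r1 q1) hne

end Fq

end Pool.Agent.Helper55K1.JK
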