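import Pool.Agent.Helper55K1.JKBe4
import Pool.Agent.Helper55K1.JKBd5

/-!
The obstruction for types with larger Kronecker blocks, the Jordan blocks being of any sizes.
-/

namespace Pool.Agent.Helper55K1.JK

open Filter Topology

section

variable {L : Type} [LieRing L] [LieAlgebra ℂ L]

set_option linter.unusedSectionVars false

/-- Two orthogonal hyperbolic pairs of chains. -/
def HypC (y a : Module.Dual ℂ L) (h : ℕ) : Prop :=
  ∃ e1 f1 e2 f2 : Fin (h + 1) → L, e1 ∈ Ck y a h ∧ f1 ∈ Ck y a h ∧ e2 ∈ Ck y a h ∧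
    f2 ∈ Ck y a h ∧ a (tb e1 f1) ≠ 0 ∧ a (tb e2 f2) ≠ 0 ∧ a (tb (sh e1) f1) = 0 ∧
    a (tb e1 e2) = 0 ∧ a (tb e1 f2) = 0 ∧ a (tb f1 e2) = 0 ∧ a (tb f1 f2) = 0

variable (G : Module.Dual ℂ L → Module.Dual ℂ L → Prop)
  (hG : ∀ x a w z, G x a → {s : ℂ | ¬ G (x + s • w) (a + s • z)}.Finite) (N N' h : ℕ)
  (μ : Module.Dual ℂ L → Module.Dual ℂ L → ℂ)
  (hμ : ∀ x a, G x a → Module.finrank ℂ (Kr (x + μ x a • a)) = N)
  (hμu : ∀ x a, G x a → ∀ l, Module.finrank ℂ (Kr (x + l • a)) = N → l = μ x a)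
  (hC : ∀ x a, G x a → Module.finrank ℂ (Ck (x + μ x a • a) a h) = N')

include hG hμ hμu hC

lemma local_uc [FiniteDimensional ℂ L] {a x : Module.Dual ℂ L} (hx : G x a)
    (hH : HypC (x + μ x a • a) a h) :
    ∃ u : L, a u = 1 ∧
      (∀ p ∈ Ck (x + μ x a • a) a h, ∀ q ∈ Ck (x + μ x a • a) a h, tb p q = a (tb p q) • u) ∧
      ∀ x', G x' a → μ x' a = μ x a - (x' - x) u := by
  obtain ⟨e1, f1, e2, f2, he1, hf1, -, -, h1, -⟩ := hH
  have key : ∀ w : Module.Dual ℂ L, ∃ β : ℂ,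
      (∀ s : ℂ, G (x + s • w) a → μ (x + s • w) a = μ x a + β * s) ∧
      ∀ p ∈ Ck (x + μ x a • a) a h, ∀ q ∈ Ck (x + μ x a • a) a h,
        w (tb p q) + β * a (tb p q) = 0 := by
    intro w
    obtain ⟨β, hβ⟩ := line_affine G hG N μ hμ hμu hx w
    refine ⟨β, hβ, fun p hp q hq => ?_⟩
    have hev : ∀ᶠ s in 𝓝[≠] (0 : ℂ), Module.finrank ℂ (Ck (x + μ x a • a) a h) ≤
        Module.finrank ℂ (Ck (x + μ x a • a + s • (w + β • a)) a h) := by
      have h2 := bad_fin G hG N μ hμ hμu hx w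
      have h3 : ∀ᶠ s in 𝓝 (0 : ℂ), G (x + s • w) a := by
        have h4 : {s : ℂ | ¬ G (x + s • w) a}ᶜ ∈ 𝓝 (0 : ℂ) := by
          refine h2.isClosed.isOpen_compl.mem_nhds ?_
          intro h5
          apply h5
          rw [zero_smul, add_zero]; exact hx
        filter_upwards [h4] with s hs
        by_contra h5
        exact hs h5
      filter_upwards [h3.filter_mono nhdsWithin_le_nhds] with s hs
      have h4 : x + μ x a • a + s • (w + β • a) = x + s • w + μ (x + s • w) a • a := by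
        rw [hβ s hs]; module
      rw [h4, hC _ _ hs, hC _ _ hx]
    exact var_chain hev hp hq
  let u : L := (a (tb e1 f1))⁻¹ • tb e1 f1
  have hau : a u = 1 := by
    show a ((a (tb e1 f1))⁻¹ • tb e1 f1) = 1
    rw [map_smul, smul_eq_mul, inv_mul_cancel₀ h1]
  have hβu : ∀ (w : Module.Dual ℂ L) (β : ℂ), (∀ p ∈ Ck (x + μ x a • a) a h,
      ∀ q ∈ Ck (x + μ x a • a) a h, w (tb p q) + β * a (tb p q) = 0) → β = - w u := by
    intro w β h2
    have h3 := h2 e1 he1 f1 hf1
    show β = - w ((a (tb e1 f1))⁻¹ • tb e1 f1)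
    rw [map_smul, smul_eq_mul]
    field_simp
    linear_combination h3
  refine ⟨u, hau, fun p hp q hq => ?_, fun x' hx' => ?_⟩
  · rw [← sub_eq_zero, ← Module.forall_dual_apply_eq_zero_iff ℂ]
    intro w
    obtain ⟨β, -, h2⟩ := key w
    have h3 := hβu w β h2
    have h4 := h2 p hp q hq
    rw [h3] at h4
    rw [map_sub, map_smul, smul_eq_mul]
    linear_combination h4
  · obtain ⟨β, h2, h3⟩ := key (x' - x)
    have h4 := hβu _ β h3
    have h5 : x + (1 : ℂ) • (x' - x) = x' := by module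
    have h6 := h2 1 (by rw [h5]; exact hx')
    rw [h5, h4] at h6
    linear_combination h6

theorem one_labelc [FiniteDimensional ℂ L] {a x0 : Module.Dual ℂ L} (hx0 : G x0 a)
    (hH : ∀ x, G x a → HypC (x + μ x a • a) a h) :
    ∃ u : L, a u = 1 ∧ ∀ x, G x a → μ x a = - x u ∧ u ∈ Kr (x + μ x a • a) ∧
      ∀ p ∈ Ck (x + μ x a • a) a h, a ⁅p (Fin.last h), u⁆ = 0 := by
  have hloc := fun x hx => local_uc G hG N N' h μ hμ hμu hC (x := x) (a := a) hx (hH x hx)
  have hne : ∀ x, G x a → ∀ w, ∃ s : ℂ, s ≠ 0 ∧ G (x + s • w) a := by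
    intro x hx w
    obtain ⟨s, hs, hs0⟩ := ((good_inf G hG N μ hμ hμu hx w).sdiff (Set.finite_singleton 0)).nonempty
    exact ⟨s, hs0, hs⟩
  obtain ⟨u, hu, -, hmu⟩ := hloc x0 hx0
  refine ⟨u, hu, fun x hx => ?_⟩
  obtain ⟨u', hu', hbr, hmu'⟩ := hloc x hx
  have huu : u' = u := by
    rw [← sub_eq_zero, ← Module.forall_dual_apply_eq_zero_iff ℂ]
    intro w
    obtain ⟨s, hs0, hs⟩ := hne x hx w
    have e1 := hmu _ hs
    have e2 := hmu' _ hs
    have e3 := hmu _ hx
    simp only [LinearMap.sub_apply, LinearMap.add_apply, LinearMap.smul_apply, smul_eq_mul]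
      at e1 e2 e3
    rw [map_sub]
    have e4 : s * (w u' - w u) = 0 := by linear_combination e2 - e1 + e3
    exact (mul_eq_zero.mp e4).resolve_left hs0
  subst huu
  have hscale : μ x a = - x u' := by
    have hfin : ({s : ℂ | G (x + s • x) a} \ ({0, -1} : Set ℂ)).Infinite :=
      (good_inf G hG N μ hμ hμu hx x).sdiff (Set.toFinite _)
    obtain ⟨s, hs, hs0⟩ := hfin.nonempty
    have hs0' : s ≠ 0 := fun h => hs0 (by simp [h])
    have hs1 : 1 + s ≠ 0 := fun h => hs0 (by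
      have : s = -1 := by linear_combination h
      simp [this])
    have e1 := hμu _ _ hs ((1 + s) * μ x a) (by
      have : x + s • x + ((1 + s) * μ x a) • a = (1 + s) • (x + μ x a • a) := by module
      rw [this, Kr_smul hs1]
      exact hμ x a hx)
    have e2 := hmu' _ hs
    simp only [LinearMap.sub_apply, LinearMap.add_apply, LinearMap.smul_apply, smul_eq_mul] at e2
    rw [← e1] at e2
    have e3 : s * (μ x a + x u') = 0 := by linear_combination e2
    have e4 := (mul_eq_zero.mp e3).resolve_left hs0'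
    linear_combination e4
  obtain ⟨e1, f1, e2, f2, he1, hf1, he2, hf2, h1, h2, h0, h3, h4, h5, h6⟩ := hH x hx
  exact ⟨hscale, jac_chain hbr he1 hf1 he2 hf2 (sh_mem he1) h1 h2 h0 h3 h4 h5 h6⟩

end

/-- Hyperbolic pairs of chains from two Jordan blocks. -/
lemma Fq.hyp {L : Type} [LieRing L] [LieAlgebra ℂ L] {x a : Module.Dual ℂ L} {m n : ℕ}
    {k : Fin m → ℕ} {d : Fin n → ℕ} (F : Fq (bl x) (bl a) k d) {h : ℕ} {i j : Fin n}
    (hij : i ≠ j) (hμ : F.μ j = F.μ i) (hi : d i = h + 1) (hj : d j = h + 1) :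
    HypC (x + F.μ i • a) a h := by
  have hrev : ∀ q : Fin (h + 1), h - ((Fin.rev q : Fin (h + 1)) : ℕ) = q := fun q => by
    have := q.2
    rw [Fin.val_rev]; omega
  have tGH : ∀ i' j' : Fin n, d i' = h + 1 → a (tb (fun q : Fin (h + 1) => F.G i' (h - q))
      (fun q => F.H j' (h - q))) = if i' = j' then -((h : ℂ) + 1) else 0 := by
    intro i' j' hi'
    unfold tb
    rw [map_sum]
    have e : ∀ q : Fin (h + 1), a ⁅F.G i' (h - q), F.H j' (h - (Fin.rev q : Fin (h + 1)))⁆ =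
        if i' = j' then -1 else 0 := by
      intro q
      have := q.2
      rw [hrev, F.BGj, F.HH]
      by_cases hh : i' = j'
      · rw [if_pos hh, if_pos ⟨hh, by omega⟩]
      · rw [if_neg hh, if_neg (fun e => hh e.1), neg_zero]
    rw [Finset.sum_congr rfl fun q _ => e q]
    split_ifs
    · simp
    · simp
  have tGG : ∀ i' j' : Fin n, a (tb (fun q : Fin (h + 1) => F.G i' (h - q))
      (fun q => F.G j' (h - q))) = 0 := by
    intro i' j'
    unfold tb
    rw [map_sum]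
    exact Finset.sum_eq_zero fun q _ => by rw [F.BGj, F.HG, neg_zero]
  have tHH : ∀ i' j' : Fin n, a (tb (fun q : Fin (h + 1) => F.H i' (h - q))
      (fun q => F.H j' (h - q))) = 0 := by
    intro i' j'
    unfold tb
    rw [map_sum]
    exact Finset.sum_eq_zero fun q _ => by rw [F.BHj, F.GH]
  have hne : -((h : ℂ) + 1) ≠ 0 := neg_ne_zero.mpr (by exact_mod_cast Nat.succ_ne_zero h)
  refine ⟨fun q => F.G i (h - q), fun q => F.H i (h - q), fun q => F.G j (h - q),
    fun q => F.H j (h - q), F.chG hi.le, F.chH hi.le, ?_, ?_, ?_, ?_, ?_, tGG _ _, ?_, ?_,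
    tHH _ _⟩
  · have := F.chG (h := h) hj.le
    rwa [hμ] at this
  · have := F.chH (h := h) hj.le
    rwa [hμ] at this
  · rw [tGH i i hi, if_pos rfl]; exact hne
  · rw [tGH j j hj, if_pos rfl]; exact hne
  · unfold tb
    rw [map_sum]
    refine Finset.sum_eq_zero fun q _ => ?_
    have h1 : sh (fun q : Fin (h + 1) => F.G i (h - q)) q = F.G i (h - q + 1) := by
      refine Fin.cases ?_ (fun q => ?_) q
      · rw [sh_zero, F.G0 i _ (by simpa using hi.le)]
      · rw [sh_succ]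
        have := q.2
        congr 1
        simp only [Fin.val_castSucc, Fin.val_succ]
        omega
    have := q.2
    rw [h1]
    show a ⁅F.G i (h - q + 1), F.H i (h - (Fin.rev q : Fin (h + 1)))⁆ = 0
    rw [hrev, F.BGj, F.HH, if_neg, neg_zero]
    rintro ⟨-, e⟩
    omega
  · rw [tGH i j hi, if_neg hij]
  · rw [tb_skew, map_neg, tGH j i hj, if_neg (Ne.symm hij), neg_zero]

end Pool.Agent.Helper55K1.JK
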