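import Pool.Agent.Helper55K1.JKFrame

/-!
The obstruction: at most one eigenvalue has a largest Jordan block which is not unique, if there is
exactly one Kronecker block and it has size one.
-/

namespace Pool.Agent.Helper55K1.JK

open Filter Topology Polynomial

section Poly

variable {V : Type} [AddCommGroup V] [Module ℂ V]

lemma aeval_eig (R : Module.End ℂ V) {g : V} {l : ℂ} (h : R g = l • g) (q : ℂ[X]) :
    aeval R q g = q.eval l • g := by
  have hp : ∀ j : ℕ, (R ^ j) g = l ^ j • g := by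
    intro j
    induction j with
    | zero => simp
    | succ j ih => rw [pow_succ', Module.End.mul_apply, ih, map_smul, h, smul_smul, pow_succ]
  rw [aeval_eq_sum_range, eval_eq_sum_range, LinearMap.sum_apply, Finset.sum_smul]
  refine Finset.sum_congr rfl fun j _ => ?_
  rw [LinearMap.smul_apply, hp, smul_smul]

/-- A polynomial killing a vector of height exactly `h` for `l` is divisible by `(X - l) ^ h`. -/
lemma dvd_of_kill (R : Module.End ℂ V) {v : V} {l : ℂ} {h : ℕ} (hh : 0 < h)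
    (h1 : aeval R ((X - C l) ^ h) v = 0) (h2 : aeval R ((X - C l) ^ (h - 1)) v ≠ 0)
    (q : ℂ[X]) (hq : aeval R q v = 0) : (X - C l) ^ h ∣ q := by
  by_cases hq0 : q = 0
  · rw [hq0]; exact dvd_zero _
  obtain ⟨r, hr, hr2⟩ := exists_eq_pow_rootMultiplicity_mul_and_not_dvd q hq0 l
  set k := q.rootMultiplicity l with hk
  by_contra hcon
  have hkh : k < h := by
    by_contra hle
    exact hcon ((pow_dvd_pow _ (not_lt.mp hle)).trans ⟨r, hr⟩)
  have hcop : IsCoprime ((X - C l) ^ h) r := by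
    refine IsCoprime.pow_left ?_
    exact (Irreducible.coprime_iff_not_dvd (irreducible_X_sub_C l)).mpr hr2
  obtain ⟨s, t, hst⟩ := hcop
  -- `(X - l) ^ k` kills `v`
  have h3 : aeval R ((X - C l) ^ k) v = 0 := by
    have e : (X - C l) ^ k = (s * (X - C l) ^ k) * (X - C l) ^ h + t * q := by
      rw [hr]
      calc (X - C l) ^ k = (X - C l) ^ k * (s * (X - C l) ^ h + t * r) := by rw [hst, mul_one]
        _ = _ := by ring
    rw [e, map_add, LinearMap.add_apply, map_mul, Module.End.mul_apply, h1, map_zero, zero_add,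
      map_mul, Module.End.mul_apply, hq, map_zero]
  apply h2
  have e2 : (X - C l) ^ (h - 1) = (X - C l) ^ (h - 1 - k) * (X - C l) ^ k := by
    rw [← pow_add]; congr 1; omega
  rw [e2, map_mul, Module.End.mul_apply, h3, map_zero]

end Poly

section Lab

variable {n : ℕ}

/-- The largest size for a label. -/
def hh (d c : Fin n → ℕ) (e : ℕ) : ℕ := (Finset.univ.filter fun j => c j = e).sup d

/-- The minimal polynomial for given eigenvalues. -/
noncomputable def mp (d c : Fin n → ℕ) (ν : ℕ → ℂ) : ℂ[X] :=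
  ∏ e ∈ Finset.univ.image c, (X - C (ν e)) ^ hh d c e

/-- Its degree. -/
def deg (d c : Fin n → ℕ) : ℕ := ∑ e ∈ Finset.univ.image c, hh d c e

lemma mp_monic (d c : Fin n → ℕ) (ν : ℕ → ℂ) : (mp d c ν).Monic :=
  monic_prod_of_monic _ _ fun e _ => (monic_X_sub_C (ν e)).pow _

lemma mp_natDegree (d c : Fin n → ℕ) (ν : ℕ → ℂ) : (mp d c ν).natDegree = deg d c := by
  unfold mp deg
  rw [natDegree_prod_of_monic _ _ fun e _ => (monic_X_sub_C (ν e)).pow _]
  refine Finset.sum_congr rfl fun e _ => ?_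
  rw [(monic_X_sub_C (ν e)).natDegree_pow, natDegree_X_sub_C, mul_one]

lemma d_le_hh (d c : Fin n → ℕ) (j : Fin n) : d j ≤ hh d c (c j) :=
  Finset.le_sup (f := d) (Finset.mem_filter.mpr ⟨Finset.mem_univ j, rfl⟩)

lemma dvd_mp (d c : Fin n → ℕ) (ν : ℕ → ℂ) (j : Fin n) : (X - C (ν (c j))) ^ d j ∣ mp d c ν :=
  (pow_dvd_pow _ (d_le_hh d c j)).trans
    (Finset.dvd_prod_of_mem _ (Finset.mem_image_of_mem c (Finset.mem_univ j)))

/-- Eigenvalues as a function of the labels. -/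
lemma exists_nu {c : Fin n → ℕ} {μ : Fin n → ℂ} (hμ : ∀ i j, μ i = μ j ↔ c i = c j) :
    ∃ ν : ℕ → ℂ, ∀ j, ν (c j) = μ j := by
  classical
  refine ⟨fun e => if h : ∃ j, c j = e then μ h.choose else 0, fun j => ?_⟩
  have h : ∃ i, c i = c j := ⟨j, rfl⟩
  simp only [dif_pos h]
  exact (hμ _ _).mpr h.choose_spec

end Lab

section Main

variable {L : Type} [LieRing L] [LieAlgebra ℂ L]

/-- The form `w [i u, i v]` as a map to the dual space. -/
def bf {V : Type} [AddCommGroup V] [Module ℂ V] (i : V →ₗ[ℂ] L) (w : Module.Dual ℂ L) :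
    V →ₗ[ℂ] Module.Dual ℂ V where
  toFun u :=
    { toFun := fun v => w ⁅i u, i v⁆
      map_add' := fun v v' => by simp
      map_smul' := fun r v => by simp }
  map_add' u u' := by ext v; simp
  map_smul' r u := by ext v; simp

/-- The data at a generic point. -/
lemma exists_dat [FiniteDimensional ℂ L] {x a : Module.Dual ℂ L} {n : ℕ} {d : Fin n → ℕ}
    (f : Fr x a d) (hc : ∀ ξ : L, ⁅f.z, ξ⁆ = 0) :
    ∃ D : Dat L (L ⧸ Submodule.span ℂ {f.z}), D.z = f.z ∧ D.a = a ∧
      ∀ v, (Submodule.span ℂ {f.z}).mkQ (D.i v) = v := by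
  classical
  have hex := (Submodule.span ℂ {f.z}).mkQ.exists_rightInverse_of_surjective
    (LinearMap.range_eq_top.mpr (Submodule.mkQ_surjective _))
  let i : (L ⧸ Submodule.span ℂ {f.z}) →ₗ[ℂ] L := hex.choose
  have hi : (Submodule.span ℂ {f.z}).mkQ.comp i = LinearMap.id := hex.choose_spec
  have hi1 : ∀ ξ : L, ∃ (v : L ⧸ Submodule.span ℂ {f.z}) (s : ℂ), ξ = i v + s • f.z := by
    intro ξ
    refine ⟨(Submodule.span ℂ {f.z}).mkQ ξ, ?_⟩
    have h1 : ξ - i ((Submodule.span ℂ {f.z}).mkQ ξ) ∈ Submodule.span ℂ {f.z} := by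
      have h0 : ξ - i ((Submodule.span ℂ {f.z}).mkQ ξ) ∈
          LinearMap.ker (Submodule.span ℂ {f.z}).mkQ := by
        rw [LinearMap.mem_ker, map_sub]
        have := LinearMap.congr_fun hi ((Submodule.span ℂ {f.z}).mkQ ξ)
        rw [LinearMap.comp_apply, LinearMap.id_apply] at this
        rw [this, sub_self]
      exact le_of_eq (Submodule.ker_mkQ _) h0
    obtain ⟨s, hs⟩ := Submodule.mem_span_singleton.mp h1
    exact ⟨s, by rw [hs]; abel⟩
  have hc' : ∀ ξ : L, ⁅ξ, f.z⁆ = 0 := fun ξ => by rw [← lie_skew, hc, neg_zero]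
  have hnd : ∀ u, (∀ v, a ⁅i u, i v⁆ = 0) → u = 0 := by
    intro u hu
    have h1 : ∀ η, a ⁅i u, η⁆ = 0 := by
      intro η
      obtain ⟨v, s, rfl⟩ := hi1 η
      rw [lie_add, lie_smul, hc', smul_zero, add_zero, hu]
    have h2 := f.kernel _ h1
    have h3 : (Submodule.span ℂ {f.z}).mkQ (i u) = 0 := by
      rw [← LinearMap.mem_ker, Submodule.ker_mkQ]
      exact h2
    have := LinearMap.congr_fun hi u
    rw [LinearMap.comp_apply, LinearMap.id_apply, h3] at this
    exact this.symm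
  let φ : (L ⧸ Submodule.span ℂ {f.z}) →ₗ[ℂ] Module.Dual ℂ (L ⧸ Submodule.span ℂ {f.z}) :=
    bf i a
  have hφ : Function.Injective φ := by
    rw [injective_iff_map_eq_zero]
    intro u hu
    exact hnd u fun v => LinearMap.congr_fun hu v
  have hφs : Function.Surjective φ :=
    (LinearMap.injective_iff_surjective_of_finrank_eq_finrank
      (by rw [Subspace.dual_finrank_eq])).mp hφ
  let e := LinearEquiv.ofBijective φ ⟨hφ, hφs⟩
  exact ⟨
    { z := f.z
      hz := hc
      i := i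
      hi := hi1
      a := a
      hnd := hnd
      R := fun w => - e.symm.toLinearMap.comp (bf i w)
      hR := by
        intro w u v
        rw [LinearMap.neg_apply, map_neg, neg_lie, map_neg]
        congr 1
        rw [LinearMap.comp_apply]
        have h1 : φ (e.symm (bf i w u)) = bf i w u := LinearEquiv.apply_symm_apply e _
        exact LinearMap.congr_fun h1 v }, rfl, rfl, fun v => LinearMap.congr_fun hi v⟩

section Rel

set_option linter.unusedSectionVars false

variable [FiniteDimensional ℂ L]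
variable {a : Module.Dual ℂ L} {z : L} (D : Dat L (L ⧸ Submodule.span ℂ {z})) (hDz : D.z = z)
  (hDa : D.a = a) (hDi : ∀ v, (Submodule.span ℂ {z}).mkQ (D.i v) = v)

include hDz hDa hDi

lemma i_mkQ (ξ : L) : ∃ s : ℂ, D.i ((Submodule.span ℂ {z}).mkQ ξ) = ξ + s • z := by
  have h0 : D.i ((Submodule.span ℂ {z}).mkQ ξ) - ξ ∈ LinearMap.ker (Submodule.span ℂ {z}).mkQ := by
    rw [LinearMap.mem_ker, map_sub, hDi, sub_self]
  obtain ⟨s, hs⟩ := Submodule.mem_span_singleton.mp (le_of_eq (Submodule.ker_mkQ _) h0)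
  exact ⟨s, by rw [hs]; abel⟩

lemma relR (y : Module.Dual ℂ L) (ξ ξ' : L) (h : ∀ η, y ⁅ξ, η⁆ = - a ⁅ξ', η⁆) :
    D.R y ((Submodule.span ℂ {z}).mkQ ξ) = (Submodule.span ℂ {z}).mkQ ξ' := by
  refine D.om_ext fun v => ?_
  unfold Dat.om
  rw [D.hR]
  obtain ⟨s, hs⟩ := i_mkQ D hDz hDa hDi ξ
  obtain ⟨s', hs'⟩ := i_mkQ D hDz hDa hDi ξ'
  have hz := D.hz
  rw [hDz] at hz
  rw [hs, hs', add_lie, add_lie, smul_lie, smul_lie, hz, smul_zero, add_zero, smul_zero, add_zero,
    h, neg_neg, hDa]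

variable {y : Module.Dual ℂ L} {n : ℕ} {d : Fin n → ℕ} (g : Fr y a d)

lemma chainE (j : Fin n) (i : ℕ) : ∀ s : ℕ,
    aeval (D.R y) ((X - C (g.μ j)) ^ i) ((Submodule.span ℂ {z}).mkQ (g.E j s)) =
      (Submodule.span ℂ {z}).mkQ (g.E j (s + i)) := by
  induction i with
  | zero => intro s; simp
  | succ i ih =>
    intro s
    have h1 := relR D hDz hDa hDi y (g.E j s) _ (g.relE j s)
    rw [pow_succ, map_mul, Module.End.mul_apply]
    have h2 : aeval (D.R y) (X - C (g.μ j)) ((Submodule.span ℂ {z}).mkQ (g.E j s)) =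
        (Submodule.span ℂ {z}).mkQ (g.E j (s + 1)) := by
      rw [map_sub, aeval_X, aeval_C, LinearMap.sub_apply, h1, Module.algebraMap_end_apply,
        map_add, map_smul]
      abel
    rw [h2, ih, show s + 1 + i = s + (i + 1) by omega]

lemma chainF (j : Fin n) (i : ℕ) : ∀ s : ℕ, s < d j →
    aeval (D.R y) ((X - C (g.μ j)) ^ i) ((Submodule.span ℂ {z}).mkQ (g.F j s)) =
      if i ≤ s then (Submodule.span ℂ {z}).mkQ (g.F j (s - i)) else 0 := by
  induction i with
  | zero => intro s _; simp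
  | succ i ih =>
    intro s hs
    have h1 := relR D hDz hDa hDi y (g.F j s) _ (g.relF j s hs)
    rw [pow_succ, map_mul, Module.End.mul_apply]
    have h2 : aeval (D.R y) (X - C (g.μ j)) ((Submodule.span ℂ {z}).mkQ (g.F j s)) =
        if s = 0 then 0 else (Submodule.span ℂ {z}).mkQ (g.F j (s - 1)) := by
      rw [map_sub, aeval_X, aeval_C, LinearMap.sub_apply, h1, Module.algebraMap_end_apply,
        map_add, map_smul]
      split_ifs
      · rw [map_zero]; abel
      · abel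
    rw [h2]
    by_cases h0 : s = 0
    · rw [if_pos h0, if_neg (by omega), map_zero]
    · rw [if_neg h0, ih _ (by omega)]
      by_cases h3 : i ≤ s - 1
      · rw [if_pos h3, if_pos (by omega), show s - 1 - i = s - (i + 1) by omega]
      · rw [if_neg h3, if_neg (by omega)]

lemma gz_zero (f : Fr y a d) {x : Module.Dual ℂ L} (g : Fr x a d) (hf : f.z = z) :
    (Submodule.span ℂ {z}).mkQ g.z = 0 := by
  have h1 := f.kernel g.z g.haz
  rw [hf] at h1
  rw [Submodule.mkQ_apply, Submodule.Quotient.mk_eq_zero]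
  exact h1

lemma kill (c : Fin n → ℕ) (ν : ℕ → ℂ) (hν : ∀ j, ν (c j) = g.μ j)
    (hgz : (Submodule.span ℂ {z}).mkQ g.z = 0) : aeval (D.R y) (mp d c ν) = 0 := by
  refine LinearMap.ext fun v => ?_
  obtain ⟨ξ, rfl⟩ := Submodule.mkQ_surjective _ v
  rw [LinearMap.zero_apply]
  have := g.ind (LinearMap.ker ((aeval (D.R y) (mp d c ν)).comp (Submodule.span ℂ {z}).mkQ))
    ?_ ?_ ?_ ξ
  · simpa using this
  · rw [LinearMap.mem_ker, LinearMap.comp_apply, hgz, map_zero]
  · intro j s _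
    rw [LinearMap.mem_ker, LinearMap.comp_apply]
    obtain ⟨r, hr⟩ := dvd_mp d c ν j
    rw [hr, hν, mul_comm, map_mul, Module.End.mul_apply, chainE D hDz hDa hDi g,
      g.hE0 j (s + d j) (by omega), map_zero, map_zero]
  · intro j s hs
    rw [LinearMap.mem_ker, LinearMap.comp_apply]
    obtain ⟨r, hr⟩ := dvd_mp d c ν j
    rw [hr, hν, mul_comm, map_mul, Module.End.mul_apply, chainF D hDz hDa hDi g j _ s hs,
      if_neg (by omega), map_zero]

lemma mkQ_ne_zero (hgz : g.z = z) {ξ η : L} (h : a ⁅ξ, η⁆ ≠ 0) :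
    (Submodule.span ℂ {z}).mkQ ξ ≠ 0 := by
  intro h0
  rw [Submodule.mkQ_apply, Submodule.Quotient.mk_eq_zero] at h0
  obtain ⟨s, hs⟩ := Submodule.mem_span_singleton.mp h0
  apply h
  rw [← hs, ← hgz, smul_lie, map_smul, g.haz, smul_zero]

/-- Minimality. -/
lemma minimal (c : Fin n → ℕ) (hc : ∀ i j, g.μ i = g.μ j ↔ c i = c j) (ν : ℕ → ℂ)
    (hν : ∀ j, ν (c j) = g.μ j) (hgz : g.z = z) (q : ℂ[X]) (hq : aeval (D.R y) q = 0) :
    mp d c ν ∣ q := by
  unfold mp
  refine Finset.prod_dvd_of_coprime ?_ ?_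
  · intro e he e' he' hee
    obtain ⟨i, -, rfl⟩ := Finset.mem_image.mp he
    obtain ⟨j, -, rfl⟩ := Finset.mem_image.mp he'
    have hne : ν (c i) ≠ ν (c j) := by
      rw [hν, hν]
      exact fun h => hee ((hc i j).mp h)
    exact (isCoprime_X_sub_C_of_isUnit_sub (sub_ne_zero.mpr hne).isUnit).pow
  · intro e he
    rcases Nat.eq_zero_or_pos (hh d c e) with h0 | h0
    · rw [h0, pow_zero]; exact one_dvd _
    · obtain ⟨i, -, hi⟩ := Finset.mem_image.mp he
      have hne : (Finset.univ.filter fun j => c j = e).Nonempty :=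
        ⟨i, Finset.mem_filter.mpr ⟨Finset.mem_univ _, hi⟩⟩
      obtain ⟨j, hj, hj2⟩ := Finset.exists_mem_eq_sup _ hne d
      have hcj : c j = e := (Finset.mem_filter.mp hj).2
      have hdj : hh d c e = d j := hj2
      have hνj : ν e = g.μ j := by rw [← hcj, hν]
      rw [hνj]
      refine dvd_of_kill (D.R y) (v := (Submodule.span ℂ {z}).mkQ (g.E j 0)) h0 ?_ ?_ q
        (by rw [hq, LinearMap.zero_apply])
      · rw [chainE D hDz hDa hDi g, g.hE0 j _ (by omega), map_zero]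
      · rw [chainE D hDz hDa hDi g]
        refine mkQ_ne_zero D hDz hDa hDi g hgz (η := g.F j (hh d c e - 1)) ?_
        rw [zero_add, g.aEF j _ _ (by omega) (by omega), if_pos rfl]
        norm_num

/-- The first variations of the minimal polynomial. -/
lemma variation {x : Module.Dual ℂ L} (g : Fr x a d) (c : Fin n → ℕ)
    (hc : ∀ i j, g.μ i = g.μ j ↔ c i = c j) (ν : ℕ → ℂ) (hν : ∀ j, ν (c j) = g.μ j)
    (hgz : g.z = z) (w : Module.Dual ℂ L)
    (H : ∀ᶠ t in 𝓝[≠] (0 : ℂ), ∃ g' : Fr (x + t • w) a d, ∀ i j, g'.μ i = g'.μ j ↔ c i = c j) :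
    ∃ q : ℂ[X], dv (mp d c ν).coeff (mp d c ν).natDegree (D.R x) (D.R w) =
      - aeval (D.R x) q := by
  have hDeg := mp_natDegree d c ν
  have hgz0 : (Submodule.span ℂ {z}).mkQ g.z = 0 := gz_zero D hDz hDa hDi g g hgz
  have hM : aeval (D.R x) (mp d c ν) = 0 := kill D hDz hDa hDi g c ν hν hgz0
  have hm1 : (mp d c ν).coeff (deg d c) = 1 := by
    rw [← hDeg]; exact (mp_monic d c ν)
  have hMv : Mv (mp d c ν).coeff (deg d c) (D.R x) = 0 := by
    rw [← hDeg, Mv_aeval, hM]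
  have hli : LinearIndependent ℂ fun j : Fin (deg d c) => (D.R x) ^ (j : ℕ) := by
    rw [Fintype.linearIndependent_iff]
    intro s hs
    let q : ℂ[X] := ∑ j : Fin (deg d c), C (s j) * X ^ (j : ℕ)
    have hq : aeval (D.R x) q = 0 := by
      simp only [q, map_sum, map_mul, aeval_C, map_pow, aeval_X,
        Algebra.algebraMap_eq_smul_one, smul_mul_assoc, one_mul]
      exact hs
    have hdvd := minimal D hDz hDa hDi g c hc ν hν hgz q hq
    have hq0 : q = 0 := by
      refine eq_zero_of_dvd_of_degree_lt hdvd ?_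
      rw [degree_eq_natDegree (mp_monic d c ν).ne_zero, hDeg]
      exact degree_sum_fin_lt _
    intro j
    have := congrArg (fun p : ℂ[X] => p.coeff (j : ℕ)) hq0
    simp only [q, finsetSum_coeff, coeff_C_mul, coeff_X_pow, coeff_zero] at this
    rw [Finset.sum_eq_single j] at this
    · simpa using this
    · intro i _ hij
      rw [if_neg (fun h => hij (Fin.ext h.symm)), mul_zero]
    · intro h; exact absurd (Finset.mem_univ j) h
  have hev : ∀ᶠ t in 𝓝[≠] (0 : ℂ), ∃ m' : Fin (deg d c) → ℂ,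
      (D.R x + t • D.R w) ^ (deg d c) + ∑ j, m' j • (D.R x + t • D.R w) ^ (j : ℕ) = 0 := by
    filter_upwards [H] with t ht
    obtain ⟨g', hg'⟩ := ht
    obtain ⟨ν', hν'⟩ := exists_nu hg'
    have h1 : D.R (x + t • w) = D.R x + t • D.R w := by rw [D.R_add, D.R_smul]
    have h2 := kill D hDz hDa hDi g' c ν' hν' (gz_zero D hDz hDa hDi g g' hgz)
    rw [h1, aeval_eq_sum_range, mp_natDegree, Finset.sum_range_succ,
      ← Fin.sum_univ_eq_sum_range
        (fun i => (mp d c ν').coeff i • (D.R x + t • D.R w) ^ i) (deg d c)] at h2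
    have h3 : (mp d c ν').coeff (deg d c) = 1 := by
      rw [← mp_natDegree d c ν']; exact (mp_monic d c ν')
    rw [h3, one_smul, add_comm] at h2
    exact ⟨fun j => (mp d c ν').coeff j, h2⟩
  have hspan := first_order (deg d c) (mp d c ν).coeff hm1 (D.R x) (D.R w) hMv hli hev
  rw [Submodule.mem_span_range_iff_exists_fun] at hspan
  obtain ⟨s, hs⟩ := hspan
  refine ⟨- ∑ j : Fin (deg d c), C (s j) * X ^ (j : ℕ), ?_⟩
  rw [hDeg, ← hs, map_neg, neg_neg, map_sum]
  refine Finset.sum_congr rfl fun j _ => ?_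
  rw [map_mul, aeval_C, map_pow, aeval_X, Algebra.algebraMap_eq_smul_one, smul_mul_assoc, one_mul]

end Rel

lemma Bp_map {E E' : Type*} [Ring E] [Algebra ℂ E] [Ring E'] [Algebra ℂ E'] (φ : E →ₐ[ℂ] E')
    (R : E) (l : ℂ) (j : ℕ) : φ (Bp R l j) = Bp (φ R) l j := by
  induction j with
  | zero => simp [Bp]
  | succ j ih => simp only [Bp, map_add, map_smul, ih, map_pow]

lemma Bv_poly {E : Type*} [Ring E] [Algebra ℂ E] (R : E) {M M0 : ℂ[X]} {l0 : ℂ} {h : ℕ}
    (hh : 0 < h) (hM : M = (X - C l0) ^ h * M0) :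
    Bv M.coeff M.natDegree R l0 = aeval R ((X - C l0) ^ (h - 1) * M0) := by
  have h1 : aeval R (Bv M.coeff M.natDegree (X : ℂ[X]) l0) = Bv M.coeff M.natDegree R l0 := by
    unfold Bv
    rw [map_sum]
    refine Finset.sum_congr rfl fun j _ => ?_
    rw [map_smul, Bp_map, aeval_X]
  rw [← h1]
  congr 1
  have h2 := mul_Bv M.coeff M.natDegree (X : ℂ[X]) l0
  rw [Mv_eval, Mv_aeval, aeval_X_left_apply] at h2
  have h3 : M.eval l0 = 0 := by
    rw [hM, eval_mul, eval_pow, eval_sub, eval_X, eval_C, sub_self, zero_pow (by omega), zero_mul]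
  rw [h3, zero_smul, zero_sub] at h2
  have h4 : (X - C l0) * Bv M.coeff M.natDegree (X : ℂ[X]) l0 =
      (X - C l0) * ((X - C l0) ^ (h - 1) * M0) := by
    have h5 : (X - C l0 : ℂ[X]) = -(l0 • 1 - X) := by
      rw [smul_eq_C_mul, mul_one]; ring
    have h6 : (X - C l0) * ((X - C l0) ^ (h - 1) * M0) = M := by
      rw [hM, ← mul_assoc, ← pow_succ']
      congr 2
      omega
    rw [h6, h5, neg_mul, h2, neg_neg]
  exact mul_left_cancel₀ (X_sub_C_ne_zero l0) h4

/-- An eigenvalue whose largest Jordan block is not unique is determined by `z`. -/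
theorem bad_at [FiniteDimensional ℂ L] {x a : Module.Dual ℂ L} {n : ℕ} {d : Fin n → ℕ}
    (f : Fr x a d) (c : Fin n → ℕ) (hc : ∀ i j, f.μ i = f.μ j ↔ c i = c j)
    (hcen : ∀ ξ : L, ⁅f.z, ξ⁆ = 0)
    (H : ∀ w : Module.Dual ℂ L, ∀ᶠ t in 𝓝[≠] (0 : ℂ),
      ∃ g' : Fr (x + t • w) a d, ∀ i j, g'.μ i = g'.μ j ↔ c i = c j)
    {i i' : Fin n} (hii : i ≠ i') (hcc : c i = c i') (hd : d i = hh d c (c i)) (hdd : d i = d i')
    (hpos : 0 < d i) : a f.z * f.μ i + x f.z = 0 := by
  classical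
  obtain ⟨D, hDz, hDa, hDi⟩ := exists_dat f hcen
  obtain ⟨ν, hν⟩ := exists_nu hc
  set l0 := f.μ i with hl0
  set h := d i with hh0
  let M0 : ℂ[X] := ∏ e ∈ (Finset.univ.image c).erase (c i), (X - C (ν e)) ^ hh d c e
  have hμi' : f.μ i' = l0 := ((hc i i').mpr hcc).symm
  have hM : mp d c ν = (X - C l0) ^ h * M0 := by
    unfold mp
    rw [← Finset.mul_prod_erase _ _ (Finset.mem_image_of_mem c (Finset.mem_univ i)), hν, ← hd]
  have hM0 : M0.eval l0 ≠ 0 := by
    simp only [M0, eval_prod, eval_pow, eval_sub, eval_X, eval_C]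
    rw [Finset.prod_ne_zero_iff]
    intro e he
    obtain ⟨hne, he'⟩ := Finset.mem_erase.mp he
    obtain ⟨j, -, rfl⟩ := Finset.mem_image.mp he'
    refine pow_ne_zero _ (sub_ne_zero.mpr ?_)
    rw [hν]
    intro h1
    exact hne ((hc i j).mp h1).symm
  have hfz : (Submodule.span ℂ {f.z}).mkQ f.z = 0 := gz_zero D hDz hDa hDi f f rfl
  have HE : D.Eig x (mp d c ν) M0 l0 h :=
    { hM := hM
      hM0 := hM0
      hMR := kill D hDz hDa hDi f c ν hν hfz
      hT := fun w => variation D hDz hDa hDi f c hc ν hν rfl w (H w) }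
  have hcen' : ∀ ξ : L, ⁅ξ, f.z⁆ = 0 := fun ξ => by rw [← lie_skew, hcen, neg_zero]
  have hom : ∀ ξ η : L, D.om ((Submodule.span ℂ {f.z}).mkQ ξ) ((Submodule.span ℂ {f.z}).mkQ η) =
      a ⁅ξ, η⁆ := by
    intro ξ η
    unfold Dat.om
    obtain ⟨s, hs⟩ := i_mkQ D hDz hDa hDi ξ
    obtain ⟨s', hs'⟩ := i_mkQ D hDz hDa hDi η
    rw [hs, hs', hDa, add_lie, lie_add, smul_lie, lie_smul, hcen, hcen', smul_zero, smul_zero,
      add_zero, add_zero]
  -- eigenvectors
  have hRE : ∀ j, f.μ j = l0 → d j = h → D.R x ((Submodule.span ℂ {f.z}).mkQ (f.E j (h - 1))) =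
      l0 • (Submodule.span ℂ {f.z}).mkQ (f.E j (h - 1)) := by
    intro j hj hj2
    have h1 := relR D hDz hDa hDi x (f.E j (h - 1)) _ (f.relE j (h - 1))
    rw [h1, f.hE0 j (h - 1 + 1) (by omega), add_zero, map_smul, hj]
  have hRF : ∀ j, f.μ j = l0 → d j = h → D.R x ((Submodule.span ℂ {f.z}).mkQ (f.F j 0)) =
      l0 • (Submodule.span ℂ {f.z}).mkQ (f.F j 0) := by
    intro j hj hj2
    have h1 := relR D hDz hDa hDi x (f.F j 0) _ (f.relF j 0 (by omega))
    rw [h1, if_pos rfl, add_zero, map_smul, hj]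
  have hBE : ∀ j, f.μ j = l0 → d j = h → Bv (mp d c ν).coeff (mp d c ν).natDegree (D.R x) l0
      ((Submodule.span ℂ {f.z}).mkQ (f.E j 0)) =
      M0.eval l0 • (Submodule.span ℂ {f.z}).mkQ (f.E j (h - 1)) := by
    intro j hj hj2
    have h1 := chainE D hDz hDa hDi f j (h - 1) 0
    rw [hj, zero_add] at h1
    rw [Bv_poly (D.R x) hpos hM, mul_comm, map_mul, Module.End.mul_apply, h1,
      aeval_eig _ (hRE j hj hj2)]
  have hBF : ∀ j, f.μ j = l0 → d j = h → Bv (mp d c ν).coeff (mp d c ν).natDegree (D.R x) l0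
      ((Submodule.span ℂ {f.z}).mkQ (f.F j (h - 1))) =
      M0.eval l0 • (Submodule.span ℂ {f.z}).mkQ (f.F j 0) := by
    intro j hj hj2
    have h1 := chainF D hDz hDa hDi f j (h - 1) (h - 1) (by omega)
    rw [hj, if_pos le_rfl, Nat.sub_self] at h1
    rw [Bv_poly (D.R x) hpos hM, mul_comm, map_mul, Module.End.mul_apply, h1,
      aeval_eig _ (hRF j hj hj2)]
  have hCE : ∀ j, f.μ j = l0 → d j = h → ∀ η, D.Cf x (mp d c ν) l0
      ((Submodule.span ℂ {f.z}).mkQ (f.E j 0)) ((Submodule.span ℂ {f.z}).mkQ η) =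
      M0.eval l0 * a ⁅f.E j (h - 1), η⁆ := by
    intro j hj hj2 η
    unfold Dat.Cf
    rw [hBE j hj hj2, D.om_smul_left, hom]
  have hCF : ∀ j, f.μ j = l0 → d j = h → ∀ η, D.Cf x (mp d c ν) l0
      ((Submodule.span ℂ {f.z}).mkQ (f.F j (h - 1))) ((Submodule.span ℂ {f.z}).mkQ η) =
      M0.eval l0 * a ⁅f.F j 0, η⁆ := by
    intro j hj hj2 η
    unfold Dat.Cf
    rw [hBF j hj hj2, D.om_smul_left, hom]
  have hai : a ⁅f.E i (h - 1), f.F i (h - 1)⁆ = -1 := by
    rw [f.aEF i _ _ (by omega) (by omega), if_pos rfl]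
  have hai' : a ⁅f.E i' (h - 1), f.F i' (h - 1)⁆ = -1 := by
    rw [f.aEF i' _ _ (by omega) (by omega), if_pos rfl]
  have hchE := chainE D hDz hDa hDi f i h 0
  rw [f.hE0 i (0 + h) (by omega), map_zero] at hchE
  have hchE2 := chainE D hDz hDa hDi f i (h - 1) 0
  rw [zero_add] at hchE2
  have key := D.bad_eigenvalue HE (e := (Submodule.span ℂ {f.z}).mkQ (f.E i 0))
    (f := (Submodule.span ℂ {f.z}).mkQ (f.F i (h - 1)))
    (e' := (Submodule.span ℂ {f.z}).mkQ (f.E i' 0))
    (f' := (Submodule.span ℂ {f.z}).mkQ (f.F i' (h - 1)))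
    (v := (Submodule.span ℂ {f.z}).mkQ (f.E i 0))
    (g := (Submodule.span ℂ {f.z}).mkQ (f.E i (h - 1))) (κ := (h : ℂ) * M0.eval l0)
    (by rw [hCE i rfl rfl, hai]; simpa using hM0)
    (by rw [hCE i' hμi' hdd.symm, hai']; simpa using hM0)
    (by rw [hCE i rfl rfl, (f.adiff i i' _ _ hii).1, mul_zero])
    (by rw [hCE i rfl rfl, (f.adiff i i' _ _ hii).2.1, mul_zero])
    (by rw [hCF i rfl rfl, (f.adiff i i' _ _ hii).2.2.1, mul_zero])
    (by rw [hCF i rfl rfl, (f.adiff i i' _ _ hii).2.2.2, mul_zero])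
    hchE ?_ (mul_ne_zero (Nat.cast_ne_zero.mpr (by omega)) hM0) ?_ (hRE i rfl rfl)
  · rw [hDa, hDz] at key
    exact key
  · have e1 : derivative (mp d c ν) = (C (h : ℂ) * M0) * (X - C l0) ^ (h - 1) +
        derivative M0 * (X - C l0) ^ h := by
      rw [hM, derivative_mul, derivative_X_sub_C_pow]
      ring
    rw [e1, map_add, LinearMap.add_apply, map_mul _ (derivative M0), Module.End.mul_apply, hchE,
      map_zero, add_zero, map_mul _ (C (h : ℂ) * M0), Module.End.mul_apply, hchE2,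
      aeval_eig _ (hRE i rfl rfl), eval_mul, eval_C]
  · exact mkQ_ne_zero D hDz hDa hDi f rfl (η := f.F i (h - 1)) (by rw [hai]; norm_num)

/-- The eigenvalue with the label `e` has a largest Jordan block which is not unique. -/
def Bad {n : ℕ} (d c : Fin n → ℕ) (e : ℕ) : Prop :=
  ∃ i i', i ≠ i' ∧ c i = e ∧ c i' = e ∧ d i = d i' ∧ 0 < d i ∧ ∀ j, c j = e → d j ≤ d i

end Main

/-- At most one eigenvalue has a largest Jordan block which is not unique. -/
theorem not_realised {n : ℕ} (d c : Fin n → ℕ) {e1 e2 : ℕ} (hne : e1 ≠ e2) (b1 : Bad d c e1)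
    (b2 : Bad d c e2) : ¬ Realised (fun _ : Fin 1 => 0) d c := by
  classical
  rintro ⟨L, _, _, J, _, b, p, hp, hgen⟩
  have : FiniteDimensional ℂ L := Module.Finite.of_basis b
  obtain ⟨ξ, hξ⟩ : ∃ ξ : J ⊕ J → ℂ, MvPolynomial.eval ξ p ≠ 0 := by
    by_contra hcon
    push Not at hcon
    exact hp (MvPolynomial.funext fun x => by rw [hcon x, map_zero])
  let x0 : Module.Dual ℂ L := b.constr ℂ fun j => ξ (Sum.inl j)
  let a : Module.Dual ℂ L := b.constr ℂ fun j => ξ (Sum.inr j)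
  let Gen : Module.Dual ℂ L → Prop := fun y =>
    MvPolynomial.eval (Sum.elim (fun j => y (b j)) fun j => a (b j)) p ≠ 0
  have hx0 : Gen x0 := by
    have : (Sum.elim (fun j => x0 (b j)) fun j => a (b j)) = ξ := by
      funext s
      rcases s with j | j
      · simp [x0]
      · simp [a]
    show MvPolynomial.eval _ p ≠ 0
    rw [this]
    exact hξ
  have hopen : ∀ y, Gen y → ∀ w : Module.Dual ℂ L, ∀ᶠ t in 𝓝 (0 : ℂ), Gen (y + t • w) := by
    intro y hy w
    have hcont : Continuous fun t : ℂ =>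
        MvPolynomial.eval (Sum.elim (fun j => (y + t • w) (b j)) fun j => a (b j)) p := by
      refine (MvPolynomial.continuous_eval p).comp (continuous_pi fun s => ?_)
      rcases s with j | j
      · simp only [Sum.elim_inl, LinearMap.add_apply, LinearMap.smul_apply, smul_eq_mul]
        exact continuous_const.add (continuous_id.mul continuous_const)
      · exact continuous_const
    refine hcont.continuousAt.eventually_ne ?_
    simpa using hy
  have hfr : ∀ y, Gen y → ∃ f : Fr y a d, ∀ i j, f.μ i = f.μ j ↔ c i = c j := fun y hy =>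
    exists_fr (hgen y a hy)
  have hcen : ∀ y, Gen y → ∀ f : Fr y a d, ∀ ξ : L, ⁅f.z, ξ⁆ = 0 := by
    intro y hy f
    refine f.central fun w => ?_
    have h1 : ∀ᶠ t in 𝓝[≠] (0 : ℂ), Gen (y + t • w) := (hopen y hy w).filter_mono nhdsWithin_le_nhds
    obtain ⟨t, ht, ht0⟩ := (h1.and self_mem_nhdsWithin).exists
    obtain ⟨g, -⟩ := hfr _ ht
    exact ⟨t, ht0, ⟨g⟩⟩
  have hmain : ∀ y, Gen y → ∀ f : Fr y a d, (∀ i j, f.μ i = f.μ j ↔ c i = c j) →
      a f.z = 0 ∧ y f.z = 0 := by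
    intro y hy f hc
    have H : ∀ w : Module.Dual ℂ L, ∀ᶠ t in 𝓝[≠] (0 : ℂ),
        ∃ g' : Fr (y + t • w) a d, ∀ i j, g'.μ i = g'.μ j ↔ c i = c j := by
      intro w
      filter_upwards [(hopen y hy w).filter_mono nhdsWithin_le_nhds] with t ht
      exact hfr _ ht
    obtain ⟨i, i', hii, hci, hci', hdd, hpos, hmax⟩ := b1
    obtain ⟨j, j', hjj, hcj, hcj', hdj, hposj, hmaxj⟩ := b2
    have hdi : d i = hh d c (c i) := by
      refine le_antisymm (d_le_hh d c i) (Finset.sup_le fun l hl => ?_)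
      exact hmax l (by rw [(Finset.mem_filter.mp hl).2, hci])
    have hdj2 : d j = hh d c (c j) := by
      refine le_antisymm (d_le_hh d c j) (Finset.sup_le fun l hl => ?_)
      exact hmaxj l (by rw [(Finset.mem_filter.mp hl).2, hcj])
    have r1 := bad_at f c hc (hcen y hy f) H hii (hci.trans hci'.symm) hdi hdd hpos
    have r2 := bad_at f c hc (hcen y hy f) H hjj (hcj.trans hcj'.symm) hdj2 hdj hposj
    have hμ : f.μ i ≠ f.μ j := fun h => hne (by rw [← hci, ← hcj]; exact (hc i j).mp h)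
    have r3 : a f.z * (f.μ i - f.μ j) = 0 := by linear_combination r1 - r2
    have r4 := (mul_eq_zero.mp r3).resolve_right (sub_ne_zero.mpr hμ)
    rw [r4, zero_mul, zero_add] at r1
    exact ⟨r4, r1⟩
  obtain ⟨f0, hf0⟩ := hfr x0 hx0
  apply f0.hz0
  rw [← Module.forall_dual_apply_eq_zero_iff ℂ]
  intro w
  have h1 : ∀ᶠ t in 𝓝[≠] (0 : ℂ), Gen (x0 + t • w) :=
    (hopen x0 hx0 w).filter_mono nhdsWithin_le_nhds
  obtain ⟨t, ht, ht0⟩ := (h1.and self_mem_nhdsWithin).exists
  obtain ⟨g, hg⟩ := hfr _ ht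
  obtain ⟨r, hr⟩ := Submodule.mem_span_singleton.mp (f0.kernel g.z g.haz)
  have hr0 : r ≠ 0 := by
    rintro rfl
    rw [zero_smul] at hr
    exact g.hz0 hr.symm
  have h2 := (hmain _ ht g hg).2
  rw [← hr, map_smul, LinearMap.add_apply, LinearMap.smul_apply, (hmain x0 hx0 f0 hf0).2,
    zero_add, smul_eq_mul, smul_eq_mul] at h2
  exact (mul_eq_zero.mp ((mul_eq_zero.mp h2).resolve_left hr0)).resolve_left ht0

end Pool.Agent.Helper55K1.JK
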