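import Pool.Agent.Helper55K1.JKBe5
import Pool.Agent.Helper55K1.JKObs

/-!
The necessary condition for the types without Kronecker blocks of size three and with at most one
Kronecker block of size one.
-/

namespace Pool.Agent.Helper55K1.JK

/-- If there are no Kronecker blocks of size three and at most one of size one, then the number of
the eigenvalues whose largest Jordan block is not unique and whose numbers of blocks are unique is
at most the sum of the numbers `k i + 1`. -/
theorem few_needed_gen {m n : ℕ} (k : Fin m → ℕ) (d c : Fin n → ℕ) (hd : ∀ j, 0 < d j)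
    (hk1 : ∀ i, k i ≠ 1) (hk0 : ∀ i i', k i = 0 → k i' = 0 → i = i') (S : Finset ℕ)
    (hS : ∀ e ∈ S, Bad d c e ∧ ∀ e', (Finset.univ.filter fun j => c j = e').card =
        (Finset.univ.filter fun j => c j = e).card → e' = e)
    (h : Realised k d c) : S.card ≤ ∑ i, (k i + 1) := by
  classical
  obtain ⟨L, _, _, J, _, b, p, hp, hgen⟩ := h
  have : FiniteDimensional ℂ L := Module.Finite.of_basis b
  let G : Module.Dual ℂ L → Module.Dual ℂ L → Prop := fun x a =>
    MvPolynomial.eval (Sum.elim (fun j => x (b j)) fun j => a (b j)) p ≠ 0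
  have hG : ∀ x a w z, G x a → {s : ℂ | ¬ G (x + s • w) (a + s • z)}.Finite := by
    intro x a w z hx
    refine (line_fin p _ (Sum.elim (fun j => w (b j)) fun j => z (b j)) hx).subset fun s hs => ?_
    have e : (Sum.elim (fun j => x (b j)) fun j => a (b j)) +
        s • (Sum.elim (fun j => w (b j)) fun j => z (b j)) =
        Sum.elim (fun j => (x + s • w) (b j)) fun j => (a + s • z) (b j) := by
      funext i
      rcases i with i | i <;> simp
    show ¬ MvPolynomial.eval _ p ≠ 0
    rw [e]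
    exact hs
  have hF : ∀ x a, G x a → ∃ F : Fq (bl x) (bl a) k d, ∀ i j, F.μ i = F.μ j ↔ c i = c j :=
    fun x a hx => exists_fq (A := bl x) (B := bl a) (hgen x a hx)
  choose F hFc using hF
  obtain ⟨v0, hv0⟩ : ∃ v, MvPolynomial.eval v p ≠ 0 := by
    by_contra hcon
    push Not at hcon
    exact hp (MvPolynomial.funext fun x => by rw [hcon x, map_zero])
  let x0 : Module.Dual ℂ L := b.constr ℂ fun j => v0 (Sum.inl j)
  let a : Module.Dual ℂ L := b.constr ℂ fun j => v0 (Sum.inr j)
  have hx0 : G x0 a := by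
    have e : (Sum.elim (fun j => x0 (b j)) fun j => a (b j)) = v0 := by
      funext i
      rcases i with i | i
      · simp [x0]
      · simp [a]
    show MvPolynomial.eval _ p ≠ 0
    rw [e]
    exact hv0
  let q : ℕ → ℕ := fun e => (Finset.univ.filter fun j => c j = e).card
  have hcount : ∀ x a (hx : G x a) (j : Fin n),
      (Finset.univ.filter fun i => (F x a hx).μ i = (F x a hx).μ j).card = q (c j) := by
    intro x a hx j
    show _ = (Finset.univ.filter fun i => c i = c j).card
    congr 1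
    ext i
    simp only [Finset.mem_filter, Finset.mem_univ, true_and]
    exact hFc x a hx i j
  have hone : ∀ e ∈ S, ∃ u : L, a u = 1 ∧ (∀ ξ : L, ⁅ξ, u⁆ = a ⁅ξ, u⁆ • u) ∧
      u ∈ (F x0 a hx0).core ∧ ∀ j, c j = e → (F x0 a hx0).μ j = - x0 u := by
    intro e he
    obtain ⟨⟨j1, j2, hj12, hc1, hc2, hdd, hpos, hmax⟩, hqu⟩ := hS e he
    obtain ⟨h, hh⟩ : ∃ h, d j1 = h + 1 := ⟨d j1 - 1, by omega⟩
    let μ : Module.Dual ℂ L → Module.Dual ℂ L → ℂ := fun x a =>
      if hx : G x a then (F x a hx).μ j1 else 0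
    have hμd : ∀ x a (hx : G x a), μ x a = (F x a hx).μ j1 := fun x a hx => dif_pos hx
    have hμ : ∀ x a, G x a → Module.finrank ℂ (Kr (x + μ x a • a)) = m + 2 * q e := by
      intro x a hx
      rw [hμd x a hx, (F x a hx).finrank_Kr hd, hcount, hc1]
    have hμu : ∀ x a, G x a → ∀ l, Module.finrank ℂ (Kr (x + l • a)) = m + 2 * q e →
        l = μ x a := by
      intro x a hx l hl
      rw [(F x a hx).finrank_Kr hd] at hl
      have h1 : (Finset.univ.filter fun i => (F x a hx).μ i = l).card = q e := by omega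
      have h2 : 0 < (Finset.univ.filter fun i => (F x a hx).μ i = l).card := by
        rw [h1]
        exact Finset.card_pos.mpr ⟨j1, Finset.mem_filter.mpr ⟨Finset.mem_univ _, hc1⟩⟩
      obtain ⟨j, hj⟩ := Finset.card_pos.mp h2
      have h3 : (F x a hx).μ j = l := (Finset.mem_filter.mp hj).2
      rw [← h3, hcount] at h1
      have h4 : c j = e := hqu _ h1
      rw [hμd x a hx, ← h3]
      exact (hFc x a hx j j1).mpr (h4.trans hc1.symm)
    have hC : ∀ x a, G x a → Module.finrank ℂ (Ck (x + μ x a • a) a h) =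
        Module.finrank ℂ (Qs m (fun j => c j = e) d h) := by
      intro x a hx
      rw [hμd x a hx, (F x a hx).finrank_Ck]
      have : (fun j => (F x a hx).μ j = (F x a hx).μ j1) = fun j => c j = e := by
        funext j
        rw [← hc1]
        exact propext (hFc x a hx j j1)
      rw [this]
    have hH : ∀ x, G x a → HypC (x + μ x a • a) a h := by
      intro x hx
      rw [hμd x a hx]
      exact (F x a hx).hyp hj12 ((hFc x a hx j2 j1).mpr (hc2.trans hc1.symm)) hh
        (by rw [← hdd]; exact hh)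
    obtain ⟨u, hu, hall⟩ := one_labelc G hG _ _ h μ hμ hμu hC hx0 hH
    refine ⟨u, hu, fun ξ => ?_, ?_, ?_⟩
    · rw [← sub_eq_zero, ← Module.forall_dual_apply_eq_zero_iff ℂ]
      intro w
      obtain ⟨s, hs, hs0⟩ := ((good_inf G hG _ μ hμ hμu hx0 w).sdiff
        (Set.finite_singleton 0)).nonempty
      have hs' : G (x0 + s • w) a := hs
      have hs0' : s ≠ 0 := hs0
      obtain ⟨m1, m2, -⟩ := hall _ hx0
      obtain ⟨m3, m4, -⟩ := hall _ hs'
      have m5 := m2 ξ
      have m6 := m4 ξ
      rw [m1] at m5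
      rw [m3] at m6
      simp only [LinearMap.add_apply, LinearMap.smul_apply, smul_eq_mul] at m5 m6
      rw [map_sub, map_smul, smul_eq_mul]
      have m7 : s * (w ⁅ξ, u⁆ - a ⁅ξ, u⁆ * w u) = 0 := by linear_combination m6 - m5
      exact (mul_eq_zero.mp m7).resolve_left hs0'
    · obtain ⟨-, m2, m3⟩ := hall _ hx0
      refine (F x0 a hx0).mem_core _ (fun j hj => ?_) m2 m3
      rw [hμd x0 a hx0] at hj
      have h5 : c j = e := ((hFc x0 a hx0 j j1).mp hj).trans hc1
      rw [← hh]
      exact hmax j h5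
    · intro j hj
      obtain ⟨m1, -, -⟩ := hall _ hx0
      rw [← m1, hμd x0 a hx0]
      exact (hFc x0 a hx0 j j1).mpr (hj.trans hc1.symm)
  choose! u hu1 hu2 hu3 hu4 using hone
  set F0 := F x0 a hx0 with hF0
  have hne : ∀ e ∈ S, ∀ e' ∈ S, e ≠ e' → x0 (u e) ≠ x0 (u e') := by
    intro e he e' he' hee hx
    obtain ⟨⟨j, -, -, hcj, -⟩, -⟩ := hS e he
    obtain ⟨⟨j', -, -, hcj', -⟩, -⟩ := hS e' he'
    have h1 := hu4 e he j hcj
    have h2 := hu4 e' he' j' hcj'
    have h3 : F0.μ j = F0.μ j' := by rw [h1, h2, hx]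
    exact hee (by rw [← hcj, ← hcj']; exact (hFc x0 a hx0 j j').mp h3)
  have hli : LinearIndependent ℂ fun e : S => u e.1 := by
    refine li_char _ (fun e h0 => ?_) (fun e ξ => a ⁅ξ, u e.1⁆) (fun e ξ => hu2 e.1 e.2 ξ)
      (fun e e' hee => ?_)
    · have := hu1 e.1 e.2
      rw [h0, map_zero] at this
      exact zero_ne_one this
    · by_contra hcon
      push Not at hcon
      have hee' : e.1 ≠ e'.1 := fun h => hee (Subtype.ext h)
      have hx := hne e.1 e.2 e'.1 e'.2 hee'
      have b1 : ∀ w : L, x0 ⁅w, u e.1⁆ = a ⁅w, u e.1⁆ * x0 (u e.1) := fun w => by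
        conv_lhs => rw [hu2 e.1 e.2 w]
        rw [map_smul, smul_eq_mul]
      have b2 : ∀ w : L, x0 ⁅w, u e'.1⁆ = a ⁅w, u e.1⁆ * x0 (u e'.1) := fun w => by
        conv_lhs => rw [hu2 e'.1 e'.2 w]
        rw [map_smul, smul_eq_mul, hcon w]
      have c0 : ∀ w : L, x0 ⁅w, (x0 (u e.1) - x0 (u e'.1)) • u e.1 -
          x0 (u e.1) • (u e.1 - u e'.1)⁆ = 0 := by
        intro w
        simp only [lie_sub, lie_smul, map_sub, map_smul, smul_eq_mul, b1, b2]
        ring
      have c01 : ∀ w : L, x0 ⁅w, - (u e.1 - u e'.1)⁆ + a ⁅w, (x0 (u e.1) - x0 (u e'.1)) • u e.1 -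
          x0 (u e.1) • (u e.1 - u e'.1)⁆ = 0 := by
        intro w
        simp only [lie_sub, lie_smul, lie_neg, map_neg, map_sub, map_smul, smul_eq_mul, b1, b2,
          ← hcon w]
        ring
      have c1 : ∀ w : L, a ⁅w, - (u e.1 - u e'.1)⁆ = 0 := by
        intro w
        simp only [lie_sub, lie_neg, map_neg, map_sub, ← hcon w, sub_self, neg_zero]
      have c2 : - (u e.1 - u e'.1) ≠ 0 := by
        intro h0
        apply hx
        have h1 : u e.1 = u e'.1 := by
          rw [neg_eq_zero] at h0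
          exact sub_eq_zero.mp h0
        rw [h1]
      obtain ⟨r, hr⟩ := F0.deg_one hk1 hk0 c0 c01 c1 c2
      have h1 := congrArg a hr
      rw [map_sub, map_smul, map_smul, map_smul, map_neg, map_sub, hu1 e.1 e.2,
        hu1 e'.1 e'.2, sub_self, neg_zero, smul_zero, smul_zero, sub_zero, smul_eq_mul,
        mul_one] at h1
      exact hx (sub_eq_zero.mp h1)
  have hli2 : LinearIndependent ℂ fun e : S => (⟨u e.1, hu3 e.1 e.2⟩ : F0.core) :=
    LinearIndependent.of_comp F0.core.subtype hli
  have h1 := hli2.fintype_card_le_finrank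
  rw [Fintype.card_coe] at h1
  exact h1.trans F0.core_finrank

end Pool.Agent.Helper55K1.JK
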