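import Pool.Agent.Helper55K1.JKModel

/-!
Chain spaces: the model of a nilpotent self-adjoint operator on a symplectic space.
-/

namespace Pool.Agent.Helper55K1.JK

open Matrix

/-- A symplectic space with chains `E j s`, `G j s`, `s < d j`, and three operators. -/
structure Ch (V : Type) [AddCommGroup V] [Module ℂ V] {ι : Type} (d : ι → ℕ) where
  I : V →ₗ[ℂ] V →ₗ[ℂ] ℂ
  E : ι → ℕ → V
  G : ι → ℕ → V
  n : V →ₗ[ℂ] V
  H1 : V →ₗ[ℂ] V
  H2 : V →ₗ[ℂ] V
  hE0 : ∀ j s, d j ≤ s → E j s = 0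
  hG0 : ∀ j s, d j ≤ s → G j s = 0
  ind : ∀ W : Submodule ℂ V, (∀ j s, s < d j → E j s ∈ W) → (∀ j s, s < d j → G j s ∈ W) →
    ∀ v, v ∈ W
  con : ∀ e g : ι → ℕ → V, ∃ Ψ : V →ₗ[ℂ] V, ∀ j s, s < d j → Ψ (E j s) = e j s ∧ Ψ (G j s) = g j s
  IEG : ∀ j s t, I (E j s) (G j t) = if s + t + 1 = d j then 1 else 0
  IEGd : ∀ i j s t, i ≠ j → I (E i s) (G j t) = 0
  IEE : ∀ i j s t, I (E i s) (E j t) = 0
  IGG : ∀ i j s t, I (G i s) (G j t) = 0
  sk : ∀ u v, I u v = - I v u
  nd : ∀ u, (∀ v, I u v = 0) → u = 0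
  n_E : ∀ j s, n (E j s) = E j (s + 1)
  n_G : ∀ j s, n (G j s) = G j (s + 1)
  H1_E : ∀ j s, H1 (E j s) = ((s : ℂ) + 1) • E j s
  H1_G : ∀ j s, H1 (G j s) = ((s : ℂ) + 1 - d j) • G j s
  H2_E : ∀ j s, H2 (E j s) = (s : ℂ) • E j (s + 1)
  H2_G : ∀ j s, H2 (G j s) = ((s : ℂ) + 3 - d j) • G j (s + 1)
  hb : ∀ sx sa rx ra : ℂ, sx ≠ 0 → ra ≠ 0 → sa ≠ 0 → sx * ra - sa * rx ≠ 0 →
    HasBlocks (fun u v => sx * I u v + rx * I (n u) v) (fun u v => sa * I u v + ra * I (n u) v)
      fun j : ι => Block.jordan (d j) (-sx / sa)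

section Model

set_option linter.unusedSectionVars false

variable {ι : Type} [Fintype ι] [DecidableEq ι] (d : ι → ℕ)

/-- The model blocks. -/
abbrev jz (d : ι → ℕ) : ι → Block := fun j => Block.jordan (d j) 0

/-- The model space. -/
abbrev MV (d : ι → ℕ) : Type := ∀ j : ι, (Fin (d j) → ℂ) × (Fin (d j) → ℂ)

/-- The standard basis. -/
noncomputable def sb : Module.Basis (Σ j : ι, Fin (d j) ⊕ Fin (d j)) ℂ (MV d) :=
  Pi.basis fun j => (Pi.basisFun ℂ (Fin (d j))).prod (Pi.basisFun ℂ (Fin (d j)))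

lemma pr_single (M : ℕ → ℕ → ℂ) {p q : ℕ} (i : Fin p) (j : Fin q) :
    pr M (Pi.single i 1) (Pi.single j 1) = M i j := by
  unfold pr
  rw [Matrix.mulVec_single_one, single_dotProduct, one_mul]
  rfl

lemma tot_single (M : ℕ → ℕ → ℂ) (j : ι) (x : (Fin (d j) → ℂ) × (Fin (d j) → ℂ))
    (y : MV d) :
    tot (jz d) (fun _ => M) (Pi.single j x : MV d) y = frm M (p := d j) (q := d j) x (y j) := by
  unfold tot
  rw [Finset.sum_eq_single j]
  · rw [Pi.single_eq_same]
    rfl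
  · intro i _ hi
    rw [Pi.single_eq_of_ne hi]
    exact frm_zero_left _ _
  · intro h; exact absurd (Finset.mem_univ j) h

/-- The total form of an array. -/
noncomputable abbrev tM (M : ℕ → ℕ → ℂ) : MV d →ₗ[ℂ] MV d →ₗ[ℂ] ℂ :=
  totL (jz d) fun _ => M

lemma sb_inl (j : ι) (i : Fin (d j)) :
    sb d ⟨j, Sum.inl i⟩ = (Pi.single j ((Pi.single i 1 : Fin (d j) → ℂ), (0 : Fin (d j) → ℂ)) : MV d) := by
  unfold sb
  rw [Pi.basis_apply]
  simp

lemma sb_inr (j : ι) (i : Fin (d j)) :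
    sb d ⟨j, Sum.inr i⟩ = (Pi.single j ((0 : Fin (d j) → ℂ), (Pi.single i 1 : Fin (d j) → ℂ)) : MV d) := by
  unfold sb
  rw [Pi.basis_apply]
  simp

lemma pr_zero_left (M : ℕ → ℕ → ℂ) {p q : ℕ} (v : Fin q → ℂ) : pr M (0 : Fin p → ℂ) v = 0 := by
  simp [pr]

lemma pr_zero_right (M : ℕ → ℕ → ℂ) {p q : ℕ} (u : Fin p → ℂ) : pr M u (0 : Fin q → ℂ) = 0 := by
  simp [pr]

lemma tv_lr (M : ℕ → ℕ → ℂ) (j : ι) (s t : Fin (d j)) :
    tM d M (sb d ⟨j, Sum.inl s⟩) (sb d ⟨j, Sum.inr t⟩) = M s t := by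
  rw [sb_inl, sb_inr]
  show tot (jz d) (fun _ => M) _ _ = _
  rw [tot_single, Pi.single_eq_same]
  unfold frm
  simp only [pr_single, pr_zero_left, sub_zero]

lemma tv_rl (M : ℕ → ℕ → ℂ) (j : ι) (s t : Fin (d j)) :
    tM d M (sb d ⟨j, Sum.inr s⟩) (sb d ⟨j, Sum.inl t⟩) = - M t s := by
  rw [sb_inl, sb_inr]
  show tot (jz d) (fun _ => M) _ _ = _
  rw [tot_single, Pi.single_eq_same]
  unfold frm
  simp only [pr_single, pr_zero_left, zero_sub]

lemma tv_ll (M : ℕ → ℕ → ℂ) (j : ι) (s t : Fin (d j)) :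
    tM d M (sb d ⟨j, Sum.inl s⟩) (sb d ⟨j, Sum.inl t⟩) = 0 := by
  rw [sb_inl, sb_inl]
  show tot (jz d) (fun _ => M) _ _ = _
  rw [tot_single, Pi.single_eq_same]
  unfold frm
  simp only [pr_zero_right, sub_zero]

lemma tv_rr (M : ℕ → ℕ → ℂ) (j : ι) (s t : Fin (d j)) :
    tM d M (sb d ⟨j, Sum.inr s⟩) (sb d ⟨j, Sum.inr t⟩) = 0 := by
  rw [sb_inr, sb_inr]
  show tot (jz d) (fun _ => M) _ _ = _
  rw [tot_single, Pi.single_eq_same]
  unfold frm
  simp only [pr_zero_left, sub_zero]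

lemma tv_diff (M : ℕ → ℕ → ℂ) {i j : ι} (hij : i ≠ j) (s : Fin (d i) ⊕ Fin (d i))
    (t : Fin (d j) ⊕ Fin (d j)) :
    tM d M (sb d ⟨i, s⟩) (sb d ⟨j, t⟩) = 0 := by
  show tot (jz d) (fun _ => M) _ _ = _
  unfold sb
  rw [Pi.basis_apply, Pi.basis_apply, tot_single, Pi.single_eq_of_ne hij]
  exact frm_zero_right _ _

/-- The chains of the model. -/
noncomputable def mE (j : ι) (s : ℕ) : MV d := if h : s < d j then sb d ⟨j, Sum.inl ⟨s, h⟩⟩ else 0

/-- The chains of the model. -/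
noncomputable def mG (j : ι) (s : ℕ) : MV d :=
  if h : s < d j then sb d ⟨j, Sum.inr ⟨d j - 1 - s, by omega⟩⟩ else 0

lemma mE_of (j : ι) (s : Fin (d j)) : mE d j s = sb d ⟨j, Sum.inl s⟩ := by
  unfold mE
  rw [dif_pos s.2]

lemma mG_of (j : ι) (s : Fin (d j)) : mG d j (d j - 1 - s) = sb d ⟨j, Sum.inr s⟩ := by
  unfold mG
  have h := s.2
  rw [dif_pos (by omega)]
  congr 3
  apply Fin.ext
  show d j - 1 - (d j - 1 - (s : ℕ)) = s
  omega

/-- The operator `n` of the model. -/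
noncomputable def mn : MV d →ₗ[ℂ] MV d :=
  (sb d).constr ℂ fun x => match x with
    | ⟨j, Sum.inl s⟩ => mE d j (s + 1)
    | ⟨j, Sum.inr s⟩ => mG d j (d j - s)

/-- The operator `H1` of the model. -/
noncomputable def mH1 : MV d →ₗ[ℂ] MV d :=
  (sb d).constr ℂ fun x => match x with
    | ⟨j, Sum.inl s⟩ => ((s : ℂ) + 1) • mE d j s
    | ⟨j, Sum.inr s⟩ => (-((s : ℕ) : ℂ)) • mG d j (d j - 1 - s)

/-- The operator `H2` of the model. -/
noncomputable def mH2 : MV d →ₗ[ℂ] MV d :=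
  (sb d).constr ℂ fun x => match x with
    | ⟨j, Sum.inl s⟩ => ((s : ℕ) : ℂ) • mE d j (s + 1)
    | ⟨j, Sum.inr s⟩ => (2 - ((s : ℕ) : ℂ)) • mG d j (d j - s)

lemma mG_pos (j : ι) (s : ℕ) (h : s < d j) :
    mG d j s = sb d ⟨j, Sum.inr ⟨d j - 1 - s, by omega⟩⟩ := by
  unfold mG
  rw [dif_pos h]

lemma mE_pos (j : ι) (s : ℕ) (h : s < d j) : mE d j s = sb d ⟨j, Sum.inl ⟨s, h⟩⟩ := by
  unfold mE
  rw [dif_pos h]

lemma mE_neg (j : ι) (s : ℕ) (h : d j ≤ s) : mE d j s = 0 := by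
  unfold mE
  rw [dif_neg (by omega)]

lemma mG_neg (j : ι) (s : ℕ) (h : d j ≤ s) : mG d j s = 0 := by
  unfold mG
  rw [dif_neg (by omega)]

lemma mn_E (j : ι) (s : ℕ) : mn d (mE d j s) = mE d j (s + 1) := by
  by_cases h : s < d j
  · rw [mE_pos d j s h]
    unfold mn
    rw [Module.Basis.constr_basis]
  · rw [mE_neg d j s (by omega), mE_neg d j (s + 1) (by omega), map_zero]

lemma mn_G (j : ι) (s : ℕ) : mn d (mG d j s) = mG d j (s + 1) := by
  by_cases h : s < d j
  · rw [mG_pos d j s h]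
    unfold mn
    rw [Module.Basis.constr_basis]
    show mG d j (d j - (d j - 1 - s)) = _
    congr 1
    omega
  · rw [mG_neg d j s (by omega), mG_neg d j (s + 1) (by omega), map_zero]

lemma mH1_E (j : ι) (s : ℕ) : mH1 d (mE d j s) = ((s : ℂ) + 1) • mE d j s := by
  by_cases h : s < d j
  · rw [mE_pos d j s h]
    unfold mH1
    rw [Module.Basis.constr_basis]
    show _ • mE d j s = _
    rw [mE_pos d j s h]
  · rw [mE_neg d j s (by omega), map_zero, smul_zero]

lemma mH1_G (j : ι) (s : ℕ) : mH1 d (mG d j s) = ((s : ℂ) + 1 - d j) • mG d j s := by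
  by_cases h : s < d j
  · rw [mG_pos d j s h]
    unfold mH1
    rw [Module.Basis.constr_basis]
    show (-(((d j - 1 - s : ℕ)) : ℂ)) • mG d j (d j - 1 - (d j - 1 - s)) = _
    have e : d j - 1 - (d j - 1 - s) = s := by omega
    rw [e, mG_pos d j s h]
    congr 1
    have e2 : ((d j - 1 - s : ℕ) : ℂ) = (d j : ℂ) - 1 - s := by
      rw [Nat.cast_sub (by omega), Nat.cast_sub (by omega), Nat.cast_one]
    rw [e2]
    ring
  · rw [mG_neg d j s (by omega), map_zero, smul_zero]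

lemma mH2_E (j : ι) (s : ℕ) : mH2 d (mE d j s) = (s : ℂ) • mE d j (s + 1) := by
  by_cases h : s < d j
  · rw [mE_pos d j s h]
    unfold mH2
    rw [Module.Basis.constr_basis]
  · rw [mE_neg d j s (by omega), mE_neg d j (s + 1) (by omega), map_zero, smul_zero]

lemma mH2_G (j : ι) (s : ℕ) : mH2 d (mG d j s) = ((s : ℂ) + 3 - d j) • mG d j (s + 1) := by
  by_cases h : s < d j
  · rw [mG_pos d j s h]
    unfold mH2
    rw [Module.Basis.constr_basis]
    show (2 - (((d j - 1 - s : ℕ)) : ℂ)) • mG d j (d j - (d j - 1 - s)) = _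
    have e : d j - (d j - 1 - s) = s + 1 := by omega
    rw [e]
    congr 1
    have e2 : ((d j - 1 - s : ℕ) : ℂ) = (d j : ℂ) - 1 - s := by
      rw [Nat.cast_sub (by omega), Nat.cast_sub (by omega), Nat.cast_one]
    rw [e2]
    ring
  · rw [mG_neg d j s (by omega), mG_neg d j (s + 1) (by omega), map_zero, smul_zero]

lemma m_IEG (j : ι) (s t : ℕ) :
    tM d (lin 1 0) (mE d j s) (mG d j t) = if s + t + 1 = d j then 1 else 0 := by
  by_cases hs : s < d j
  · by_cases ht : t < d j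
    · rw [mE_pos d j s hs, mG_pos d j t ht, tv_lr]
      simp only [lin]
      by_cases h : s + t + 1 = d j
      · rw [if_pos (by omega), if_pos h]; simp
      · rw [if_neg (by omega), if_neg h]; simp
    · rw [mG_neg d j t (by omega), map_zero, if_neg (by omega)]
  · rw [mE_neg d j s (by omega), map_zero, LinearMap.zero_apply, if_neg (by omega)]

lemma m_diff (M : ℕ → ℕ → ℂ) {i j : ι} (hij : i ≠ j) (s t : ℕ) :
    tM d M (mE d i s) (mG d j t) = 0 ∧ tM d M (mE d i s) (mE d j t) = 0 ∧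
    tM d M (mG d i s) (mG d j t) = 0 ∧ tM d M (mG d i s) (mE d j t) = 0 := by
  have hE : ∀ i s, (∃ x : Fin (d i) ⊕ Fin (d i), mE d i s = sb d ⟨i, x⟩) ∨ mE d i s = 0 := by
    intro i s
    by_cases hs : s < d i
    · exact Or.inl ⟨_, mE_pos d i s hs⟩
    · exact Or.inr (mE_neg d i s (by omega))
  have hG : ∀ i s, (∃ x : Fin (d i) ⊕ Fin (d i), mG d i s = sb d ⟨i, x⟩) ∨ mG d i s = 0 := by
    intro i s
    by_cases hs : s < d i
    · exact Or.inl ⟨_, mG_pos d i s hs⟩
    · exact Or.inr (mG_neg d i s (by omega))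
  have key : ∀ u v : MV d, ((∃ x : Fin (d i) ⊕ Fin (d i), u = sb d ⟨i, x⟩) ∨ u = 0) →
      ((∃ x : Fin (d j) ⊕ Fin (d j), v = sb d ⟨j, x⟩) ∨ v = 0) → tM d M u v = 0 := by
    rintro u v (⟨x, rfl⟩ | rfl) (⟨y, rfl⟩ | rfl)
    · exact tv_diff d M hij x y
    · rw [map_zero]
    · rw [map_zero, LinearMap.zero_apply]
    · rw [map_zero]
  exact ⟨key _ _ (hE i s) (hG j t), key _ _ (hE i s) (hE j t), key _ _ (hG i s) (hG j t),
    key _ _ (hG i s) (hE j t)⟩

lemma m_IEE (M : ℕ → ℕ → ℂ) (i j : ι) (s t : ℕ) : tM d M (mE d i s) (mE d j t) = 0 := by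
  by_cases hij : i = j
  · subst hij
    by_cases hs : s < d i
    · by_cases ht : t < d i
      · rw [mE_pos d i s hs, mE_pos d i t ht, tv_ll]
      · rw [mE_neg d i t (by omega), map_zero]
    · rw [mE_neg d i s (by omega), map_zero, LinearMap.zero_apply]
  · exact (m_diff d M hij s t).2.1

lemma m_IGG (M : ℕ → ℕ → ℂ) (i j : ι) (s t : ℕ) : tM d M (mG d i s) (mG d j t) = 0 := by
  by_cases hij : i = j
  · subst hij
    by_cases hs : s < d i
    · by_cases ht : t < d i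
      · rw [mG_pos d i s hs, mG_pos d i t ht, tv_rr]
      · rw [mG_neg d i t (by omega), map_zero]
    · rw [mG_neg d i s (by omega), map_zero, LinearMap.zero_apply]
  · exact (m_diff d M hij s t).2.2.1

lemma m_skew (M : ℕ → ℕ → ℂ) (u v : MV d) : tM d M u v = - tM d M v u := by
  have h : tM d M (u + v) (u + v) = 0 := totL_self (jz d) (fun _ => M) (u + v)
  have h1 : tM d M u u = 0 := totL_self (jz d) (fun _ => M) u
  have h2 : tM d M v v = 0 := totL_self (jz d) (fun _ => M) v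
  have h3 : tM d M (u + v) (u + v) = tM d M u u + tM d M u v + (tM d M v u + tM d M v v) := by
    simp only [map_add, LinearMap.add_apply]
    ring
  rw [h, h1, h2] at h3
  linear_combination -h3

lemma m_n (u v : MV d) : tM d (lin 0 1) u v = tM d (lin 1 0) (mn d u) v := by
  have : tM d (lin 0 1) = (tM d (lin 1 0)).comp (mn d) := by
    refine (sb d).ext fun x => (sb d).ext fun y => ?_
    rw [LinearMap.comp_apply]
    obtain ⟨i, x⟩ := x
    obtain ⟨j, y⟩ := y
    by_cases hij : i = j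
    · subst hij
      rcases x with s | s <;> rcases y with t | t
      · rw [tv_ll, ← mE_of, mn_E, ← mE_of, m_IEE]
      · rw [tv_lr, ← mE_of, mn_E, ← mG_of, m_IEG]
        simp only [lin]
        have hs := s.2
        have ht := t.2
        by_cases h : (t : ℕ) = s + 1
        · rw [if_neg (by omega), if_pos h, if_pos (by omega), zero_add]
        · rw [if_neg h, ite_self, if_neg (by omega), zero_add]
      · rw [tv_rl, ← mG_of, mn_G, ← mE_of, m_skew, m_IEG]
        simp only [lin]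
        have hs := s.2
        have ht := t.2
        by_cases h : (s : ℕ) = t + 1
        · rw [if_neg (by omega), if_pos h, if_pos (by omega), zero_add]
        · rw [if_neg h, ite_self, if_neg (by omega), zero_add]
      · rw [tv_rr, ← mG_of, mn_G, ← mG_of, m_IGG]
    · rw [tv_diff d _ hij]
      rcases x with s | s <;> rcases y with t | t
      · rw [← mE_of, mn_E, ← mE_of, m_IEE]
      · rw [← mE_of, mn_E, ← mG_of, (m_diff d _ hij _ _).1]
      · rw [← mG_of, mn_G, ← mE_of, (m_diff d _ hij _ _).2.2.2]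
      · rw [← mG_of, mn_G, ← mG_of, m_IGG]
  rw [this]
  rfl

lemma m_ind (W : Submodule ℂ (MV d)) (hE : ∀ j s, s < d j → mE d j s ∈ W)
    (hG : ∀ j s, s < d j → mG d j s ∈ W) (v : MV d) : v ∈ W := by
  have h : ∀ x, sb d x ∈ W := by
    rintro ⟨j, s | s⟩
    · rw [← mE_of]
      exact hE j s s.2
    · rw [← mG_of]
      have := s.2
      exact hG j _ (by omega)
  have h2 : v ∈ Submodule.span ℂ (Set.range (sb d)) := by
    rw [(sb d).span_eq]
    exact Submodule.mem_top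
  exact (Submodule.span_le.mpr (by rintro _ ⟨x, rfl⟩; exact h x)) h2

lemma m_con (e g : ι → ℕ → MV d) : ∃ Ψ : MV d →ₗ[ℂ] MV d,
    ∀ j s, s < d j → Ψ (mE d j s) = e j s ∧ Ψ (mG d j s) = g j s := by
  refine ⟨(sb d).constr ℂ fun x => match x with
    | ⟨j, Sum.inl s⟩ => e j s
    | ⟨j, Sum.inr s⟩ => g j (d j - 1 - s), fun j s hs => ⟨?_, ?_⟩⟩
  · rw [mE_pos d j s hs, Module.Basis.constr_basis]
  · rw [mG_pos d j s hs, Module.Basis.constr_basis]
    show g j (d j - 1 - (d j - 1 - s)) = _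
    congr 1
    omega

lemma m_nd (u : MV d) (h : ∀ v, tM d (lin 1 0) u v = 0) : u = 0 := by
  have hr : ∀ x, (sb d).repr u x = 0 := by
    intro x
    have hsum := (sb d).sum_repr u
    obtain ⟨j, s | s⟩ := x
    · have h1 := h (sb d ⟨j, Sum.inr s⟩)
      rw [← hsum, map_sum, LinearMap.sum_apply, Finset.sum_eq_single ⟨j, Sum.inl s⟩] at h1
      · rw [LinearMap.map_smul, LinearMap.smul_apply, tv_lr] at h1
        simpa [lin] using h1
      · rintro ⟨i, t⟩ _ hne
        rw [LinearMap.map_smul, LinearMap.smul_apply]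
        by_cases hij : i = j
        · subst hij
          rcases t with t | t
          · rw [tv_lr]
            have : ¬ (s : ℕ) = t := fun e => hne (by rw [Fin.ext e])
            simp [lin, this]
          · rw [tv_rr, smul_zero]
        · rw [tv_diff d _ hij, smul_zero]
      · intro hn; exact absurd (Finset.mem_univ _) hn
    · have h1 := h (sb d ⟨j, Sum.inl s⟩)
      rw [← hsum, map_sum, LinearMap.sum_apply, Finset.sum_eq_single ⟨j, Sum.inr s⟩] at h1
      · rw [LinearMap.map_smul, LinearMap.smul_apply, tv_rl] at h1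
        simpa [lin] using h1
      · rintro ⟨i, t⟩ _ hne
        rw [LinearMap.map_smul, LinearMap.smul_apply]
        by_cases hij : i = j
        · subst hij
          rcases t with t | t
          · rw [tv_ll, smul_zero]
          · rw [tv_rl]
            have h5 : ¬ (t : ℕ) = s := fun e => hne (by rw [Fin.ext e])
            have h6 : ¬ (s : ℕ) = t := fun e => h5 e.symm
            simp [lin, h5, h6]
        · rw [tv_diff d _ hij, smul_zero]
      · intro hn; exact absurd (Finset.mem_univ _) hn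
  have : (sb d).repr u = 0 := Finsupp.ext hr
  simpa using this

lemma m_hb (sx sa rx ra : ℂ) (h1 : sx ≠ 0) (h2 : ra ≠ 0) (h3 : sa ≠ 0)
    (h4 : sx * ra - sa * rx ≠ 0) :
    HasBlocks (fun u v => sx * tM d (lin 1 0) u v + rx * tM d (lin 1 0) (mn d u) v)
      (fun u v => sa * tM d (lin 1 0) u v + ra * tM d (lin 1 0) (mn d u) v)
      fun j : ι => Block.jordan (d j) (-sx / sa) := by
  have hf : (fun i => (jz d i).first) = fun _ => lin 0 1 := by
    funext i
    exact first_jordan _ _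
  have hs : (fun i => (jz d i).second) = fun _ => lin (-1) 0 := by
    funext i
    exact second_jordan _ _
  have h := totL_change (jz d) rx (-sx) ra (-sa) (neg_ne_zero.mpr h1) h2
    (by intro h0; apply h4; linear_combination h0)
    (by intro i; show -sa - ra * 0 ≠ 0; rw [mul_zero, sub_zero]; exact neg_ne_zero.mpr h3)
  have hneg : ∀ u v : MV d, tM d (lin (-1) 0) u v = - tM d (lin 1 0) u v := by
    intro u v
    have e : (lin (-1) 0 : ℕ → ℕ → ℂ) = fun i j => (-1 : ℂ) * lin 1 0 i j + 0 * lin 1 0 i j := by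
      rw [comb_lin]; congr 1 <;> ring
    have e2 := tot_comb (jz d) (-1) 0 (fun _ => lin 1 0) (fun _ => lin 1 0) u v
    rw [zero_mul, add_zero] at e2
    show tot (jz d) (fun _ => lin (-1) 0) u v = _
    rw [e, e2]
    exact neg_one_mul _
  have hA : ∀ v w : MV d, sx * tM d (lin 1 0) v w + rx * tM d (lin 1 0) (mn d v) w =
      rx * tM d (lin 0 1) v w + -sx * tM d (lin (-1) 0) v w := by
    intro v w
    rw [hneg, m_n]
    ring
  have hB : ∀ v w : MV d, sa * tM d (lin 1 0) v w + ra * tM d (lin 1 0) (mn d v) w =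
      ra * tM d (lin 0 1) v w + -sa * tM d (lin (-1) 0) v w := by
    intro v w
    rw [hneg, m_n]
    ring
  rw [hf, hs] at h
  refine (h.pull (V := MV d) (LinearEquiv.refl ℂ _) hA hB).reindex (Equiv.refl ι) _ ?_
  · intro j
    show Block.jordan (d j) (-sx / sa) = Block.jordan (d j) ((rx * 0 - -sx) / (-sa - ra * 0))
    congr 1
    rw [mul_zero, mul_zero, sub_zero, zero_sub, neg_neg, div_neg, neg_div]

/-- The chain space of the model. -/
noncomputable def mCh : Ch (MV d) d where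
  I := tM d (lin 1 0)
  E := mE d
  G := mG d
  n := mn d
  H1 := mH1 d
  H2 := mH2 d
  hE0 := mE_neg d
  hG0 := mG_neg d
  ind := m_ind d
  con := m_con d
  IEG := m_IEG d
  IEGd := fun _ _ s t h => (m_diff d _ h s t).1
  IEE := m_IEE d _
  IGG := m_IGG d _
  sk := m_skew d _
  nd := m_nd d
  n_E := mn_E d
  n_G := mn_G d
  H1_E := mH1_E d
  H1_G := mH1_G d
  H2_E := mH2_E d
  H2_G := mH2_G d
  hb := m_hb d

end Model

end Pool.Agent.Helper55K1.JK
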