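import Pool.Agent.Helper55K1.JKDer

/-!
The algebraic core of the obstruction: the closedness identity of the Lie–Poisson pencil at a
generic point, and the eigenvalues whose largest Jordan block is not unique.
-/

namespace Pool.Agent.Helper55K1.JK

open Filter Topology Polynomial

section Cont

variable {E : Type*} [Ring E] [Algebra ℂ E]

lemma Bp_cont (R : E) (φ : E →ₗ[ℂ] ℂ) (j : ℕ) : Continuous fun l => φ (Bp R l j) := by
  induction j with
  | zero => simp only [Bp, map_zero]; exact continuous_const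
  | succ j ih =>
    simp only [Bp, map_add, map_smul, smul_eq_mul]
    exact (continuous_id.mul ih).add continuous_const

lemma Cp_cont (R S : E) (φ : E →ₗ[ℂ] ℂ) (j : ℕ) : Continuous fun l => φ (Cp R S l j) := by
  induction j with
  | zero => simp only [Cp, map_zero]; exact continuous_const
  | succ j ih =>
    simp only [Cp, map_add, map_smul, smul_eq_mul]
    exact (continuous_id.mul ih).add continuous_const

lemma Bv_cont (m : ℕ → ℂ) (D : ℕ) (R : E) (φ : E →ₗ[ℂ] ℂ) :
    Continuous fun l => φ (Bv m D R l) := by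
  simp only [Bv, map_sum, map_smul, smul_eq_mul]
  exact continuous_finsetSum _ fun j _ => continuous_const.mul (Bp_cont R φ j)

lemma Cv_cont (m : ℕ → ℂ) (D : ℕ) (R S : E) (φ : E →ₗ[ℂ] ℂ) :
    Continuous fun l => φ (Cv m D R S l) := by
  simp only [Cv, map_sum, map_smul, smul_eq_mul]
  exact continuous_finsetSum _ fun j _ => continuous_const.mul (Cp_cont R S φ j)

lemma Mv_aeval (q : ℂ[X]) (R : E) : Mv q.coeff q.natDegree R = aeval R q := by
  rw [aeval_eq_sum_range]
  rfl

lemma Mv_eval (q : ℂ[X]) (l : ℂ) : Mv q.coeff q.natDegree l = q.eval l := by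
  rw [eval_eq_sum_range]
  rfl

/-- `q(R) B(l) = q(l) B(l) - M(l) E(l)`. -/
lemma aeval_mul_Bv (M q : ℂ[X]) (R : E) (l : ℂ) (hR : aeval R M = 0) :
    aeval R q * Bv M.coeff M.natDegree R l =
      q.eval l • Bv M.coeff M.natDegree R l - M.eval l • Bv q.coeff q.natDegree R l := by
  have h1 := Bv_mul q.coeff q.natDegree R l
  have h2 := mul_Bv M.coeff M.natDegree R l
  rw [Mv_eval, Mv_aeval] at h1 h2
  rw [hR, sub_zero] at h2
  have h3 : aeval R q = q.eval l • 1 - Bv q.coeff q.natDegree R l * (l • 1 - R) := by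
    rw [h1]; abel
  rw [h3, sub_mul, mul_assoc, h2, smul_mul_assoc, one_mul, mul_smul_comm, mul_one]

end Cont

section Core

set_option linter.unusedSectionVars false

variable {L : Type} [LieRing L] [LieAlgebra ℂ L] {V : Type} [AddCommGroup V] [Module ℂ V]
  [FiniteDimensional ℂ V]

/-- The data at a generic point: a central element `z`, a complement `V` of `z`, the form
`a([u, v])` nondegenerate on `V`, and the operators `R w` with
`a([R w u, v]) = - w([u, v])`. -/
structure Dat (L : Type) [LieRing L] [LieAlgebra ℂ L] (V : Type) [AddCommGroup V] [Module ℂ V] where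
  z : L
  hz : ∀ ξ : L, ⁅z, ξ⁆ = 0
  i : V →ₗ[ℂ] L
  hi : ∀ ξ : L, ∃ (v : V) (s : ℂ), ξ = i v + s • z
  a : Module.Dual ℂ L
  hnd : ∀ u : V, (∀ v, a ⁅i u, i v⁆ = 0) → u = 0
  R : Module.Dual ℂ L → Module.End ℂ V
  hR : ∀ w u v, a ⁅i (R w u), i v⁆ = - w ⁅i u, i v⁆

namespace Dat

variable (d : Dat L V)

/-- The form on `V`. -/
noncomputable def om (u v : V) : ℂ := d.a ⁅d.i u, d.i v⁆

lemma hz' (ξ : L) : ⁅ξ, d.z⁆ = 0 := by
  rw [← lie_skew, d.hz, neg_zero]

lemma om_add_left (u u' v : V) : d.om (u + u') v = d.om u v + d.om u' v := by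
  simp [om]

lemma om_smul_left (r : ℂ) (u v : V) : d.om (r • u) v = r * d.om u v := by
  simp [om]

lemma om_neg_left (u v : V) : d.om (-u) v = - d.om u v := by
  unfold om
  rw [map_neg, neg_lie, map_neg]

lemma om_skew (u v : V) : d.om u v = - d.om v u := by
  unfold om
  rw [← lie_skew, map_neg]

lemma om_ext {u u' : V} (h : ∀ v, d.om u v = d.om u' v) : u = u' := by
  have : u - u' = 0 := by
    refine d.hnd _ fun v => ?_
    have := h v
    unfold om at this
    rw [map_sub, sub_lie, map_sub, this, sub_self]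
  exact sub_eq_zero.mp this

lemma R_add (w w' : Module.Dual ℂ L) : d.R (w + w') = d.R w + d.R w' := by
  ext u
  refine d.om_ext fun v => ?_
  rw [LinearMap.add_apply, d.om_add_left]
  unfold om
  rw [d.hR, d.hR, d.hR, LinearMap.add_apply]
  ring

lemma R_smul (r : ℂ) (w : Module.Dual ℂ L) : d.R (r • w) = r • d.R w := by
  ext u
  refine d.om_ext fun v => ?_
  rw [LinearMap.smul_apply, d.om_smul_left]
  unfold om
  rw [d.hR, d.hR, LinearMap.smul_apply, smul_eq_mul]
  ring

lemma R_a : d.R d.a = -1 := by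
  ext u
  refine d.om_ext fun v => ?_
  have : (-1 : Module.End ℂ V) u = -u := by simp
  rw [this, d.om_neg_left]
  unfold om
  rw [d.hR]

/-- `R w` is self-adjoint. -/
lemma R_adj (w : Module.Dual ℂ L) (u v : V) : d.om (d.R w u) v = d.om u (d.R w v) := by
  rw [d.om_skew u]
  unfold om
  rw [d.hR, d.hR, ← lie_skew (d.i v) (d.i u), map_neg]
  ring

/-- The functional `T ↦ om (T u) v`. -/
noncomputable def fu (u v : V) : Module.End ℂ V →ₗ[ℂ] ℂ where
  toFun T := d.om (T u) v
  map_add' S T := by rw [LinearMap.add_apply, d.om_add_left]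
  map_smul' r T := by rw [LinearMap.smul_apply, d.om_smul_left]; rfl

lemma pow_adj (w : Module.Dual ℂ L) (j : ℕ) : ∀ u v : V,
    d.om ((d.R w ^ j) u) v = d.om u ((d.R w ^ j) v) := by
  induction j with
  | zero => intro u v; simp
  | succ j ih =>
    intro u v
    rw [pow_succ, Module.End.mul_apply, ih, d.R_adj, ← Module.End.mul_apply, ← pow_succ',
      ← pow_succ]

lemma Bp_adj (w : Module.Dual ℂ L) (l : ℂ) (j : ℕ) (u v : V) :
    d.om (Bp (d.R w) l j u) v = d.om u (Bp (d.R w) l j v) := by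
  induction j with
  | zero => simp [Bp, om]
  | succ j ih =>
    simp only [Bp, LinearMap.add_apply, LinearMap.smul_apply]
    rw [d.om_add_left, d.om_smul_left, ih, d.pow_adj]
    rw [d.om_skew u (l • _ + _), d.om_add_left, d.om_smul_left, d.om_skew _ u, d.om_skew _ u]
    ring

lemma Bv_adj (w : Module.Dual ℂ L) (m : ℕ → ℂ) (D : ℕ) (l : ℂ) (u v : V) :
    d.om (Bv m D (d.R w) l u) v = d.om u (Bv m D (d.R w) l v) := by
  have key : ∀ s : Finset ℕ, d.om ((∑ j ∈ s, m j • Bp (d.R w) l j) u) v =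
      d.om u ((∑ j ∈ s, m j • Bp (d.R w) l j) v) := by
    classical
    intro s
    induction s using Finset.induction_on with
    | empty => simp [om]
    | insert j s hj ih =>
      rw [Finset.sum_insert hj, LinearMap.add_apply, LinearMap.add_apply, LinearMap.smul_apply,
        LinearMap.smul_apply, d.om_add_left, d.om_smul_left, ih, d.Bp_adj,
        d.om_skew u (m j • _ + _), d.om_add_left, d.om_smul_left, d.om_skew _ u, d.om_skew _ u]
      ring
  exact key _

/-- A functional vanishing on `z` is `a([u, ·])` for some `u` in `V`. -/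
lemma exists_u (w : Module.Dual ℂ L) (hw : w d.z = 0) :
    ∃ u : V, ∀ ξ, w ξ = d.a ⁅d.i u, ξ⁆ := by
  let f : V →ₗ[ℂ] Module.Dual ℂ V :=
    { toFun := fun u =>
        { toFun := fun v => d.a ⁅d.i u, d.i v⁆
          map_add' := fun v v' => by simp
          map_smul' := fun r v => by simp }
      map_add' := fun u u' => by ext v; simp
      map_smul' := fun r u => by ext v; simp }
  have hf : Function.Injective f := by
    rw [injective_iff_map_eq_zero]
    intro u hu
    exact d.hnd u fun v => LinearMap.congr_fun hu v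
  have hs : Function.Surjective f :=
    (LinearMap.injective_iff_surjective_of_finrank_eq_finrank
      (by rw [Subspace.dual_finrank_eq])).mp hf
  obtain ⟨u, hu⟩ := hs (w.comp d.i)
  refine ⟨u, fun ξ => ?_⟩
  obtain ⟨v, s, rfl⟩ := d.hi ξ
  rw [map_add, map_smul, hw, smul_zero, add_zero, lie_add, lie_smul, d.hz', smul_zero, add_zero]
  exact (LinearMap.congr_fun hu v).symm

/-- The direction of `u`. -/
noncomputable def wd (u : V) : Module.Dual ℂ L where
  toFun ξ := d.a ⁅d.i u, ξ⁆
  map_add' ξ η := by simp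
  map_smul' r ξ := by simp

/-- The closedness identity. -/
lemma closed (x : Module.Dual ℂ L) (M : ℂ[X]) (hM : aeval (d.R x) M = 0) (l : ℂ)
    (hl : M.eval l ≠ 0) (u1 u2 u3 : V) :
    d.om ((Bv M.coeff M.natDegree (d.R x) l * d.R (d.wd u1) *
        Bv M.coeff M.natDegree (d.R x) l) u2) u3 +
      d.om ((Bv M.coeff M.natDegree (d.R x) l * d.R (d.wd u2) *
        Bv M.coeff M.natDegree (d.R x) l) u3) u1 +
      d.om ((Bv M.coeff M.natDegree (d.R x) l * d.R (d.wd u3) *
        Bv M.coeff M.natDegree (d.R x) l) u1) u2 = 0 := by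
  set B := Bv M.coeff M.natDegree (d.R x) l with hB
  have hBm : (l • 1 - d.R x) * B = M.eval l • 1 := by
    rw [hB, mul_Bv, Mv_eval, Mv_aeval, hM, sub_zero]
  have h1 : ∀ (u : V) (ξ : L), (x + l • d.a) ⁅d.i (B u), ξ⁆ = M.eval l * d.wd u ξ := by
    intro u ξ
    obtain ⟨v, s, rfl⟩ := d.hi ξ
    have hzz : ∀ y : Module.Dual ℂ L, ∀ v' : V, y ⁅d.i v', s • d.z⁆ = 0 := by
      intro y v'
      rw [lie_smul, d.hz', smul_zero, map_zero]
    rw [lie_add, map_add, hzz, add_zero]
    have h2 : d.wd u (d.i v + s • d.z) = d.om u v := by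
      show d.a ⁅d.i u, d.i v + s • d.z⁆ = _
      rw [lie_add, map_add, hzz, add_zero]
      rfl
    rw [h2, LinearMap.add_apply, LinearMap.smul_apply, smul_eq_mul]
    have h3 : x ⁅d.i (B u), d.i v⁆ = - d.om (d.R x (B u)) v := by
      unfold om
      rw [d.hR, neg_neg]
    have h4 : d.om (((l • 1 - d.R x) * B) u) v = M.eval l * d.om u v := by
      rw [hBm, LinearMap.smul_apply, d.om_smul_left]
      rfl
    have h5 : d.om (((l • 1 - d.R x) * B) u) v = l * d.om (B u) v - d.om (d.R x (B u)) v := by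
      rw [Module.End.mul_apply, LinearMap.sub_apply, LinearMap.smul_apply, Module.End.one_apply,
        sub_eq_add_neg, d.om_add_left, d.om_smul_left, d.om_neg_left]
      ring
    rw [h3, ← h4, h5]
    have : d.a ⁅d.i (B u), d.i v⁆ = d.om (B u) v := rfl
    rw [this]
    ring
  have h6 : ∀ u1 u2 u3 : V, d.om ((B * d.R (d.wd u1) * B) u2) u3 =
      - d.wd u1 ⁅d.i (B u2), d.i (B u3)⁆ := by
    intro u1 u2 u3
    rw [Module.End.mul_apply, Module.End.mul_apply, hB, d.Bv_adj, ← hB]
    unfold om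
    rw [d.hR]
  have h7 := congrArg (x + l • d.a)
    (lie_jacobi (d.i (B u1)) (d.i (B u2)) (d.i (B u3)))
  rw [map_add, map_add, map_zero, h1, h1, h1, ← mul_add, ← mul_add] at h7
  have h8 := (mul_eq_zero.mp h7).resolve_left hl
  rw [h6, h6, h6]
  linear_combination -h8

/-- The hypotheses on the eigenvalue `l0`. -/
structure Eig (d : Dat L V) (x : Module.Dual ℂ L) (M M0 : ℂ[X]) (l0 : ℂ) (h : ℕ) : Prop where
  hM : M = (X - C l0) ^ h * M0
  hM0 : M0.eval l0 ≠ 0
  hMR : aeval (d.R x) M = 0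
  hT : ∀ w : Module.Dual ℂ L, ∃ q : ℂ[X],
    dv M.coeff M.natDegree (d.R x) (d.R w) = - aeval (d.R x) q

/-- The leading form. -/
noncomputable def Cf (d : Dat L V) (x : Module.Dual ℂ L) (M : ℂ[X]) (l0 : ℂ) (u v : V) : ℂ :=
  d.om (Bv M.coeff M.natDegree (d.R x) l0 u) v

lemma Cf_skew (x : Module.Dual ℂ L) (M : ℂ[X]) (l0 : ℂ) (u v : V) :
    d.Cf x M l0 u v = - d.Cf x M l0 v u := by
  unfold Cf
  rw [d.Bv_adj, d.om_skew]

/-- Divisibility of the first variations of the minimal polynomial by `(X - l0) ^ h`. -/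
lemma div_step {x : Module.Dual ℂ L} {M M0 : ℂ[X]} {l0 : ℂ} {h : ℕ} (H : d.Eig x M M0 l0 h)
    (q : Module.Dual ℂ L → ℂ[X])
    (hq : ∀ w, dv M.coeff M.natDegree (d.R x) (d.R w) = - aeval (d.R x) (q w))
    (p : ℕ) (hp : p < h) (N : Module.Dual ℂ L → ℂ[X])
    (hN : ∀ w, w d.z = 0 → q w = (X - C l0) ^ p * N w) (u1 u2 u3 : V) :
    (N (d.wd u1)).eval l0 * d.Cf x M l0 u2 u3 + (N (d.wd u2)).eval l0 * d.Cf x M l0 u3 u1 +
      (N (d.wd u3)).eval l0 * d.Cf x M l0 u1 u2 = 0 := by
  have hwd : ∀ u : V, d.wd u d.z = 0 := fun u => by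
    show d.a ⁅d.i u, d.z⁆ = 0
    rw [d.hz', map_zero]
  -- the remainder
  let K1 : V → V → V → ℂ → ℂ := fun u v v' l =>
    d.fu v v' (Cv M.coeff M.natDegree (d.R x) (d.R (d.wd u)) l) +
      d.fu v v' (Bv (q (d.wd u)).coeff (q (d.wd u)).natDegree (d.R x) l)
  have hK1 : ∀ u v v', Continuous (K1 u v v') := fun u v v' =>
    (Cv_cont _ _ _ _ _).add (Bv_cont _ _ _ _)
  have hterm : ∀ u v v' l, d.om ((Bv M.coeff M.natDegree (d.R x) l * d.R (d.wd u) *
      Bv M.coeff M.natDegree (d.R x) l) v) v' = M.eval l * K1 u v v' l -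
        (q (d.wd u)).eval l * d.fu v v' (Bv M.coeff M.natDegree (d.R x) l) := by
    intro u v v' l
    have hMv : Mv M.coeff M.natDegree (d.R x) = 0 := by rw [Mv_aeval]; exact H.hMR
    rw [main_identity _ _ _ _ _ hMv, hq, neg_mul, aeval_mul_Bv M _ _ _ H.hMR, Mv_eval]
    have : d.om ((M.eval l • Cv M.coeff M.natDegree (d.R x) (d.R (d.wd u)) l +
        -((q (d.wd u)).eval l • Bv M.coeff M.natDegree (d.R x) l -
          M.eval l • Bv (q (d.wd u)).coeff (q (d.wd u)).natDegree (d.R x) l)) v) v' =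
        d.fu v v' (M.eval l • Cv M.coeff M.natDegree (d.R x) (d.R (d.wd u)) l +
        -((q (d.wd u)).eval l • Bv M.coeff M.natDegree (d.R x) l -
          M.eval l • Bv (q (d.wd u)).coeff (q (d.wd u)).natDegree (d.R x) l)) := rfl
    rw [this, map_add, map_neg, map_sub, map_smul, map_smul, map_smul]
    simp only [K1, smul_eq_mul]
    ring
  let F : ℂ → ℂ := fun l =>
    (N (d.wd u1)).eval l * d.fu u2 u3 (Bv M.coeff M.natDegree (d.R x) l) +
    (N (d.wd u2)).eval l * d.fu u3 u1 (Bv M.coeff M.natDegree (d.R x) l) +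
    (N (d.wd u3)).eval l * d.fu u1 u2 (Bv M.coeff M.natDegree (d.R x) l) -
    (l - l0) ^ (h - p) * M0.eval l * (K1 u1 u2 u3 l + K1 u2 u3 u1 l + K1 u3 u1 u2 l)
  have hF : Continuous F := by
    have e1 : ∀ (r : ℂ[X]), Continuous fun l : ℂ => r.eval l := fun r => r.continuous
    have e2 : ∀ v v', Continuous fun l => d.fu v v' (Bv M.coeff M.natDegree (d.R x) l) :=
      fun v v' => Bv_cont _ _ _ _
    exact ((((e1 _).mul (e2 _ _)).add ((e1 _).mul (e2 _ _))).add ((e1 _).mul (e2 _ _))).sub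
      ((((continuous_id.sub continuous_const).pow _).mul (e1 _)).mul
        (((hK1 _ _ _).add (hK1 _ _ _)).add (hK1 _ _ _)))
  have hF0 : ∀ᶠ l in 𝓝[≠] l0, F l = 0 := by
    have hM0' : ∀ᶠ l in 𝓝[≠] l0, M0.eval l ≠ 0 :=
      (M0.continuous.continuousAt.eventually_ne H.hM0).filter_mono nhdsWithin_le_nhds
    filter_upwards [hM0', self_mem_nhdsWithin] with l hl hl0
    have hl0' : l - l0 ≠ 0 := sub_ne_zero.mpr hl0
    have hMl : M.eval l = (l - l0) ^ h * M0.eval l := by
      rw [H.hM]; simp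
    have hMne : M.eval l ≠ 0 := by
      rw [hMl]; exact mul_ne_zero (pow_ne_zero _ hl0') hl
    have hc := d.closed x M H.hMR l hMne u1 u2 u3
    rw [hterm, hterm, hterm] at hc
    have hqe : ∀ u, (q (d.wd u)).eval l = (l - l0) ^ p * (N (d.wd u)).eval l := by
      intro u
      rw [hN _ (hwd u)]; simp
    have hpow : (l - l0) ^ h = (l - l0) ^ p * (l - l0) ^ (h - p) := by
      rw [← pow_add]; congr 1; omega
    rw [hqe, hqe, hqe, hMl, hpow] at hc
    have : (l - l0) ^ p * F l = 0 := by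
      simp only [F]
      linear_combination -hc
    exact (mul_eq_zero.mp this).resolve_left (pow_ne_zero _ hl0')
  have hF1 : F l0 = 0 := by
    have h1 : Tendsto F (𝓝[≠] l0) (𝓝 (F l0)) := hF.continuousAt.mono_left nhdsWithin_le_nhds
    have h2 : Tendsto F (𝓝[≠] l0) (𝓝 0) :=
      tendsto_const_nhds.congr' (hF0.mono fun t ht => ht.symm)
    exact tendsto_nhds_unique h1 h2
  have h3 : (l0 - l0) ^ (h - p) = (0 : ℂ) := by
    rw [sub_self, zero_pow (by omega)]
  simp only [F, h3, zero_mul, sub_zero] at hF1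
  exact hF1

/-- All first variations in the directions vanishing on `z` are divisible by `(X - l0) ^ h`. -/
lemma div_all {x : Module.Dual ℂ L} {M M0 : ℂ[X]} {l0 : ℂ} {h : ℕ} (H : d.Eig x M M0 l0 h)
    (q : Module.Dual ℂ L → ℂ[X])
    (hq : ∀ w, dv M.coeff M.natDegree (d.R x) (d.R w) = - aeval (d.R x) (q w))
    {e f e' f' : V} (h1 : d.Cf x M l0 e f ≠ 0) (h2 : d.Cf x M l0 e' f' ≠ 0)
    (h3 : d.Cf x M l0 e e' = 0) (h4 : d.Cf x M l0 e f' = 0) (h5 : d.Cf x M l0 f e' = 0)
    (h6 : d.Cf x M l0 f f' = 0) :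
    ∀ p ≤ h, ∀ w : Module.Dual ℂ L, w d.z = 0 → (X - C l0) ^ p ∣ q w := by
  classical
  intro p
  induction p with
  | zero => intro _ w _; simp
  | succ p ih =>
    intro hp
    have ih' := ih (by omega)
    choose N hN using ih'
    let N' : Module.Dual ℂ L → ℂ[X] := fun w => if hw : w d.z = 0 then N w hw else 0
    have hN' : ∀ w, w d.z = 0 → q w = (X - C l0) ^ p * N' w := by
      intro w hw
      simp only [N', dif_pos hw]
      exact hN w hw
    have key := d.div_step H q hq p (by omega) N' hN'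
    set c : V → ℂ := fun u => (N' (d.wd u)).eval l0 with hc
    have s3 : d.Cf x M l0 e' e = 0 := by rw [d.Cf_skew, h3, neg_zero]
    have s4 : d.Cf x M l0 f' e = 0 := by rw [d.Cf_skew, h4, neg_zero]
    have s5 : d.Cf x M l0 e' f = 0 := by rw [d.Cf_skew, h5, neg_zero]
    have s6 : d.Cf x M l0 f' f = 0 := by rw [d.Cf_skew, h6, neg_zero]
    have key' : ∀ u1 u2 u3, c u1 * d.Cf x M l0 u2 u3 + c u2 * d.Cf x M l0 u3 u1 +
        c u3 * d.Cf x M l0 u1 u2 = 0 := key
    have c2 : c e' = 0 := by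
      have := key' e' e f
      rw [h5, s3, mul_zero, mul_zero, add_zero, add_zero] at this
      exact (mul_eq_zero.mp this).resolve_right h1
    have c3 : c f' = 0 := by
      have := key' f' e f
      rw [h6, s4, mul_zero, mul_zero, add_zero, add_zero] at this
      exact (mul_eq_zero.mp this).resolve_right h1
    have c4 : ∀ u, c u = 0 := by
      intro u
      have := key' u e' f'
      rw [c2, c3, zero_mul, zero_mul, add_zero, add_zero] at this
      exact (mul_eq_zero.mp this).resolve_right h2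
    intro w hw
    obtain ⟨u, hu⟩ := d.exists_u w hw
    have hwu : w = d.wd u := by
      ext ξ
      exact hu ξ
    have hroot : (X - C l0) ∣ N' w := by
      rw [dvd_iff_isRoot]
      have := c4 u
      rw [hc] at this
      rw [hwu]
      exact this
    rw [hN' w hw, pow_succ]
    exact mul_dvd_mul_left _ hroot

lemma dp_comm {E : Type*} [Ring E] [Algebra ℂ E] (R S : E) (hS : Commute S R) (j : ℕ) :
    dp R S j = (j : ℂ) • (S * R ^ (j - 1)) := by
  induction j with
  | zero => simp [dp]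
  | succ j ih =>
    simp only [dp]
    rw [ih]
    rcases Nat.eq_zero_or_pos j with hj | hj
    · subst hj; simp
    · obtain ⟨i, rfl⟩ : ∃ i, j = i + 1 := ⟨j - 1, by omega⟩
      have e1 : R ^ (i + 1) * S = S * R ^ (i + 1) := (hS.pow_right (i + 1)).symm.eq
      rw [e1, smul_mul_assoc, mul_assoc]
      have e2 : i + 1 - 1 = i := by omega
      have e3 : i + 1 + 1 - 1 = i + 1 := by omega
      rw [e2, e3, ← pow_succ]
      push_cast
      module

lemma dv_comm {E : Type*} [Ring E] [Algebra ℂ E] (M : ℂ[X]) (R S : E) (hS : Commute S R) :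
    dv M.coeff M.natDegree R S = S * aeval R (derivative M) := by
  rw [derivative_apply, sum_over_range _ (by intro n; simp), map_sum, Finset.mul_sum]
  unfold dv
  refine Finset.sum_congr rfl fun j _ => ?_
  rw [dp_comm R S hS, map_mul, aeval_C, map_pow, aeval_X, Algebra.algebraMap_eq_smul_one,
    smul_mul_assoc, one_mul, mul_smul_comm, smul_smul]

/-- The conclusion: an eigenvalue whose largest Jordan block is not unique is determined by `z`. -/
theorem bad_eigenvalue {x : Module.Dual ℂ L} {M M0 : ℂ[X]} {l0 : ℂ} {h : ℕ}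
    (H : d.Eig x M M0 l0 h)
    {e f e' f' : V} (h1 : d.Cf x M l0 e f ≠ 0) (h2 : d.Cf x M l0 e' f' ≠ 0)
    (h3 : d.Cf x M l0 e e' = 0) (h4 : d.Cf x M l0 e f' = 0) (h5 : d.Cf x M l0 f e' = 0)
    (h6 : d.Cf x M l0 f f' = 0) {v g : V} {κ : ℂ} (hv : aeval (d.R x) ((X - C l0) ^ h) v = 0)
    (hv2 : aeval (d.R x) (derivative M) v = κ • g) (hκ : κ ≠ 0) (hg : g ≠ 0)
    (hRg : d.R x g = l0 • g) : d.a d.z * l0 + x d.z = 0 := by
  choose q hq using H.hT
  let w0 : Module.Dual ℂ L := d.a d.z • x + (-(x d.z)) • d.a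
  have hw0 : w0 d.z = 0 := by
    simp only [w0, LinearMap.add_apply, LinearMap.smul_apply, smul_eq_mul]
    ring
  have hRw : d.R w0 = d.a d.z • d.R x + x d.z • 1 := by
    simp only [w0]
    rw [d.R_add, d.R_smul, d.R_smul, d.R_a]
    module
  have hcomm : Commute (d.R w0) (d.R x) := by
    rw [hRw]
    exact ((Commute.refl _).smul_left _).add_left ((Commute.one_left _).smul_left _)
  have hd := dv_comm M (d.R x) (d.R w0) hcomm
  rw [hq w0] at hd
  obtain ⟨r, hr⟩ := d.div_all H q hq h1 h2 h3 h4 h5 h6 h le_rfl w0 hw0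
  have h7 : aeval (d.R x) (q w0) v = 0 := by
    rw [hr, mul_comm, map_mul, Module.End.mul_apply, hv, map_zero]
  have h8 := LinearMap.congr_fun hd v
  rw [LinearMap.neg_apply, h7, neg_zero, Module.End.mul_apply, hv2, map_smul, hRw,
    LinearMap.add_apply, LinearMap.smul_apply, LinearMap.smul_apply, Module.End.one_apply, hRg,
    smul_smul, ← add_smul, smul_smul] at h8
  rcases smul_eq_zero.mp h8.symm with h9 | h9
  · exact (mul_eq_zero.mp h9).resolve_left hκ
  · exact absurd h9 hg

end Dat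

end Core

end Pool.Agent.Helper55K1.JK
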