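import Mathlib

/-!
Jordan–Kronecker normal forms of pairs of skew-symmetric forms, algebraic types, and the generic
type of the pencil of a Lie algebra: definitions.
-/

namespace Pool.Agent.Helper55K1.JK

/-- A block of a Jordan–Kronecker normal form: a Kronecker block of size `2 k + 1`, or a Jordan
block of size `2 k` with (finite) eigenvalue `μ`. -/
inductive Block
  | kronecker (k : ℕ)
  | jordan (k : ℕ) (μ : ℂ)

namespace Block

/-- The number of the basis vectors `e_0, e_1, …` of a block. -/
def rows : Block → ℕ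
  | kronecker k => k
  | jordan k _ => k

/-- The number of the basis vectors `f_0, f_1, …` of a block. -/
def cols : Block → ℕ
  | kronecker k => k + 1
  | jordan k _ => k

/-- The value of the first form on `(e_i, f_j)`. -/
def first : Block → ℕ → ℕ → ℂ
  | kronecker _, i, j => if j = i then 1 else 0
  | jordan _ μ, i, j => if j = i then μ else if j = i + 1 then 1 else 0

/-- The value of the second form on `(e_i, f_j)`. -/
def second : Block → ℕ → ℕ → ℂ
  | kronecker _, i, j => if j = i + 1 then -1 else 0
  | jordan _ _, i, j => if j = i then -1 else 0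

/-- The index set of the basis `e_0, e_1, …, f_0, f_1, …` of a block. -/
abbrev Ix (b : Block) : Type := Fin b.rows ⊕ Fin b.cols

end Block

/-- The skew-symmetric matrix, on the index set of the vectors `e_i`, `f_j`, with the entry `M i j`
at `(e_i, f_j)`, the entry `- M i j` at `(f_j, e_i)`, and `0` at all other places. -/
def skew (M : ℕ → ℕ → ℂ) {p q : ℕ} : Fin p ⊕ Fin q → Fin p ⊕ Fin q → ℂ
  | .inl i, .inr j => M i j
  | .inr j, .inl i => - M i j
  | .inl _, .inl _ => 0
  | .inr _, .inr _ => 0

/-- The forms `A` and `B` on `V` are, in a common basis, block diagonal with the blocks `blk i`. -/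
def HasBlocks {V : Type*} [AddCommGroup V] [Module ℂ V] {I : Type*} (A B : V → V → ℂ)
    (blk : I → Block) : Prop :=
  ∃ b : Module.Basis (Σ i, (blk i).Ix) ℂ V,
    (∀ i s t, A (b ⟨i, s⟩) (b ⟨i, t⟩) = skew (blk i).first s t ∧
      B (b ⟨i, s⟩) (b ⟨i, t⟩) = skew (blk i).second s t) ∧
    ∀ i j s t, i ≠ j → A (b ⟨i, s⟩) (b ⟨j, t⟩) = 0 ∧ B (b ⟨i, s⟩) (b ⟨j, t⟩) = 0

/-- The pair `(A, B)` has the algebraic type with the Kronecker blocks of sizes `2 (k i) + 1` and
the Jordan blocks of sizes `2 (d j)`, where the Jordan blocks `i` and `j` have the same eigenvalue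
if and only if `c i = c j`. All the eigenvalues are finite. -/
def HasType {V : Type*} [AddCommGroup V] [Module ℂ V] (A B : V → V → ℂ) {κ ι : Type*}
    (k : κ → ℕ) (d c : ι → ℕ) : Prop :=
  ∃ μ : ι → ℂ, (∀ i j, μ i = μ j ↔ c i = c j) ∧
    HasBlocks A B (Sum.elim (fun i => Block.kronecker (k i)) fun j => Block.jordan (d j) (μ j))

/-- The algebraic type given by `k`, `d`, `c` is the Jordan–Kronecker invariant of some
finite-dimensional complex Lie algebra `L`: for all `(x, a)` in `L* × L*` outside the zero set of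
some nonzero polynomial in the coordinates of `x` and `a`, the pair of the forms `x([ξ, η])` and
`a([ξ, η])` has this type. -/
def Realised {κ ι : Type*} (k : κ → ℕ) (d c : ι → ℕ) : Prop :=
  ∃ (L : Type) (_ : LieRing L) (_ : LieAlgebra ℂ L) (J : Type) (_ : Fintype J)
    (b : Module.Basis J ℂ L) (p : MvPolynomial (J ⊕ J) ℂ), p ≠ 0 ∧
    ∀ x a : Module.Dual ℂ L,
      MvPolynomial.eval (Sum.elim (fun j => x (b j)) fun j => a (b j)) p ≠ 0 →
        HasType (fun ξ η : L => x ⁅ξ, η⁆) (fun ξ η : L => a ⁅ξ, η⁆) k d c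

end Pool.Agent.Helper55K1.JK
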