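import Mathlib

/-!
Divided differences in an associative algebra, and the first order variation of the minimal
polynomial.
-/

namespace Pool.Agent.Helper55K1.JK

open Filter Topology

section Alg

variable {E : Type*} [Ring E] [Algebra ℂ E]

/-- The derivative of `R ^ j` in the direction `S`. -/
def dp (R S : E) : ℕ → E
  | 0 => 0
  | j + 1 => dp R S j * R + R ^ j * S

/-- The divided difference `(l ^ j - R ^ j) / (l - R)`. -/
def Bp (R : E) (l : ℂ) : ℕ → E
  | 0 => 0
  | j + 1 => l • Bp R l j + R ^ j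

/-- The derivative of `Bp` in the direction `S`. -/
def Cp (R S : E) (l : ℂ) : ℕ → E
  | 0 => 0
  | j + 1 => l • Cp R S l j + dp R S j

lemma Bp_mul (R : E) (l : ℂ) (j : ℕ) : Bp R l j * (l • 1 - R) = l ^ j • 1 - R ^ j := by
  induction j with
  | zero => simp [Bp]
  | succ j ih =>
    simp only [Bp]
    rw [add_mul, smul_mul_assoc, ih, mul_sub, mul_smul_comm, mul_one, smul_sub, smul_smul,
      ← pow_succ', ← pow_succ]
    abel

lemma mul_Bp (R : E) (l : ℂ) (j : ℕ) : (l • 1 - R) * Bp R l j = l ^ j • 1 - R ^ j := by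
  induction j with
  | zero => simp [Bp]
  | succ j ih =>
    simp only [Bp]
    rw [mul_add, mul_smul_comm, ih, sub_mul, smul_mul_assoc, one_mul, smul_sub, smul_smul,
      ← pow_succ', ← pow_succ']
    abel

lemma Cp_mul (R S : E) (l : ℂ) (j : ℕ) :
    Cp R S l j * (l • 1 - R) = Bp R l j * S - dp R S j := by
  induction j with
  | zero => simp [Bp, Cp, dp]
  | succ j ih =>
    simp only [Bp, Cp, dp]
    rw [add_mul, smul_mul_assoc, ih, mul_sub, mul_smul_comm, mul_one, smul_sub, add_mul,
      smul_mul_assoc]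
    abel

/-- The values at `R` of the polynomial with the coefficients `m`, `j ≤ D`. -/
def Mv (m : ℕ → ℂ) (D : ℕ) (R : E) : E := ∑ j ∈ Finset.range (D + 1), m j • R ^ j

/-- Its divided difference. -/
def Bv (m : ℕ → ℂ) (D : ℕ) (R : E) (l : ℂ) : E := ∑ j ∈ Finset.range (D + 1), m j • Bp R l j

/-- The derivative of the divided difference. -/
def Cv (m : ℕ → ℂ) (D : ℕ) (R S : E) (l : ℂ) : E :=
  ∑ j ∈ Finset.range (D + 1), m j • Cp R S l j

/-- The derivative of the polynomial at `R` in the direction `S`. -/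
def dv (m : ℕ → ℂ) (D : ℕ) (R S : E) : E := ∑ j ∈ Finset.range (D + 1), m j • dp R S j

lemma Mv_scalar (m : ℕ → ℂ) (D : ℕ) (l : ℂ) :
    ∑ j ∈ Finset.range (D + 1), m j • (l ^ j • (1 : E)) = (Mv m D l : ℂ) • (1 : E) := by
  simp only [Mv, smul_smul, smul_eq_mul, Finset.sum_smul]

lemma Bv_mul (m : ℕ → ℂ) (D : ℕ) (R : E) (l : ℂ) :
    Bv m D R l * (l • 1 - R) = (Mv m D l : ℂ) • 1 - Mv m D R := by
  rw [← Mv_scalar]
  simp only [Bv, Mv, Finset.sum_mul, smul_mul_assoc, Bp_mul, smul_sub, Finset.sum_sub_distrib]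

lemma mul_Bv (m : ℕ → ℂ) (D : ℕ) (R : E) (l : ℂ) :
    (l • 1 - R) * Bv m D R l = (Mv m D l : ℂ) • 1 - Mv m D R := by
  rw [← Mv_scalar]
  simp only [Bv, Mv, Finset.mul_sum, mul_smul_comm, mul_Bp, smul_sub, Finset.sum_sub_distrib]

lemma Cv_mul (m : ℕ → ℂ) (D : ℕ) (R S : E) (l : ℂ) :
    Cv m D R S l * (l • 1 - R) = Bv m D R l * S - dv m D R S := by
  simp only [Bv, Cv, dv, Finset.sum_mul, smul_mul_assoc, Cp_mul, smul_sub,
    Finset.sum_sub_distrib]

/-- The main identity. -/
lemma main_identity (m : ℕ → ℂ) (D : ℕ) (R S : E) (l : ℂ) (hR : Mv m D R = 0) :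
    Bv m D R l * S * Bv m D R l =
      (Mv m D l : ℂ) • Cv m D R S l + dv m D R S * Bv m D R l := by
  have h1 : Bv m D R l * S = Cv m D R S l * (l • 1 - R) + dv m D R S := by
    rw [Cv_mul]; abel
  rw [h1, add_mul, mul_assoc, mul_Bv, hR, sub_zero, mul_smul_comm, mul_one]

/-- The difference quotient of the powers. -/
def Gq (R S : E) : ℕ → ℂ → E
  | 0, _ => 0
  | j + 1, t => Gq R S j t * R + R ^ j * S + t • (Gq R S j t * S)

lemma Gq_eq (R S : E) (j : ℕ) (t : ℂ) : (R + t • S) ^ j = R ^ j + t • Gq R S j t := by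
  induction j with
  | zero => simp [Gq]
  | succ j ih =>
    rw [pow_succ, ih, pow_succ]
    simp only [Gq]
    rw [add_mul, mul_add, mul_add, smul_add, smul_add, smul_mul_assoc, smul_mul_assoc,
      mul_smul_comm, mul_smul_comm]
    abel

lemma Gq_zero (R S : E) (j : ℕ) : Gq R S j 0 = dp R S j := by
  induction j with
  | zero => rfl
  | succ j ih =>
    simp only [Gq, dp]
    rw [zero_smul, add_zero, ih]

lemma Gq_cont (R S : E) (j : ℕ) : ∀ φ : E →ₗ[ℂ] ℂ, Continuous fun t => φ (Gq R S j t) := by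
  induction j with
  | zero =>
    intro φ
    simp only [Gq, map_zero]
    exact continuous_const
  | succ j ih =>
    intro φ
    simp only [Gq, map_add, map_smul, smul_eq_mul]
    refine Continuous.add (Continuous.add ?_ continuous_const) (Continuous.mul continuous_id ?_)
    · exact ih (φ.comp (LinearMap.mulRight ℂ R))
    · exact ih (φ.comp (LinearMap.mulRight ℂ S))

lemma pow_cont (R S : E) (j : ℕ) (φ : E →ₗ[ℂ] ℂ) : Continuous fun t : ℂ => φ ((R + t • S) ^ j) := by
  simp only [Gq_eq, map_add, map_smul, smul_eq_mul]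
  exact continuous_const.add (continuous_id.mul (Gq_cont R S j φ))

/-- If all small perturbations of `R` in the direction `S` are killed by monic polynomials of
degree `D`, and `R` by the monic polynomial with the coefficients `m` and by no polynomial of
smaller degree, then the derivative of this polynomial is a polynomial in `R`. -/
theorem first_order (D : ℕ) (m : ℕ → ℂ) (hmD : m D = 1) (R S : E) (hM : Mv m D R = 0)
    (hli : LinearIndependent ℂ fun j : Fin D => R ^ (j : ℕ))
    (hev : ∀ᶠ t in 𝓝[≠] (0 : ℂ), ∃ m' : Fin D → ℂ,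
      (R + t • S) ^ D + ∑ j, m' j • (R + t • S) ^ (j : ℕ) = 0) :
    dv m D R S ∈ Submodule.span ℂ (Set.range fun j : Fin D => R ^ (j : ℕ)) := by
  by_contra hcon
  obtain ⟨φ, hφ1, hφ2⟩ := Submodule.exists_dual_map_eq_bot_of_notMem hcon inferInstance
  have hφj : ∀ j : Fin D, φ (R ^ (j : ℕ)) = 0 := by
    intro j
    have : φ (R ^ (j : ℕ)) ∈ (Submodule.span ℂ (Set.range fun j : Fin D => R ^ (j : ℕ))).map φ :=
      Submodule.mem_map_of_mem (Submodule.subset_span ⟨j, rfl⟩)
    rw [hφ2] at this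
    simpa using this
  have hRD : R ^ D = - ∑ j : Fin D, m j • R ^ (j : ℕ) := by
    unfold Mv at hM
    rw [Finset.sum_range_succ, hmD, one_smul,
      ← Fin.sum_univ_eq_sum_range (fun j => m j • R ^ j) D] at hM
    exact eq_neg_of_add_eq_zero_right hM
  have hφD : φ (R ^ D) = 0 := by
    rw [hRD, map_neg, map_sum]
    simp [hφj]
  obtain ⟨ψ, hψ⟩ : ∃ ψ : E →ₗ[ℂ] (Fin D → ℂ), ∀ j : Fin D, ψ (R ^ (j : ℕ)) = Pi.single j 1 := by
    let f : Submodule.span ℂ (Set.range fun j : Fin D => R ^ (j : ℕ)) →ₗ[ℂ] (Fin D → ℂ) :=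
      (Finsupp.linearEquivFunOnFinite ℂ ℂ (Fin D)).toLinearMap.comp hli.repr
    obtain ⟨ψ, hψ⟩ := LinearMap.exists_extend f
    refine ⟨ψ, fun j => ?_⟩
    have h1 := LinearMap.congr_fun hψ ⟨R ^ (j : ℕ), Submodule.subset_span ⟨j, rfl⟩⟩
    have h2 : hli.repr ⟨R ^ (j : ℕ), Submodule.subset_span ⟨j, rfl⟩⟩ = Finsupp.single j 1 :=
      hli.repr_eq_single j _ rfl
    simp only [LinearMap.comp_apply, Submodule.subtype_apply] at h1
    rw [h1]
    simp only [f, LinearMap.comp_apply, LinearEquiv.coe_coe]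
    rw [h2]
    simp
  let T : ℂ → Matrix (Fin D) (Fin D) ℂ := fun t => Matrix.of fun i j => ψ ((R + t • S) ^ (j : ℕ)) i
  let tt : ℂ → Fin D → ℂ := fun t => ψ ((R + t • S) ^ D)
  have hψc : ∀ (j : ℕ) (i : Fin D), Continuous fun t : ℂ => ψ ((R + t • S) ^ j) i := fun j i =>
    pow_cont R S j ((LinearMap.proj i).comp ψ)
  have hT : Continuous T := by
    refine continuous_matrix fun i j => ?_
    exact hψc j i
  have htt : Continuous tt := continuous_pi fun i => hψc D i
  let F : ℂ → ℂ := fun t => (T t).det * φ (Gq R S D t) -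
    ∑ j : Fin D, ((T t).adjugate.mulVec (tt t)) j * φ (Gq R S j t)
  have hF : Continuous F := by
    refine (hT.matrix_det.mul (Gq_cont R S D φ)).sub ?_
    refine continuous_finset_sum _ fun j _ => ?_
    refine Continuous.mul ?_ (Gq_cont R S j φ)
    exact (continuous_apply j).comp (hT.matrix_adjugate.matrix_mulVec htt)
  have hF0 : ∀ᶠ t in 𝓝[≠] (0 : ℂ), F t = 0 := by
    filter_upwards [hev, self_mem_nhdsWithin] with t ht ht0
    obtain ⟨m', hm'⟩ := ht
    have ht0' : t ≠ 0 := ht0
    have h1 : (T t).mulVec m' = - tt t := by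
      have := congrArg ψ hm'
      rw [map_add, map_sum, map_zero] at this
      have h2 : tt t + (T t).mulVec m' = 0 := by
        rw [← this]
        funext i
        simp only [Pi.add_apply, tt, T, Matrix.mulVec, dotProduct, Matrix.of_apply, map_smul,
          Finset.sum_apply, Pi.smul_apply, smul_eq_mul]
        congr 1
        exact Finset.sum_congr rfl fun j _ => mul_comm _ _
      exact eq_neg_of_add_eq_zero_right h2
    have h3 : ∀ j : Fin D, (T t).det * m' j = - ((T t).adjugate.mulVec (tt t)) j := by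
      intro j
      have := congrArg ((T t).adjugate.mulVec) h1
      rw [Matrix.mulVec_mulVec, Matrix.adjugate_mul, Matrix.smul_mulVec, Matrix.one_mulVec,
        Matrix.mulVec_neg] at this
      simpa using congrFun this j
    have h4 : φ (Gq R S D t) + ∑ j : Fin D, m' j * φ (Gq R S j t) = 0 := by
      have h5 := congrArg φ hm'
      rw [map_add, map_sum, map_zero, Gq_eq, map_add, hφD, zero_add, map_smul] at h5
      have h6 : ∀ j : Fin D, φ (m' j • (R + t • S) ^ (j : ℕ)) = t * (m' j * φ (Gq R S j t)) := by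
        intro j
        rw [map_smul, Gq_eq, map_add, hφj, zero_add, map_smul]
        simp only [smul_eq_mul]
        ring
      rw [Finset.sum_congr rfl fun j _ => h6 j, ← Finset.mul_sum, smul_eq_mul, ← mul_add] at h5
      rcases mul_eq_zero.mp h5 with h7 | h7
      · exact absurd h7 ht0'
      · exact h7
    have h8 : F t = (T t).det * (φ (Gq R S D t) + ∑ j : Fin D, m' j * φ (Gq R S j t)) := by
      simp only [F]
      rw [mul_add, Finset.mul_sum, sub_eq_add_neg, ← Finset.sum_neg_distrib]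
      congr 1
      refine Finset.sum_congr rfl fun j _ => ?_
      rw [← mul_assoc, h3 j, neg_mul]
    rw [h8, h4, mul_zero]
  have hF1 : F 0 = 0 := by
    have h1 : Tendsto F (𝓝[≠] (0 : ℂ)) (𝓝 (F 0)) := hF.continuousAt.mono_left nhdsWithin_le_nhds
    have h2 : Tendsto F (𝓝[≠] (0 : ℂ)) (𝓝 0) :=
      tendsto_const_nhds.congr' (hF0.mono fun t ht => ht.symm)
    exact tendsto_nhds_unique h1 h2
  have hT0 : T 0 = 1 := by
    ext i j
    simp only [T, Matrix.of_apply, zero_smul, add_zero, hψ]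
    rw [Matrix.one_apply, Pi.single_apply]
  have htt0 : tt 0 = fun j : Fin D => - m j := by
    simp only [tt, zero_smul, add_zero]
    rw [hRD, map_neg, map_sum]
    funext i
    simp only [map_smul, hψ, Pi.neg_apply, Finset.sum_apply, Pi.smul_apply, smul_eq_mul,
      Pi.single_apply, mul_ite, mul_one, mul_zero]
    rw [Finset.sum_ite_eq]
    simp
  apply hφ1
  have h9 : φ (dv m D R S) = F 0 := by
    simp only [F, hT0, htt0, Matrix.det_one, Matrix.adjugate_one, Matrix.one_mulVec, Gq_zero]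
    unfold dv
    rw [Finset.sum_range_succ, map_add, hmD, one_smul, one_mul, map_sum,
      ← Fin.sum_univ_eq_sum_range (fun j => φ (m j • dp R S j)) D, add_comm, sub_eq_add_neg,
      ← Finset.sum_neg_distrib]
    congr 1
    refine Finset.sum_congr rfl fun j _ => ?_
    rw [map_smul, smul_eq_mul]
    ring
  rw [h9, hF1]

end Alg

end Pool.Agent.Helper55K1.JK
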