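import Pool.Agent.Helper55K1.JKNil

/-!
The Lie algebra `U ⊕ ℂ³` of a pair of alternating bilinear forms on `U`: a derivation acts on the
two-step nilpotent algebra `U ⊕ ℂ²` with the weights `1/2` and `1`.
-/

namespace Pool.Agent.Helper55K1.JK

open Matrix

section

variable {U : Type} [AddCommGroup U] [Module ℂ U]

/-- The space `U ⊕ ℂ³`; the last coordinate belongs to the derivation. -/
def Dil (_F : Alt U (Fin 2 → ℂ)) : Type := U × (Fin 2 → ℂ) × ℂ

instance (F : Alt U (Fin 2 → ℂ)) : AddCommGroup (Dil F) :=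
  inferInstanceAs (AddCommGroup (U × (Fin 2 → ℂ) × ℂ))

instance (F : Alt U (Fin 2 → ℂ)) : Module ℂ (Dil F) :=
  inferInstanceAs (Module ℂ (U × (Fin 2 → ℂ) × ℂ))

/-- The bracket. -/
noncomputable def dilBr (F : Alt U (Fin 2 → ℂ)) (x y : U × (Fin 2 → ℂ) × ℂ) :
    U × (Fin 2 → ℂ) × ℂ :=
  ((1 / 2 : ℂ) • (x.2.2 • y.1 - y.2.2 • x.1),
    x.2.2 • y.2.1 - y.2.2 • x.2.1 + F.f x.1 y.1, 0)

lemma dilBr_add_left (F : Alt U (Fin 2 → ℂ)) (x y z : U × (Fin 2 → ℂ) × ℂ) :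
    dilBr F (x + y) z = dilBr F x z + dilBr F y z := by
  refine Prod.ext ?_ (Prod.ext ?_ ?_)
  · simp only [dilBr, Prod.fst_add, Prod.snd_add]; module
  · simp only [dilBr, Prod.fst_add, Prod.snd_add, map_add, LinearMap.add_apply]; module
  · simp [dilBr]

lemma dilBr_self (F : Alt U (Fin 2 → ℂ)) (x : U × (Fin 2 → ℂ) × ℂ) : dilBr F x x = 0 := by
  simp [dilBr, F.alt]

lemma dilBr_add_right (F : Alt U (Fin 2 → ℂ)) (x y z : U × (Fin 2 → ℂ) × ℂ) :
    dilBr F x (y + z) = dilBr F x y + dilBr F x z := by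
  refine Prod.ext ?_ (Prod.ext ?_ ?_)
  · simp only [dilBr, Prod.fst_add, Prod.snd_add]; module
  · simp only [dilBr, Prod.fst_add, Prod.snd_add, map_add]; module
  · simp [dilBr]

lemma dilBr_smul (F : Alt U (Fin 2 → ℂ)) (r : ℂ) (x y : U × (Fin 2 → ℂ) × ℂ) :
    dilBr F x (r • y) = r • dilBr F x y := by
  refine Prod.ext ?_ (Prod.ext ?_ ?_)
  · simp only [dilBr, Prod.smul_fst, Prod.smul_snd, smul_eq_mul]; module
  · simp only [dilBr, Prod.smul_fst, Prod.smul_snd, smul_eq_mul, map_smul]; module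
  · simp [dilBr]

lemma dilBr_jacobi (F : Alt U (Fin 2 → ℂ)) (x y z : U × (Fin 2 → ℂ) × ℂ) :
    dilBr F x (dilBr F y z) = dilBr F (dilBr F x y) z + dilBr F y (dilBr F x z) := by
  refine Prod.ext ?_ (Prod.ext ?_ ?_)
  · simp only [dilBr, Prod.fst_add]; module
  · have h1 := F.swap y.1 x.1
    have h2 := F.swap z.1 x.1
    have h3 := F.swap z.1 y.1
    simp only [dilBr, Prod.fst_add, Prod.snd_add, map_smul, map_sub, LinearMap.smul_apply,
      LinearMap.sub_apply]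
    rw [h1]
    module
  · simp [dilBr]

noncomputable instance (F : Alt U (Fin 2 → ℂ)) : LieRing (Dil F) where
  bracket x y := dilBr F x y
  add_lie := dilBr_add_left F
  lie_add := dilBr_add_right F
  lie_self := dilBr_self F
  leibniz_lie := dilBr_jacobi F

noncomputable instance (F : Alt U (Fin 2 → ℂ)) : LieAlgebra ℂ (Dil F) where
  lie_smul := dilBr_smul F

lemma Dil.lie_def (F : Alt U (Fin 2 → ℂ)) (x y : Dil F) : ⁅x, y⁆ = dilBr F x y := rfl

/-- The derivation. -/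
def Dil.D (F : Alt U (Fin 2 → ℂ)) : Dil F := ((0, 0, 1) : U × (Fin 2 → ℂ) × ℂ)

/-- The central elements of `U ⊕ ℂ²`. -/
def Dil.z (F : Alt U (Fin 2 → ℂ)) (i : Fin 2) : Dil F :=
  ((0, Pi.single i 1, 0) : U × (Fin 2 → ℂ) × ℂ)

lemma dil_decomp (F : Alt U (Fin 2 → ℂ)) (x y : U × (Fin 2 → ℂ) × ℂ) :
    dilBr F x y = x.2.2 • dilBr F (0, 0, 1) y - y.2.2 • dilBr F (0, 0, 1) x +
      (F.f x.1 y.1 0) • ((0, Pi.single 0 1, 0) : U × (Fin 2 → ℂ) × ℂ) +
      (F.f x.1 y.1 1) • ((0, Pi.single 1 1, 0) : U × (Fin 2 → ℂ) × ℂ) := by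
  refine Prod.ext ?_ (Prod.ext ?_ ?_)
  · simp only [dilBr, Prod.fst_add, Prod.smul_mk, Prod.fst_sub]; module
  · simp only [dilBr, Prod.fst_add, Prod.snd_add, Prod.smul_mk, Prod.snd_sub, Prod.fst_sub,
      map_zero, LinearMap.zero_apply]
    have : F.f x.1 y.1 = (F.f x.1 y.1 0) • (Pi.single 0 1 : Fin 2 → ℂ) +
        (F.f x.1 y.1 1) • (Pi.single 1 1 : Fin 2 → ℂ) := by
      funext i
      fin_cases i <;> simp
    rw [this]
    simp only [Pi.add_apply, Pi.smul_apply, Pi.single_eq_same, ne_eq, zero_ne_one,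
      not_false_eq_true, Pi.single_eq_of_ne, smul_eq_mul, mul_one, mul_zero, add_zero,
      one_ne_zero, zero_add]
    module
  · simp [dilBr]

lemma dilBr_D (F : Alt U (Fin 2 → ℂ)) (x : U × (Fin 2 → ℂ) × ℂ) :
    dilBr F (0, 0, 1) x = ((1 / 2 : ℂ) • x.1, x.2.1, 0) := by
  refine Prod.ext ?_ (Prod.ext ?_ ?_)
  · simp [dilBr]
  · simp [dilBr]
  · simp [dilBr]

lemma Dil.lie_decomp (F : Alt U (Fin 2 → ℂ)) (y : Module.Dual ℂ (Dil F)) (u v : Dil F) :
    y ⁅u, v⁆ = u.2.2 * y ⁅Dil.D F, v⁆ - v.2.2 * y ⁅Dil.D F, u⁆ +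
      (F.f u.1 v.1 0) * y (Dil.z F 0) + (F.f u.1 v.1 1) * y (Dil.z F 1) := by
  have h : (⁅u, v⁆ : Dil F) = u.2.2 • ⁅Dil.D F, v⁆ - v.2.2 • ⁅Dil.D F, u⁆ +
      (F.f u.1 v.1 0) • Dil.z F 0 + (F.f u.1 v.1 1) • Dil.z F 1 := dil_decomp F u v
  rw [h]
  simp only [map_add, map_sub, map_smul, smul_eq_mul]

/-- The change of variables. -/
noncomputable def psi (F : Alt U (Fin 2 → ℂ)) (x a : Module.Dual ℂ (Dil F)) :
    Dil F →ₗ[ℂ] U × ((Fin 1 → ℂ) × (Fin 2 → ℂ)) where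
  toFun ξ := (ξ.1, (fun _ => ξ.2.2), ![x ⁅Dil.D F, ξ⁆, - a ⁅Dil.D F, ξ⁆])
  map_add' u v := by
    have h1 : (u + v).1 = u.1 + v.1 := rfl
    have h2 : (u + v).2.2 = u.2.2 + v.2.2 := rfl
    rw [h1, h2, lie_add, map_add, map_add]
    refine Prod.ext rfl (Prod.ext rfl ?_)
    funext i
    fin_cases i
    · simp
    · simp; ring
  map_smul' r u := by
    have h1 : (r • u).1 = r • u.1 := rfl
    have h2 : (r • u).2.2 = r * u.2.2 := rfl
    rw [h1, h2, lie_smul, map_smul, map_smul]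
    refine Prod.ext rfl (Prod.ext rfl ?_)
    funext i
    fin_cases i <;> simp

lemma psi_injective (F : Alt U (Fin 2 → ℂ)) (x a : Module.Dual ℂ (Dil F))
    (h : x (Dil.z F 0) * a (Dil.z F 1) - x (Dil.z F 1) * a (Dil.z F 0) ≠ 0) :
    Function.Injective (psi F x a) := by
  rw [injective_iff_map_eq_zero]
  intro ξ hξ
  have h1 : ξ.1 = 0 := congrArg Prod.fst hξ
  have h2 : ξ.2.2 = 0 := congrFun (congrArg (fun t => t.2.1) hξ) (0 : Fin 1)
  have h3 : x ⁅Dil.D F, ξ⁆ = 0 := congrFun (congrArg (fun t => t.2.2) hξ) (0 : Fin 2)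
  have h4 : - a ⁅Dil.D F, ξ⁆ = 0 := congrFun (congrArg (fun t => t.2.2) hξ) (1 : Fin 2)
  have h5 : (⁅Dil.D F, ξ⁆ : Dil F) = (ξ.2.1 0) • Dil.z F 0 + (ξ.2.1 1) • Dil.z F 1 := by
    have e : (⁅Dil.D F, ξ⁆ : Dil F) = (((1 / 2 : ℂ) • ξ.1, ξ.2.1, 0) : U × (Fin 2 → ℂ) × ℂ) :=
      dilBr_D F ξ
    rw [e, h1, smul_zero]
    have e2 : (ξ.2.1 : Fin 2 → ℂ) = (ξ.2.1 0) • (Pi.single 0 1 : Fin 2 → ℂ) +
        (ξ.2.1 1) • (Pi.single 1 1 : Fin 2 → ℂ) := by
      funext i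
      fin_cases i <;> simp
    show ((0, ξ.2.1, 0) : U × (Fin 2 → ℂ) × ℂ) =
      (ξ.2.1 0) • ((0, Pi.single 0 1, 0) : U × (Fin 2 → ℂ) × ℂ) +
      (ξ.2.1 1) • ((0, Pi.single 1 1, 0) : U × (Fin 2 → ℂ) × ℂ)
    simp only [Prod.smul_mk, smul_zero, Prod.mk_add_mk, add_zero]
    rw [← e2]
  rw [h5, map_add, map_smul, map_smul, smul_eq_mul, smul_eq_mul] at h3 h4
  have h6 : ξ.2.1 0 = 0 := by
    have : (x (Dil.z F 0) * a (Dil.z F 1) - x (Dil.z F 1) * a (Dil.z F 0)) * ξ.2.1 0 = 0 := by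
      linear_combination a (Dil.z F 1) * h3 + x (Dil.z F 1) * h4
    rcases mul_eq_zero.mp this with h7 | h7
    · exact absurd h7 h
    · exact h7
  have h8 : ξ.2.1 1 = 0 := by
    have : (x (Dil.z F 0) * a (Dil.z F 1) - x (Dil.z F 1) * a (Dil.z F 0)) * ξ.2.1 1 = 0 := by
      linear_combination (-a (Dil.z F 0)) * h3 - x (Dil.z F 0) * h4
    rcases mul_eq_zero.mp this with h7 | h7
    · exact absurd h7 h
    · exact h7
  have h9 : ξ.2.1 = 0 := by
    funext i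
    fin_cases i
    · exact h6
    · exact h8
  exact Prod.ext h1 (Prod.ext h9 h2)

/-- The change of variables as an equivalence. -/
noncomputable def psiE [FiniteDimensional ℂ U] (F : Alt U (Fin 2 → ℂ))
    (x a : Module.Dual ℂ (Dil F))
    (h : x (Dil.z F 0) * a (Dil.z F 1) - x (Dil.z F 1) * a (Dil.z F 0) ≠ 0) :
    Dil F ≃ₗ[ℂ] U × ((Fin 1 → ℂ) × (Fin 2 → ℂ)) :=
  haveI : FiniteDimensional ℂ (Dil F) :=
    inferInstanceAs (FiniteDimensional ℂ (U × (Fin 2 → ℂ) × ℂ))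
  LinearMap.linearEquivOfInjective (psi F x a) (psi_injective F x a h) (by
    have e1 : Module.finrank ℂ (Dil F) = Module.finrank ℂ U + (2 + 1) := by
      show Module.finrank ℂ (U × (Fin 2 → ℂ) × ℂ) = _
      rw [Module.finrank_prod, Module.finrank_prod, Module.finrank_fin_fun, Module.finrank_self]
    rw [e1, Module.finrank_prod, Module.finrank_prod, Module.finrank_fin_fun,
      Module.finrank_fin_fun])

lemma psiE_apply [FiniteDimensional ℂ U] (F : Alt U (Fin 2 → ℂ))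
    (x a : Module.Dual ℂ (Dil F))
    (h : x (Dil.z F 0) * a (Dil.z F 1) - x (Dil.z F 1) * a (Dil.z F 0) ≠ 0) (ξ : Dil F) :
    psiE F x a h ξ = (ξ.1, (fun _ => ξ.2.2), ![x ⁅Dil.D F, ξ⁆, - a ⁅Dil.D F, ξ⁆]) := rfl

end

lemma pr_kron1_first (u : Fin (Block.kronecker 1).rows → ℂ) (v : Fin (Block.kronecker 1).cols → ℂ) :
    pr (Block.kronecker 1).first u v = u (0 : Fin 1) * v (0 : Fin 2) := by
  show pr (Block.kronecker 1).first (p := 1) (q := 2) u v = _
  simp [pr, mat, Matrix.mulVec, dotProduct, Fin.sum_univ_two, Block.first]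

lemma pr_kron1_second (u : Fin (Block.kronecker 1).rows → ℂ)
    (v : Fin (Block.kronecker 1).cols → ℂ) :
    pr (Block.kronecker 1).second u v = - (u (0 : Fin 1) * v (1 : Fin 2)) := by
  show pr (Block.kronecker 1).second (p := 1) (q := 2) u v = _
  simp [pr, mat, Matrix.mulVec, dotProduct, Fin.sum_univ_two, Block.second]

lemma frm_psi_first {U : Type} [AddCommGroup U] [Module ℂ U] [FiniteDimensional ℂ U]
    (F : Alt U (Fin 2 → ℂ)) (x a : Module.Dual ℂ (Dil F))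
    (h : x (Dil.z F 0) * a (Dil.z F 1) - x (Dil.z F 1) * a (Dil.z F 0) ≠ 0) (u v : Dil F) :
    frm (Block.kronecker 1).first (p := (Block.kronecker 1).rows) (q := (Block.kronecker 1).cols)
      (psiE F x a h u).2 (psiE F x a h v).2 =
      u.2.2 * x ⁅Dil.D F, v⁆ - v.2.2 * x ⁅Dil.D F, u⁆ := by
  unfold frm
  rw [pr_kron1_first, pr_kron1_first]
  rfl

lemma frm_psi_second {U : Type} [AddCommGroup U] [Module ℂ U] [FiniteDimensional ℂ U]
    (F : Alt U (Fin 2 → ℂ)) (x a : Module.Dual ℂ (Dil F))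
    (h : x (Dil.z F 0) * a (Dil.z F 1) - x (Dil.z F 1) * a (Dil.z F 0) ≠ 0) (u v : Dil F) :
    frm (Block.kronecker 1).second (p := (Block.kronecker 1).rows) (q := (Block.kronecker 1).cols)
      (psiE F x a h u).2 (psiE F x a h v).2 =
      u.2.2 * a ⁅Dil.D F, v⁆ - v.2.2 * a ⁅Dil.D F, u⁆ := by
  unfold frm
  rw [pr_kron1_second, pr_kron1_second]
  have e : ∀ s t p q : ℂ, -(s * -p) - -(t * -q) = s * p - t * q := by intros; ring
  exact e _ _ _ _

/-- The algebraic types containing a Kronecker block of size three are realised. -/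
theorem three_block {m n : ℕ} (k : Fin m → ℕ) (d c : Fin n → ℕ)
    (h : ∃ i, k i = 1) : Realised k d c := by
  classical
  obtain ⟨i0, hi0⟩ := h
  -- the other blocks
  let blk : ({i : Fin m // ¬ i = i0} ⊕ Fin n) → Block :=
    Sum.elim (fun i => Block.kronecker (k i)) fun j => Block.jordan (d j) (c j : ℂ)
  let U : Type := ∀ i, (blk i).Sp
  let A0 : U →ₗ[ℂ] U →ₗ[ℂ] ℂ := totL blk fun i => (blk i).first
  let B0 : U →ₗ[ℂ] U →ₗ[ℂ] ℂ := totL blk fun i => (blk i).second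
  let F : Alt U (Fin 2 → ℂ) :=
    { f := A0.compr₂ (LinearMap.single ℂ (fun _ : Fin 2 => ℂ) 0) +
        B0.compr₂ (LinearMap.single ℂ (fun _ : Fin 2 => ℂ) 1)
      alt := by
        intro u
        have e1 : A0 u u = 0 := totL_self blk _ u
        have e2 : B0 u u = 0 := totL_self blk _ u
        simp [e1, e2] }
  have hF : ∀ u v, F.f u v = Pi.single 0 (A0 u v) + Pi.single 1 (B0 u v) := by
    intro u v
    rfl
  have hF0 : ∀ u v, F.f u v 0 = A0 u v := by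
    intro u v
    rw [hF]
    simp
  have hF1 : ∀ u v, F.f u v 1 = B0 u v := by
    intro u v
    rw [hF]
    simp
  let bU := Module.finBasis ℂ U
  let b : Module.Basis (Fin (Module.finrank ℂ U) ⊕ (Fin 2 ⊕ Unit)) ℂ (Dil F) :=
    bU.prod ((Pi.basisFun ℂ (Fin 2)).prod (Module.Basis.singleton Unit ℂ))
  have hb : ∀ i : Fin 2, b (Sum.inr (Sum.inl i)) = Dil.z F i := by
    intro i
    show (bU.prod ((Pi.basisFun ℂ (Fin 2)).prod (Module.Basis.singleton Unit ℂ)))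
      (Sum.inr (Sum.inl i)) = ((0, Pi.single i 1, 0) : U × (Fin 2 → ℂ) × ℂ)
    simp
  refine ⟨Dil F, inferInstance, inferInstance, Fin (Module.finrank ℂ U) ⊕ (Fin 2 ⊕ Unit),
    inferInstance, b,
    gp (Sum.inr (Sum.inl 0)) (Sum.inr (Sum.inl 1)) (fun j : Fin n => (c j : ℂ)),
    gp_ne_zero (by simp) _, ?_⟩
  intro x a hxa
  obtain ⟨hβ, hγ, hdet, hj⟩ := gp_eval hxa
  simp only [hb] at hβ hγ hdet hj
  set α := x (Dil.z F 0) with hα'
  set β := x (Dil.z F 1) with hβ'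
  set γ := a (Dil.z F 0) with hγ'
  set δ := a (Dil.z F 1) with hδ'
  have hok : ∀ i, (blk i).ok γ δ := by
    rintro (i | j)
    · trivial
    · exact hj j
  have h1 := totL_change blk α β γ δ hβ hγ hdet hok
  have h2 := h1.sum (single_block (Block.kronecker 1))
    (A'' := fun u v => α * A0 u.1 v.1 + β * B0 u.1 v.1 + frm (Block.kronecker 1).first u.2 v.2)
    (B'' := fun u v => γ * A0 u.1 v.1 + δ * B0 u.1 v.1 + frm (Block.kronecker 1).second u.2 v.2)
    (by intro v; simp) (by intro v; simp [frm_zero_left, frm_zero_right])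
    (by intro v w; rfl) (by intro v w; rfl)
  have h3 : HasBlocks (fun ξ η : Dil F => x ⁅ξ, η⁆) (fun ξ η : Dil F => a ⁅ξ, η⁆)
      (Sum.elim (fun i => (blk i).mob α β γ δ) fun _ : Unit => Block.kronecker 1) := by
    refine h2.pull (psiE F x a hdet) ?_ ?_
    · intro u v
      have e := frm_psi_first F x a hdet u v
      refine Eq.trans ?_ (congrArg (fun t => α * A0 (psiE F x a hdet u).1 (psiE F x a hdet v).1 +
        β * B0 (psiE F x a hdet u).1 (psiE F x a hdet v).1 + t) e.symm)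
      show x ⁅u, v⁆ = α * A0 u.1 v.1 + β * B0 u.1 v.1 +
        (u.2.2 * x ⁅Dil.D F, v⁆ - v.2.2 * x ⁅Dil.D F, u⁆)
      rw [Dil.lie_decomp F x u v, hF0, hF1]
      ring
    · intro u v
      have e := frm_psi_second F x a hdet u v
      refine Eq.trans ?_ (congrArg (fun t => γ * A0 (psiE F x a hdet u).1 (psiE F x a hdet v).1 +
        δ * B0 (psiE F x a hdet u).1 (psiE F x a hdet v).1 + t) e.symm)
      show a ⁅u, v⁆ = γ * A0 u.1 v.1 + δ * B0 u.1 v.1 +
        (u.2.2 * a ⁅Dil.D F, v⁆ - v.2.2 * a ⁅Dil.D F, u⁆)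
      rw [Dil.lie_decomp F a u v, hF0, hF1]
      ring
  refine ⟨fun j => (α * (c j : ℂ) - β) / (δ - γ * (c j : ℂ)), ?_, ?_⟩
  · intro i j
    have hi := hj i
    have hj' := hj j
    constructor
    · intro e
      rw [div_eq_div_iff hi hj'] at e
      have e2 : (α * δ - β * γ) * ((c i : ℂ) - (c j : ℂ)) = 0 := by linear_combination e
      rcases mul_eq_zero.mp e2 with e3 | e3
      · exact absurd e3 hdet
      · exact_mod_cast sub_eq_zero.mp e3
    · intro e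
      simp only
      rw [e]
  · -- reindexing
    let τ : Unit ≃ {i : Fin m // i = i0} :=
      { toFun := fun _ => ⟨i0, rfl⟩
        invFun := fun _ => ()
        left_inv := fun _ => rfl
        right_inv := fun i => Subtype.ext i.2.symm }
    let σ : Fin m ⊕ Fin n ≃ ({i : Fin m // ¬ i = i0} ⊕ Fin n) ⊕ Unit :=
      ((Equiv.sumCongr ((Equiv.sumComm _ _).trans (Equiv.sumCompl fun i : Fin m => i = i0))
        (Equiv.refl (Fin n))).symm.trans
        ((Equiv.sumAssoc _ _ _).trans ((Equiv.sumCongr (Equiv.refl _) ((Equiv.sumComm _ _).trans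
          (Equiv.sumCongr (Equiv.refl _) τ.symm))).trans (Equiv.sumAssoc _ _ _).symm)))
    refine h3.reindex σ _ ?_
    intro j
    obtain ⟨i, rfl⟩ := σ.symm.surjective j
    rw [Equiv.apply_symm_apply]
    rcases i with (i | i) | i
    · simp [σ, blk, Block.mob]
    · simp [σ, blk, Block.mob]
    · simp [σ, τ, hi0]

end Pool.Agent.Helper55K1.JK
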