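import Pool.Agent.Helper55K1.JKTor2

/-!
One Kronecker block of size `2 k + 1` together with labels, at most `k + 1` of which are bad.
-/

namespace Pool.Agent.Helper55K1.JK

open Matrix

/-- The block of a kind. -/
def mkb {K : Type} (μ : K → ℂ) : ℕ ⊕ (ℕ × K) → Block
  | .inl k => .kronecker k
  | .inr p => .jordan p.1 (μ p.2)

/-- The type is realised and the eigenvalues are ratios of coordinates. -/
def SR {I K : Type} (kind : I → ℕ ⊕ (ℕ × K)) : Prop :=
  ∃ (L : Type) (_ : LieRing L) (_ : LieAlgebra ℂ L) (J : Type) (_ : Fintype J)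
    (b : Module.Basis J ℂ L) (j : K → J), Function.Injective j ∧
    Gen b fun x a => HasBlocks (fun ξ η : L => x ⁅ξ, η⁆) (fun ξ η : L => a ⁅ξ, η⁆)
      fun i => mkb (fun e => -x (b (j e)) / a (b (j e))) (kind i)

section OneBlock

set_option linter.unusedSectionVars false

variable {N K : Type} [Fintype N] [DecidableEq N] [Fintype K] [DecidableEq K] {k : ℕ}

/-- The index set of the standard basis. -/
abbrev JX (d : N → ℕ) (c' : N → K) (k : ℕ) : Type :=
  (Σ e : K, Σ j : {j : N // c' j = e}, Fin (d j.1) ⊕ Fin (d j.1)) ⊕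
    (Fin (k + 1) ⊕ Fin (Module.finrank ℂ (SZ k)))

/-- The standard basis. -/
noncomputable def jbas (d : N → ℕ) (c' : N → K)
    (D : SD (∀ e : K, MV fun j : {j : N // c' j = e} => d j.1) k) :
    Module.Basis (JX d c' k) ℂ (Tor D) :=
  (Pi.basis fun e : K => sb fun j : {j : N // c' j = e} => d j.1).prod
    ((Pi.basisFun ℂ (Fin (k + 1))).prod (Module.finBasis ℂ (SZ k)))

lemma jbas_l (d : N → ℕ) (c' : N → K)
    (D : SD (∀ e : K, MV fun j : {j : N // c' j = e} => d j.1) k)
    (y : Module.Dual ℂ (Tor D)) (e : K)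
    (s : Σ j : {j : N // c' j = e}, Fin (d j.1) ⊕ Fin (d j.1)) :
    y (jbas d c' D (Sum.inl ⟨e, s⟩)) =
      ((Tor.vU D y).comp (LinearMap.single ℂ
        (fun e : K => MV fun j : {j : N // c' j = e} => d j.1) e))
        (sb (fun j : {j : N // c' j = e} => d j.1) s) := by
  have h : jbas d c' D (Sum.inl ⟨e, s⟩) = ((Pi.single e (sb (fun j : {j : N // c' j = e} => d j.1) s),
      0) : TS (∀ e : K, MV fun j : {j : N // c' j = e} => d j.1) k) := by
    show ((Pi.basis fun e : K => sb fun j : {j : N // c' j = e} => d j.1).prod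
      ((Pi.basisFun ℂ (Fin (k + 1))).prod (Module.finBasis ℂ (SZ k)))) (Sum.inl ⟨e, s⟩) = _
    rw [Module.Basis.prod_apply, Sum.elim_inl, Function.comp_apply, Pi.basis_apply]
    rfl
  rw [h]
  rfl

lemma jbas_c (d : N → ℕ) (c' : N → K)
    (D : SD (∀ e : K, MV fun j : {j : N // c' j = e} => d j.1) k) (z : Fin (k + 1)) :
    jbas d c' D (Sum.inr (Sum.inl z)) = Tor.c D z := by
  show ((Pi.basis fun e : K => sb fun j : {j : N // c' j = e} => d j.1).prod
    ((Pi.basisFun ℂ (Fin (k + 1))).prod (Module.finBasis ℂ (SZ k)))) (Sum.inr (Sum.inl z)) = _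
  rw [Module.Basis.prod_apply, Sum.elim_inr, Function.comp_apply, Module.Basis.prod_apply,
    Sum.elim_inl, Function.comp_apply, Pi.basisFun_apply]
  rfl

lemma one_block (d : N → ℕ) (hd : ∀ j, 0 < d j) (c' : N → K) (hsurj : ∀ e, ∃ j, c' j = e)
    (g : K → Prop) [DecidablePred g]
    (hg : ∀ e, g e → ∃ j₀ : {j : N // c' j = e}, ∀ j, j ≠ j₀ → d j.1 < d j₀.1)
    (τ : K → Fin (k + 1)) (hτ : ∀ e e', ¬ g e → ¬ g e' → τ e = τ e' → e = e') :
    SR (Sum.elim (fun x : Σ e : K, {j : N // c' j = e} => Sum.inr (d x.2.1, x.1))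
      fun _ : Unit => Sum.inl k) := by
  choose D δ z f r hder hdco hD using fun e : K => loc2 (fun j : {j : N // c' j = e} => d j.1)
    (by obtain ⟨j, hj⟩ := hsurj e; exact ⟨⟨j, hj⟩⟩) (fun j => hd j.1) (g e) (hg e)
  obtain ⟨S, hS⟩ : ∃ S, S = famSD D δ hder hdco τ := ⟨_, rfl⟩
  obtain ⟨b, hb⟩ : ∃ b, b = jbas d c' S := ⟨_, rfl⟩
  let jj : K → JX d c' k := fun e => if g e then Sum.inl ⟨e, z e⟩ else Sum.inr (Sum.inl (τ e))
  have hjj : ∀ e, jj e = if g e then Sum.inl ⟨e, z e⟩ else Sum.inr (Sum.inl (τ e)) := fun e => rfl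
  clear_value jj
  refine ⟨Tor S, inferInstance, inferInstance, JX d c' k, inferInstance, b, jj, ?_, ?_⟩
  · intro e e' h
    rw [hjj, hjj] at h
    by_cases h1 : g e
    · by_cases h2 : g e'
      · rw [if_pos h1, if_pos h2] at h
        exact congrArg Sigma.fst (Sum.inl.inj h)
      · rw [if_pos h1, if_neg h2] at h
        exact absurd h (by simp)
    · by_cases h2 : g e'
      · rw [if_neg h1, if_pos h2] at h
        exact absurd h (by simp)
      · rw [if_neg h1, if_neg h2] at h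
        exact hτ e e' h1 h2 (Sum.inl.inj (Sum.inr.inj h))
  have hgen : Gen b fun x a =>
      (∀ i : Fin (k + 1), x (b (Sum.inr (Sum.inl i))) ≠ 0 ∧ a (b (Sum.inr (Sum.inl i))) ≠ 0) ∧
      (∀ i i' : Fin (k + 1), i ≠ i' →
        x (b (Sum.inr (Sum.inl i))) * a (b (Sum.inr (Sum.inl i'))) -
          a (b (Sum.inr (Sum.inl i))) * x (b (Sum.inr (Sum.inl i'))) +
          0 * (x (b (Sum.inr (Sum.inl i))) * a (b (Sum.inr (Sum.inl i))) -
            a (b (Sum.inr (Sum.inl i))) * x (b (Sum.inr (Sum.inl i)))) ≠ 0) ∧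
      (∀ e, (x (b (Sum.inl ⟨e, z e⟩)) ≠ 0 ∧ a (b (Sum.inl ⟨e, z e⟩)) ≠ 0) ∧
        (x (b (Sum.inl ⟨e, z e⟩)) * a (b (Sum.inr (Sum.inl (τ e)))) -
          a (b (Sum.inl ⟨e, z e⟩)) * x (b (Sum.inr (Sum.inl (τ e)))) +
          0 * (x (b (Sum.inl ⟨e, z e⟩)) * a (b (Sum.inl ⟨e, z e⟩)) -
            a (b (Sum.inl ⟨e, z e⟩)) * x (b (Sum.inl ⟨e, z e⟩))) ≠ 0) ∧
        (x (b (Sum.inl ⟨e, z e⟩)) * a (b (Sum.inr (Sum.inl (τ e)))) -
          a (b (Sum.inl ⟨e, z e⟩)) * x (b (Sum.inr (Sum.inl (τ e)))) +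
          r e * (x (b (Sum.inl ⟨e, z e⟩)) * a (b (Sum.inl ⟨e, f e⟩)) -
            a (b (Sum.inl ⟨e, z e⟩)) * x (b (Sum.inl ⟨e, f e⟩))) ≠ 0)) := by
    refine (Gen.all fun i => (gen_x b _).and (gen_a b _)).and (Gen.and
      (Gen.all fun i => Gen.all fun i' => ?_)
      (Gen.all fun e => ((gen_x b _).and (gen_a b _)).and ((gen_m b (by simp) (by simp) _).and
        (gen_m b (by simp) (by simp) _))))
    by_cases he : i = i'
    · exact Gen.of_true b fun x a h => absurd he h
    · obtain ⟨p, hp, h⟩ := gen_m b (z := Sum.inr (Sum.inl i)) (t := Sum.inr (Sum.inl i'))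
        (f := Sum.inr (Sum.inl i)) (by simpa using he) (by simpa using he) 0
      exact ⟨p, hp, fun x a hxa _ => h x a hxa⟩
  obtain ⟨p, hp, hgen⟩ := hgen
  refine ⟨p, hp, fun x a hxa => ?_⟩
  obtain ⟨hc, hcc, he⟩ := hgen x a hxa
  simp only [hb, jbas_l, jbas_c, zero_mul, add_zero] at hc hcc he
  -- the eigenvalues
  obtain ⟨μ, hμ⟩ : ∃ μ : K → ℂ, ∀ e, μ e = -x (b (jj e)) / a (b (jj e)) := ⟨_, fun e => rfl⟩
  have hloc : ∀ e, HasBlocks
      (fun u v => ((Tor.vU S x).comp (LinearMap.single ℂ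
        (fun e : K => MV fun j : {j : N // c' j = e} => d j.1) e)) ((D e).br u v) +
          x (Tor.c S (τ e)) * (D e).co u v)
      (fun u v => ((Tor.vU S a).comp (LinearMap.single ℂ
        (fun e : K => MV fun j : {j : N // c' j = e} => d j.1) e)) ((D e).br u v) +
          a (Tor.c S (τ e)) * (D e).co u v)
      fun j : {j : N // c' j = e} => Block.jordan (d j.1) (μ e) := by
    intro e
    obtain ⟨⟨h1, h2⟩, h3, h4⟩ := he e
    have h := hD e _ _ _ _ h1 h2 (hc (τ e)).1 (hc (τ e)).2 h3 h4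
    have hμe : μ e = if g e then -((Tor.vU S x).comp (LinearMap.single ℂ
        (fun e : K => MV fun j : {j : N // c' j = e} => d j.1) e))
          (sb (fun j : {j : N // c' j = e} => d j.1) (z e)) / ((Tor.vU S a).comp
        (LinearMap.single ℂ (fun e : K => MV fun j : {j : N // c' j = e} => d j.1) e))
          (sb (fun j : {j : N // c' j = e} => d j.1) (z e)) else
        -x (Tor.c S (τ e)) / a (Tor.c S (τ e)) := by
      rw [hμ, hjj, hb]
      split_ifs
      · rw [jbas_l, jbas_l]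
      · rw [jbas_c]
    rw [hμe]
    exact h
  have hpi := HasBlocks.pi hloc (by
    intro e v
    simp)
  have hform : ∀ y : Module.Dual ℂ (Tor S), (fun u v => Tor.A S y u v) =
      fun u v : (∀ e : K, MV fun j : {j : N // c' j = e} => d j.1) =>
        ∑ e, (((Tor.vU S y).comp (LinearMap.single ℂ
          (fun e : K => MV fun j : {j : N // c' j = e} => d j.1) e)) ((D e).br (u e) (v e)) +
          y (Tor.c S (τ e)) * (D e).co (u e) (v e)) := by
    intro y
    subst hS
    funext u v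
    exact fam_form D δ hder hdco τ y u v
  have hblk : HasBlocks (fun u v => Tor.A S x u v) (fun u v => Tor.A S a u v)
      (fun y : Σ e : K, {j : N // c' j = e} => Block.jordan (d y.2.1) (μ y.1)) := by
    rw [hform, hform]
    exact hpi
  have hsk : ∀ y : Module.Dual ℂ (Tor S), ∀ u v, Tor.A S y u v = - Tor.A S y v u := by
    intro y u v
    rw [Tor.A_apply, Tor.A_apply, S.br_swap, S.co_swap, map_neg, neg_add,
      ← Finset.sum_neg_distrib]
    congr 1
    exact Finset.sum_congr rfl fun z _ => by rw [Pi.neg_apply]; ring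
  have hB : ∀ ν : (∀ e : K, MV fun j : {j : N // c' j = e} => d j.1) →ₗ[ℂ] ℂ,
      ∃ w, ∀ v, Tor.A S a w v = ν v := by
    have hinj : Function.Injective (Tor.A S a) := by
      rw [← LinearMap.ker_eq_bot, LinearMap.ker_eq_bot']
      intro u hu
      exact jordan_nd hblk u fun v => by rw [hu]; rfl
    have hs : Function.Surjective (Tor.A S a) :=
      (LinearMap.injective_iff_surjective_of_finrank_eq_finrank
        (Subspace.dual_finrank_eq (K := ℂ)
          (V := (∀ e : K, MV fun j : {j : N // c' j = e} => d j.1))).symm).mp hinj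
    intro ν
    obtain ⟨w, hw⟩ := hs ν
    exact ⟨w, fun v => by rw [hw]⟩
  have hfin : HasBlocks
      (fun p q => xf (Tor.A S x) (fun z => x (Tor.c S z)) (Tor.P S x) (TS.inc p) (TS.inc q))
      (fun p q => xf (Tor.A S a) (fun z => a (Tor.c S z)) (Tor.P S a) (TS.inc p) (TS.inc q))
      (Sum.elim (fun y : Σ e : K, {j : N // c' j = e} => Block.jordan (d y.2.1) (μ y.1))
        fun _ : Unit => Block.kronecker k) := by
    rcases Nat.eq_zero_or_pos k with hk | hk
    · subst hk
      exact semi_zero hblk _ _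
    · exact semi hk (hsk x) (hsk a) hB hblk _ _ (fun i => (hc i).2) hcc
  have hT : HasBlocks (fun ξ η : Tor S => x ⁅ξ, η⁆) (fun ξ η : Tor S => a ⁅ξ, η⁆)
      (Sum.elim (fun y : Σ e : K, {j : N // c' j = e} => Block.jordan (d y.2.1) (μ y.1))
        fun _ : Unit => Block.kronecker k) := by
    refine hfin.pull (LinearEquiv.refl ℂ
      (TS (∀ e : K, MV fun j : {j : N // c' j = e} => d j.1) k)) ?_ ?_
    · intro v w
      exact Tor.lie_decomp S x v w
    · intro v w
      exact Tor.lie_decomp S a v w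
  refine hT.reindex (Equiv.refl _) _ ?_
  rintro (i | i)
  · show Block.jordan _ _ = Block.jordan _ _
    rw [hμ]
  · rfl

end OneBlock

end Pool.Agent.Helper55K1.JK
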