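import Pool.Agent.Helper55K1.JKFew
import Pool.Agent.Helper55K1.JKObs

/-!
Direct sums of realisations, and the algebraic types with few bad labels.
-/

namespace Pool.Agent.Helper55K1.JK

open MvPolynomial

section PiLie

variable {M : Type} (L : M → Type) [∀ m, LieRing (L m)]

/-- The direct product of Lie rings. -/
def PiL : Type := ∀ m, L m

instance : AddCommGroup (PiL L) := inferInstanceAs (AddCommGroup (∀ m, L m))

instance : LieRing (PiL L) where
  bracket x y := fun m => ⁅x m, y m⁆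
  add_lie x y z := funext fun m => add_lie (x m) (y m) (z m)
  lie_add x y z := funext fun m => lie_add (x m) (y m) (z m)
  lie_self x := funext fun m => lie_self (x m)
  leibniz_lie x y z := funext fun m => leibniz_lie (x m) (y m) (z m)

variable [∀ m, LieAlgebra ℂ (L m)]

instance : Module ℂ (PiL L) := inferInstanceAs (Module ℂ (∀ m, L m))

instance : LieAlgebra ℂ (PiL L) where
  lie_smul r x y := funext fun m => lie_smul r (x m) (y m)

variable [Fintype M] [DecidableEq M]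

/-- The inclusion of a factor. -/
def PiL.inc (m : M) : L m →ₗ[ℂ] PiL L := LinearMap.single ℂ L m

lemma PiL.lie_decomp (y : Module.Dual ℂ (PiL L)) (u v : PiL L) :
    y ⁅u, v⁆ = ∑ m, (y.comp (PiL.inc L m)) ⁅u m, v m⁆ := by
  have h : (⁅u, v⁆ : PiL L) = ∑ m, PiL.inc L m ⁅u m, v m⁆ := by
    refine Eq.trans ?_ (Finset.univ_sum_single (M := L) fun m => ⁅u m, v m⁆).symm
    rfl
  rw [h, map_sum]
  rfl

end PiLie

lemma Gen.comp {L₀ L₁ J₀ J₁ : Type} [AddCommGroup L₀] [Module ℂ L₀] [AddCommGroup L₁]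
    [Module ℂ L₁] {b₀ : Module.Basis J₀ ℂ L₀} {b₁ : Module.Basis J₁ ℂ L₁} {f : J₀ → J₁}
    (hf : Function.Injective f) {ι : L₀ →ₗ[ℂ] L₁} (hι : ∀ j, ι (b₀ j) = b₁ (f j))
    {Q : Module.Dual ℂ L₀ → Module.Dual ℂ L₀ → Prop} (h : Gen b₀ Q) :
    Gen b₁ fun x a => Q (x.comp ι) (a.comp ι) := by
  obtain ⟨p, hp, hQ⟩ := h
  refine ⟨rename (Sum.map f f) p, ?_, fun x a hx => hQ _ _ ?_⟩
  · intro h0
    apply hp
    apply rename_injective (Sum.map f f) (Function.Injective.sumMap hf hf)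
    rw [h0, map_zero]
  · rw [eval_rename] at hx
    have e : (Sum.elim (fun j => x (b₁ j)) fun j => a (b₁ j)) ∘ Sum.map f f =
        Sum.elim (fun j => (x.comp ι) (b₀ j)) fun j => (a.comp ι) (b₀ j) := by
      funext j
      rcases j with j | j
      · exact (congrArg x (hι j)).symm
      · exact (congrArg a (hι j)).symm
    rw [e] at hx
    exact hx

lemma SR.pi {M : Type} [Fintype M] [DecidableEq M] {I K : M → Type}
    {kind : ∀ m, I m → ℕ ⊕ (ℕ × K m)} (h : ∀ m, SR (kind m)) :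
    SR (fun x : Σ m, I m => (kind x.1 x.2).map id (Prod.map id (Sigma.mk x.1))) := by
  choose L iL iA J iJ b j hj p hp hB using h
  let B : Module.Basis (Σ m, J m) ℂ (PiL L) := Pi.basis b
  have hBb : ∀ m i, PiL.inc L m (b m i) = B ⟨m, i⟩ := by
    intro m i
    refine Eq.trans ?_ (Pi.basis_apply b ⟨m, i⟩).symm
    rfl
  refine ⟨PiL L, inferInstance, inferInstance, Σ m, J m, inferInstance, B,
    fun e => ⟨e.1, j e.1 e.2⟩, ?_, ?_⟩
  · rintro ⟨m, e⟩ ⟨m', e'⟩ h
    have h1 : m = m' := congrArg Sigma.fst h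
    subst h1
    have h2 : j m e = j m e' := eq_of_heq (Sigma.mk.inj h).2
    rw [hj m h2]
  · have hg : ∀ m, Gen B fun x a => HasBlocks
        (fun ξ η : L m => (x.comp (PiL.inc L m)) ⁅ξ, η⁆)
        (fun ξ η : L m => (a.comp (PiL.inc L m)) ⁅ξ, η⁆)
        fun i => mkb (fun e => -(x.comp (PiL.inc L m)) (b m (j m e)) /
          (a.comp (PiL.inc L m)) (b m (j m e))) (kind m i) := by
      intro m
      exact Gen.comp (b₀ := b m) (b₁ := B) (f := Sigma.mk m) sigma_mk_injective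
        (ι := PiL.inc L m) (fun i => hBb m i) (Q := fun x a => HasBlocks
          (fun ξ η : L m => x ⁅ξ, η⁆) (fun ξ η : L m => a ⁅ξ, η⁆)
          fun i => mkb (fun e => -x (b m (j m e)) / a (b m (j m e))) (kind m i))
        ⟨p m, hp m, hB m⟩
    obtain ⟨P, hP, hPQ⟩ := Gen.all hg
    refine ⟨P, hP, fun x a hxa => ?_⟩
    have hpi := HasBlocks.pi (hPQ x a hxa) (by
      intro m v
      simp)
    have hL : HasBlocks (fun ξ η : PiL L => x ⁅ξ, η⁆) (fun ξ η : PiL L => a ⁅ξ, η⁆)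
        (fun y : Σ m, I m => mkb (fun e => -(x.comp (PiL.inc L y.1)) (b y.1 (j y.1 e)) /
          (a.comp (PiL.inc L y.1)) (b y.1 (j y.1 e))) (kind y.1 y.2)) := by
      refine hpi.pull (LinearEquiv.refl ℂ (∀ m, L m)) ?_ ?_
      · intro u v
        exact PiL.lie_decomp L x u v
      · intro u v
        exact PiL.lie_decomp L a u v
    refine hL.reindex (Equiv.refl _) _ ?_
    rintro ⟨m, i⟩
    simp only [Equiv.refl_apply]
    cases kind m i with
    | inl k => rfl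
    | inr q =>
      show Block.jordan q.1 (-(x (B ⟨m, j m q.2⟩)) / a (B ⟨m, j m q.2⟩)) =
        Block.jordan q.1 (-(x (PiL.inc L m (b m (j m q.2)))) / a (PiL.inc L m (b m (j m q.2))))
      rw [hBb]

lemma SR.realised {I K : Type} {kind : I → ℕ ⊕ (ℕ × K)} (h : SR kind) {m n : ℕ} (k : Fin m → ℕ)
    (d c : Fin n → ℕ) (σ : Fin m ⊕ Fin n ≃ I) (lab : Fin n → K)
    (hk : ∀ i, kind (σ (Sum.inl i)) = Sum.inl (k i))
    (hd : ∀ j, kind (σ (Sum.inr j)) = Sum.inr (d j, lab j))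
    (hlab : ∀ i j, lab i = lab j ↔ c i = c j) : Realised k d c := by
  obtain ⟨L, i1, i2, J, i3, b, jj, hjj, hgen⟩ := h
  have hg : Gen b fun x a => (∀ i : Fin n, a (b (jj (lab i))) ≠ 0) ∧
      ∀ i j : Fin n, lab i ≠ lab j → x (b (jj (lab i))) * a (b (jj (lab j))) -
        a (b (jj (lab i))) * x (b (jj (lab j))) +
        0 * (x (b (jj (lab i))) * a (b (jj (lab i))) -
          a (b (jj (lab i))) * x (b (jj (lab i)))) ≠ 0 := by
    refine (Gen.all fun i => gen_a b _).and (Gen.all fun i => Gen.all fun j => ?_)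
    by_cases he : lab i = lab j
    · exact Gen.of_true b fun x a h => absurd he h
    · obtain ⟨p, hp, h⟩ := gen_m b (z := jj (lab i)) (t := jj (lab j)) (f := jj (lab i))
        (fun h => he (hjj h)) (fun h => he (hjj h)) 0
      exact ⟨p, hp, fun x a hxa _ => h x a hxa⟩
  obtain ⟨p, hp, hpQ⟩ := hgen.and hg
  refine ⟨L, i1, i2, J, i3, b, p, hp, fun x a hxa => ?_⟩
  obtain ⟨hB, h1, h2⟩ := hpQ x a hxa
  refine ⟨fun j => -x (b (jj (lab j))) / a (b (jj (lab j))), ?_, ?_⟩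
  · intro i j
    rw [← hlab]
    constructor
    · intro h
      by_contra hne
      apply h2 i j hne
      simp only at h
      rw [div_eq_div_iff (h1 i) (h1 j)] at h
      linear_combination -h
    · intro h
      simp only [h]
  · refine hB.reindex σ _ ?_
    rintro (i | j)
    · rw [hk]
      rfl
    · rw [hd]
      rfl

lemma few_aux {m n : ℕ} (k : Fin m → ℕ) (d c : Fin n → ℕ) (hd : ∀ j, 0 < d j) {K₀ : Type}
    [Fintype K₀] [DecidableEq K₀] (c' : Fin n → K₀) (hc : ∀ i j, c' i = c' j ↔ c i = c j)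
    (hsurj : ∀ e, ∃ j, c' j = e) (g : K₀ → Prop) [DecidablePred g]
    (hg : ∀ e, g e → ∃ l, c' l = e ∧ ∀ j, c' j = e → j ≠ l → d j < d l)
    (T₁ : K₀ → Fin m) (T₂ : K₀ → ℕ) (hT : ∀ e, T₂ e < k (T₁ e) + 1)
    (hTinj : ∀ e e', ¬ g e → ¬ g e' → T₁ e = T₁ e' → T₂ e = T₂ e' → e = e') :
    Realised k d c := by
  have hone : ∀ i : Fin m, SR (Sum.elim
      (fun x : Σ e : {e : K₀ // T₁ e = i}, {j : {j : Fin n // T₁ (c' j) = i} //
        (⟨c' j.1, j.2⟩ : {e : K₀ // T₁ e = i}) = e} =>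
          (Sum.inr (d x.2.1.1, x.1) : ℕ ⊕ (ℕ × {e : K₀ // T₁ e = i})))
      fun _ : Unit => Sum.inl (k i)) := by
    intro i
    refine one_block (N := {j : Fin n // T₁ (c' j) = i}) (K := {e : K₀ // T₁ e = i})
      (fun j => d j.1) (fun j => hd j.1) (fun j => ⟨c' j.1, j.2⟩) ?_
      (fun e => g e.1) ?_ (fun e => ⟨T₂ e.1, by have := hT e.1; rw [e.2] at this; exact this⟩) ?_
    · rintro ⟨e, hi⟩
      obtain ⟨j, hj⟩ := hsurj e
      subst hj
      exact ⟨⟨j, hi⟩, rfl⟩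
    · rintro ⟨e, hi⟩ hb
      obtain ⟨l, hl, hmax⟩ := hg e hb
      subst hl
      refine ⟨⟨⟨l, hi⟩, rfl⟩, fun j' hj' => ?_⟩
      exact hmax j'.1.1 (congrArg Subtype.val j'.2)
        (fun h => hj' (Subtype.ext (Subtype.ext h)))
    · intro e e' h h' heq
      have h1 : T₂ e.1 = T₂ e'.1 := congrArg Fin.val heq
      exact Subtype.ext (hTinj e.1 e'.1 h h' (e.2.trans e'.2.symm) h1)
  have hpi := SR.pi hone
  let f : Fin m ⊕ Fin n → Σ i : Fin m, ((Σ e : {e : K₀ // T₁ e = i},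
      {j : {j : Fin n // T₁ (c' j) = i} // (⟨c' j.1, j.2⟩ : {e : K₀ // T₁ e = i}) = e}) ⊕ Unit) :=
    Sum.elim (fun i => ⟨i, Sum.inr ()⟩)
      fun j => ⟨T₁ (c' j), Sum.inl ⟨⟨c' j, rfl⟩, ⟨⟨j, rfl⟩, rfl⟩⟩⟩
  have hf : Function.Bijective f := by
    constructor
    · have hinv : ∃ g : (Σ i : Fin m, ((Σ e : {e : K₀ // T₁ e = i},
          {j : {j : Fin n // T₁ (c' j) = i} //
            (⟨c' j.1, j.2⟩ : {e : K₀ // T₁ e = i}) = e}) ⊕ Unit)) → Fin m ⊕ Fin n,
          ∀ x, g (f x) = x := by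
        refine ⟨fun x => Sum.elim (fun y => Sum.inr y.2.1.1) (fun _ => Sum.inl x.1) x.2, ?_⟩
        rintro (i | j)
        · rfl
        · rfl
      obtain ⟨g, hg⟩ := hinv
      exact Function.LeftInverse.injective hg
    · rintro ⟨i, ⟨e, ⟨⟨j, hj⟩, hje⟩⟩ | u⟩
      · subst hj
        subst hje
        exact ⟨Sum.inr j, rfl⟩
      · exact ⟨Sum.inl i, rfl⟩
  refine hpi.realised k d c (Equiv.ofBijective f hf)
    (fun j => ⟨T₁ (c' j), ⟨c' j, rfl⟩⟩) (fun i => rfl) (fun j => rfl) ?_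
  intro i j
  rw [← hc]
  constructor
  · intro h
    have h1 := congrArg (fun x : Σ i : Fin m, {e : K₀ // T₁ e = i} => x.2.1) h
    exact h1
  · intro h
    rw [h]

open Classical in
/-- Every type with at least one Kronecker block, in which the number of the bad eigenvalues is at
most the sum of the `k_i + 1`, is realised. -/
theorem few_bad {m n : ℕ} (k : Fin m → ℕ) (d c : Fin n → ℕ) (hm : 0 < m) (hd : ∀ j, 0 < d j)
    (hbad : ((Finset.univ.image c).filter fun e => Bad d c e).card ≤ ∑ i, (k i + 1)) :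
    Realised k d c := by
  obtain ⟨F, hF⟩ : ∃ F, F = (Finset.univ.image c).filter fun e => Bad d c e := ⟨_, rfl⟩
  rw [← hF] at hbad
  have hFm : ∀ e : {e : ℕ // e ∈ Finset.univ.image c}, Bad d c e.1 → e.1 ∈ F := by
    intro e he
    rw [hF]
    exact Finset.mem_filter.mpr ⟨e.2, he⟩
  have hcard : Fintype.card {e : ℕ // e ∈ F} ≤ Fintype.card (Σ i : Fin m, Fin (k i + 1)) := by
    rw [Fintype.card_coe, Fintype.card_sigma]
    simpa using hbad
  obtain ⟨φ⟩ := Function.Embedding.nonempty_of_card_le hcard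
  let T : {e : ℕ // e ∈ Finset.univ.image c} → Σ i : Fin m, Fin (k i + 1) := fun e =>
    if h : Bad d c e.1 then φ ⟨e.1, hFm e h⟩ else ⟨⟨0, hm⟩, 0⟩
  refine few_aux k d c hd (K₀ := {e : ℕ // e ∈ Finset.univ.image c})
    (fun j => ⟨c j, Finset.mem_image_of_mem c (Finset.mem_univ j)⟩) (fun i j => Subtype.ext_iff)
    ?_ (fun e => ¬ Bad d c e.1) ?_ (fun e => (T e).1) (fun e => ((T e).2 : ℕ))
    (fun e => (T e).2.2) ?_
  · rintro ⟨e, he⟩
    obtain ⟨j, _, hj⟩ := Finset.mem_image.mp he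
    exact ⟨j, Subtype.ext hj⟩
  · rintro ⟨e, he⟩ hb
    obtain ⟨j, _, hj⟩ := Finset.mem_image.mp he
    obtain ⟨l, hl, hmax⟩ := Finset.exists_max_image (Finset.univ.filter fun j => c j = e) d
      ⟨j, Finset.mem_filter.mpr ⟨Finset.mem_univ _, hj⟩⟩
    have hl := (Finset.mem_filter.mp hl).2
    refine ⟨l, Subtype.ext hl, fun j' hj' hne => ?_⟩
    have hcj : c j' = e := congrArg Subtype.val hj'
    have hle := hmax j' (Finset.mem_filter.mpr ⟨Finset.mem_univ _, hcj⟩)
    refine lt_of_le_of_ne hle fun heq => hb ?_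
    exact ⟨l, j', fun h => hne h.symm, hl, hcj, heq.symm,
      hd l, fun q hq => hmax q (Finset.mem_filter.mpr ⟨Finset.mem_univ _, hq⟩)⟩
  · intro e e' h h' h1 h2
    have h := not_not.mp h
    have h' := not_not.mp h'
    have h1 : (T e).1 = (T e').1 := h1
    have h2 : ((T e).2 : ℕ) = ((T e').2 : ℕ) := h2
    have h3 : T e = T e' := by
      refine Sigma.ext h1 ?_
      exact (Fin.heq_ext_iff (by rw [h1])).mpr h2
    simp only [T, dif_pos h, dif_pos h'] at h3
    have h4 := congrArg Subtype.val (φ.injective h3)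
    exact Subtype.ext h4

end Pool.Agent.Helper55K1.JK
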