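import Pool.Agent.Helper55K1.JKCore
import Pool.Agent.Helper55K1.JKDefs

/-!
From the normal form with one Kronecker block of size one to the data of the algebraic core.
-/

namespace Pool.Agent.Helper55K1.JK

open Filter Topology Polynomial

section

variable {L : Type} [LieRing L] [LieAlgebra ℂ L]

/-- The vectors of a normal form with one trivial Kronecker block, and their products. -/
structure Fr (x a : Module.Dual ℂ L) {n : ℕ} (d : Fin n → ℕ) where
  μ : Fin n → ℂ
  z : L
  E : Fin n → ℕ → L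
  F : Fin n → ℕ → L
  hE0 : ∀ j s, d j ≤ s → E j s = 0
  hF0 : ∀ j s, d j ≤ s → F j s = 0
  ind : ∀ W : Submodule ℂ L, z ∈ W → (∀ j s, s < d j → E j s ∈ W) →
    (∀ j s, s < d j → F j s ∈ W) → ∀ ξ, ξ ∈ W
  hz0 : z ≠ 0
  hxz : ∀ ξ, x ⁅z, ξ⁆ = 0
  haz : ∀ ξ, a ⁅z, ξ⁆ = 0
  xEF : ∀ j s t, s < d j → t < d j →
    x ⁅E j s, F j t⁆ = if t = s then μ j else if t = s + 1 then 1 else 0
  aEF : ∀ j s t, s < d j → t < d j → a ⁅E j s, F j t⁆ = if t = s then -1 else 0
  xEE : ∀ j s t, x ⁅E j s, E j t⁆ = 0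
  aEE : ∀ j s t, a ⁅E j s, E j t⁆ = 0
  xFF : ∀ j s t, x ⁅F j s, F j t⁆ = 0
  aFF : ∀ j s t, a ⁅F j s, F j t⁆ = 0
  xdiff : ∀ i j s t, i ≠ j → x ⁅E i s, E j t⁆ = 0 ∧ x ⁅E i s, F j t⁆ = 0 ∧ x ⁅F i s, E j t⁆ = 0 ∧
    x ⁅F i s, F j t⁆ = 0
  adiff : ∀ i j s t, i ≠ j → a ⁅E i s, E j t⁆ = 0 ∧ a ⁅E i s, F j t⁆ = 0 ∧ a ⁅F i s, E j t⁆ = 0 ∧
    a ⁅F i s, F j t⁆ = 0

/-- The blocks. -/
abbrev jb {n : ℕ} (d : Fin n → ℕ) (μ : Fin n → ℂ) : Fin 1 ⊕ Fin n → Block :=
  Sum.elim (fun _ : Fin 1 => Block.kronecker 0) fun j => Block.jordan (d j) (μ j)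

lemma exists_fr {x a : Module.Dual ℂ L} {n : ℕ} {d c : Fin n → ℕ}
    (h : HasType (fun ξ η : L => x ⁅ξ, η⁆) (fun ξ η : L => a ⁅ξ, η⁆) (fun _ : Fin 1 => 0) d c) :
    ∃ f : Fr x a d, ∀ i j, f.μ i = f.μ j ↔ c i = c j := by
  obtain ⟨μ, hμ, b, h1, h2⟩ := h
  let zi : Σ i : Fin 1 ⊕ Fin n, (jb d μ i).Ix := ⟨Sum.inl 0, Sum.inr (0 : Fin 1)⟩
  let Ei : (j : Fin n) → (s : ℕ) → s < d j → Σ i : Fin 1 ⊕ Fin n, (jb d μ i).Ix :=
    fun j s hs => ⟨Sum.inr j, Sum.inl (⟨s, hs⟩ : Fin (d j))⟩
  let Fi : (j : Fin n) → (s : ℕ) → s < d j → Σ i : Fin 1 ⊕ Fin n, (jb d μ i).Ix :=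
    fun j s hs => ⟨Sum.inr j, Sum.inr (⟨s, hs⟩ : Fin (d j))⟩
  have hzz : ∀ idx, x ⁅b zi, b idx⁆ = 0 ∧ a ⁅b zi, b idx⁆ = 0 := by
    rintro ⟨i | j, s⟩
    · rcases s with s | s
      · exact (s : Fin 0).elim0
      · have e : (⟨Sum.inl i, Sum.inr s⟩ : Σ i : Fin 1 ⊕ Fin n, (jb d μ i).Ix) = zi := by
          obtain rfl : i = 0 := Subsingleton.elim _ _
          obtain rfl : s = (0 : Fin 1) := @Subsingleton.elim (Fin 1) _ _ _
          rfl
        rw [e, lie_self]
        simp
    · exact h2 (Sum.inl 0) (Sum.inr j) _ s (by simp)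
  refine ⟨{
    μ := μ
    z := b zi
    E := fun j s => if hs : s < d j then b (Ei j s hs) else 0
    F := fun j s => if hs : s < d j then b (Fi j s hs) else 0
    hE0 := fun j s hs => dif_neg (not_lt.mpr hs)
    hF0 := fun j s hs => dif_neg (not_lt.mpr hs)
    ind := ?_
    hz0 := b.ne_zero zi
    hxz := ?_
    haz := ?_
    xEF := ?_
    aEF := ?_
    xEE := ?_
    aEE := ?_
    xFF := ?_
    aFF := ?_
    xdiff := ?_
    adiff := ?_ }, hμ⟩
  · intro W hz hE hF ξ
    have : (⊤ : Submodule ℂ L) ≤ W := by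
      rw [← b.span_eq, Submodule.span_le]
      rintro _ ⟨⟨i | j, s⟩, rfl⟩
      · rcases s with s | s
        · exact (s : Fin 0).elim0
        · have e : (⟨Sum.inl i, Sum.inr s⟩ : Σ i : Fin 1 ⊕ Fin n, (jb d μ i).Ix) = zi := by
            obtain rfl : i = 0 := Subsingleton.elim _ _
            obtain rfl : s = (0 : Fin 1) := @Subsingleton.elim (Fin 1) _ _ _
            rfl
          show b _ ∈ W
          rw [e]
          exact hz
      · rcases s with s | s
        · obtain ⟨s, hs⟩ := s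
          have hs' : s < d j := hs
          have h3 := hE j s hs'
          rw [dif_pos hs'] at h3
          exact h3
        · obtain ⟨s, hs⟩ := s
          have hs' : s < d j := hs
          have h3 := hF j s hs'
          rw [dif_pos hs'] at h3
          exact h3
    exact this trivial
  · intro ξ
    let f : L →ₗ[ℂ] ℂ :=
      { toFun := fun ξ => x ⁅b zi, ξ⁆
        map_add' := fun u v => by rw [lie_add, map_add]
        map_smul' := fun r u => by rw [lie_smul, map_smul]; rfl }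
    have hf : f = 0 := b.ext fun i => (hzz i).1
    exact LinearMap.congr_fun hf ξ
  · intro ξ
    let f : L →ₗ[ℂ] ℂ :=
      { toFun := fun ξ => a ⁅b zi, ξ⁆
        map_add' := fun u v => by rw [lie_add, map_add]
        map_smul' := fun r u => by rw [lie_smul, map_smul]; rfl }
    have hf : f = 0 := b.ext fun i => (hzz i).2
    exact LinearMap.congr_fun hf ξ
  · intro j s t hs ht
    simp only [dif_pos hs, dif_pos ht]
    exact (h1 (Sum.inr j) (Sum.inl (⟨s, hs⟩ : Fin (d j))) (Sum.inr (⟨t, ht⟩ : Fin (d j)))).1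
  · intro j s t hs ht
    simp only [dif_pos hs, dif_pos ht]
    exact (h1 (Sum.inr j) (Sum.inl (⟨s, hs⟩ : Fin (d j))) (Sum.inr (⟨t, ht⟩ : Fin (d j)))).2
  · intro j s t
    by_cases hs : s < d j
    · by_cases ht : t < d j
      · simp only [dif_pos hs, dif_pos ht]
        exact (h1 (Sum.inr j) (Sum.inl (⟨s, hs⟩ : Fin (d j))) (Sum.inl (⟨t, ht⟩ : Fin (d j)))).1
      · simp [dif_neg ht]
    · simp [dif_neg hs]
  · intro j s t
    by_cases hs : s < d j
    · by_cases ht : t < d j
      · simp only [dif_pos hs, dif_pos ht]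
        exact (h1 (Sum.inr j) (Sum.inl (⟨s, hs⟩ : Fin (d j))) (Sum.inl (⟨t, ht⟩ : Fin (d j)))).2
      · simp [dif_neg ht]
    · simp [dif_neg hs]
  · intro j s t
    by_cases hs : s < d j
    · by_cases ht : t < d j
      · simp only [dif_pos hs, dif_pos ht]
        exact (h1 (Sum.inr j) (Sum.inr (⟨s, hs⟩ : Fin (d j))) (Sum.inr (⟨t, ht⟩ : Fin (d j)))).1
      · simp [dif_neg ht]
    · simp [dif_neg hs]
  · intro j s t
    by_cases hs : s < d j
    · by_cases ht : t < d j
      · simp only [dif_pos hs, dif_pos ht]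
        exact (h1 (Sum.inr j) (Sum.inr (⟨s, hs⟩ : Fin (d j))) (Sum.inr (⟨t, ht⟩ : Fin (d j)))).2
      · simp [dif_neg ht]
    · simp [dif_neg hs]
  · intro i j s t hij
    have hij' : (Sum.inr i : Fin 1 ⊕ Fin n) ≠ Sum.inr j := fun e => hij (Sum.inr.inj e)
    by_cases hs : s < d i
    · by_cases ht : t < d j
      · simp only [dif_pos hs, dif_pos ht]
        exact ⟨(h2 _ _ _ _ hij').1, (h2 _ _ _ _ hij').1, (h2 _ _ _ _ hij').1,
          (h2 _ _ _ _ hij').1⟩
      · simp [dif_neg ht]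
    · simp [dif_neg hs]
  · intro i j s t hij
    have hij' : (Sum.inr i : Fin 1 ⊕ Fin n) ≠ Sum.inr j := fun e => hij (Sum.inr.inj e)
    by_cases hs : s < d i
    · by_cases ht : t < d j
      · simp only [dif_pos hs, dif_pos ht]
        exact ⟨(h2 _ _ _ _ hij').2, (h2 _ _ _ _ hij').2, (h2 _ _ _ _ hij').2,
          (h2 _ _ _ _ hij').2⟩
      · simp [dif_neg ht]
    · simp [dif_neg hs]

namespace Fr

variable {x a : Module.Dual ℂ L} {n : ℕ} {d : Fin n → ℕ}

/-- Two functionals of the form `ξ ↦ y [v, ξ]` agree if they agree on the vectors. -/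
lemma ext_lin (f : Fr x a d) (g : L →ₗ[ℂ] ℂ) (hz : g f.z = 0)
    (hE : ∀ j s, s < d j → g (f.E j s) = 0) (hF : ∀ j s, s < d j → g (f.F j s) = 0) (ξ : L) :
    g ξ = 0 := by
  have := f.ind (LinearMap.ker g) (by simpa using hz) (fun j s hs => by simpa using hE j s hs)
    (fun j s hs => by simpa using hF j s hs) ξ
  simpa using this

/-- The functional `ξ ↦ y [v, ξ]`. -/
def br (y : Module.Dual ℂ L) (v : L) : L →ₗ[ℂ] ℂ where
  toFun ξ := y ⁅v, ξ⁆
  map_add' u v := by rw [lie_add, map_add]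
  map_smul' r u := by rw [lie_smul, map_smul]; rfl

lemma xz' (f : Fr x a d) (ξ : L) : x ⁅ξ, f.z⁆ = 0 := by
  rw [← lie_skew, map_neg, f.hxz, neg_zero]

lemma az' (f : Fr x a d) (ξ : L) : a ⁅ξ, f.z⁆ = 0 := by
  rw [← lie_skew, map_neg, f.haz, neg_zero]

lemma xFE (f : Fr x a d) (j : Fin n) (s t : ℕ) (hs : s < d j) (ht : t < d j) :
    x ⁅f.F j s, f.E j t⁆ = - (if s = t then f.μ j else if s = t + 1 then 1 else 0) := by
  rw [← lie_skew, map_neg, f.xEF j t s ht hs]

lemma aFE (f : Fr x a d) (j : Fin n) (s t : ℕ) (hs : s < d j) (ht : t < d j) :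
    a ⁅f.F j s, f.E j t⁆ = - (if s = t then -1 else 0) := by
  rw [← lie_skew, map_neg, f.aEF j t s ht hs]

lemma relE (f : Fr x a d) (j : Fin n) (s : ℕ) (ξ : L) :
    x ⁅f.E j s, ξ⁆ = - a ⁅f.μ j • f.E j s + f.E j (s + 1), ξ⁆ := by
  by_cases hs : s < d j
  · have h := f.ext_lin (br x (f.E j s) + br a (f.μ j • f.E j s + f.E j (s + 1))) ?_ ?_ ?_ ξ
    · have h' : x ⁅f.E j s, ξ⁆ + a ⁅f.μ j • f.E j s + f.E j (s + 1), ξ⁆ = 0 := h
      exact eq_neg_of_add_eq_zero_left h'
    · show x ⁅f.E j s, f.z⁆ + a ⁅_, f.z⁆ = 0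
      rw [f.xz', f.az', add_zero]
    · intro i t ht
      show x ⁅f.E j s, f.E i t⁆ + a ⁅_, f.E i t⁆ = 0
      rw [add_lie, smul_lie, map_add, map_smul]
      by_cases hij : j = i
      · subst hij
        rw [f.xEE, f.aEE, f.aEE]
        simp
      · rw [(f.xdiff j i s t hij).1, (f.adiff j i s t hij).1, (f.adiff j i (s + 1) t hij).1]
        simp
    · intro i t ht
      show x ⁅f.E j s, f.F i t⁆ + a ⁅_, f.F i t⁆ = 0
      rw [add_lie, smul_lie, map_add, map_smul]
      by_cases hij : j = i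
      · subst hij
        rw [f.xEF j s t hs ht, f.aEF j s t hs ht]
        by_cases hs1 : s + 1 < d j
        · rw [f.aEF j (s + 1) t hs1 ht]
          by_cases h1 : t = s
          · rw [if_pos h1, if_pos h1, if_neg (by omega)]
            simp
          · rw [if_neg h1, if_neg h1]
            by_cases h2 : t = s + 1
            · rw [if_pos h2, if_pos h2]; simp
            · rw [if_neg h2, if_neg h2]; simp
        · rw [f.hE0 j (s + 1) (by omega), zero_lie, map_zero]
          by_cases h1 : t = s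
          · rw [if_pos h1, if_pos h1]
            simp
          · rw [if_neg h1, if_neg h1, if_neg (by omega)]
            simp
      · rw [(f.xdiff j i s t hij).2.1, (f.adiff j i s t hij).2.1,
          (f.adiff j i (s + 1) t hij).2.1]
        simp
  · rw [f.hE0 j s (by omega), f.hE0 j (s + 1) (by omega)]
    simp

lemma relF (f : Fr x a d) (j : Fin n) (s : ℕ) (hs : s < d j) (ξ : L) :
    x ⁅f.F j s, ξ⁆ = - a ⁅f.μ j • f.F j s + (if s = 0 then 0 else f.F j (s - 1)), ξ⁆ := by
  have h := f.ext_lin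
    (br x (f.F j s) + br a (f.μ j • f.F j s + (if s = 0 then 0 else f.F j (s - 1)))) ?_ ?_ ?_ ξ
  · have h' : x ⁅f.F j s, ξ⁆ + a ⁅f.μ j • f.F j s + (if s = 0 then 0 else f.F j (s - 1)), ξ⁆ = 0 :=
      h
    exact eq_neg_of_add_eq_zero_left h'
  · show x ⁅f.F j s, f.z⁆ + a ⁅_, f.z⁆ = 0
    rw [f.xz', f.az', add_zero]
  · intro i t ht
    show x ⁅f.F j s, f.E i t⁆ + a ⁅_, f.E i t⁆ = 0
    rw [add_lie, smul_lie, map_add, map_smul]
    by_cases hij : j = i
    · subst hij
      rw [f.xFE j s t hs ht, f.aFE j s t hs ht]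
      by_cases h0 : s = 0
      · rw [if_pos h0, zero_lie, map_zero]
        by_cases h1 : s = t
        · rw [if_pos h1, if_pos h1]
          simp
        · rw [if_neg h1, if_neg h1, if_neg (by omega)]
          simp
      · rw [if_neg h0, f.aFE j (s - 1) t (by omega) ht]
        by_cases h1 : s = t
        · rw [if_pos h1, if_pos h1, if_neg (by omega)]
          simp
        · rw [if_neg h1, if_neg h1]
          by_cases h2 : s = t + 1
          · rw [if_pos h2, if_pos (by omega)]; simp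
          · rw [if_neg h2, if_neg (by omega)]; simp
    · by_cases h0 : s = 0
      · rw [if_pos h0, zero_lie, map_zero, (f.xdiff j i s t hij).2.2.1,
          (f.adiff j i s t hij).2.2.1]
        simp
      · rw [if_neg h0, (f.xdiff j i s t hij).2.2.1, (f.adiff j i s t hij).2.2.1,
          (f.adiff j i (s - 1) t hij).2.2.1]
        simp
  · intro i t ht
    show x ⁅f.F j s, f.F i t⁆ + a ⁅_, f.F i t⁆ = 0
    rw [add_lie, smul_lie, map_add, map_smul]
    by_cases hij : j = i
    · subst hij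
      by_cases h0 : s = 0
      · rw [if_pos h0, zero_lie, map_zero, f.xFF, f.aFF]; simp
      · rw [if_neg h0, f.xFF, f.aFF, f.aFF]; simp
    · by_cases h0 : s = 0
      · rw [if_pos h0, zero_lie, map_zero, (f.xdiff j i s t hij).2.2.2,
          (f.adiff j i s t hij).2.2.2]
        simp
      · rw [if_neg h0, (f.xdiff j i s t hij).2.2.2, (f.adiff j i s t hij).2.2.2,
          (f.adiff j i (s - 1) t hij).2.2.2]
        simp

/-- The kernel of the second form is spanned by `z`. -/
lemma kernel (f : Fr x a d) (ξ : L) (h : ∀ η, a ⁅ξ, η⁆ = 0) : ξ ∈ Submodule.span ℂ {f.z} := by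
  classical
  let P : L →ₗ[ℂ] L :=
    { toFun := fun ξ => ∑ i, ∑ t ∈ Finset.range (d i),
        ((- a ⁅ξ, f.F i t⁆) • f.E i t + a ⁅ξ, f.E i t⁆ • f.F i t)
      map_add' := fun u v => by
        rw [← Finset.sum_add_distrib]
        refine Finset.sum_congr rfl fun i _ => ?_
        rw [← Finset.sum_add_distrib]
        refine Finset.sum_congr rfl fun t _ => ?_
        rw [add_lie, add_lie, map_add, map_add]
        module
      map_smul' := fun r u => by
        rw [RingHom.id_apply, Finset.smul_sum]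
        refine Finset.sum_congr rfl fun i _ => ?_
        rw [Finset.smul_sum]
        refine Finset.sum_congr rfl fun t _ => ?_
        rw [smul_lie, smul_lie, map_smul, map_smul]
        simp only [smul_eq_mul]
        module }
  have hP : ∀ ξ, P ξ = ∑ i, ∑ t ∈ Finset.range (d i),
        ((- a ⁅ξ, f.F i t⁆) • f.E i t + a ⁅ξ, f.E i t⁆ • f.F i t) := fun _ => rfl
  have key : ∀ ξ, ξ - P ξ ∈ Submodule.span ℂ {f.z} := by
    intro ξ
    have := f.ind ((Submodule.span ℂ {f.z}).comap (LinearMap.id - P)) ?_ ?_ ?_ ξ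
    · exact this
    · show f.z - P f.z ∈ Submodule.span ℂ {f.z}
      rw [hP]
      simp only [f.haz, neg_zero, zero_smul, add_zero, Finset.sum_const_zero, sub_zero]
      exact Submodule.mem_span_singleton_self _
    · intro j s hs
      show f.E j s - P (f.E j s) ∈ Submodule.span ℂ {f.z}
      have : P (f.E j s) = f.E j s := by
        rw [hP, Finset.sum_eq_single j, Finset.sum_eq_single s]
        · rw [f.aEF j s s hs hs, f.aEE, if_pos rfl]
          simp
        · intro t ht hts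
          rw [f.aEF j s t hs (Finset.mem_range.mp ht), f.aEE, if_neg hts]
          simp
        · intro h'
          exact absurd (Finset.mem_range.mpr hs) h'
        · intro i _ hij
          refine Finset.sum_eq_zero fun t _ => ?_
          rw [(f.adiff j i s t (Ne.symm hij)).1, (f.adiff j i s t (Ne.symm hij)).2.1]
          simp
        · intro h'
          exact absurd (Finset.mem_univ j) h'
      rw [this, sub_self]
      exact Submodule.zero_mem _
    · intro j s hs
      show f.F j s - P (f.F j s) ∈ Submodule.span ℂ {f.z}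
      have : P (f.F j s) = f.F j s := by
        rw [hP, Finset.sum_eq_single j, Finset.sum_eq_single s]
        · rw [f.aFE j s s hs hs, f.aFF, if_pos rfl]
          simp
        · intro t ht hts
          rw [f.aFE j s t hs (Finset.mem_range.mp ht), f.aFF, if_neg (Ne.symm hts)]
          simp
        · intro h'
          exact absurd (Finset.mem_range.mpr hs) h'
        · intro i _ hij
          refine Finset.sum_eq_zero fun t _ => ?_
          rw [(f.adiff j i s t (Ne.symm hij)).2.2.1, (f.adiff j i s t (Ne.symm hij)).2.2.2]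
          simp
        · intro h'
          exact absurd (Finset.mem_univ j) h'
      rw [this, sub_self]
      exact Submodule.zero_mem _
  have h0 : P ξ = 0 := by
    rw [hP]
    simp [h]
  have := key ξ
  rwa [h0, sub_zero] at this

/-- The vector `z` is central, if there are frames at points near `x` in all directions. -/
lemma central (f : Fr x a d)
    (H : ∀ w : Module.Dual ℂ L, ∃ t : ℂ, t ≠ 0 ∧ Nonempty (Fr (x + t • w) a d)) (ξ : L) :
    ⁅f.z, ξ⁆ = 0 := by
  rw [← Module.forall_dual_apply_eq_zero_iff ℂ]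
  intro w
  obtain ⟨t, ht, ⟨g⟩⟩ := H w
  obtain ⟨r, hr⟩ := Submodule.mem_span_singleton.mp (f.kernel g.z g.haz)
  have hr0 : r ≠ 0 := by
    rintro rfl
    rw [zero_smul] at hr
    exact g.hz0 hr.symm
  have h1 := g.hxz ξ
  rw [← hr, smul_lie, map_smul, LinearMap.add_apply, LinearMap.smul_apply, f.hxz, zero_add,
    smul_eq_mul, smul_eq_mul] at h1
  have h2 := (mul_eq_zero.mp h1).resolve_left hr0
  exact (mul_eq_zero.mp h2).resolve_left ht

end Fr

end

end Pool.Agent.Helper55K1.JK
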