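import Pool.Agent.Helper55K1.JKLab

/-!
Generic conditions on pairs of linear functionals, direct sums of pairs of forms, and the local
statement for one eigenvalue.
-/

namespace Pool.Agent.Helper55K1.JK

open MvPolynomial

section Gen

variable {L J : Type} [AddCommGroup L] [Module ℂ L]

/-- The condition `Q` holds for generic pairs of functionals. -/
def Gen (b : Module.Basis J ℂ L) (Q : Module.Dual ℂ L → Module.Dual ℂ L → Prop) : Prop :=
  ∃ p : MvPolynomial (J ⊕ J) ℂ, p ≠ 0 ∧ ∀ x a : Module.Dual ℂ L,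
    eval (Sum.elim (fun j => x (b j)) fun j => a (b j)) p ≠ 0 → Q x a

lemma Gen.and {b : Module.Basis J ℂ L} {Q R : Module.Dual ℂ L → Module.Dual ℂ L → Prop}
    (h : Gen b Q) (h' : Gen b R) : Gen b fun x a => Q x a ∧ R x a := by
  obtain ⟨p, hp, h1⟩ := h
  obtain ⟨q, hq, h2⟩ := h'
  refine ⟨p * q, mul_ne_zero hp hq, fun x a hx => ?_⟩
  rw [map_mul] at hx
  exact ⟨h1 x a (left_ne_zero_of_mul hx), h2 x a (right_ne_zero_of_mul hx)⟩

lemma Gen.all {b : Module.Basis J ℂ L} {K : Type} [Fintype K]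
    {Q : K → Module.Dual ℂ L → Module.Dual ℂ L → Prop} (h : ∀ k, Gen b (Q k)) :
    Gen b fun x a => ∀ k, Q k x a := by
  choose p hp h1 using h
  refine ⟨∏ k, p k, Finset.prod_ne_zero_iff.mpr fun k _ => hp k, fun x a hx k => ?_⟩
  rw [map_prod] at hx
  exact h1 k x a (Finset.prod_ne_zero_iff.mp hx k (Finset.mem_univ k))

lemma Gen.of_true (b : Module.Basis J ℂ L) {Q : Module.Dual ℂ L → Module.Dual ℂ L → Prop}
    (h : ∀ x a, Q x a) : Gen b Q := ⟨1, one_ne_zero, fun x a _ => h x a⟩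

lemma gen_x (b : Module.Basis J ℂ L) (j : J) : Gen b fun x _ => x (b j) ≠ 0 := by
  refine ⟨X (Sum.inl j), X_ne_zero _, fun x a h => ?_⟩
  rw [eval_X] at h
  exact h

lemma gen_a (b : Module.Basis J ℂ L) (j : J) : Gen b fun _ a => a (b j) ≠ 0 := by
  refine ⟨X (Sum.inr j), X_ne_zero _, fun x a h => ?_⟩
  rw [eval_X] at h
  exact h

lemma gen_m (b : Module.Basis J ℂ L) {z t f : J} (hzt : z ≠ t) (hft : f ≠ t) (c : ℂ) :
    Gen b fun x a => x (b z) * a (b t) - a (b z) * x (b t) +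
      c * (x (b z) * a (b f) - a (b z) * x (b f)) ≠ 0 := by
  classical
  refine ⟨X (Sum.inl z) * X (Sum.inr t) - X (Sum.inr z) * X (Sum.inl t) +
      C c * (X (Sum.inl z) * X (Sum.inr f) - X (Sum.inr z) * X (Sum.inl f)), ?_, fun x a h => ?_⟩
  · intro h0
    have h1 := congrArg (eval (fun u : J ⊕ J => if u = Sum.inl z ∨ u = Sum.inr t then (1 : ℂ) else 0)) h0
    simp [hzt, hzt.symm, hft] at h1
  · simpa only [map_add, map_sub, map_mul, eval_X, eval_C, Sum.elim_inl, Sum.elim_inr] using h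

end Gen

section PiBlocks

/-- The direct sum of a family of pairs of forms. -/
lemma HasBlocks.pi {K : Type} [Fintype K] [DecidableEq K] {V : K → Type}
    [∀ k, AddCommGroup (V k)] [∀ k, Module ℂ (V k)] {I : K → Type}
    {A B : ∀ k, V k → V k → ℂ} {blk : ∀ k, I k → Block}
    (h : ∀ k, HasBlocks (A k) (B k) (blk k))
    (h0 : ∀ k v, A k v 0 = 0 ∧ A k 0 v = 0 ∧ B k v 0 = 0 ∧ B k 0 v = 0) :
    HasBlocks (fun u v : ∀ k, V k => ∑ k, A k (u k) (v k)) (fun u v => ∑ k, B k (u k) (v k))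
      fun x : Σ k, I k => blk x.1 x.2 := by
  choose b h1 h2 using h
  let e : (Σ x : (Σ k, I k), (blk x.1 x.2).Ix) ≃ Σ k, Σ i, (blk k i).Ix :=
    Equiv.sigmaAssoc fun k i => (blk k i).Ix
  have hb : ∀ (k : K) (i : I k) (s : (blk k i).Ix),
      ((Pi.basis b).reindex e.symm) ⟨⟨k, i⟩, s⟩ = Pi.single k (b k ⟨i, s⟩) := by
    intro k i s
    rw [Module.Basis.reindex_apply, Equiv.symm_symm]
    exact Pi.basis_apply b ⟨k, ⟨i, s⟩⟩
  have hs : ∀ (k : K) (x : V k) (y : ∀ k, V k),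
      (∑ l, A l ((Pi.single k x : ∀ k, V k) l) (y l) = A k x (y k)) ∧
      (∑ l, B l ((Pi.single k x : ∀ k, V k) l) (y l) = B k x (y k)) := by
    intro k x y
    constructor
    · rw [Finset.sum_eq_single k]
      · rw [Pi.single_eq_same]
      · intro l _ hl
        rw [Pi.single_eq_of_ne hl, (h0 l _).2.1]
      · intro hn; exact absurd (Finset.mem_univ k) hn
    · rw [Finset.sum_eq_single k]
      · rw [Pi.single_eq_same]
      · intro l _ hl
        rw [Pi.single_eq_of_ne hl, (h0 l _).2.2.2]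
      · intro hn; exact absurd (Finset.mem_univ k) hn
  refine ⟨(Pi.basis b).reindex e.symm, ?_, ?_⟩
  · rintro ⟨k, i⟩ s t
    rw [hb, hb]
    beta_reduce
    rw [(hs _ _ _).1, (hs _ _ _).2, Pi.single_eq_same]
    exact h1 k i s t
  · rintro ⟨k, i⟩ ⟨l, j⟩ s t hne
    rw [hb, hb]
    beta_reduce
    rw [(hs _ _ _).1, (hs _ _ _).2]
    by_cases hkl : k = l
    · subst hkl
      rw [Pi.single_eq_same]
      exact h2 k i j s t (fun e => hne (by rw [e]))
    · rw [Pi.single_eq_of_ne hkl]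
      exact ⟨(h0 k _).1, (h0 k _).2.2.1⟩

end PiBlocks

section Local

variable {ι : Type} [Fintype ι] [DecidableEq ι] (d : ι → ℕ)

/-- The statement for one eigenvalue. -/
lemma loc (hne : Nonempty ι) (hd : ∀ j, 0 < d j) (g : Prop) [Decidable g]
    (hg : g → ∃ j₀, ∀ j, j ≠ j₀ → d j < d j₀) :
    ∃ (D : LD (MV d)) (z f : Σ j : ι, Fin (d j) ⊕ Fin (d j)) (c : ℂ),
      ∀ (x a : Module.Dual ℂ (MV d)) (tx ta : ℂ), x (sb d z) ≠ 0 → a (sb d z) ≠ 0 → tx ≠ 0 →
        ta ≠ 0 → x (sb d z) * ta - a (sb d z) * tx ≠ 0 →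
        x (sb d z) * ta - a (sb d z) * tx +
          c * (x (sb d z) * a (sb d f) - a (sb d z) * x (sb d f)) ≠ 0 →
        HasBlocks (fun u v => x (D.br u v) + tx * D.co u v)
          (fun u v => a (D.br u v) + ta * D.co u v)
          fun j : ι => Block.jordan (d j) (if g then -x (sb d z) / a (sb d z) else -tx / ta) := by
  have hz : ∀ j₀, ∃ z, (mCh d).z j₀ = sb d z := by
    intro j₀
    exact ⟨_, mG_pos d j₀ (d j₀ - 1) (by have := hd j₀; omega)⟩
  have hf : ∀ j₀, ∃ f, (mCh d).G j₀ (d j₀ - 2) = sb d f := by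
    intro j₀
    exact ⟨_, mG_pos d j₀ (d j₀ - 2) (by have := hd j₀; omega)⟩
  by_cases hgt : g
  · obtain ⟨j₀, hmax⟩ := hg hgt
    obtain ⟨z, hz⟩ := hz j₀
    obtain ⟨f, hf⟩ := hf j₀
    refine ⟨(mCh d).good (hd j₀), z, f, ((d j₀ - 2 : ℕ) : ℂ) + 1 - d j₀,
      fun x a tx ta h1 h2 h3 h4 h5 h6 => ?_⟩
    have := (mCh d).good_blocks (hd j₀) hmax x a tx ta (by rw [hz]; exact h1) h4
      (by rw [hz]; exact h2) (by rw [hz]; exact h5) (by rw [hz, hf]; exact h6)
    rw [hz] at this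
    simp only [if_pos hgt]
    exact this
  · obtain ⟨j₀, _, hmax⟩ := Finset.exists_max_image Finset.univ d ⟨hne.some, Finset.mem_univ _⟩
    obtain ⟨z, hz⟩ := hz j₀
    refine ⟨(mCh d).bad (hd j₀), z, z, 0, fun x a tx ta h1 h2 h3 h4 h5 _ => ?_⟩
    have := (mCh d).bad_blocks (hd j₀) (fun j => hmax j (Finset.mem_univ j)) x a tx ta h3
      (by rw [hz]; exact h2) h4 (by rw [hz]; exact h5)
    simp only [if_neg hgt]
    exact this

end Local

end Pool.Agent.Helper55K1.JK
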