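import Pool.Agent.Helper55K1.JKGen
import Pool.Agent.Helper55K1.JKObs

/-!
The algebraic types with exactly one Kronecker block, of size `1 × 1`.
-/

namespace Pool.Agent.Helper55K1.JK

section Total

variable {K : Type} [Fintype K] {V : K → Type} [∀ k, AddCommGroup (V k)] [∀ k, Module ℂ (V k)]

/-- The central product. -/
def Cen (_D : ∀ k, LD (V k)) : Type := (∀ k, V k) × (Fin 1 → ℂ)

variable (D : ∀ k, LD (V k))

instance : AddCommGroup (Cen D) := inferInstanceAs (AddCommGroup ((∀ k, V k) × (Fin 1 → ℂ)))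

instance : Module ℂ (Cen D) := inferInstanceAs (Module ℂ ((∀ k, V k) × (Fin 1 → ℂ)))

/-- The bracket. -/
def cenBr (x y : (∀ k, V k) × (Fin 1 → ℂ)) : (∀ k, V k) × (Fin 1 → ℂ) :=
  (fun k => (D k).br (x.1 k) (y.1 k), fun _ => ∑ k, (D k).co (x.1 k) (y.1 k))

lemma cenBr_add_left (x y z : (∀ k, V k) × (Fin 1 → ℂ)) :
    cenBr D (x + y) z = cenBr D x z + cenBr D y z := by
  refine Prod.ext (funext fun k => ?_) (funext fun _ => ?_)
  · simp [cenBr]
  · simp [cenBr, Finset.sum_add_distrib]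

lemma cenBr_add_right (x y z : (∀ k, V k) × (Fin 1 → ℂ)) :
    cenBr D x (y + z) = cenBr D x y + cenBr D x z := by
  refine Prod.ext (funext fun k => ?_) (funext fun _ => ?_)
  · simp [cenBr]
  · simp [cenBr, Finset.sum_add_distrib]

lemma cenBr_self (x : (∀ k, V k) × (Fin 1 → ℂ)) : cenBr D x x = 0 := by
  refine Prod.ext (funext fun k => ?_) (funext fun _ => ?_)
  · exact (D k).br_self _
  · exact Finset.sum_eq_zero fun k _ => (D k).co_self _

lemma cenBr_jacobi (x y z : (∀ k, V k) × (Fin 1 → ℂ)) :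
    cenBr D x (cenBr D y z) = cenBr D (cenBr D x y) z + cenBr D y (cenBr D x z) := by
  refine Prod.ext (funext fun k => ?_) (funext fun _ => ?_)
  · exact (D k).jac _ _ _
  · show ∑ k, (D k).co (x.1 k) ((D k).br (y.1 k) (z.1 k)) =
      ∑ k, (D k).co ((D k).br (x.1 k) (y.1 k)) (z.1 k) +
      ∑ k, (D k).co (y.1 k) ((D k).br (x.1 k) (z.1 k))
    rw [← Finset.sum_add_distrib]
    exact Finset.sum_congr rfl fun k _ => (D k).coc _ _ _

lemma cenBr_smul (r : ℂ) (x y : (∀ k, V k) × (Fin 1 → ℂ)) :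
    cenBr D x (r • y) = r • cenBr D x y := by
  refine Prod.ext (funext fun k => ?_) (funext fun _ => ?_)
  · simp [cenBr]
  · simp [cenBr, Finset.mul_sum]

instance : LieRing (Cen D) where
  bracket x y := cenBr D x y
  add_lie := cenBr_add_left D
  lie_add := cenBr_add_right D
  lie_self := cenBr_self D
  leibniz_lie := cenBr_jacobi D

instance : LieAlgebra ℂ (Cen D) where
  lie_smul := cenBr_smul D

variable [DecidableEq K]

/-- The inclusion of a factor. -/
def Cen.inc (k : K) : V k →ₗ[ℂ] Cen D :=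
  (LinearMap.inl ℂ (∀ k, V k) (Fin 1 → ℂ)).comp (LinearMap.single ℂ V k)

/-- The central element. -/
def Cen.c : Cen D := ((0, fun _ => 1) : (∀ k, V k) × (Fin 1 → ℂ))

lemma Cen.lie_decomp (y : Module.Dual ℂ (Cen D)) (u v : Cen D) :
    y ⁅u, v⁆ = ∑ k, ((y.comp (Cen.inc D k)) ((D k).br (u.1 k) (v.1 k)) +
      y (Cen.c D) * (D k).co (u.1 k) (v.1 k)) := by
  have h : (⁅u, v⁆ : Cen D) = ∑ k, Cen.inc D k ((D k).br (u.1 k) (v.1 k)) +
      (∑ k, (D k).co (u.1 k) (v.1 k)) • Cen.c D := by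
    have e1 : ∑ k, Cen.inc D k ((D k).br (u.1 k) (v.1 k)) =
        (((fun k => (D k).br (u.1 k) (v.1 k)), 0) : (∀ k, V k) × (Fin 1 → ℂ)) := by
      have e2 : ∀ w : ∀ k, V k, ∑ k, Cen.inc D k (w k) =
          (LinearMap.inl ℂ (∀ k, V k) (Fin 1 → ℂ)) w := by
        intro w
        have e3 : ∀ k, Cen.inc D k (w k) =
            (LinearMap.inl ℂ (∀ k, V k) (Fin 1 → ℂ)) (Pi.single k (w k)) := fun k => rfl
        rw [Finset.sum_congr rfl fun k _ => e3 k]
        refine (map_sum (LinearMap.inl ℂ (∀ k, V k) (Fin 1 → ℂ)) _ _).symm.trans ?_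
        rw [Finset.univ_sum_single]
      exact e2 _
    rw [e1]
    refine Prod.ext ?_ ?_
    · show _ = (fun k => (D k).br (u.1 k) (v.1 k)) + (∑ k, (D k).co (u.1 k) (v.1 k)) • (0 : ∀ k, V k)
      rw [smul_zero, add_zero]
      rfl
    · show _ = (0 : Fin 1 → ℂ) + (∑ k, (D k).co (u.1 k) (v.1 k)) • (fun _ => (1 : ℂ))
      rw [zero_add]
      funext i
      simp only [Pi.smul_apply, smul_eq_mul, mul_one]
      rfl
  rw [h, map_add, map_sum, map_smul, Finset.sum_add_distrib, smul_eq_mul, Finset.sum_mul]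
  congr 1
  exact Finset.sum_congr rfl fun k _ => mul_comm _ _

end Total

/-- The index set of the standard basis. -/
abbrev IX {n : ℕ} (d : Fin n → ℕ) {K : Type} (c' : Fin n → K) : Type :=
  (Σ e : K, Σ j : {j : Fin n // c' j = e}, Fin (d j.1) ⊕ Fin (d j.1)) ⊕ Fin 1

/-- The standard basis. -/
noncomputable def bas {n : ℕ} (d : Fin n → ℕ) {K : Type} [Fintype K] [DecidableEq K]
    (c' : Fin n → K) (D : ∀ e : K, LD (MV fun j : {j : Fin n // c' j = e} => d j.1)) :
    Module.Basis (IX d c') ℂ (Cen D) :=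
  (Pi.basis fun e : K => sb fun j : {j : Fin n // c' j = e} => d j.1).prod (Pi.basisFun ℂ (Fin 1))

lemma bas_inl {n : ℕ} (d : Fin n → ℕ) {K : Type} [Fintype K] [DecidableEq K]
    (c' : Fin n → K) (D : ∀ e : K, LD (MV fun j : {j : Fin n // c' j = e} => d j.1)) (e : K)
    (s : Σ j : {j : Fin n // c' j = e}, Fin (d j.1) ⊕ Fin (d j.1)) :
    bas d c' D (Sum.inl ⟨e, s⟩) =
      Cen.inc D e (sb (fun j : {j : Fin n // c' j = e} => d j.1) s) := by
  show ((Pi.basis fun e : K => sb fun j : {j : Fin n // c' j = e} => d j.1).prod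
    (Pi.basisFun ℂ (Fin 1))) (Sum.inl ⟨e, s⟩) = _
  rw [Module.Basis.prod_apply, Sum.elim_inl, Function.comp_apply, Pi.basis_apply]
  rfl

lemma bas_inr {n : ℕ} (d : Fin n → ℕ) {K : Type} [Fintype K] [DecidableEq K]
    (c' : Fin n → K) (D : ∀ e : K, LD (MV fun j : {j : Fin n // c' j = e} => d j.1)) :
    bas d c' D (Sum.inr 0) = Cen.c D := by
  show ((Pi.basis fun e : K => sb fun j : {j : Fin n // c' j = e} => d j.1).prod
    (Pi.basisFun ℂ (Fin 1))) (Sum.inr 0) = _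
  rw [Module.Basis.prod_apply, Sum.elim_inr, Function.comp_apply, Pi.basisFun_apply]
  refine Prod.ext rfl (funext fun i => ?_)
  show (Pi.single 0 1 : Fin 1 → ℂ) i = 1
  rw [Subsingleton.elim i 0, Pi.single_eq_same]

lemma one_trivial_aux {n : ℕ} (d : Fin n → ℕ) (hd : ∀ j, 0 < d j) {K : Type} [Fintype K]
    [DecidableEq K] (c' : Fin n → K) (hsurj : ∀ e, ∃ j, c' j = e) (g : K → Prop)
    [DecidablePred g]
    (hg : ∀ e, g e → ∃ j₀ : {j : Fin n // c' j = e}, ∀ j, j ≠ j₀ → d j.1 < d j₀.1)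
    (h1 : ∀ e e', ¬ g e → ¬ g e' → e = e') :
    ∃ (D : ∀ e : K, LD (MV fun j : {j : Fin n // c' j = e} => d j.1))
      (p : MvPolynomial (IX d c' ⊕ IX d c') ℂ), p ≠ 0 ∧
      ∀ x a : Module.Dual ℂ (Cen D),
        MvPolynomial.eval (Sum.elim (fun j => x (bas d c' D j)) fun j => a (bas d c' D j)) p ≠ 0 →
        ∃ μ : K → ℂ, (∀ e e', μ e = μ e' → e = e') ∧
          HasBlocks (fun ξ η : Cen D => x ⁅ξ, η⁆) (fun ξ η : Cen D => a ⁅ξ, η⁆)
            (Sum.elim (fun x : Σ e : K, {j : Fin n // c' j = e} => Block.jordan (d x.2.1) (μ x.1))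
              fun _ : Fin 1 => Block.kronecker 0) := by
  choose D z f r hD using fun e : K => loc (fun j : {j : Fin n // c' j = e} => d j.1)
    (by obtain ⟨j, hj⟩ := hsurj e; exact ⟨⟨j, hj⟩⟩) (fun j => hd j.1) (g e) (hg e)
  obtain ⟨b, hb⟩ : ∃ b, b = bas d c' D := ⟨_, rfl⟩
  -- the generic conditions
  have hgen : Gen b fun x a => x (b (Sum.inr 0)) ≠ 0 ∧ a (b (Sum.inr 0)) ≠ 0 ∧
      (∀ e, (x (b (Sum.inl ⟨e, z e⟩)) ≠ 0 ∧ a (b (Sum.inl ⟨e, z e⟩)) ≠ 0) ∧
        (x (b (Sum.inl ⟨e, z e⟩)) * a (b (Sum.inr 0)) - a (b (Sum.inl ⟨e, z e⟩)) * x (b (Sum.inr 0)) +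
          0 * (x (b (Sum.inl ⟨e, z e⟩)) * a (b (Sum.inl ⟨e, z e⟩)) -
            a (b (Sum.inl ⟨e, z e⟩)) * x (b (Sum.inl ⟨e, z e⟩))) ≠ 0) ∧
        (x (b (Sum.inl ⟨e, z e⟩)) * a (b (Sum.inr 0)) - a (b (Sum.inl ⟨e, z e⟩)) * x (b (Sum.inr 0)) +
          r e * (x (b (Sum.inl ⟨e, z e⟩)) * a (b (Sum.inl ⟨e, f e⟩)) -
            a (b (Sum.inl ⟨e, z e⟩)) * x (b (Sum.inl ⟨e, f e⟩))) ≠ 0)) ∧
      (∀ e e', e ≠ e' → x (b (Sum.inl ⟨e, z e⟩)) * a (b (Sum.inl ⟨e', z e'⟩)) -
          a (b (Sum.inl ⟨e, z e⟩)) * x (b (Sum.inl ⟨e', z e'⟩)) +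
          0 * (x (b (Sum.inl ⟨e, z e⟩)) * a (b (Sum.inl ⟨e, z e⟩)) -
            a (b (Sum.inl ⟨e, z e⟩)) * x (b (Sum.inl ⟨e, z e⟩))) ≠ 0) := by
    refine (gen_x b _).and ((gen_a b _).and (Gen.and (Gen.all fun e => ?_)
      (Gen.all fun e => Gen.all fun e' => ?_)))
    · exact (((gen_x b _).and (gen_a b _)).and ((gen_m b (by simp) (by simp) _).and
        (gen_m b (by simp) (by simp) _)))
    · by_cases he : e = e'
      · exact Gen.of_true b fun x a h => absurd he h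
      · obtain ⟨p, hp, h⟩ := gen_m b (z := Sum.inl ⟨e, z e⟩) (t := Sum.inl ⟨e', z e'⟩)
          (f := Sum.inl ⟨e, z e⟩)
          (by intro h; apply he; exact congrArg Sigma.fst (Sum.inl.inj h))
          (by intro h; apply he; exact congrArg Sigma.fst (Sum.inl.inj h)) 0
        exact ⟨p, hp, fun x a hxa _ => h x a hxa⟩
  obtain ⟨p, hp, hgen⟩ := hgen
  refine ⟨D, p, hp, fun x a hxa => ?_⟩
  rw [← hb] at hxa
  obtain ⟨ht, ht', he, hee⟩ := hgen x a hxa
  simp only [hb, bas_inl, bas_inr, zero_mul, add_zero] at ht ht' he hee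
  set tx := x (Cen.c D) with htx
  set ta := a (Cen.c D) with hta
  -- the eigenvalues
  let zz : ∀ e : K, MV fun j : {j : Fin n // c' j = e} => d j.1 := fun e =>
    sb (fun j : {j : Fin n // c' j = e} => d j.1) (z e)
  let μ : K → ℂ := fun e =>
    if g e then -x (Cen.inc D e (zz e)) / a (Cen.inc D e (zz e)) else -tx / ta
  have hloc : ∀ e, HasBlocks
      (fun u v => (x.comp (Cen.inc D e)) ((D e).br u v) + tx * (D e).co u v)
      (fun u v => (a.comp (Cen.inc D e)) ((D e).br u v) + ta * (D e).co u v)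
      fun j : {j : Fin n // c' j = e} => Block.jordan (d j.1) (μ e) := by
    intro e
    obtain ⟨⟨h1, h2⟩, h3, h4⟩ := he e
    exact hD e (x.comp (Cen.inc D e)) (a.comp (Cen.inc D e)) tx ta h1 h2 ht ht' h3 h4
  have hpi := HasBlocks.pi hloc (by
    intro e v
    simp)
  have hsum := hpi.sum (trivial_blocks (Fin 1))
    (A'' := fun u v => (∑ e, ((x.comp (Cen.inc D e)) ((D e).br (u.1 e) (v.1 e)) +
      tx * (D e).co (u.1 e) (v.1 e))) + 0)
    (B'' := fun u v => (∑ e, ((a.comp (Cen.inc D e)) ((D e).br (u.1 e) (v.1 e)) +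
      ta * (D e).co (u.1 e) (v.1 e))) + 0)
    (by intro v; simp) (by intro v; simp) (by intro v w; rfl) (by intro v w; rfl)
  refine ⟨μ, ?_, ?_⟩
  · intro e e' h
    by_contra hij
    obtain ⟨⟨hi1, hi2⟩, hi3, -⟩ := he e
    obtain ⟨⟨hj1, hj2⟩, hj3, -⟩ := he e'
    have hij2 := hee _ _ hij
    simp only [μ] at h
    by_cases gi : g e
    · by_cases gj : g e'
      · rw [if_pos gi, if_pos gj, div_eq_div_iff hi2 hj2] at h
        apply hij2
        linear_combination -h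
      · rw [if_pos gi, if_neg gj, div_eq_div_iff hi2 ht'] at h
        apply hi3
        linear_combination -h
    · by_cases gj : g e'
      · rw [if_neg gi, if_pos gj, div_eq_div_iff ht' hj2] at h
        apply hj3
        linear_combination h
      · exact hij (h1 _ _ gi gj)
  · refine hsum.pull (LinearEquiv.refl ℂ
      ((∀ e : K, MV fun j : {j : Fin n // c' j = e} => d j.1) × (Fin 1 → ℂ))) ?_ ?_
    · intro u v
      refine (Cen.lie_decomp D x u v).trans ?_
      rw [add_zero]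
      rfl
    · intro u v
      refine (Cen.lie_decomp D a u v).trans ?_
      rw [add_zero]
      rfl

/-- Every type with exactly one Kronecker block, of size `1 × 1`, and at most one eigenvalue whose
largest block is not unique is realised. -/
theorem one_trivial {n : ℕ} (d c : Fin n → ℕ) (hd : ∀ j, 0 < d j)
    (hbad : ∀ e e', Bad d c e → Bad d c e' → e = e') : Realised (fun _ : Fin 1 => 0) d c := by
  classical
  obtain ⟨D, p, hp, h⟩ := one_trivial_aux d hd
    (K := {e : ℕ // e ∈ Finset.univ.image c})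
    (fun j => ⟨c j, Finset.mem_image_of_mem c (Finset.mem_univ j)⟩)
    (by
      rintro ⟨e, he⟩
      obtain ⟨j, _, hj⟩ := Finset.mem_image.mp he
      exact ⟨j, Subtype.ext hj⟩)
    (fun e => ¬ Bad d c e.1)
    (by
      rintro ⟨e, he⟩ hb
      obtain ⟨j, _, hj⟩ := Finset.mem_image.mp he
      obtain ⟨i, hi, hmax⟩ := Finset.exists_max_image (Finset.univ.filter fun j => c j = e) d
        ⟨j, Finset.mem_filter.mpr ⟨Finset.mem_univ _, hj⟩⟩
      have hi := (Finset.mem_filter.mp hi).2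
      refine ⟨⟨i, Subtype.ext hi⟩, fun j' hj' => ?_⟩
      have hcj : c j'.1 = e := congrArg Subtype.val j'.2
      have hle := hmax j'.1 (Finset.mem_filter.mpr ⟨Finset.mem_univ _, hcj⟩)
      refine lt_of_le_of_ne hle fun heq => hb ?_
      exact ⟨i, j'.1, fun h => hj' (Subtype.ext h.symm), hi, hcj, heq.symm, hd i,
        fun l hl => hmax l (Finset.mem_filter.mpr ⟨Finset.mem_univ _, hl⟩)⟩)
    (by
      intro e e' h h'
      exact Subtype.ext (hbad _ _ (not_not.mp h) (not_not.mp h')))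
  refine ⟨Cen D, inferInstance, inferInstance, _, inferInstance, bas d _ D, p, hp,
    fun x a hxa => ?_⟩
  obtain ⟨μ, hμ, hL⟩ := h x a hxa
  refine ⟨fun j => μ ⟨c j, Finset.mem_image_of_mem c (Finset.mem_univ j)⟩, ?_, ?_⟩
  · intro i j
    constructor
    · intro h
      exact congrArg Subtype.val (hμ _ _ h)
    · intro h
      simp only [h]
  · -- reindexing
    refine hL.reindex ((Equiv.sumComm _ _).trans
      (Equiv.sumCongr (Equiv.sigmaFiberEquiv _).symm (Equiv.refl _))) _ ?_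
    rintro (i | j)
    · rfl
    · rfl

end Pool.Agent.Helper55K1.JK
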