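import Pool.Agent.Helper55K1.JKPert3

/-!
The Lie algebra of the Jordan blocks with one eigenvalue, and its cocycle.
-/

namespace Pool.Agent.Helper55K1.JK

/-- A Lie bracket with a cocycle. -/
structure LD (V : Type) [AddCommGroup V] [Module ℂ V] where
  br : V →ₗ[ℂ] V →ₗ[ℂ] V
  co : V →ₗ[ℂ] V →ₗ[ℂ] ℂ
  br_self : ∀ v, br v v = 0
  co_self : ∀ v, co v v = 0
  jac : ∀ u v w, br u (br v w) = br (br u v) w + br v (br u w)
  coc : ∀ u v w, co u (br v w) = co (br u v) w + co v (br u w)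

section Mk

variable {V : Type} [AddCommGroup V] [Module ℂ V]

/-- The bracket. -/
noncomputable def mkBr (Ds : V →ₗ[ℂ] ℂ) (H : V →ₗ[ℂ] V) (φ : V →ₗ[ℂ] V →ₗ[ℂ] ℂ) (ζ : V) :
    V →ₗ[ℂ] V →ₗ[ℂ] V :=
  LinearMap.mk₂ ℂ (fun u v => Ds u • H v - Ds v • H u + φ u v • ζ)
    (fun x x' y => by simp only [map_add, LinearMap.add_apply]; module)
    (fun r x y => by simp only [map_smul, LinearMap.smul_apply, smul_eq_mul]; module)
    (fun x y y' => by simp only [map_add]; module)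
    (fun r x y => by simp only [map_smul, smul_eq_mul]; module)

variable {Ds : V →ₗ[ℂ] ℂ} {H : V →ₗ[ℂ] V} {φ ψ : V →ₗ[ℂ] V →ₗ[ℂ] ℂ} {ζ : V} {θ σ τ : ℂ}

lemma mkBr_apply (u v : V) : mkBr Ds H φ ζ u v = Ds u • H v - Ds v • H u + φ u v • ζ := rfl

/-- The Lie bracket and the cocycle. -/
noncomputable def mkLD (hDH : ∀ v, Ds (H v) = θ * Ds v) (hDζ : Ds ζ = 0) (hHζ : H ζ = 0)
    (hφs : ∀ u v, φ u v = - φ v u) (hψs : ∀ u v, ψ u v = - ψ v u)
    (hφζ : ∀ w, φ ζ w = -(σ * Ds w)) (hψζ : ∀ w, ψ ζ w = -(τ * Ds w))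
    (hφ : ∀ v w, φ (H v) w - φ (H w) v = σ * φ v w)
    (hψ : ∀ v w, ψ (H v) w - ψ (H w) v = τ * φ v w) : LD V where
  br := mkBr Ds H φ ζ
  co := ψ
  br_self := by
    intro v
    have h := hφs v v
    have : φ v v = 0 := by linear_combination (1 / 2 : ℂ) * h
    rw [mkBr_apply, this, sub_self, zero_smul, add_zero]
  co_self := by
    intro v
    have h := hψs v v
    linear_combination (1 / 2 : ℂ) * h
  jac := by
    intro u v w
    have hD : ∀ u v, Ds (mkBr Ds H φ ζ u v) = 0 := by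
      intro u v
      rw [mkBr_apply, map_add, map_sub, map_smul, map_smul, map_smul, hDH, hDH, hDζ]
      simp only [smul_eq_mul]
      ring
    have hH : ∀ u v, H (mkBr Ds H φ ζ u v) = Ds u • H (H v) - Ds v • H (H u) := by
      intro u v
      rw [mkBr_apply, map_add, map_sub, map_smul, map_smul, map_smul, hHζ, smul_zero, add_zero]
    have hF : ∀ u v w, φ (mkBr Ds H φ ζ u v) w =
        Ds u * φ (H v) w - Ds v * φ (H u) w - σ * φ u v * Ds w := by
      intro u v w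
      rw [mkBr_apply, map_add, map_sub, map_smul, map_smul, map_smul, LinearMap.add_apply,
        LinearMap.sub_apply, LinearMap.smul_apply, LinearMap.smul_apply, LinearMap.smul_apply,
        hφζ]
      simp only [smul_eq_mul]
      ring
    have e1 : mkBr Ds H φ ζ u (mkBr Ds H φ ζ v w) = Ds u • (Ds v • H (H w) - Ds w • H (H v)) -
        (Ds v * φ (H w) u - Ds w * φ (H v) u - σ * φ v w * Ds u) • ζ := by
      rw [mkBr_apply u, hD, hH, hφs u, hF]
      module
    have e2 : mkBr Ds H φ ζ (mkBr Ds H φ ζ u v) w = - Ds w • (Ds u • H (H v) - Ds v • H (H u)) +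
        (Ds u * φ (H v) w - Ds v * φ (H u) w - σ * φ u v * Ds w) • ζ := by
      rw [mkBr_apply _ w, hD, hH, hF]
      module
    have e3 : mkBr Ds H φ ζ v (mkBr Ds H φ ζ u w) = Ds v • (Ds u • H (H w) - Ds w • H (H u)) -
        (Ds u * φ (H w) v - Ds w * φ (H u) v - σ * φ u w * Ds v) • ζ := by
      rw [mkBr_apply v, hD, hH, hφs v, hF]
      module
    have key : -(Ds v * φ (H w) u - Ds w * φ (H v) u - σ * φ v w * Ds u) =
        (Ds u * φ (H v) w - Ds v * φ (H u) w - σ * φ u v * Ds w) -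
        (Ds u * φ (H w) v - Ds w * φ (H u) v - σ * φ u w * Ds v) := by
      linear_combination (-Ds u) * hφ v w + Ds v * hφ u w - Ds w * hφ u v
    rw [e1, e2, e3]
    generalize Ds v * φ (H w) u - Ds w * φ (H v) u - σ * φ v w * Ds u = P at key ⊢
    generalize Ds u * φ (H v) w - Ds v * φ (H u) w - σ * φ u v * Ds w = Q at key ⊢
    generalize Ds u * φ (H w) v - Ds w * φ (H u) v - σ * φ u w * Ds v = R at key ⊢
    have hP : P = R - Q := by linear_combination -key
    rw [hP]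
    module
  coc := by
    intro u v w
    have hF : ∀ u v w, ψ (mkBr Ds H φ ζ u v) w =
        Ds u * ψ (H v) w - Ds v * ψ (H u) w - τ * φ u v * Ds w := by
      intro u v w
      rw [mkBr_apply, map_add, map_sub, map_smul, map_smul, map_smul, LinearMap.add_apply,
        LinearMap.sub_apply, LinearMap.smul_apply, LinearMap.smul_apply, LinearMap.smul_apply,
        hψζ]
      simp only [smul_eq_mul]
      ring
    rw [hψs u, hψs v (mkBr Ds H φ ζ u w), hF, hF, hF]
    linear_combination (-Ds u) * hψ v w + Ds v * hψ u w - Ds w * hψ u v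

end Mk

namespace Ch

variable {V : Type} [AddCommGroup V] [Module ℂ V] {ι : Type} {d : ι → ℕ} (C : Ch V d)

lemma H1_z {j₀ : ι} (hm : 0 < d j₀) : C.H1 (C.z j₀) = 0 := by
  unfold z
  rw [C.H1_G, Nat.cast_sub (by omega), Nat.cast_one, sub_add_cancel, sub_self, zero_smul]

lemma H2_z {j₀ : ι} (hm : 0 < d j₀) : C.H2 (C.z j₀) = 0 := by
  unfold z
  rw [C.H2_G, C.hG0 _ _ (by omega), smul_zero]

/-- The Lie algebra of a label whose largest block is unique. -/
noncomputable def good {j₀ : ι} (hm : 0 < d j₀) : LD V :=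
  mkLD (Ds := C.I.flip (C.z j₀)) (H := C.H1) (φ := C.I) (ψ := C.I.comp C.n) (ζ := C.z j₀) (θ := 1)
    (σ := 1) (τ := 0)
    (by
      intro v
      show C.I (C.H1 v) (C.z j₀) = 1 * C.I v (C.z j₀)
      have := C.H1_der v (C.z j₀)
      rw [C.H1_z hm, map_zero, add_zero] at this
      rw [this, one_mul])
    (C.z_z j₀) (C.H1_z hm) C.sk C.n_skew
    (by
      intro w
      show C.I (C.z j₀) w = -(1 * C.I w (C.z j₀))
      rw [one_mul, C.sk])
    (by
      intro w
      show C.I (C.n (C.z j₀)) w = -(0 * C.I w (C.z j₀))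
      rw [C.n_z hm, map_zero, LinearMap.zero_apply, zero_mul, neg_zero])
    (by
      intro v w
      rw [C.sk (C.H1 w), sub_neg_eq_add, C.H1_der, one_mul])
    (by
      intro v w
      show C.I (C.n (C.H1 v)) w - C.I (C.n (C.H1 w)) v = 0 * C.I v w
      have h1 := C.H1_n v
      have h2 := C.H1_der (C.n v) w
      have h3 := C.n_skew (C.H1 w) v
      rw [h1, map_add, LinearMap.add_apply] at h2
      rw [h3, sub_neg_eq_add, zero_mul]
      linear_combination h2)

/-- The Lie algebra of the distinguished label. -/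
noncomputable def bad {j₀ : ι} (hm : 0 < d j₀) : LD V :=
  mkLD (Ds := C.I.flip (C.z j₀)) (H := C.H2) (φ := C.I.comp C.n) (ψ := C.I) (ζ := C.z j₀) (θ := 0)
    (σ := 0) (τ := 1)
    (by
      intro v
      show C.I (C.H2 v) (C.z j₀) = 0 * C.I v (C.z j₀)
      have := C.H2_der v (C.z j₀)
      rw [C.H2_z hm, map_zero, add_zero, C.n_adj, C.n_z hm, map_zero] at this
      rw [this, zero_mul])
    (C.z_z j₀) (C.H2_z hm) C.n_skew C.sk
    (by
      intro w
      show C.I (C.n (C.z j₀)) w = -(0 * C.I w (C.z j₀))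
      rw [C.n_z hm, map_zero, LinearMap.zero_apply, zero_mul, neg_zero])
    (by
      intro w
      show C.I (C.z j₀) w = -(1 * C.I w (C.z j₀))
      rw [one_mul, C.sk])
    (by
      intro v w
      show C.I (C.n (C.H2 v)) w - C.I (C.n (C.H2 w)) v = 0 * C.I (C.n v) w
      have h1 := C.H2_n v
      have h2 := C.H2_der (C.n v) w
      have h3 := C.n_skew (C.H2 w) v
      rw [h1, map_add, LinearMap.add_apply] at h2
      rw [h3, sub_neg_eq_add, zero_mul]
      linear_combination h2)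
    (by
      intro v w
      show C.I (C.H2 v) w - C.I (C.H2 w) v = 1 * C.I (C.n v) w
      rw [C.sk (C.H2 w), sub_neg_eq_add, C.H2_der, one_mul])

lemma good_form {j₀ : ι} (hm : 0 < d j₀) (y : V →ₗ[ℂ] ℂ) (t : ℂ) (u v : V) :
    y ((C.good hm).br u v) + t * (C.good hm).co u v =
      C.pf j₀ (y (C.z j₀)) t (y.comp C.H1) u v := by
  show y (C.I u (C.z j₀) • C.H1 v - C.I v (C.z j₀) • C.H1 u + C.I u v • C.z j₀) +
    t * C.I (C.n u) v = y (C.z j₀) * C.I u v + t * C.I (C.n u) v +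
    (C.I u (C.z j₀) * y (C.H1 v) - C.I v (C.z j₀) * y (C.H1 u))
  simp only [map_add, map_sub, map_smul, smul_eq_mul]
  ring

lemma bad_form {j₀ : ι} (hm : 0 < d j₀) (y : V →ₗ[ℂ] ℂ) (t : ℂ) (u v : V) :
    y ((C.bad hm).br u v) + t * (C.bad hm).co u v =
      C.pf j₀ t (y (C.z j₀)) (y.comp C.H2) u v := by
  show y (C.I u (C.z j₀) • C.H2 v - C.I v (C.z j₀) • C.H2 u + C.I (C.n u) v • C.z j₀) +
    t * C.I u v = t * C.I u v + y (C.z j₀) * C.I (C.n u) v +
    (C.I u (C.z j₀) * y (C.H2 v) - C.I v (C.z j₀) * y (C.H2 u))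
  simp only [map_add, map_sub, map_smul, smul_eq_mul]
  ring

lemma good_blocks [FiniteDimensional ℂ V] {j₀ : ι} (hm : 0 < d j₀)
    (hmax : ∀ j, j ≠ j₀ → d j < d j₀) (x a : V →ₗ[ℂ] ℂ) (tx ta : ℂ) (h1 : x (C.z j₀) ≠ 0)
    (h2 : ta ≠ 0) (h3 : a (C.z j₀) ≠ 0) (h4 : x (C.z j₀) * ta - a (C.z j₀) * tx ≠ 0)
    (hh : (x (C.z j₀) * ta - a (C.z j₀) * tx) + (((d j₀ - 2 : ℕ) : ℂ) + 1 - d j₀) *
      (x (C.z j₀) * a (C.G j₀ (d j₀ - 2)) - a (C.z j₀) * x (C.G j₀ (d j₀ - 2))) ≠ 0) :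
    HasBlocks (fun u v => x ((C.good hm).br u v) + tx * (C.good hm).co u v)
      (fun u v => a ((C.good hm).br u v) + ta * (C.good hm).co u v)
      fun j => Block.jordan (d j) (-x (C.z j₀) / a (C.z j₀)) := by
  have hmax' : ∀ j, d j ≤ d j₀ := by
    intro j
    by_cases hj : j = j₀
    · rw [hj]
    · exact (hmax j hj).le
  have hz : ∀ y : V →ₗ[ℂ] ℂ, y.comp C.H1 (C.z j₀) = 0 := by
    intro y
    rw [LinearMap.comp_apply, C.H1_z hm, map_zero]
  have hnn : ∀ y : V →ₗ[ℂ] ℂ, ∀ v, C.I v (C.z j₀) = 0 →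
      y.comp C.H1 ((C.n ^ (d j₀ - 1)) v) = 0 := by
    intro y v hv
    have e : ∀ v, y.comp C.H1 ((C.n ^ (d j₀ - 1)) v) =
        (y (C.H1 (C.E j₀ (d j₀ - 1)))) * C.I v (C.z j₀) := by
      intro v
      refine C.ext1 (A := (y.comp C.H1).comp (C.n ^ (d j₀ - 1)))
        (B := (y (C.H1 (C.E j₀ (d j₀ - 1)))) • C.I.flip (C.z j₀)) (fun j s => ?_) (fun j s => ?_) v
      · show y (C.H1 ((C.n ^ (d j₀ - 1)) (C.E j s))) =
          (y (C.H1 (C.E j₀ (d j₀ - 1)))) * C.I (C.E j s) (C.z j₀)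
        rw [C.pow_E]
        by_cases hj : j = j₀
        · subst hj
          by_cases hs : s = 0
          · subst hs
            rw [C.E_z hm, mul_one, zero_add]
          · unfold z
            rw [C.hE0 _ _ (by omega), map_zero, map_zero, C.IEG, if_neg (by omega), mul_zero]
        · unfold z
          have := hmax j hj
          rw [C.hE0 _ _ (by omega), map_zero, map_zero, C.IEGd _ _ _ _ hj, mul_zero]
      · show y (C.H1 ((C.n ^ (d j₀ - 1)) (C.G j s))) =
          (y (C.H1 (C.E j₀ (d j₀ - 1)))) * C.I (C.G j s) (C.z j₀)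
        have e2 : C.I (C.G j s) (C.z j₀) = 0 := C.IGG _ _ _ _
        rw [C.pow_G, e2, mul_zero]
        by_cases hj : j = j₀
        · subst hj
          by_cases hs : s = 0
          · subst hs
            have e3 : C.G j (0 + (d j - 1)) = C.z j := by rw [zero_add]; rfl
            rw [e3, C.H1_z hm, map_zero]
          · rw [C.hG0 _ _ (by omega), map_zero, map_zero]
        · have := hmax j hj
          rw [C.hG0 _ _ (by omega), map_zero, map_zero]
    rw [e, hv, mul_zero]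
  have hf : ∀ y : V →ₗ[ℂ] ℂ, y.comp C.H1 (C.G j₀ (d j₀ - 2)) =
      (((d j₀ - 2 : ℕ) : ℂ) + 1 - d j₀) * y (C.G j₀ (d j₀ - 2)) := by
    intro y
    rw [LinearMap.comp_apply, C.H1_G, map_smul, smul_eq_mul]
  have := C.pert j₀ hm hmax' (sx := x (C.z j₀)) (sa := a (C.z j₀)) (rx := tx) (ra := ta)
    (θx := x.comp C.H1) (θa := a.comp C.H1) h1 h2 h3 h4 (hz x) (hz a) (hnn x) (hnn a) (by
      rw [hf, hf]
      intro h0
      apply hh
      linear_combination h0)
  refine this.pull (LinearEquiv.refl ℂ V) ?_ ?_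
  · intro u v
    exact C.good_form hm x tx u v
  · intro u v
    exact C.good_form hm a ta u v

lemma bad_blocks [FiniteDimensional ℂ V] {j₀ : ι} (hm : 0 < d j₀)
    (hmax : ∀ j, d j ≤ d j₀) (x a : V →ₗ[ℂ] ℂ) (tx ta : ℂ) (h1 : tx ≠ 0)
    (h2 : a (C.z j₀) ≠ 0) (h3 : ta ≠ 0) (h4 : x (C.z j₀) * ta - a (C.z j₀) * tx ≠ 0) :
    HasBlocks (fun u v => x ((C.bad hm).br u v) + tx * (C.bad hm).co u v)
      (fun u v => a ((C.bad hm).br u v) + ta * (C.bad hm).co u v)
      fun j => Block.jordan (d j) (-tx / ta) := by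
  have hz : ∀ y : V →ₗ[ℂ] ℂ, y.comp C.H2 (C.z j₀) = 0 := by
    intro y
    rw [LinearMap.comp_apply, C.H2_z hm, map_zero]
  have hnn : ∀ y : V →ₗ[ℂ] ℂ, ∀ v, C.I v (C.z j₀) = 0 →
      y.comp C.H2 ((C.n ^ (d j₀ - 1)) v) = 0 := by
    intro y v _
    refine C.ext1 (A := (y.comp C.H2).comp (C.n ^ (d j₀ - 1)))
      (B := 0) (fun j s => ?_) (fun j s => ?_) v
    · show y (C.H2 ((C.n ^ (d j₀ - 1)) (C.E j s))) = 0
      have := hmax j
      rw [C.pow_E, C.H2_E, C.hE0 _ _ (by omega), smul_zero, map_zero]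
    · show y (C.H2 ((C.n ^ (d j₀ - 1)) (C.G j s))) = 0
      have := hmax j
      rw [C.pow_G, C.H2_G, C.hG0 _ _ (by omega), smul_zero, map_zero]
  have hf : ∃ r : ℂ, (r = 1 ∨ r = 2) ∧ ∀ y : V →ₗ[ℂ] ℂ,
      y.comp C.H2 (C.G j₀ (d j₀ - 2)) = (r - 1) * y (C.z j₀) := by
    by_cases h : d j₀ = 1
    · refine ⟨1, Or.inl rfl, fun y => ?_⟩
      rw [LinearMap.comp_apply, C.H2_G, C.hG0 _ _ (by omega), smul_zero, map_zero]
      ring
    · refine ⟨2, Or.inr rfl, fun y => ?_⟩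
      have e : d j₀ - 2 + 1 = d j₀ - 1 := by omega
      rw [LinearMap.comp_apply, C.H2_G, e, Nat.cast_sub (by omega), map_smul, smul_eq_mul]
      show _ * y (C.z j₀) = _
      push_cast
      ring
  obtain ⟨r, hr, hf⟩ := hf
  have hr0 : r ≠ 0 := by
    rcases hr with rfl | rfl
    · exact one_ne_zero
    · exact two_ne_zero
  have := C.pert j₀ hm hmax (sx := tx) (sa := ta) (rx := x (C.z j₀)) (ra := a (C.z j₀))
    (θx := x.comp C.H2) (θa := a.comp C.H2) h1 h2 h3 (by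
      intro h0; apply h4; linear_combination -h0) (hz x) (hz a) (hnn x) (hnn a) (by
      rw [hf, hf]
      intro h0
      have : r * (x (C.z j₀) * ta - a (C.z j₀) * tx) = 0 := by linear_combination -h0
      exact (mul_ne_zero hr0 h4) this)
  refine this.pull (LinearEquiv.refl ℂ V) ?_ ?_
  · intro u v
    exact C.bad_form hm x tx u v
  · intro u v
    exact C.bad_form hm a ta u v

end Ch

end Pool.Agent.Helper55K1.JK
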