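import Pool.Agent.Helper55K1.JKDefs

/-!
Matrices of multiplication by linear forms, and products of powers of two linear forms.
-/

namespace Pool.Agent.Helper55K1.JK

open Matrix Polynomial

/-- The array with `a` at the places `(i, i)` and `b` at the places `(i, i + 1)`. -/
def lin (a b : ℂ) : ℕ → ℕ → ℂ := fun i j =>
  (if j = i then a else 0) + (if j = i + 1 then b else 0)

/-- The matrix of an array. -/
def mat (M : ℕ → ℕ → ℂ) (p q : ℕ) : Matrix (Fin p) (Fin q) ℂ := Matrix.of fun i j => M i j

/-- The linear polynomial `a + b X`. -/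
noncomputable def lp (a b : ℂ) : ℂ[X] := C a + C b * X

/-- `(a + b X)^(m-1-i) (c + d X)^i`. -/
noncomputable def pw (a b c d : ℂ) (m i : ℕ) : ℂ[X] := lp a b ^ (m - 1 - i) * lp c d ^ i

/-- The matrix of the coefficients of the polynomials `pw`. -/
noncomputable def G (a b c d : ℂ) (m : ℕ) : Matrix (Fin m) (Fin m) ℂ :=
  Matrix.of fun i j => (pw a b c d m i).coeff j

lemma lp_natDegree (a b : ℂ) : (lp a b).natDegree ≤ 1 := by
  unfold lp
  rw [add_comm]
  exact natDegree_linear_le

lemma pw_natDegree (a b c d : ℂ) {m i : ℕ} (hi : i < m) :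
    (pw a b c d m i).natDegree < m := by
  unfold pw
  calc (lp a b ^ (m - 1 - i) * lp c d ^ i).natDegree
      ≤ (lp a b ^ (m - 1 - i)).natDegree + (lp c d ^ i).natDegree := natDegree_mul_le
    _ ≤ (m - 1 - i) * (lp a b).natDegree + i * (lp c d).natDegree :=
        add_le_add natDegree_pow_le natDegree_pow_le
    _ ≤ (m - 1 - i) * 1 + i * 1 := by
        gcongr
        · exact lp_natDegree a b
        · exact lp_natDegree c d
    _ < m := by omega

lemma lin_indep (a b c d : ℂ) (hb : b ≠ 0) (h : a * d - b * c ≠ 0) : ∀ (m : ℕ) (w : ℕ → ℂ),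
    (∑ i ∈ Finset.range m, C (w i) * pw a b c d m i) = 0 → ∀ i < m, w i = 0 := by
  intro m
  induction m with
  | zero => intro w _ i hi; omega
  | succ m ih =>
    intro w hw i hi
    have hx : (lp a b).eval (-a / b) = 0 := by
      simp only [lp, eval_add, eval_C, eval_mul, eval_X]
      field_simp
      ring
    have hv : (lp c d).eval (-a / b) ≠ 0 := by
      have : (lp c d).eval (-a / b) = -(a * d - b * c) / b := by
        simp only [lp, eval_add, eval_C, eval_mul, eval_X]
        field_simp
        ring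
      rw [this]
      exact div_ne_zero (neg_ne_zero.mpr h) hb
    have hm : w m = 0 := by
      have := congrArg (eval (-a / b)) hw
      rw [eval_finset_sum, Finset.sum_range_succ, eval_zero] at this
      have hz : ∑ x ∈ Finset.range m, eval (-a / b) (C (w x) * pw a b c d (m + 1) x) = 0 := by
        apply Finset.sum_eq_zero
        intro x hx'
        have hx'' := Finset.mem_range.mp hx'
        unfold pw
        rw [eval_mul, eval_mul, eval_pow, hx, zero_pow (by omega)]
        ring
      rw [hz, zero_add] at this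
      unfold pw at this
      rw [eval_mul, eval_mul, eval_pow, eval_pow, show m + 1 - 1 - m = 0 by omega, pow_zero,
        one_mul, eval_C] at this
      rcases mul_eq_zero.mp this with h1 | h1
      · exact h1
      · exact absurd h1 (pow_ne_zero _ hv)
    have hne : lp a b ≠ 0 := by
      intro h0
      have := congrArg (fun q : ℂ[X] => q.coeff 1) h0
      simp [lp] at this
      exact hb this
    have hrest : (∑ i ∈ Finset.range m, C (w i) * pw a b c d m i) = 0 := by
      have h1 : lp a b * (∑ i ∈ Finset.range m, C (w i) * pw a b c d m i) = 0 := by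
        rw [← hw, Finset.sum_range_succ, hm, C_0, zero_mul, add_zero, Finset.mul_sum]
        apply Finset.sum_congr rfl
        intro x hx'
        have hx'' := Finset.mem_range.mp hx'
        unfold pw
        have : m + 1 - 1 - x = (m - 1 - x) + 1 := by omega
        rw [this, pow_succ]
        ring
      rcases mul_eq_zero.mp h1 with h2 | h2
      · exact absurd h2 hne
      · exact h2
    rcases Nat.lt_succ_iff_lt_or_eq.mp hi with h1 | h1
    · exact ih w hrest i h1
    · rw [h1]; exact hm

lemma G_det (a b c d : ℂ) (hb : b ≠ 0) (h : a * d - b * c ≠ 0) (m : ℕ) :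
    (G a b c d m).det ≠ 0 := by
  intro h0
  obtain ⟨w, hw, hw0⟩ := Matrix.exists_vecMul_eq_zero_iff.mpr h0
  apply hw
  let w' : ℕ → ℂ := fun i => if hi : i < m then w ⟨i, hi⟩ else 0
  have hw' : ∀ i : Fin m, w' i = w i := fun i => by simp [w']
  have key : (∑ i ∈ Finset.range m, C (w' i) * pw a b c d m i) = 0 := by
    ext j
    rw [coeff_zero, finset_sum_coeff]
    by_cases hj : j < m
    · have := congrFun hw0 ⟨j, hj⟩
      rw [Matrix.vecMul, dotProduct, Pi.zero_apply] at this
      rw [← this, ← Fin.sum_univ_eq_sum_range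
        (fun i => (C (w' i) * pw a b c d m i).coeff j)]
      apply Finset.sum_congr rfl
      intro i _
      rw [coeff_C_mul, hw']
      rfl
    · apply Finset.sum_eq_zero
      intro i hi
      rw [coeff_C_mul, coeff_eq_zero_of_natDegree_lt
        (lt_of_lt_of_le (pw_natDegree a b c d (Finset.mem_range.mp hi)) (not_lt.mp hj)), mul_zero]
  funext i
  rw [← hw' i]
  exact lin_indep a b c d hb h m w' key i i.2

lemma coeff_lp_mul (a b : ℂ) (f : ℂ[X]) (j : ℕ) :
    (lp a b * f).coeff j = a * f.coeff j + (if 0 < j then b * f.coeff (j - 1) else 0) := by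
  unfold lp
  rw [add_mul, coeff_add, coeff_C_mul, mul_assoc, coeff_C_mul]
  rcases Nat.eq_zero_or_pos j with h | h
  · subst h
    simp
  · obtain ⟨n, rfl⟩ : ∃ n, j = n + 1 := ⟨j - 1, by omega⟩
    simp [coeff_X_mul]

lemma sum_coeff_lin (a b : ℂ) (p : ℕ) (f : ℂ[X]) (hf : ∀ j, p ≤ j → f.coeff j = 0) (j : ℕ) :
    ∑ s : Fin p, f.coeff s * lin a b s j = (lp a b * f).coeff j := by
  rw [coeff_lp_mul, Fin.sum_univ_eq_sum_range (fun s => f.coeff s * lin a b s j) p]
  unfold lin
  simp only [mul_add, Finset.sum_add_distrib]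
  congr 1
  · simp only [mul_ite, mul_zero]
    rw [Finset.sum_ite_eq]
    by_cases hj : j ∈ Finset.range p
    · rw [if_pos hj]; ring
    · rw [if_neg hj, hf j (by simpa using hj)]; ring
  · by_cases h0 : 0 < j
    · rw [if_pos h0]
      have : ∀ s, (f.coeff s * if j = s + 1 then b else 0) =
          if j - 1 = s then f.coeff s * b else 0 := by
        intro s
        by_cases hs : j = s + 1
        · rw [if_pos hs, if_pos (by omega)]
        · rw [if_neg hs, if_neg (by omega), mul_zero]
      simp only [this]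
      rw [Finset.sum_ite_eq]
      by_cases hj : j - 1 ∈ Finset.range p
      · rw [if_pos hj]; ring
      · rw [if_neg hj, hf (j - 1) (by simpa using hj)]; ring
    · rw [if_neg h0]
      apply Finset.sum_eq_zero
      intro s _
      rw [if_neg (by omega), mul_zero]

lemma G_mul_lin (a b c d a' b' : ℂ) (p q : ℕ) (i : Fin p) (j : Fin q) :
    (G a b c d p * mat (lin a' b') p q) i j = (lp a' b' * pw a b c d p i).coeff j := by
  rw [Matrix.mul_apply, ← sum_coeff_lin a' b' p (pw a b c d p i)]
  · rfl
  · intro j hj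
    exact coeff_eq_zero_of_natDegree_lt (lt_of_lt_of_le (pw_natDegree a b c d i.2) hj)

lemma lin_mul_apply (a b : ℂ) {p q r : ℕ} (hq : q ≤ p + 1) (M : ℕ → ℕ → ℂ) (i : Fin p)
    (j : Fin r) :
    (mat (lin a b) p q * mat M q r) i j =
      (if (i : ℕ) < q then a * M i j else 0) + (if (i : ℕ) + 1 < q then b * M (i + 1) j else 0) := by
  rw [Matrix.mul_apply]
  simp only [mat, Matrix.of_apply]
  rw [Fin.sum_univ_eq_sum_range (fun t => lin a b i t * M t j) q]
  unfold lin
  simp only [add_mul, Finset.sum_add_distrib, ite_mul, zero_mul]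
  rw [Finset.sum_ite_eq', Finset.sum_ite_eq']
  simp only [Finset.mem_range]

lemma G_eq_mat (a b c d : ℂ) (m : ℕ) :
    G a b c d m = mat (fun i j => (pw a b c d m i).coeff j) m m := rfl

/-- Kronecker blocks. -/
lemma kron_change (a b c d : ℂ) (k : ℕ) :
    G a b c d k * mat (lin a b) k (k + 1) = mat (lin 1 0) k (k + 1) * G a b c d (k + 1) ∧
    G a b c d k * mat (lin c d) k (k + 1) = mat (lin 0 1) k (k + 1) * G a b c d (k + 1) := by
  constructor
  · ext i j
    rw [G_mul_lin, G_eq_mat a b c d (k + 1), lin_mul_apply 1 0 le_rfl, if_pos (by omega),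
      one_mul]
    have : lp a b * pw a b c d k i = pw a b c d (k + 1) i := by
      unfold pw
      have h1 : k + 1 - 1 - (i : ℕ) = (k - 1 - i) + 1 := by omega
      rw [h1, pow_succ]
      ring
    rw [this]
    simp
  · ext i j
    rw [G_mul_lin, G_eq_mat a b c d (k + 1), lin_mul_apply 0 1 le_rfl, if_pos (by omega),
      if_pos (by omega), zero_mul, zero_add, one_mul]
    have : lp c d * pw a b c d k i = pw a b c d (k + 1) (i + 1) := by
      unfold pw
      have h1 : k + 1 - 1 - ((i : ℕ) + 1) = (k - 1 - i) := by omega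
      rw [h1, pow_succ (lp c d)]
      ring
    rw [this]

lemma mat_add (M N : ℕ → ℕ → ℂ) (p q : ℕ) :
    mat (fun i j => M i j + N i j) p q = mat M p q + mat N p q := rfl

lemma lin_det (a b : ℂ) (k : ℕ) : (mat (lin a b) k k).det = a ^ k := by
  rw [Matrix.det_of_upperTriangular]
  · simp [mat, lin]
  · intro i j hij
    have h1 : (j : ℕ) < i := hij
    simp only [mat, Matrix.of_apply, lin]
    rw [if_neg (by omega), if_neg (by omega), add_zero]

/-- Jordan blocks. -/
lemma jordan_change (a b c : ℂ) (k : ℕ) :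
    G a b 0 c k * mat (lin 0 c) k k = mat (lin 0 1) k k * (G a b 0 c k * mat (lin a b) k k) := by
  ext i j
  rw [G_mul_lin]
  have : G a b 0 c k * mat (lin a b) k k =
      mat (fun i j => (lp a b * pw a b 0 c k i).coeff j) k k := by
    ext s t
    rw [G_mul_lin]
    rfl
  rw [this, lin_mul_apply 0 1 (by omega), zero_mul, ite_self, zero_add, one_mul]
  by_cases hi : (i : ℕ) + 1 < k
  · rw [if_pos hi]
    congr 1
    unfold pw
    have h1 : k - 1 - (i : ℕ) = (k - 1 - (i + 1)) + 1 := by omega
    rw [h1, pow_succ, pow_succ]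
    ring
  · rw [if_neg hi]
    have h1 : k - 1 - (i : ℕ) = 0 := by omega
    have h2 : lp 0 c * pw a b 0 c k i = C (c ^ k) * X ^ k := by
      unfold pw
      rw [h1, pow_zero, one_mul, ← pow_succ', show (i : ℕ) + 1 = k by omega]
      unfold lp
      rw [C_0, zero_add, mul_pow, C_pow]
    rw [h2, coeff_C_mul, coeff_X_pow, if_neg (by omega), mul_zero]

end Pool.Agent.Helper55K1.JK
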