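import Pool.Agent.Helper55K1.JKPencil

/-!
The model pair as bilinear maps, the normal form of a single block, and a generic condition.
-/

namespace Pool.Agent.Helper55K1.JK

open Matrix

lemma pr_add_left (M : ℕ → ℕ → ℂ) {p q : ℕ} (u u' : Fin p → ℂ) (v : Fin q → ℂ) :
    pr M (u + u') v = pr M u v + pr M u' v := by simp [pr, add_dotProduct]

lemma pr_add_right (M : ℕ → ℕ → ℂ) {p q : ℕ} (u : Fin p → ℂ) (v v' : Fin q → ℂ) :
    pr M u (v + v') = pr M u v + pr M u v' := by simp [pr, Matrix.mulVec_add, dotProduct_add]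

lemma pr_smul_left (M : ℕ → ℕ → ℂ) {p q : ℕ} (r : ℂ) (u : Fin p → ℂ) (v : Fin q → ℂ) :
    pr M (r • u) v = r * pr M u v := by simp [pr, smul_dotProduct]

lemma pr_smul_right (M : ℕ → ℕ → ℂ) {p q : ℕ} (r : ℂ) (u : Fin p → ℂ) (v : Fin q → ℂ) :
    pr M u (r • v) = r * pr M u v := by simp [pr, Matrix.mulVec_smul, dotProduct_smul]

lemma frm_add_left (M : ℕ → ℕ → ℂ) {p q : ℕ} (x x' y : (Fin p → ℂ) × (Fin q → ℂ)) :
    frm M (x + x') y = frm M x y + frm M x' y := by
  simp only [frm, Prod.fst_add, Prod.snd_add, pr_add_left, pr_add_right]; ring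

lemma frm_add_right (M : ℕ → ℕ → ℂ) {p q : ℕ} (x y y' : (Fin p → ℂ) × (Fin q → ℂ)) :
    frm M x (y + y') = frm M x y + frm M x y' := by
  simp only [frm, Prod.fst_add, Prod.snd_add, pr_add_left, pr_add_right]; ring

lemma frm_smul_left (M : ℕ → ℕ → ℂ) {p q : ℕ} (r : ℂ) (x y : (Fin p → ℂ) × (Fin q → ℂ)) :
    frm M (r • x) y = r * frm M x y := by
  simp only [frm, Prod.smul_fst, Prod.smul_snd, pr_smul_left, pr_smul_right]; ring

lemma frm_smul_right (M : ℕ → ℕ → ℂ) {p q : ℕ} (r : ℂ) (x y : (Fin p → ℂ) × (Fin q → ℂ)) :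
    frm M x (r • y) = r * frm M x y := by
  simp only [frm, Prod.smul_fst, Prod.smul_snd, pr_smul_left, pr_smul_right]; ring

lemma frm_self (M : ℕ → ℕ → ℂ) {p q : ℕ} (x : (Fin p → ℂ) × (Fin q → ℂ)) :
    frm M x x = 0 := by simp [frm]

lemma pr_comb (α β : ℂ) (M N : ℕ → ℕ → ℂ) {p q : ℕ} (u : Fin p → ℂ) (v : Fin q → ℂ) :
    pr (fun i j => α * M i j + β * N i j) u v = α * pr M u v + β * pr N u v := by
  have : mat (fun i j => α * M i j + β * N i j) p q = α • mat M p q + β • mat N p q := by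
    ext i j
    simp [mat]
  simp [pr, this, Matrix.add_mulVec, Matrix.smul_mulVec, dotProduct_add, dotProduct_smul]

lemma frm_comb (α β : ℂ) (M N : ℕ → ℕ → ℂ) {p q : ℕ} (x y : (Fin p → ℂ) × (Fin q → ℂ)) :
    frm (fun i j => α * M i j + β * N i j) x y = α * frm M x y + β * frm N x y := by
  simp only [frm, pr_comb]; ring

section

variable {I : Type} [Fintype I] (blk : I → Block)

/-- The total form as a bilinear map. -/
noncomputable def totL (M : I → ℕ → ℕ → ℂ) :
    (∀ i, (blk i).Sp) →ₗ[ℂ] (∀ i, (blk i).Sp) →ₗ[ℂ] ℂ :=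
  LinearMap.mk₂ ℂ (tot blk M)
    (fun x x' y => by simp [tot, frm_add_left, Finset.sum_add_distrib])
    (fun r x y => by simp only [tot, Pi.smul_apply, frm_smul_left, smul_eq_mul, Finset.mul_sum])
    (fun x y y' => by simp [tot, frm_add_right, Finset.sum_add_distrib])
    (fun r x y => by simp only [tot, Pi.smul_apply, frm_smul_right, smul_eq_mul, Finset.mul_sum])

lemma totL_apply (M : I → ℕ → ℕ → ℂ) (x y : ∀ i, (blk i).Sp) :
    totL blk M x y = tot blk M x y := rfl

lemma totL_self (M : I → ℕ → ℕ → ℂ) (x : ∀ i, (blk i).Sp) : totL blk M x x = 0 := by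
  rw [totL_apply]
  exact Finset.sum_eq_zero fun i _ => frm_self _ _

lemma tot_comb (α β : ℂ) (M N : I → ℕ → ℕ → ℂ) (x y : ∀ i, (blk i).Sp) :
    tot blk (fun i s t => α * M i s t + β * N i s t) x y =
      α * totL blk M x y + β * totL blk N x y := by
  rw [totL_apply, totL_apply]
  unfold tot
  rw [Finset.mul_sum, Finset.mul_sum, ← Finset.sum_add_distrib]
  exact Finset.sum_congr rfl fun i _ => frm_comb α β (M i) (N i) (x i) (y i)

/-- The normal form of a linear change of the model pair, in terms of the bilinear maps. -/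
lemma totL_change [DecidableEq I] (α β γ δ : ℂ)
    (hβ : β ≠ 0) (hγ : γ ≠ 0) (hdet : α * δ - β * γ ≠ 0) (hb : ∀ i, (blk i).ok γ δ) :
    HasBlocks
      (fun x y => α * totL blk (fun i => (blk i).first) x y +
        β * totL blk (fun i => (blk i).second) x y)
      (fun x y => γ * totL blk (fun i => (blk i).first) x y +
        δ * totL blk (fun i => (blk i).second) x y)
      (fun i => (blk i).mob α β γ δ) := by
  have := tot_change blk α β γ δ hβ hγ hdet hb
  refine this.pull (LinearEquiv.refl ℂ _) ?_ ?_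
  · intro v w
    exact (tot_comb blk α β _ _ v w).symm
  · intro v w
    exact (tot_comb blk γ δ _ _ v w).symm

end

lemma mat_one_mul (M : ℕ → ℕ → ℂ) (p q : ℕ) :
    (1 : Matrix (Fin p) (Fin p) ℂ) * mat M p q =
      mat M p q * (1 : Matrix (Fin q) (Fin q) ℂ) := by
  rw [Matrix.one_mul, Matrix.mul_one]

/-- The model space of one block has the normal form with this block. -/
lemma single_block (b : Block) :
    HasBlocks (fun x y : b.Sp => frm b.first x y) (fun x y : b.Sp => frm b.second x y)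
      (fun _ : Unit => b) := by
  obtain ⟨c, hc⟩ := local_basis (p := b.rows) (q := b.cols) b.first b.second b.first b.second 1 1
    (by simp) (by simp) (mat_one_mul _ _ _) (mat_one_mul _ _ _)
  let e : b.Ix ≃ (Σ _ : Unit, b.Ix) :=
    { toFun := fun s => ⟨(), s⟩
      invFun := fun x => x.2
      left_inv := fun _ => rfl
      right_inv := fun _ => rfl }
  refine ⟨c.reindex e, ?_, ?_⟩
  · intro i s t
    rw [Module.Basis.reindex_apply, Module.Basis.reindex_apply]
    exact hc s t
  · intro i j s t hij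
    exact absurd (Subsingleton.elim i j) hij

/-- The abelian part: Kronecker blocks of size one. -/
lemma trivial_blocks (S : Type) [Fintype S] [DecidableEq S] :
    HasBlocks (fun _ _ : S → ℂ => (0 : ℂ)) (fun _ _ : S → ℂ => (0 : ℂ))
      (fun _ : S => Block.kronecker 0) := by
  let u : Unique (Block.kronecker 0).Ix :=
    { default := Sum.inr (0 : Fin 1)
      uniq := by
        rintro (i | i)
        · exact (i : Fin 0).elim0
        · exact congrArg Sum.inr (@Subsingleton.elim (Fin 1) _ i 0) }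
  let e : (Σ _ : S, (Block.kronecker 0).Ix) ≃ S :=
    @Equiv.sigmaUnique S (fun _ => (Block.kronecker 0).Ix) (fun _ => u)
  have hs : ∀ (M : ℕ → ℕ → ℂ) (s t : (Block.kronecker 0).Ix), skew M s t = 0 := by
    intro M s t
    rcases s with s | s
    · exact (s : Fin 0).elim0
    · rcases t with t | t
      · exact (t : Fin 0).elim0
      · rfl
  refine ⟨(Pi.basisFun ℂ S).reindex e.symm, ?_, ?_⟩
  · intro i s t
    exact ⟨(hs _ s t).symm, (hs _ s t).symm⟩
  · intro i j s t _
    exact ⟨rfl, rfl⟩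

section Generic

open MvPolynomial

/-- The polynomial of the generic condition. -/
noncomputable def gp {J ι : Type} [Fintype ι] (z w : J) (μ : ι → ℂ) : MvPolynomial (J ⊕ J) ℂ :=
  X (Sum.inl w) * X (Sum.inr z) *
    (X (Sum.inl z) * X (Sum.inr w) - X (Sum.inl w) * X (Sum.inr z)) *
    ∏ j, (X (Sum.inr w) - X (Sum.inr z) * C (μ j))

lemma gp_ne_zero {J ι : Type} [Fintype ι] [DecidableEq J] {z w : J} (h : z ≠ w) (μ : ι → ℂ) :
    gp z w μ ≠ 0 := by
  unfold gp
  refine mul_ne_zero (mul_ne_zero (mul_ne_zero (X_ne_zero _) (X_ne_zero _)) ?_) ?_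
  · intro h0
    have := congrArg (eval (fun t : J ⊕ J => if t = Sum.inl z ∨ t = Sum.inr w then (1 : ℂ) else 0)) h0
    simp [h, h.symm] at this
  · rw [Finset.prod_ne_zero_iff]
    intro j _ h0
    have := congrArg (eval (fun t : J ⊕ J => if t = Sum.inr w then (1 : ℂ) else 0)) h0
    simp [h] at this

lemma gp_eval {J ι : Type} [Fintype ι] {z w : J} {μ : ι → ℂ} {x a : J → ℂ}
    (h : eval (Sum.elim x a) (gp z w μ) ≠ 0) :
    x w ≠ 0 ∧ a z ≠ 0 ∧ x z * a w - x w * a z ≠ 0 ∧ ∀ j, a w - a z * μ j ≠ 0 := by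
  unfold gp at h
  rw [map_mul, map_mul, map_mul, map_sub, map_mul, map_mul, map_prod] at h
  simp only [eval_X, Sum.elim_inl, Sum.elim_inr, map_sub, map_mul, eval_C] at h
  have h1 := (mul_ne_zero_iff.mp h)
  have h2 := (mul_ne_zero_iff.mp h1.1)
  have h3 := (mul_ne_zero_iff.mp h2.1)
  exact ⟨h3.1, h3.2, h2.2, fun j => Finset.prod_ne_zero_iff.mp h1.2 j (Finset.mem_univ j)⟩

end Generic

end Pool.Agent.Helper55K1.JK
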