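import Pool.Agent.Helper55K1.JKModel

/-!
The two-step nilpotent Lie algebra `U ⊕ Z` of an alternating bilinear map `U × U → Z`.
-/

namespace Pool.Agent.Helper55K1.JK

open Matrix

/-- An alternating bilinear map. -/
structure Alt (U Z : Type) [AddCommGroup U] [Module ℂ U] [AddCommGroup Z] [Module ℂ Z] where
  f : U →ₗ[ℂ] U →ₗ[ℂ] Z
  alt : ∀ u, f u u = 0

section

variable {U Z : Type} [AddCommGroup U] [Module ℂ U] [AddCommGroup Z] [Module ℂ Z]

lemma Alt.swap (F : Alt U Z) (u v : U) : F.f u v = - F.f v u := by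
  have h := F.alt (u + v)
  rw [map_add, map_add, LinearMap.add_apply, LinearMap.add_apply, F.alt, F.alt, zero_add,
    add_zero] at h
  exact eq_neg_of_add_eq_zero_right h

/-- The space `U ⊕ Z`. -/
def Nil (_F : Alt U Z) : Type := U × Z

instance (F : Alt U Z) : AddCommGroup (Nil F) := inferInstanceAs (AddCommGroup (U × Z))

instance (F : Alt U Z) : Module ℂ (Nil F) := inferInstanceAs (Module ℂ (U × Z))

/-- The bracket. -/
def nilBr (F : Alt U Z) (x y : U × Z) : U × Z := (0, F.f x.1 y.1)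

lemma nilBr_add_left (F : Alt U Z) (x y z : U × Z) :
    nilBr F (x + y) z = nilBr F x z + nilBr F y z := by simp [nilBr]

lemma nilBr_add_right (F : Alt U Z) (x y z : U × Z) :
    nilBr F x (y + z) = nilBr F x y + nilBr F x z := by simp [nilBr]

lemma nilBr_self (F : Alt U Z) (x : U × Z) : nilBr F x x = 0 := by
  simp [nilBr, F.alt]

lemma nilBr_jacobi (F : Alt U Z) (x y z : U × Z) :
    nilBr F x (nilBr F y z) = nilBr F (nilBr F x y) z + nilBr F y (nilBr F x z) := by
  simp [nilBr]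

lemma nilBr_smul (F : Alt U Z) (r : ℂ) (x y : U × Z) :
    nilBr F x (r • y) = r • nilBr F x y := by simp [nilBr]

instance (F : Alt U Z) : LieRing (Nil F) where
  bracket x y := nilBr F x y
  add_lie := nilBr_add_left F
  lie_add := nilBr_add_right F
  lie_self := nilBr_self F
  leibniz_lie := nilBr_jacobi F

instance (F : Alt U Z) : LieAlgebra ℂ (Nil F) where
  lie_smul := nilBr_smul F

lemma Nil.lie_def (F : Alt U Z) (x y : Nil F) : ⁅x, y⁆ = ((0, F.f x.1 y.1) : U × Z) := rfl

end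

/-- The algebraic types containing two Kronecker blocks of size one are realised. -/
theorem two_trivial {m n : ℕ} (k : Fin m → ℕ) (d c : Fin n → ℕ)
    (h : ∃ i j, i ≠ j ∧ k i = 0 ∧ k j = 0) : Realised k d c := by
  classical
  obtain ⟨i0, j0, hij, hi0, hj0⟩ := h
  -- the blocks other than the trivial ones
  let blk : ({i : Fin m // ¬ k i = 0} ⊕ Fin n) → Block :=
    Sum.elim (fun i => Block.kronecker (k i)) fun j => Block.jordan (d j) (c j : ℂ)
  let S : Type := {i : Fin m // k i = 0}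
  let U : Type := ∀ i, (blk i).Sp
  let A0 : U →ₗ[ℂ] U →ₗ[ℂ] ℂ := totL blk fun i => (blk i).first
  let B0 : U →ₗ[ℂ] U →ₗ[ℂ] ℂ := totL blk fun i => (blk i).second
  let s1 : S := ⟨i0, hi0⟩
  let s2 : S := ⟨j0, hj0⟩
  have hs : s1 ≠ s2 := fun e => hij (congrArg Subtype.val e)
  let F : Alt U (S → ℂ) :=
    { f := A0.compr₂ (LinearMap.single ℂ (fun _ : S => ℂ) s1) +
        B0.compr₂ (LinearMap.single ℂ (fun _ : S => ℂ) s2)
      alt := by
        intro u
        have e1 : A0 u u = 0 := totL_self blk _ u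
        have e2 : B0 u u = 0 := totL_self blk _ u
        simp [e1, e2] }
  have hF : ∀ u v, F.f u v = Pi.single s1 (A0 u v) + Pi.single s2 (B0 u v) := by
    intro u v
    rfl
  let bU := Module.finBasis ℂ U
  let b : Module.Basis (Fin (Module.finrank ℂ U) ⊕ S) ℂ (Nil F) := bU.prod (Pi.basisFun ℂ S)
  refine ⟨Nil F, inferInstance, inferInstance, Fin (Module.finrank ℂ U) ⊕ S, inferInstance, b,
    gp (Sum.inr s1) (Sum.inr s2) (fun j : Fin n => (c j : ℂ)),
    gp_ne_zero (fun e => hs (Sum.inr.inj e)) _, ?_⟩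
  intro x a hxa
  obtain ⟨hβ, hγ, hdet, hj⟩ := gp_eval hxa
  set α := x (b (Sum.inr s1)) with hα'
  set β := x (b (Sum.inr s2)) with hβ'
  set γ := a (b (Sum.inr s1)) with hγ'
  set δ := a (b (Sum.inr s2)) with hδ'
  have hb1 : ∀ s : S, b (Sum.inr s) = ((0, Pi.single s 1) : U × (S → ℂ)) := by
    intro s
    show (bU.prod (Pi.basisFun ℂ S)) (Sum.inr s) = _
    simp
  have hval : ∀ (y : Module.Dual ℂ (Nil F)) (u v : Nil F),
      y ⁅u, v⁆ = y (b (Sum.inr s1)) * A0 u.1 v.1 + y (b (Sum.inr s2)) * B0 u.1 v.1 := by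
    intro y u v
    have e : (⁅u, v⁆ : Nil F) = A0 u.1 v.1 • b (Sum.inr s1) + B0 u.1 v.1 • b (Sum.inr s2) := by
      rw [hb1, hb1, Nil.lie_def, hF]
      have h1 : ∀ (s : S) (r : ℂ), (r • ((0, Pi.single s 1) : U × (S → ℂ)) : U × (S → ℂ)) =
          (0, Pi.single s r) := by
        intro s r
        rw [Prod.smul_mk, smul_zero, ← Pi.single_smul, smul_eq_mul, mul_one]
      show _ = A0 u.1 v.1 • ((0, Pi.single s1 1) : U × (S → ℂ)) +
        B0 u.1 v.1 • ((0, Pi.single s2 1) : U × (S → ℂ))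
      rw [h1, h1, Prod.mk_add_mk, add_zero]
    rw [e, map_add, map_smul, map_smul, smul_eq_mul, smul_eq_mul]
    ring
  have hok : ∀ i, (blk i).ok γ δ := by
    rintro (i | j)
    · trivial
    · exact hj j
  have h1 := totL_change blk α β γ δ hβ hγ hdet hok
  have h2 := h1.sum (trivial_blocks S) (A'' := fun u v => α * A0 u.1 v.1 + β * B0 u.1 v.1)
    (B'' := fun u v => γ * A0 u.1 v.1 + δ * B0 u.1 v.1)
    (by intro v; simp) (by intro v; simp)
    (by intro v w; rw [add_zero]) (by intro v w; rw [add_zero])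
  have h3 : HasBlocks (fun ξ η : Nil F => x ⁅ξ, η⁆) (fun ξ η : Nil F => a ⁅ξ, η⁆)
      (Sum.elim (fun i => (blk i).mob α β γ δ) fun _ : S => Block.kronecker 0) := by
    refine h2.pull (LinearEquiv.refl ℂ (U × (S → ℂ))) ?_ ?_
    · intro v w
      exact hval x v w
    · intro v w
      exact hval a v w
  refine ⟨fun j => (α * (c j : ℂ) - β) / (δ - γ * (c j : ℂ)), ?_, ?_⟩
  · intro i j
    have hi := hj i
    have hj' := hj j
    constructor
    · intro e
      rw [div_eq_div_iff hi hj'] at e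
      have e2 : (α * δ - β * γ) * ((c i : ℂ) - (c j : ℂ)) = 0 := by linear_combination e
      rcases mul_eq_zero.mp e2 with e3 | e3
      · exact absurd e3 hdet
      · exact_mod_cast sub_eq_zero.mp e3
    · intro e
      simp only
      rw [e]
  · -- reindexing
    let σ : Fin m ⊕ Fin n ≃ ({i : Fin m // ¬ k i = 0} ⊕ Fin n) ⊕ S :=
      ((Equiv.sumCongr ((Equiv.sumComm _ _).trans (Equiv.sumCompl fun i : Fin m => k i = 0))
        (Equiv.refl (Fin n))).symm.trans
        ((Equiv.sumAssoc _ _ _).trans ((Equiv.sumCongr (Equiv.refl _) (Equiv.sumComm _ _)).trans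
          (Equiv.sumAssoc _ _ _).symm)))
    refine h3.reindex σ _ ?_
    intro j
    obtain ⟨i, rfl⟩ := σ.symm.surjective j
    rw [Equiv.apply_symm_apply]
    rcases i with (i | i) | i
    · simp [σ, blk, Block.mob]
    · simp [σ, blk, Block.mob]
    · have hi : k (i : Fin m) = 0 := i.2
      simp [σ, hi]

end Pool.Agent.Helper55K1.JK
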