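import Pool.Agent.Helper55K1.JKLin

/-!
Normal forms of pairs of skew forms: pull-back, reindexing, direct sums, and the effect of a linear
change of the pair.
-/

namespace Pool.Agent.Helper55K1.JK

open Matrix Polynomial

section General

variable {V W : Type*} [AddCommGroup V] [Module ℂ V] [AddCommGroup W] [Module ℂ W]
variable {I J : Type*}

lemma HasBlocks.pull {A B : W → W → ℂ} {blk : I → Block} (h : HasBlocks A B blk) (φ : V ≃ₗ[ℂ] W)
    {A' B' : V → V → ℂ} (hA : ∀ v w, A' v w = A (φ v) (φ w)) (hB : ∀ v w, B' v w = B (φ v) (φ w)) :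
    HasBlocks A' B' blk := by
  obtain ⟨b, h1, h2⟩ := h
  refine ⟨b.map φ.symm, ?_, ?_⟩
  · intro i s t
    rw [hA, hB]
    simpa using h1 i s t
  · intro i j s t hij
    rw [hA, hB]
    simpa using h2 i j s t hij

lemma HasBlocks.reindex {A B : V → V → ℂ} {blk : I → Block} (h : HasBlocks A B blk) (σ : J ≃ I)
    (blk' : J → Block) (hblk : ∀ j, blk' j = blk (σ j)) :
    HasBlocks A B blk' := by
  obtain rfl : blk' = blk ∘ σ := funext hblk
  obtain ⟨b, h1, h2⟩ := h
  let e : (Σ j, (blk (σ j)).Ix) ≃ Σ i, (blk i).Ix :=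
    Equiv.sigmaCongrLeft (β := fun i => (blk i).Ix) σ
  refine ⟨b.reindex e.symm, ?_, ?_⟩
  · intro i s t
    simpa [e] using h1 (σ i) s t
  · intro i j s t hij
    simpa [e] using h2 (σ i) (σ j) s t (fun h => hij (σ.injective h))

lemma HasBlocks.sum {A B : V → V → ℂ} {blk : I → Block} (h : HasBlocks A B blk)
    {A' B' : W → W → ℂ} {blk' : J → Block} (h' : HasBlocks A' B' blk')
    {A'' B'' : V × W → V × W → ℂ}
    (hA0 : ∀ v, A v 0 = 0 ∧ A 0 v = 0 ∧ B v 0 = 0 ∧ B 0 v = 0)
    (hA0' : ∀ v, A' v 0 = 0 ∧ A' 0 v = 0 ∧ B' v 0 = 0 ∧ B' 0 v = 0)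
    (hA : ∀ v w, A'' v w = A v.1 w.1 + A' v.2 w.2)
    (hB : ∀ v w, B'' v w = B v.1 w.1 + B' v.2 w.2) :
    HasBlocks A'' B'' (Sum.elim blk blk') := by
  obtain ⟨b, h1, h2⟩ := h
  obtain ⟨b', h1', h2'⟩ := h'
  let e : (Σ i : I ⊕ J, (Sum.elim blk blk' i).Ix) ≃ (Σ i, (blk i).Ix) ⊕ (Σ j, (blk' j).Ix) :=
    Equiv.sumSigmaDistrib (fun i : I ⊕ J => (Sum.elim blk blk' i).Ix)
  refine ⟨(b.prod b').reindex e.symm, ?_, ?_⟩
  · rintro (i | i) s t
    · have e1 : ((b.prod b').reindex e.symm) ⟨Sum.inl i, s⟩ = (b ⟨i, s⟩, 0) := by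
        rw [Module.Basis.reindex_apply]
        simp [e, Equiv.sumSigmaDistrib]
      have e2 : ((b.prod b').reindex e.symm) ⟨Sum.inl i, t⟩ = (b ⟨i, t⟩, 0) := by
        rw [Module.Basis.reindex_apply]
        simp [e, Equiv.sumSigmaDistrib]
      rw [e1, e2, hA, hB]
      simp only [(hA0' 0).1, (hA0' 0).2.2.1, add_zero]
      exact h1 i s t
    · have e1 : ((b.prod b').reindex e.symm) ⟨Sum.inr i, s⟩ = (0, b' ⟨i, s⟩) := by
        rw [Module.Basis.reindex_apply]
        simp [e, Equiv.sumSigmaDistrib]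
      have e2 : ((b.prod b').reindex e.symm) ⟨Sum.inr i, t⟩ = (0, b' ⟨i, t⟩) := by
        rw [Module.Basis.reindex_apply]
        simp [e, Equiv.sumSigmaDistrib]
      rw [e1, e2, hA, hB]
      simp only [(hA0 0).1, (hA0 0).2.2.1, zero_add]
      exact h1' i s t
  · have el : ∀ i (s : (blk i).Ix), ((b.prod b').reindex e.symm) ⟨Sum.inl i, s⟩ = (b ⟨i, s⟩, 0) := by
      intro i s
      rw [Module.Basis.reindex_apply]
      simp [e, Equiv.sumSigmaDistrib]
    have er : ∀ i (s : (blk' i).Ix),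
        ((b.prod b').reindex e.symm) ⟨Sum.inr i, s⟩ = (0, b' ⟨i, s⟩) := by
      intro i s
      rw [Module.Basis.reindex_apply]
      simp [e, Equiv.sumSigmaDistrib]
    rintro (i | i) (j | j) s t hij
    · rw [el i s, el j t, hA, hB]
      simp only [(hA0' 0).1, (hA0' 0).2.2.1, add_zero]
      exact h2 i j s t (fun h => hij (by rw [h]))
    · rw [el i s, er j t, hA, hB]
      simp only [(hA0 _).1, (hA0 _).2.2.1, (hA0' _).2.1, (hA0' _).2.2.2, add_zero, and_self]
    · rw [er i s, el j t, hA, hB]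
      simp only [(hA0 _).2.1, (hA0 _).2.2.2, (hA0' _).1, (hA0' _).2.2.1, add_zero, and_self]
    · rw [er i s, er j t, hA, hB]
      simp only [(hA0 0).1, (hA0 0).2.2.1, zero_add]
      exact h2' i j s t (fun h => hij (by rw [h]))

end General

/-- The pairing given by an array. -/
def pr (M : ℕ → ℕ → ℂ) {p q : ℕ} (u : Fin p → ℂ) (v : Fin q → ℂ) : ℂ :=
  u ⬝ᵥ (mat M p q *ᵥ v)

/-- The skew form on the model space of a block. -/
def frm (M : ℕ → ℕ → ℂ) {p q : ℕ} (x y : (Fin p → ℂ) × (Fin q → ℂ)) : ℂ :=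
  pr M x.1 y.2 - pr M y.1 x.2

/-- A basis of the model space. -/
lemma local_basis {p q : ℕ} (M N Mn Nn : ℕ → ℕ → ℂ) (X : Matrix (Fin p) (Fin p) ℂ)
    (Y : Matrix (Fin q) (Fin q) ℂ) (hX : X.det ≠ 0) (hY : Y.det ≠ 0)
    (h1 : X * mat M p q = mat Mn p q * Y) (h2 : X * mat N p q = mat Nn p q * Y) :
    ∃ c : Module.Basis (Fin p ⊕ Fin q) ℂ ((Fin p → ℂ) × (Fin q → ℂ)), ∀ s t,
      frm M (c s) (c t) = skew Mn s t ∧ frm N (c s) (c t) = skew Nn s t := by
  have hXu : IsUnit X.det := isUnit_iff_ne_zero.mpr hX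
  have hYu : IsUnit Y.det := isUnit_iff_ne_zero.mpr hY
  have hXt1 : Xᵀ * (X⁻¹)ᵀ = 1 := by
    rw [← Matrix.transpose_mul, Matrix.nonsing_inv_mul _ hXu, Matrix.transpose_one]
  have hXt2 : (X⁻¹)ᵀ * Xᵀ = 1 := by
    rw [← Matrix.transpose_mul, Matrix.mul_nonsing_inv _ hXu, Matrix.transpose_one]
  let bx : Module.Basis (Fin p) ℂ (Fin p → ℂ) :=
    (Pi.basisFun ℂ (Fin p)).map (Matrix.toLin'OfInv hXt2 hXt1)
  let bY : Module.Basis (Fin q) ℂ (Fin q → ℂ) :=
    (Pi.basisFun ℂ (Fin q)).map (Matrix.toLin'OfInv (Matrix.mul_nonsing_inv _ hYu)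
      (Matrix.nonsing_inv_mul _ hYu))
  have hbx : ∀ i, bx i = fun t => X i t := by
    intro i
    funext t
    simp only [bx, Module.Basis.map_apply, Pi.basisFun_apply]
    rw [Matrix.toLin'OfInv_apply, Matrix.toLin'_apply, Matrix.mulVec_single_one]
    rfl
  have hbY : ∀ j, bY j = fun t => Y⁻¹ t j := by
    intro j
    funext t
    simp only [bY, Module.Basis.map_apply, Pi.basisFun_apply]
    rw [Matrix.toLin'OfInv_apply, Matrix.toLin'_apply, Matrix.mulVec_single_one]
    rfl
  have key : ∀ (M Mn : ℕ → ℕ → ℂ), X * mat M p q = mat Mn p q * Y → ∀ i j,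
      pr M (bx i) (bY j) = Mn i j := by
    intro M Mn h i j
    have e : pr M (bx i) (bY j) = (X * mat M p q * Y⁻¹) i j := by
      rw [hbx, hbY, pr, Matrix.mul_assoc, Matrix.mul_apply]
      rfl
    rw [e, h, Matrix.mul_assoc, Matrix.mul_nonsing_inv _ hYu, Matrix.mul_one]
    rfl
  have hp0 : ∀ (M : ℕ → ℕ → ℂ) (u : Fin p → ℂ), pr M u (0 : Fin q → ℂ) = 0 := by
    intro M u
    simp [pr]
  have h0p : ∀ (M : ℕ → ℕ → ℂ) (v : Fin q → ℂ), pr M (0 : Fin p → ℂ) v = 0 := by
    intro M v
    simp [pr]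
  refine ⟨bx.prod bY, ?_⟩
  rintro (s | s) (t | t)
  · simp [frm, skew, hp0]
  · simp [frm, skew, key M Mn h1, key N Nn h2, h0p]
  · simp [frm, skew, key M Mn h1, key N Nn h2, h0p]
  · simp [frm, skew, h0p]

/-- The block after a linear change of the pair. -/
noncomputable def Block.mob (α β γ δ : ℂ) : Block → Block
  | .kronecker k => .kronecker k
  | .jordan k μ => .jordan k ((α * μ - β) / (δ - γ * μ))

/-- The condition on a block. -/
def Block.ok (γ δ : ℂ) : Block → Prop
  | .kronecker _ => True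
  | .jordan _ μ => δ - γ * μ ≠ 0

/-- The model space of a block. -/
abbrev Block.Sp (b : Block) : Type := (Fin b.rows → ℂ) × (Fin b.cols → ℂ)

lemma first_kron (k : ℕ) : (Block.kronecker k).first = lin 1 0 := by
  funext i j
  simp [Block.first, lin]

lemma second_kron (k : ℕ) : (Block.kronecker k).second = lin 0 (-1) := by
  funext i j
  simp [Block.second, lin]

lemma first_jordan (k : ℕ) (μ : ℂ) : (Block.jordan k μ).first = lin μ 1 := by
  funext i j
  simp only [Block.first, lin]
  by_cases h : j = i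
  · rw [if_pos h, if_pos h, if_neg (by omega), add_zero]
  · rw [if_neg h, if_neg h, zero_add]

lemma second_jordan (k : ℕ) (μ : ℂ) : (Block.jordan k μ).second = lin (-1) 0 := by
  funext i j
  simp [Block.second, lin]

lemma comb_lin (α β a b a' b' : ℂ) :
    (fun i j => α * lin a b i j + β * lin a' b' i j) = lin (α * a + β * a') (α * b + β * b') := by
  funext i j
  simp only [lin]
  split_ifs <;> ring

lemma mat_lin_add (a b a' b' : ℂ) (p q : ℕ) :
    mat (lin (a + a') (b + b')) p q = mat (lin a b) p q + mat (lin a' b') p q := by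
  ext i j
  simp only [mat, Matrix.of_apply, Matrix.add_apply, lin]
  split_ifs <;> ring

lemma mat_lin_smul (c a b : ℂ) (p q : ℕ) :
    mat (lin (c * a) (c * b)) p q = c • mat (lin a b) p q := by
  ext i j
  simp only [mat, Matrix.of_apply, Matrix.smul_apply, lin, smul_eq_mul]
  split_ifs <;> ring

lemma mat_lin_one (k : ℕ) : mat (lin 1 0) k k = 1 := by
  ext i j
  simp only [mat, Matrix.of_apply, lin, Matrix.one_apply]
  by_cases h : i = j
  · subst h; simp
  · have h' : ¬ ((j : ℕ) = i) := fun e => h (Fin.ext e.symm)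
    simp [h, h']

/-- The normal form of a block after a linear change of the pair. -/
lemma block_change (α β γ δ : ℂ) (hβ : β ≠ 0) (hγ : γ ≠ 0) (hdet : α * δ - β * γ ≠ 0) (b : Block)
    (hb : b.ok γ δ) :
    ∃ c : Module.Basis (b.mob α β γ δ).Ix ℂ b.Sp, ∀ s t,
      frm (fun i j => α * b.first i j + β * b.second i j) (c s) (c t) =
        skew (b.mob α β γ δ).first s t ∧
      frm (fun i j => γ * b.first i j + δ * b.second i j) (c s) (c t) =
        skew (b.mob α β γ δ).second s t := by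
  cases b with
  | kronecker k =>
    have e1 : (fun i j => α * (Block.kronecker k).first i j + β * (Block.kronecker k).second i j)
        = lin α (-β) := by
      rw [first_kron, second_kron, comb_lin]
      congr 1 <;> ring
    have e2 : (fun i j => γ * (Block.kronecker k).first i j + δ * (Block.kronecker k).second i j)
        = lin γ (-δ) := by
      rw [first_kron, second_kron, comb_lin]
      congr 1 <;> ring
    rw [e1, e2]
    have hd : α * δ - (-β) * (-γ) ≠ 0 := by
      intro h; apply hdet; rw [← h]; ring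
    obtain ⟨h1, h2⟩ := kron_change α (-β) (-γ) δ k
    have := local_basis (p := k) (q := k + 1) (lin α (-β)) (lin γ (-δ)) (lin 1 0) (lin 0 (-1))
      (G α (-β) (-γ) δ k) (G α (-β) (-γ) δ (k + 1))
      (G_det _ _ _ _ (neg_ne_zero.mpr hβ) hd _) (G_det _ _ _ _ (neg_ne_zero.mpr hβ) hd _) h1
      (by
        have e3 : mat (lin γ (-δ)) k (k + 1) = (-1 : ℂ) • mat (lin (-γ) δ) k (k + 1) := by
          rw [← mat_lin_smul]; congr 2 <;> ring
        have e4 : mat (lin 0 (-1)) k (k + 1) = (-1 : ℂ) • mat (lin 0 1) k (k + 1) := by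
          rw [← mat_lin_smul]; congr 2 <;> ring
        rw [e3, e4, Matrix.mul_smul, h2, Matrix.smul_mul])
    have f1 : (Block.mob α β γ δ (Block.kronecker k)).first = lin 1 0 := first_kron k
    have f2 : (Block.mob α β γ δ (Block.kronecker k)).second = lin 0 (-1) := second_kron k
    rw [f1, f2]
    exact this
  | jordan k μ =>
    have hℓ : δ - γ * μ ≠ 0 := hb
    set μ' : ℂ := (α * μ - β) / (δ - γ * μ) with hμ'
    set c : ℂ := α + μ' * γ with hc
    have hm : μ' * (δ - γ * μ) = α * μ - β := div_mul_cancel₀ _ hℓ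
    have hc0 : c ≠ 0 := by
      intro h0
      apply hdet
      have : c * (δ - γ * μ) = α * δ - β * γ := by
        rw [hc]
        linear_combination γ * hm
      rw [← this, h0, zero_mul]
    have e1 : (fun i j => α * (Block.jordan k μ).first i j + β * (Block.jordan k μ).second i j)
        = lin (α * μ - β) α := by
      rw [first_jordan, second_jordan, comb_lin]
      congr 1 <;> ring
    have e2 : (fun i j => γ * (Block.jordan k μ).first i j + δ * (Block.jordan k μ).second i j)
        = lin (γ * μ - δ) γ := by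
      rw [first_jordan, second_jordan, comb_lin]
      congr 1 <;> ring
    rw [e1, e2]
    have hG : (G (δ - γ * μ) (-γ) 0 c k).det ≠ 0 :=
      G_det _ _ _ _ (neg_ne_zero.mpr hγ) (by rw [mul_zero, sub_zero]; exact mul_ne_zero hℓ hc0) _
    have hY : (G (δ - γ * μ) (-γ) 0 c k * mat (lin (δ - γ * μ) (-γ)) k k).det ≠ 0 := by
      rw [Matrix.det_mul, lin_det]
      exact mul_ne_zero hG (pow_ne_zero _ hℓ)
    have hj := jordan_change (δ - γ * μ) (-γ) c k
    have h2 : G (δ - γ * μ) (-γ) 0 c k * mat (lin (γ * μ - δ) γ) k k =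
        mat (lin (-1) 0) k k * (G (δ - γ * μ) (-γ) 0 c k * mat (lin (δ - γ * μ) (-γ)) k k) := by
      have e3 : mat (lin (γ * μ - δ) γ) k k = (-1 : ℂ) • mat (lin (δ - γ * μ) (-γ)) k k := by
        rw [← mat_lin_smul]; congr 2 <;> ring
      have e4 : mat (lin (-1) 0) k k = (-1 : ℂ) • (1 : Matrix (Fin k) (Fin k) ℂ) := by
        rw [← mat_lin_one, ← mat_lin_smul]; congr 2 <;> ring
      rw [e3, e4, Matrix.mul_smul, Matrix.smul_mul, Matrix.one_mul]
    have h1 : G (δ - γ * μ) (-γ) 0 c k * mat (lin (α * μ - β) α) k k =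
        mat (lin μ' 1) k k * (G (δ - γ * μ) (-γ) 0 c k * mat (lin (δ - γ * μ) (-γ)) k k) := by
      have e3 : mat (lin (α * μ - β) α) k k =
          mat (lin 0 c) k k + μ' • mat (lin (δ - γ * μ) (-γ)) k k := by
        rw [← mat_lin_smul, ← mat_lin_add]
        congr 2
        · rw [hm]; ring
        · rw [hc]; ring
      have e4 : mat (lin μ' 1) k k = μ' • (1 : Matrix (Fin k) (Fin k) ℂ) + mat (lin 0 1) k k := by
        rw [← mat_lin_one, ← mat_lin_smul, ← mat_lin_add]; congr 2 <;> ring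
      rw [e3, e4, Matrix.mul_add, hj, Matrix.add_mul, Matrix.mul_smul, Matrix.smul_mul,
        Matrix.one_mul, add_comm]
    have := local_basis (p := k) (q := k) (lin (α * μ - β) α) (lin (γ * μ - δ) γ) (lin μ' 1)
      (lin (-1) 0) _ _ hG hY h1 h2
    have f1 : (Block.mob α β γ δ (Block.jordan k μ)).first = lin μ' 1 := first_jordan k μ'
    have f2 : (Block.mob α β γ δ (Block.jordan k μ)).second = lin (-1) 0 := second_jordan k μ'
    rw [f1, f2]
    exact this

/-- The form on the direct sum of the model spaces. -/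
def tot {I : Type*} [Fintype I] (blk : I → Block) (M : I → ℕ → ℕ → ℂ)
    (x y : ∀ i, (blk i).Sp) : ℂ := ∑ i, frm (M i) (x i) (y i)

lemma frm_zero_left (M : ℕ → ℕ → ℂ) {p q : ℕ} (y : (Fin p → ℂ) × (Fin q → ℂ)) :
    frm M 0 y = 0 := by simp [frm, pr]

lemma frm_zero_right (M : ℕ → ℕ → ℂ) {p q : ℕ} (y : (Fin p → ℂ) × (Fin q → ℂ)) :
    frm M y 0 = 0 := by simp [frm, pr]

/-- The normal form of a linear change of the model pair. -/
lemma tot_change {I : Type*} [Fintype I] [DecidableEq I] (blk : I → Block) (α β γ δ : ℂ)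
    (hβ : β ≠ 0) (hγ : γ ≠ 0) (hdet : α * δ - β * γ ≠ 0) (hb : ∀ i, (blk i).ok γ δ) :
    HasBlocks
      (tot blk fun i s t => α * (blk i).first s t + β * (blk i).second s t)
      (tot blk fun i s t => γ * (blk i).first s t + δ * (blk i).second s t)
      (fun i => (blk i).mob α β γ δ) := by
  choose c hc using fun i => block_change α β γ δ hβ hγ hdet (blk i) (hb i)
  refine ⟨Pi.basis c, ?_, ?_⟩
  · intro i s t
    rw [Pi.basis_apply, Pi.basis_apply]
    unfold tot
    constructor
    · rw [Finset.sum_eq_single i]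
      · simp only [Pi.single_eq_same]
        exact (hc i s t).1
      · intro j _ hj
        simp only
        rw [Pi.single_eq_of_ne hj]
        exact frm_zero_left _ _
      · intro h; exact absurd (Finset.mem_univ i) h
    · rw [Finset.sum_eq_single i]
      · simp only [Pi.single_eq_same]
        exact (hc i s t).2
      · intro j _ hj
        simp only
        rw [Pi.single_eq_of_ne hj]
        exact frm_zero_left _ _
      · intro h; exact absurd (Finset.mem_univ i) h
  · intro i j s t hij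
    rw [Pi.basis_apply, Pi.basis_apply]
    unfold tot
    constructor
    · apply Finset.sum_eq_zero
      intro l _
      by_cases hl : l = i
      · subst hl
        simp only
        rw [Pi.single_eq_of_ne hij]
        exact frm_zero_right _ _
      · simp only
        rw [Pi.single_eq_of_ne hl]
        exact frm_zero_left _ _
    · apply Finset.sum_eq_zero
      intro l _
      by_cases hl : l = i
      · subst hl
        simp only
        rw [Pi.single_eq_of_ne hij]
        exact frm_zero_right _ _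
      · simp only
        rw [Pi.single_eq_of_ne hl]
        exact frm_zero_left _ _

end Pool.Agent.Helper55K1.JK
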