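import Pool.Agent.Helper55K1.JKChain

/-!
Chain spaces: identities, and the normal form of a perturbed pair of forms.
-/

namespace Pool.Agent.Helper55K1.JK

section Adj

variable {V : Type} [AddCommGroup V] [Module ℂ V] (I : V →ₗ[ℂ] V →ₗ[ℂ] ℂ) (f : V →ₗ[ℂ] V)

lemma adj_pow (h : ∀ u v, I (f u) v = I u (f v)) (k : ℕ) (u v : V) :
    I ((f ^ k) u) v = I u ((f ^ k) v) := by
  induction k generalizing u v with
  | zero => rfl
  | succ k ih =>
    rw [pow_succ', Module.End.mul_apply, h, ih, ← Module.End.mul_apply, ← pow_succ, pow_succ']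

lemma adj_self (h : ∀ u v, I (f u) v = I u (f v)) (sk : ∀ u v, I u v = - I v u) (k : ℕ) (u : V) :
    I ((f ^ k) u) u = 0 := by
  have h1 := adj_pow I f h k u u
  have h2 := sk u ((f ^ k) u)
  have : (2 : ℂ) * I ((f ^ k) u) u = 0 := by linear_combination h1 + h2
  exact (mul_eq_zero.mp this).resolve_left two_ne_zero

lemma adj_two (h : ∀ u v, I (f u) v = I u (f v)) (k l : ℕ) (u v : V) :
    I ((f ^ k) u) ((f ^ l) v) = I ((f ^ (k + l)) u) v := by
  rw [← adj_pow I f h l, ← Module.End.mul_apply, ← pow_add, add_comm l k]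

end Adj

namespace Ch

variable {V : Type} [AddCommGroup V] [Module ℂ V] {ι : Type} {d : ι → ℕ} (C : Ch V d)

include C in
lemma ext1 {W : Type} [AddCommGroup W] [Module ℂ W] {A B : V →ₗ[ℂ] W}
    (hE : ∀ j s, A (C.E j s) = B (C.E j s)) (hG : ∀ j s, A (C.G j s) = B (C.G j s)) (v : V) :
    A v = B v := by
  have : v ∈ LinearMap.eqLocus A B := C.ind _ (fun j s _ => hE j s) (fun j s _ => hG j s) v
  exact this

/-- The skew form `u, v ↦ I (H u) v + I u (H v)` is `B`. -/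
lemma der {H : V →ₗ[ℂ] V} {B : V →ₗ[ℂ] V →ₗ[ℂ] ℂ} (hB : ∀ u v, B u v = - B v u)
    (hEE : ∀ i j s t, C.I (H (C.E i s)) (C.E j t) + C.I (C.E i s) (H (C.E j t)) =
      B (C.E i s) (C.E j t))
    (hEG : ∀ i j s t, C.I (H (C.E i s)) (C.G j t) + C.I (C.E i s) (H (C.G j t)) =
      B (C.E i s) (C.G j t))
    (hGG : ∀ i j s t, C.I (H (C.G i s)) (C.G j t) + C.I (C.G i s) (H (C.G j t)) =
      B (C.G i s) (C.G j t)) (u v : V) :
    C.I (H u) v + C.I u (H v) = B u v := by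
  have h1 : ∀ i s v, C.I (H (C.E i s)) v + C.I (C.E i s) (H v) = B (C.E i s) v := by
    intro i s v
    exact C.ext1 (A := C.I (H (C.E i s)) + (C.I (C.E i s)).comp H) (B := B (C.E i s))
      (fun j t => hEE i j s t) (fun j t => hEG i j s t) v
  have h2 : ∀ i s v, C.I (H (C.G i s)) v + C.I (C.G i s) (H v) = B (C.G i s) v := by
    intro i s v
    refine C.ext1 (A := C.I (H (C.G i s)) + (C.I (C.G i s)).comp H) (B := B (C.G i s))
      (fun j t => ?_) (fun j t => hGG i j s t) v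
    show C.I (H (C.G i s)) (C.E j t) + C.I (C.G i s) (H (C.E j t)) = B (C.G i s) (C.E j t)
    rw [C.sk (H (C.G i s)), C.sk (C.G i s), hB, ← hEG]
    ring
  exact C.ext1 (A := (C.I.comp H).flip v + (C.I.flip (H v))) (B := B.flip v)
    (fun j t => h1 j t v) (fun j t => h2 j t v) u

lemma n_adj (u v : V) : C.I (C.n u) v = C.I u (C.n v) := by
  have hEG : ∀ i j s t, C.I (C.n (C.E i s)) (C.G j t) = C.I (C.E i s) (C.n (C.G j t)) := by
    intro i j s t
    rw [C.n_E, C.n_G]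
    by_cases hij : i = j
    · subst hij
      rw [C.IEG, C.IEG, show s + 1 + t = s + (t + 1) by ring]
    · rw [C.IEGd _ _ _ _ hij, C.IEGd _ _ _ _ hij]
  have h1 : ∀ i s v, C.I (C.n (C.E i s)) v = C.I (C.E i s) (C.n v) := by
    intro i s v
    refine C.ext1 (A := C.I (C.n (C.E i s))) (B := (C.I (C.E i s)).comp C.n)
      (fun j t => ?_) (fun j t => hEG i j s t) v
    show C.I (C.n (C.E i s)) (C.E j t) = C.I (C.E i s) (C.n (C.E j t))
    rw [C.n_E, C.n_E, C.IEE, C.IEE]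
  have h2 : ∀ i s v, C.I (C.n (C.G i s)) v = C.I (C.G i s) (C.n v) := by
    intro i s v
    refine C.ext1 (A := C.I (C.n (C.G i s))) (B := (C.I (C.G i s)).comp C.n)
      (fun j t => ?_) (fun j t => ?_) v
    · show C.I (C.n (C.G i s)) (C.E j t) = C.I (C.G i s) (C.n (C.E j t))
      rw [C.sk, C.sk (C.G i s), hEG]
    · show C.I (C.n (C.G i s)) (C.G j t) = C.I (C.G i s) (C.n (C.G j t))
      rw [C.n_G, C.n_G, C.IGG, C.IGG]
  exact C.ext1 (A := (C.I.comp C.n).flip v) (B := C.I.flip (C.n v))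
    (fun j t => h1 j t v) (fun j t => h2 j t v) u

lemma n_skew (u v : V) : C.I (C.n u) v = - C.I (C.n v) u := by
  rw [n_adj, C.sk]

lemma H1_der (u v : V) : C.I (C.H1 u) v + C.I u (C.H1 v) = C.I u v := by
  refine C.der C.sk ?_ ?_ ?_ u v
  · intro i j s t
    rw [C.H1_E, C.H1_E, map_smul, LinearMap.smul_apply, map_smul, C.IEE, smul_zero, smul_zero,
      add_zero]
  · intro i j s t
    rw [C.H1_E, C.H1_G, map_smul, LinearMap.smul_apply, map_smul]
    by_cases hij : i = j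
    · subst hij
      rw [C.IEG]
      by_cases h : s + t + 1 = d i
      · rw [if_pos h, ← h]
        push_cast
        simp only [smul_eq_mul]
        ring
      · rw [if_neg h, smul_zero, smul_zero, add_zero]
    · rw [C.IEGd _ _ _ _ hij, smul_zero, smul_zero, add_zero]
  · intro i j s t
    rw [C.H1_G, C.H1_G, map_smul, LinearMap.smul_apply, map_smul, C.IGG, smul_zero, smul_zero,
      add_zero]

lemma H2_der (u v : V) : C.I (C.H2 u) v + C.I u (C.H2 v) = C.I (C.n u) v := by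
  refine C.der (B := C.I.comp C.n) C.n_skew ?_ ?_ ?_ u v
  · intro i j s t
    rw [C.H2_E, C.H2_E, map_smul, LinearMap.smul_apply, map_smul, LinearMap.comp_apply, C.n_E,
      C.IEE, C.IEE, smul_zero, smul_zero, add_zero]
  · intro i j s t
    rw [C.H2_E, C.H2_G, map_smul, LinearMap.smul_apply, map_smul, LinearMap.comp_apply, C.n_E]
    by_cases hij : i = j
    · subst hij
      rw [C.IEG, C.IEG, show s + (t + 1) + 1 = s + 1 + t + 1 by ring]
      by_cases h : s + 1 + t + 1 = d i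
      · rw [if_pos h, ← h]
        push_cast
        simp only [smul_eq_mul]
        ring
      · rw [if_neg h, smul_zero, smul_zero, add_zero]
    · rw [C.IEGd _ _ _ _ hij, C.IEGd _ _ _ _ hij, smul_zero, smul_zero, add_zero]
  · intro i j s t
    rw [C.H2_G, C.H2_G, map_smul, LinearMap.smul_apply, map_smul, LinearMap.comp_apply, C.n_G,
      C.IGG, C.IGG, smul_zero, smul_zero, add_zero]

lemma H1_n (v : V) : C.H1 (C.n v) = C.n (C.H1 v) + C.n v := by
  refine C.ext1 (A := C.H1.comp C.n) (B := C.n.comp C.H1 + C.n) (fun j s => ?_) (fun j s => ?_) v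
  · show C.H1 (C.n (C.E j s)) = C.n (C.H1 (C.E j s)) + C.n (C.E j s)
    rw [C.n_E, C.H1_E, C.H1_E, map_smul, C.n_E]
    push_cast
    module
  · show C.H1 (C.n (C.G j s)) = C.n (C.H1 (C.G j s)) + C.n (C.G j s)
    rw [C.n_G, C.H1_G, C.H1_G, map_smul, C.n_G]
    push_cast
    module

lemma H2_n (v : V) : C.H2 (C.n v) = C.n (C.H2 v) + C.n (C.n v) := by
  refine C.ext1 (A := C.H2.comp C.n) (B := C.n.comp C.H2 + C.n.comp C.n)
    (fun j s => ?_) (fun j s => ?_) v
  · show C.H2 (C.n (C.E j s)) = C.n (C.H2 (C.E j s)) + C.n (C.n (C.E j s))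
    rw [C.n_E, C.H2_E, C.H2_E, map_smul, C.n_E]
    push_cast
    module
  · show C.H2 (C.n (C.G j s)) = C.n (C.H2 (C.G j s)) + C.n (C.n (C.G j s))
    rw [C.n_G, C.H2_G, C.H2_G, map_smul, C.n_G]
    push_cast
    module

lemma pow_E (k s : ℕ) (i : ι) : (C.n ^ k) (C.E i s) = C.E i (s + k) := by
  induction k with
  | zero => rfl
  | succ k ih => rw [pow_succ', Module.End.mul_apply, ih, C.n_E]; rfl

lemma pow_G (k s : ℕ) (i : ι) : (C.n ^ k) (C.G i s) = C.G i (s + k) := by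
  induction k with
  | zero => rfl
  | succ k ih => rw [pow_succ', Module.End.mul_apply, ih, C.n_G]; rfl

lemma pow_top {m : ℕ} (hm : ∀ j, d j ≤ m) (v : V) : (C.n ^ m) v = 0 := by
  refine C.ext1 (A := C.n ^ m) (B := 0) (fun j s => ?_) (fun j s => ?_) v
  · rw [C.pow_E, LinearMap.zero_apply, C.hE0]
    have := hm j
    omega
  · rw [C.pow_G, LinearMap.zero_apply, C.hG0]
    have := hm j
    omega

/-- The chain vectors outside the block `j₀`. -/
def O (j₀ : ι) (w : V) : Prop := ∃ i s, i ≠ j₀ ∧ (w = C.E i s ∨ w = C.G i s)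

lemma O_n {j₀ : ι} {w : V} (h : C.O j₀ w) : C.O j₀ (C.n w) := by
  obtain ⟨i, s, hi, rfl | rfl⟩ := h
  · exact ⟨i, s + 1, hi, Or.inl (C.n_E i s)⟩
  · exact ⟨i, s + 1, hi, Or.inr (C.n_G i s)⟩

lemma O_E {j₀ : ι} {w : V} (h : C.O j₀ w) (s : ℕ) : C.I (C.E j₀ s) w = 0 := by
  obtain ⟨i, t, hi, rfl | rfl⟩ := h
  · exact C.IEE _ _ _ _
  · exact C.IEGd _ _ _ _ hi.symm

lemma O_G {j₀ : ι} {w : V} (h : C.O j₀ w) (s : ℕ) : C.I (C.G j₀ s) w = 0 := by
  obtain ⟨i, t, hi, rfl | rfl⟩ := h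
  · rw [C.sk, C.IEGd _ _ _ _ hi, neg_zero]
  · exact C.IGG _ _ _ _

/-- Two skew forms which agree on the chain vectors are equal. -/
lemma extO (j₀ : ι) {A B : V →ₗ[ℂ] V →ₗ[ℂ] ℂ} (hA : ∀ u v, A u v = - A v u)
    (hB : ∀ u v, B u v = - B v u)
    (h1 : ∀ s t, A (C.E j₀ s) (C.E j₀ t) = B (C.E j₀ s) (C.E j₀ t))
    (h2 : ∀ s t, A (C.E j₀ s) (C.G j₀ t) = B (C.E j₀ s) (C.G j₀ t))
    (h3 : ∀ s t, A (C.G j₀ s) (C.G j₀ t) = B (C.G j₀ s) (C.G j₀ t))
    (h4 : ∀ s w, C.O j₀ w → A (C.E j₀ s) w = B (C.E j₀ s) w)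
    (h5 : ∀ s w, C.O j₀ w → A (C.G j₀ s) w = B (C.G j₀ s) w)
    (h6 : ∀ w w', C.O j₀ w → C.O j₀ w' → A w w' = B w w') (u v : V) : A u v = B u v := by
  have hE : ∀ s v, A (C.E j₀ s) v = B (C.E j₀ s) v := by
    intro s v
    refine C.ext1 (fun j t => ?_) (fun j t => ?_) v
    · by_cases hj : j = j₀
      · subst hj; exact h1 s t
      · exact h4 s _ ⟨j, t, hj, Or.inl rfl⟩
    · by_cases hj : j = j₀
      · subst hj; exact h2 s t
      · exact h4 s _ ⟨j, t, hj, Or.inr rfl⟩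
  have hG : ∀ s v, A (C.G j₀ s) v = B (C.G j₀ s) v := by
    intro s v
    refine C.ext1 (fun j t => ?_) (fun j t => ?_) v
    · by_cases hj : j = j₀
      · subst hj; rw [hA, hB, h2]
      · exact h5 s _ ⟨j, t, hj, Or.inl rfl⟩
    · by_cases hj : j = j₀
      · subst hj; exact h3 s t
      · exact h5 s _ ⟨j, t, hj, Or.inr rfl⟩
  have hO : ∀ w, C.O j₀ w → ∀ v, A w v = B w v := by
    intro w hw v
    refine C.ext1 (fun j t => ?_) (fun j t => ?_) v
    · by_cases hj : j = j₀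
      · subst hj; rw [hA, hB, h4 _ _ hw]
      · exact h6 _ _ hw ⟨j, t, hj, Or.inl rfl⟩
    · by_cases hj : j = j₀
      · subst hj; rw [hA, hB, h5 _ _ hw]
      · exact h6 _ _ hw ⟨j, t, hj, Or.inr rfl⟩
  refine C.ext1 (A := A.flip v) (B := B.flip v) (fun j t => ?_) (fun j t => ?_) u
  · show A (C.E j t) v = B (C.E j t) v
    by_cases hj : j = j₀
    · subst hj; exact hE t v
    · exact hO _ ⟨j, t, hj, Or.inl rfl⟩ v
  · show A (C.G j t) v = B (C.G j t) v
    by_cases hj : j = j₀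
    · subst hj; exact hG t v
    · exact hO _ ⟨j, t, hj, Or.inr rfl⟩ v

end Ch

end Pool.Agent.Helper55K1.JK
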