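import Pool.Agent.Helper55K1.JKPert

/-!
Chain spaces: the normal form of a perturbed pair of forms.
-/

namespace Pool.Agent.Helper55K1.JK

section ExF

variable {V : Type} [AddCommGroup V] [Module ℂ V]

lemma pow_zero_of_le {f : V →ₗ[ℂ] V} {m : ℕ} {D : V} (hD : (f ^ m) D = 0) {k : ℕ} (hk : m ≤ k) :
    (f ^ k) D = 0 := by
  obtain ⟨j, rfl⟩ := Nat.exists_eq_add_of_le hk
  rw [add_comm, pow_add, Module.End.mul_apply, hD, map_zero]

lemma pow_mem {f : V →ₗ[ℂ] V} {S : Submodule ℂ V} (hS : ∀ v ∈ S, f v ∈ S) {v : V} (hv : v ∈ S)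
    (k : ℕ) : (f ^ k) v ∈ S := by
  induction k with
  | zero => exact hv
  | succ k ih => rw [pow_succ', Module.End.mul_apply]; exact hS _ ih

lemma exF {I : V →ₗ[ℂ] V →ₗ[ℂ] ℂ} {f : V →ₗ[ℂ] V} (h : ∀ u v, I (f u) v = I u (f v)) {m : ℕ}
    (hm : 0 < m) {D g : V} (hD : (f ^ m) D = 0) (S : Submodule ℂ V) (hS : ∀ v ∈ S, f v ∈ S)
    (hg : g ∈ S) (hh : I ((f ^ (m - 1)) D) g ≠ 0) :
    ∃ F ∈ S, ∀ k, I ((f ^ k) D) F = if k + 1 = m then 1 else 0 := by
  have step : ∀ p, p ≤ m - 1 → ∃ F ∈ S, I ((f ^ (m - 1)) D) F = 1 ∧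
      ∀ k, m - 1 - p ≤ k → k < m - 1 → I ((f ^ k) D) F = 0 := by
    intro p
    induction p with
    | zero =>
      intro _
      refine ⟨(I ((f ^ (m - 1)) D) g)⁻¹ • g, S.smul_mem _ hg, ?_, fun k h1 h2 => by omega⟩
      rw [map_smul, smul_eq_mul, inv_mul_cancel₀ hh]
    | succ p ih =>
      intro hp
      obtain ⟨F, hF, h1, h2⟩ := ih (by omega)
      refine ⟨F - (I ((f ^ (m - 1 - (p + 1))) D) F) • (f ^ (p + 1)) F,
        S.sub_mem hF (S.smul_mem _ (pow_mem hS hF _)), ?_, ?_⟩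
      · rw [map_sub, map_smul, adj_two I f h,
          pow_zero_of_le hD (k := m - 1 + (p + 1)) (by omega), map_zero,
          LinearMap.zero_apply, smul_zero, sub_zero, h1]
      · intro k hk1 hk2
        rw [map_sub, map_smul, adj_two I f h]
        by_cases hk : k = m - 1 - (p + 1)
        · rw [show k + (p + 1) = m - 1 by omega, h1, ← hk, smul_eq_mul, mul_one, sub_self]
        · rw [pow_zero_of_le hD (k := k + (p + 1)) (by omega), map_zero, LinearMap.zero_apply,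
            smul_zero, sub_zero]
          exact h2 k (by omega) hk2
  obtain ⟨F, hF, h1, h2⟩ := step (m - 1) le_rfl
  refine ⟨F, hF, fun k => ?_⟩
  by_cases hk : k + 1 = m
  · rw [if_pos hk, show k = m - 1 by omega, h1]
  · rw [if_neg hk]
    by_cases hk2 : k < m - 1
    · exact h2 k (by omega) hk2
    · rw [pow_zero_of_le hD (by omega), map_zero, LinearMap.zero_apply]

end ExF

namespace Ch

variable {V : Type} [AddCommGroup V] [Module ℂ V] {ι : Type} {d : ι → ℕ} (C : Ch V d)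

/-- The last vector of the second chain of the block `j₀`. -/
def z (j₀ : ι) : V := C.G j₀ (d j₀ - 1)

lemma rep [FiniteDimensional ℂ V] (ν : V →ₗ[ℂ] ℂ) : ∃ w, ∀ v, C.I w v = ν v := by
  have hinj : Function.Injective C.I := by
    rw [← LinearMap.ker_eq_bot, LinearMap.ker_eq_bot']
    intro u hu
    exact C.nd u fun v => by rw [hu]; rfl
  have hs : Function.Surjective C.I :=
    (LinearMap.injective_iff_surjective_of_finrank_eq_finrank
      (Subspace.dual_finrank_eq (K := ℂ) (V := V)).symm).mp hinj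
  obtain ⟨w, hw⟩ := hs ν
  exact ⟨w, fun v => by rw [hw]⟩

lemma n_z {j₀ : ι} (hm : 0 < d j₀) : C.n (C.z j₀) = 0 := by
  unfold z
  rw [C.n_G, C.hG0]
  omega

lemma E_z {j₀ : ι} (hm : 0 < d j₀) : C.I (C.E j₀ 0) (C.z j₀) = 1 := by
  unfold z
  rw [C.IEG, if_pos (by omega)]

lemma z_z (j₀ : ι) : C.I (C.z j₀) (C.z j₀) = 0 := C.IGG _ _ _ _

/-- The operator of the perturbed form. -/
def nt (ζ w' : V) (ν : V →ₗ[ℂ] ℂ) : V →ₗ[ℂ] V :=
  C.n + (C.I.flip ζ).smulRight w' + ν.smulRight ζ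

lemma nt_apply (ζ w' : V) (ν : V →ₗ[ℂ] ℂ) (u : V) :
    C.nt ζ w' ν u = C.n u + C.I u ζ • w' + ν u • ζ := rfl

lemma nt_form {ζ w' : V} {ν : V →ₗ[ℂ] ℂ} (hw : ∀ v, C.I w' v = ν v) (u v : V) :
    C.I (C.nt ζ w' ν u) v = C.I (C.n u) v + (C.I u ζ * ν v - C.I v ζ * ν u) := by
  rw [nt_apply, map_add, map_add, LinearMap.add_apply, LinearMap.add_apply, map_smul, map_smul,
    LinearMap.smul_apply, LinearMap.smul_apply, hw, C.sk ζ v, smul_eq_mul, smul_eq_mul]
  ring

lemma nt_adj {ζ w' : V} {ν : V →ₗ[ℂ] ℂ} (hw : ∀ v, C.I w' v = ν v) (u v : V) :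
    C.I (C.nt ζ w' ν u) v = C.I u (C.nt ζ w' ν v) := by
  rw [C.sk u, C.nt_form hw, C.nt_form hw, C.n_skew u v]
  ring

lemma pert_iso [FiniteDimensional ℂ V] (j₀ : ι) (hm : 0 < d j₀) (hmax : ∀ j, d j ≤ d j₀)
    (ν : V →ₗ[ℂ] ℂ) (hζ : ν (C.z j₀) = 0)
    (hν : ∀ v, C.I v (C.z j₀) = 0 → ν ((C.n ^ (d j₀ - 1)) v) = 0)
    (hh : 1 + ν (C.G j₀ (d j₀ - 2)) ≠ 0) :
    ∃ T : V ≃ₗ[ℂ] V, ∀ u v, C.I (T u) (T v) = C.I u v ∧
      C.I (C.n (T u)) (T v) + (C.I (T u) (C.z j₀) * ν (T v) - C.I (T v) (C.z j₀) * ν (T u)) =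
        C.I (C.n u) v := by
  classical
  obtain ⟨w', hw⟩ := C.rep ν
  obtain ⟨m, hmd⟩ : ∃ m, m = d j₀ := ⟨_, rfl⟩
  obtain ⟨D, hD⟩ : ∃ D, D = C.E j₀ 0 := ⟨_, rfl⟩
  obtain ⟨ζ, hzd⟩ : ∃ ζ, ζ = C.z j₀ := ⟨_, rfl⟩
  have hform := C.nt_form (ζ := ζ) hw
  have hadj := C.nt_adj (ζ := ζ) hw
  have happ := C.nt_apply ζ w' ν
  generalize C.nt ζ w' ν = f at hform hadj happ
  have hnζ : C.n ζ = 0 := by rw [hzd]; exact C.n_z hm
  have hDζ : C.I D ζ = 1 := by rw [hzd, hD]; exact C.E_z hm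
  have hζζ : C.I ζ ζ = 0 := by rw [hzd]; exact C.z_z j₀
  have hzG : ζ = C.G j₀ (m - 1) := by rw [hzd, hmd]; rfl
  rw [← hzd] at hζ hν
  rw [← hmd] at hm hν hh hmax
  have hfζ : ∀ u, C.I (f u) ζ = 0 := by
    intro u
    rw [hform, C.n_adj, hnζ, map_zero, hζ, hζζ]
    ring
  have hnw : ∀ k, ν ((C.n ^ k) w') = 0 := by
    intro k
    rw [← hw, C.sk, adj_self C.I C.n C.n_adj C.sk, neg_zero]
  have hpow : ∀ k, (f ^ (k + 1)) D = (C.n ^ (k + 1)) D + (C.n ^ k) w' + ν ((C.n ^ k) D) • ζ := by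
    intro k
    induction k with
    | zero =>
      rw [zero_add, pow_one, pow_one, happ, hDζ, one_smul]
      rfl
    | succ k ih =>
      have h1 : C.I ((f ^ (k + 1)) D) ζ = 0 := by
        rw [pow_succ', Module.End.mul_apply]
        exact hfζ _
      have h2 : ν ((f ^ (k + 1)) D) = ν ((C.n ^ (k + 1)) D) := by
        rw [ih, map_add, map_add, hnw, map_smul, hζ, smul_zero, add_zero, add_zero]
      rw [pow_succ' f (k + 1), Module.End.mul_apply, happ, h1, h2, zero_smul, add_zero, ih, map_add,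
        map_add, map_smul, hnζ, smul_zero, add_zero, ← Module.End.mul_apply, ← pow_succ',
        ← Module.End.mul_apply, ← pow_succ']
  have hntop : ∀ v, (C.n ^ m) v = 0 := C.pow_top hmax
  have hfm : (f ^ m) D = 0 := by
    have e : m = (m - 1) + 1 := by omega
    have h1 : (C.n ^ (m - 1)) w' + ν ((C.n ^ (m - 1)) D) • ζ = 0 := by
      apply C.nd
      intro v
      rw [map_add, LinearMap.add_apply, map_smul, LinearMap.smul_apply,
        adj_pow C.I C.n C.n_adj, hw, C.sk ζ v]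
      have h2 := hν (v - C.I v ζ • D) (by
        rw [map_sub, LinearMap.sub_apply, map_smul, LinearMap.smul_apply, hDζ, smul_eq_mul,
          mul_one, sub_self])
      rw [map_sub, map_sub, map_smul, map_smul, smul_eq_mul] at h2
      rw [smul_eq_mul]
      linear_combination h2
    rw [e, hpow, ← e, hntop, zero_add, h1]
  let S : Submodule ℂ V :=
    { carrier := {v | (∀ s, C.I (C.G j₀ s) v = 0) ∧ ∀ w, C.O j₀ w → C.I w v = 0}
      add_mem' := by
        rintro a b ⟨h1, h2⟩ ⟨h3, h4⟩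
        refine ⟨fun s => ?_, fun w hw => ?_⟩
        · rw [map_add, h1, h3, add_zero]
        · rw [map_add, h2 w hw, h4 w hw, add_zero]
      zero_mem' := ⟨fun s => map_zero _, fun w _ => map_zero _⟩
      smul_mem' := by
        rintro c a ⟨h1, h2⟩
        refine ⟨fun s => ?_, fun w hw => ?_⟩
        · rw [map_smul, h1, smul_zero]
        · rw [map_smul, h2 w hw, smul_zero] }
  have hSd : ∀ v, v ∈ S ↔ (∀ s, C.I (C.G j₀ s) v = 0) ∧ ∀ w, C.O j₀ w → C.I w v = 0 :=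
    fun v => Iff.rfl
  have hSζ : ∀ v ∈ S, C.I v ζ = 0 := by
    intro v hv
    rw [C.sk, hzG, ((hSd v).mp hv).1, neg_zero]
  have hfS : ∀ v ∈ S, f v = C.n v + ν v • ζ := by
    intro v hv
    rw [happ, hSζ v hv, zero_smul, add_zero]
  have hS : ∀ v ∈ S, f v ∈ S := by
    intro v hv
    rw [hfS v hv, hSd]
    have h3 := (hSd v).mp hv
    refine ⟨fun s => ?_, fun w hw => ?_⟩
    · rw [map_add, map_smul, ← C.n_adj, C.n_G, h3.1, hzG, C.IGG, smul_zero, add_zero]
    · rw [map_add, map_smul, ← C.n_adj, h3.2 _ (C.O_n hw), C.sk w, hzG, C.O_G hw, neg_zero,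
        smul_zero, add_zero]
  have hgS : C.G j₀ 0 ∈ S := by
    rw [hSd]
    exact ⟨fun s => C.IGG _ _ _ _, fun w hw => by rw [C.sk, C.O_G hw, neg_zero]⟩
  have hne : C.I ((f ^ (m - 1)) D) (C.G j₀ 0) ≠ 0 := by
    by_cases h1 : m = 1
    · have e : m - 1 = 0 := by omega
      rw [e, pow_zero, Module.End.one_apply, hD, C.IEG, if_pos (by omega)]
      exact one_ne_zero
    · obtain ⟨k, hk⟩ : ∃ k, m = k + 2 := ⟨m - 2, by omega⟩
      have e : m - 1 = k + 1 := by omega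
      have e2 : m - 2 = k := by omega
      rw [e, hpow, map_add, map_add, LinearMap.add_apply, LinearMap.add_apply, map_smul,
        LinearMap.smul_apply, hD, C.pow_E, C.IEG, if_pos (by omega), adj_pow C.I C.n C.n_adj, hw,
        C.pow_G, zero_add, hzG, C.IGG, smul_zero, add_zero]
      rw [e2] at hh
      exact hh
  obtain ⟨F, hFS, hF⟩ := exF hadj hm hfm S hS hgS hne
  have hFk : ∀ k, (f ^ k) F ∈ S := pow_mem hS hFS
  have hfF : (f ^ m) F = 0 := by
    have h1 : ∀ k, C.n ((f ^ k) F) = (C.n ^ (k + 1)) F := by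
      intro k
      induction k with
      | zero => rw [zero_add, pow_one]; rfl
      | succ k ih =>
        rw [pow_succ' f, Module.End.mul_apply, hfS _ (hFk k), map_add, map_smul, hnζ, smul_zero,
          add_zero, ih, pow_succ' C.n (k + 1), Module.End.mul_apply]
    have h2 : ∀ k, (f ^ (k + 1)) F = (C.n ^ (k + 1)) F + ν ((f ^ k) F) • ζ := by
      intro k
      rw [pow_succ' f, Module.End.mul_apply, hfS _ (hFk k), h1]
    have h3 : ν ((f ^ (m - 1)) F) = 0 := by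
      have h4 := hν F (hSζ F hFS)
      by_cases h5 : m = 1
      · have e : m - 1 = 0 := by omega
        rw [e] at h4 ⊢
        exact h4
      · obtain ⟨k, hk⟩ : ∃ k, m - 1 = k + 1 := ⟨m - 2, by omega⟩
        rw [hk] at h4 ⊢
        rw [h2, map_add, h4, map_smul, hζ, smul_zero, add_zero]
    have e : m = (m - 1) + 1 := by omega
    rw [e, h2, ← e, hntop, h3, zero_smul, zero_add]
  let hat : V →ₗ[ℂ] V := LinearMap.id -
    ∑ k ∈ Finset.range m, (C.I ((f ^ (m - 1 - k)) D)).smulRight ((f ^ k) F)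
  have hat_apply : ∀ w, hat w = w - ∑ k ∈ Finset.range m, C.I ((f ^ (m - 1 - k)) D) w • (f ^ k) F := by
    intro w
    simp only [hat, LinearMap.sub_apply, LinearMap.id_apply, LinearMap.sum_apply,
      LinearMap.smulRight_apply]
  clear_value hat
  have hathat : ∀ u w, C.I u (hat w) = C.I u w -
      ∑ k ∈ Finset.range m, C.I ((f ^ (m - 1 - k)) D) w * C.I u ((f ^ k) F) := by
    intro u w
    rw [hat_apply, map_sub, map_sum]
    simp only [map_smul, smul_eq_mul]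
  have fact1 : ∀ s t, C.I ((f ^ s) D) ((f ^ t) D) = 0 := by
    intro s t
    rw [adj_two C.I f hadj, adj_self C.I f hadj C.sk]
  have fact2 : ∀ s t, C.I ((f ^ s) D) ((f ^ t) F) = if s + t + 1 = m then 1 else 0 := by
    intro s t
    rw [adj_two C.I f hadj, hF]
  have fact3 : ∀ s t, C.I ((f ^ s) F) ((f ^ t) F) = 0 := by
    intro s t
    rw [adj_two C.I f hadj, adj_self C.I f hadj C.sk]
  have fact4 : ∀ s w, C.I ((f ^ s) D) (hat w) = 0 := by
    intro s w
    by_cases hs : s < m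
    · rw [hathat, Finset.sum_eq_single (m - 1 - s)]
      · rw [fact2, if_pos (by omega), mul_one, show m - 1 - (m - 1 - s) = s by omega, sub_self]
      · intro k _ hk
        rw [fact2, if_neg (by omega), mul_zero]
      · intro h
        exact absurd (Finset.mem_range.mpr (by omega)) h
    · rw [pow_zero_of_le hfm (by omega), map_zero, LinearMap.zero_apply]
  have fact0 : ∀ u w, (∀ k, C.I u ((f ^ k) F) = 0) → C.I u (hat w) = C.I u w := by
    intro u w h
    rw [hathat, Finset.sum_eq_zero, sub_zero]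
    intro k _
    rw [h, mul_zero]
  have hOF : ∀ w, C.O j₀ w → ∀ k, C.I w ((f ^ k) F) = 0 := fun w hw k => ((hSd _).mp (hFk k)).2 w hw
  have fact5 : ∀ s w, C.O j₀ w → C.I ((f ^ s) F) (hat w) = 0 := by
    intro s w hw
    rw [fact0 _ _ (fact3 s), C.sk, hOF w hw, neg_zero]
  have fact5' : ∀ s w, C.O j₀ w → C.I (hat w) ((f ^ s) F) = 0 := by
    intro s w hw
    rw [C.sk, fact5 s w hw, neg_zero]
  have fact6 : ∀ w w', C.O j₀ w → C.O j₀ w' → C.I (hat w) (hat w') = C.I w w' := by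
    intro w w' hw hw'
    rw [fact0 _ _ (fun k => fact5' k w hw), C.sk, fact0 _ _ (hOF w' hw'), ← C.sk]
  have fact7 : ∀ w w', C.O j₀ w → C.O j₀ w' → C.I (f (hat w)) (hat w') = C.I (C.n w) w' := by
    intro w w' hw hw'
    have h1 : ∀ k, C.I (f (hat w)) ((f ^ k) F) = 0 := by
      intro k
      rw [hadj, ← Module.End.mul_apply, ← pow_succ', fact5' _ _ hw]
    have h2 : ∀ k, C.I (f w') ((f ^ k) F) = 0 := by
      intro k
      rw [hadj, ← Module.End.mul_apply, ← pow_succ', hOF w' hw']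
    have h3 : C.I w' ζ = 0 := by rw [C.sk, hzG, C.O_G hw', neg_zero]
    have h4 : C.I w ζ = 0 := by rw [C.sk, hzG, C.O_G hw, neg_zero]
    rw [fact0 _ _ h1, hadj, C.sk, fact0 _ _ h2, ← C.sk, ← hadj, hform, h3, h4]
    ring
  obtain ⟨T, hT⟩ := C.con (fun i s => if i = j₀ then (f ^ s) D else hat (C.E i s))
    (fun i s => if i = j₀ then (f ^ s) F else hat (C.G i s))
  have hTE : ∀ s, T (C.E j₀ s) = (f ^ s) D := by
    intro s
    by_cases hs : s < m
    · rw [(hT j₀ s (by omega)).1, if_pos rfl]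
    · rw [C.hE0 j₀ s (by omega), map_zero, pow_zero_of_le hfm (by omega)]
  have hTG : ∀ s, T (C.G j₀ s) = (f ^ s) F := by
    intro s
    by_cases hs : s < m
    · rw [(hT j₀ s (by omega)).2, if_pos rfl]
    · rw [C.hG0 j₀ s (by omega), map_zero, pow_zero_of_le hfF (by omega)]
  have hTO : ∀ w, C.O j₀ w → T w = hat w := by
    rintro w ⟨i, s, hi, rfl | rfl⟩
    · by_cases hs : s < d i
      · rw [(hT i s hs).1, if_neg hi]
      · rw [C.hE0 i s (by omega), map_zero, map_zero]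
    · by_cases hs : s < d i
      · rw [(hT i s hs).2, if_neg hi]
      · rw [C.hG0 i s (by omega), map_zero, map_zero]
  have hA : ∀ u v, C.I (T u) (T v) = C.I u v := by
    refine C.extO j₀ (A := (C.I.comp T).compl₂ T) (B := C.I) (fun u v => C.sk _ _) C.sk ?_ ?_ ?_
      ?_ ?_ ?_
    · intro s t
      show C.I (T (C.E j₀ s)) (T (C.E j₀ t)) = _
      rw [hTE, hTE, fact1, C.IEE]
    · intro s t
      show C.I (T (C.E j₀ s)) (T (C.G j₀ t)) = _
      rw [hTE, hTG, fact2, C.IEG, hmd]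
    · intro s t
      show C.I (T (C.G j₀ s)) (T (C.G j₀ t)) = _
      rw [hTG, hTG, fact3, C.IGG]
    · intro s w hw
      show C.I (T (C.E j₀ s)) (T w) = _
      rw [hTE, hTO w hw, fact4, C.O_E hw]
    · intro s w hw
      show C.I (T (C.G j₀ s)) (T w) = _
      rw [hTG, hTO w hw, fact5 s w hw, C.O_G hw]
    · intro w w' hw hw'
      show C.I (T w) (T w') = _
      rw [hTO w hw, hTO w' hw', fact6 w w' hw hw']
  have hB : ∀ u v, C.I (f (T u)) (T v) = C.I (C.n u) v := by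
    have hf : ∀ s v, f ((f ^ s) v) = (f ^ (s + 1)) v := by
      intro s v
      rw [pow_succ', Module.End.mul_apply]
    refine C.extO j₀ (A := (C.I.comp (f.comp T)).compl₂ T) (B := C.I.comp C.n) (fun u v => ?_)
      C.n_skew ?_ ?_ ?_ ?_ ?_ ?_
    · show C.I (f (T u)) (T v) = - C.I (f (T v)) (T u)
      rw [hadj, C.sk]
    · intro s t
      show C.I (f (T (C.E j₀ s))) (T (C.E j₀ t)) = C.I (C.n (C.E j₀ s)) (C.E j₀ t)
      rw [hTE, hTE, hf, fact1, C.n_E, C.IEE]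
    · intro s t
      show C.I (f (T (C.E j₀ s))) (T (C.G j₀ t)) = C.I (C.n (C.E j₀ s)) (C.G j₀ t)
      rw [hTE, hTG, hf, fact2, C.n_E, C.IEG, hmd]
    · intro s t
      show C.I (f (T (C.G j₀ s))) (T (C.G j₀ t)) = C.I (C.n (C.G j₀ s)) (C.G j₀ t)
      rw [hTG, hTG, hf, fact3, C.n_G, C.IGG]
    · intro s w hw
      show C.I (f (T (C.E j₀ s))) (T w) = C.I (C.n (C.E j₀ s)) w
      rw [hTE, hTO w hw, hf, fact4, C.n_E, C.O_E hw]
    · intro s w hw
      show C.I (f (T (C.G j₀ s))) (T w) = C.I (C.n (C.G j₀ s)) w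
      rw [hTG, hTO w hw, hf, fact5 _ w hw, C.n_G, C.O_G hw]
    · intro w w' hw hw'
      show C.I (f (T w)) (T w') = C.I (C.n w) w'
      rw [hTO w hw, hTO w' hw', fact7 w w' hw hw']
  have hinj : Function.Injective T := by
    rw [← LinearMap.ker_eq_bot, LinearMap.ker_eq_bot']
    intro u hu
    apply C.nd
    intro v
    rw [← hA, hu, map_zero, LinearMap.zero_apply]
  refine ⟨LinearEquiv.ofInjectiveEndo T hinj, fun u v => ⟨hA u v, ?_⟩⟩
  show C.I (C.n (T u)) (T v) + (C.I (T u) (C.z j₀) * ν (T v) - C.I (T v) (C.z j₀) * ν (T u)) = _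
  rw [← hzd, ← hform]
  exact hB u v

end Ch

end Pool.Agent.Helper55K1.JK
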