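import Pool.Agent.Helper55K1.JKPert2

/-!
Chain spaces: the normal form of the pair of forms of a Lie algebra.
-/

namespace Pool.Agent.Helper55K1.JK

namespace Ch

variable {V : Type} [AddCommGroup V] [Module ℂ V] {ι : Type} {d : ι → ℕ} (C : Ch V d)

/-- The perturbed form. -/
def pf (j₀ : ι) (s r : ℂ) (θ : V →ₗ[ℂ] ℂ) (u v : V) : ℂ :=
  s * C.I u v + r * C.I (C.n u) v + (C.I u (C.z j₀) * θ v - C.I v (C.z j₀) * θ u)

lemma pert [FiniteDimensional ℂ V] (j₀ : ι) (hm : 0 < d j₀) (hmax : ∀ j, d j ≤ d j₀)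
    {sx sa rx ra : ℂ} {θx θa : V →ₗ[ℂ] ℂ} (h1 : sx ≠ 0) (h2 : ra ≠ 0) (h3 : sa ≠ 0)
    (h4 : sx * ra - sa * rx ≠ 0) (hx : θx (C.z j₀) = 0) (ha : θa (C.z j₀) = 0)
    (hnx : ∀ v, C.I v (C.z j₀) = 0 → θx ((C.n ^ (d j₀ - 1)) v) = 0)
    (hna : ∀ v, C.I v (C.z j₀) = 0 → θa ((C.n ^ (d j₀ - 1)) v) = 0)
    (hh : (sx * ra - sa * rx) +
      (sx * θa (C.G j₀ (d j₀ - 2)) - sa * θx (C.G j₀ (d j₀ - 2))) ≠ 0) :
    HasBlocks (C.pf j₀ sx rx θx) (C.pf j₀ sa ra θa) fun j => Block.jordan (d j) (-sx / sa) := by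
  obtain ⟨Δ, hΔ⟩ : ∃ Δ, Δ = sx * ra - sa * rx := ⟨_, rfl⟩
  rw [← hΔ] at h4 hh
  obtain ⟨κ, hκ⟩ : ∃ κ : V →ₗ[ℂ] ℂ, κ = Δ⁻¹ • (ra • θx - rx • θa) := ⟨_, rfl⟩
  obtain ⟨ν, hν⟩ : ∃ ν : V →ₗ[ℂ] ℂ, ν = Δ⁻¹ • (sx • θa - sa • θx) := ⟨_, rfl⟩
  have hκv : ∀ v, κ v = Δ⁻¹ * (ra * θx v - rx * θa v) := by
    intro v
    rw [hκ]
    rfl
  have hνv : ∀ v, ν v = Δ⁻¹ * (sx * θa v - sa * θx v) := by
    intro v
    rw [hν]
    rfl
  have hθx : ∀ v, θx v = sx * κ v + rx * ν v := by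
    intro v
    have : Δ⁻¹ * Δ = 1 := inv_mul_cancel₀ h4
    rw [hκv, hνv]
    rw [hΔ] at this ⊢
    linear_combination (-(θx v)) * this
  have hθa : ∀ v, θa v = sa * κ v + ra * ν v := by
    intro v
    have : Δ⁻¹ * Δ = 1 := inv_mul_cancel₀ h4
    rw [hκv, hνv]
    rw [hΔ] at this ⊢
    linear_combination (-(θa v)) * this
  have hκζ : κ (C.z j₀) = 0 := by rw [hκv, hx, ha]; ring
  have hνζ : ν (C.z j₀) = 0 := by rw [hνv, hx, ha]; ring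
  obtain ⟨T, hT⟩ := C.pert_iso j₀ hm hmax ν hνζ (by
    intro v hv
    rw [hνv, hnx v hv, hna v hv]
    ring) (by
    intro h0
    apply hh
    have e : Δ * (1 + ν (C.G j₀ (d j₀ - 2))) = 0 := by rw [h0, mul_zero]
    rw [hνv] at e
    have : Δ * Δ⁻¹ = 1 := mul_inv_cancel₀ h4
    linear_combination e - (sx * θa (C.G j₀ (d j₀ - 2)) - sa * θx (C.G j₀ (d j₀ - 2))) * this)
  let T1 : V →ₗ[ℂ] V := LinearMap.id + κ.smulRight (C.z j₀)
  have hT1 : ∀ u, T1 u = u + κ u • C.z j₀ := fun u => rfl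
  have hinj : Function.Injective T1 := by
    rw [← LinearMap.ker_eq_bot, LinearMap.ker_eq_bot']
    intro u hu
    rw [hT1] at hu
    have h5 := congrArg κ hu
    rw [map_add, map_smul, hκζ, smul_zero, add_zero, map_zero] at h5
    rw [h5, zero_smul, add_zero] at hu
    exact hu
  let T1e : V ≃ₗ[ℂ] V := LinearEquiv.ofInjectiveEndo T1 hinj
  have hT1e : ∀ u, T1e u = u + κ u • C.z j₀ := fun u => rfl
  clear_value T1e
  let φ : V ≃ₗ[ℂ] V := T1e.trans T.symm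
  have hφ : ∀ u, T (φ u) = u + κ u • C.z j₀ := by
    intro u
    rw [← hT1e]
    exact T.apply_symm_apply _
  clear_value φ
  have hζu : ∀ u, C.I (C.z j₀) u = - C.I u (C.z j₀) := fun u => C.sk _ _
  have key1 : ∀ u v, C.I (φ u) (φ v) = C.I u v + (C.I u (C.z j₀) * κ v - C.I v (C.z j₀) * κ u) := by
    intro u v
    rw [← (hT (φ u) (φ v)).1, hφ, hφ]
    simp only [map_add, map_smul, LinearMap.add_apply, LinearMap.smul_apply, smul_eq_mul, C.z_z,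
      hζu v]
    ring
  have key2 : ∀ u v, C.I (C.n (φ u)) (φ v) =
      C.I (C.n u) v + (C.I u (C.z j₀) * ν v - C.I v (C.z j₀) * ν u) := by
    intro u v
    rw [← (hT (φ u) (φ v)).2, hφ, hφ]
    have e : C.I (C.n u) (C.z j₀) = 0 := by rw [C.n_adj, C.n_z hm, map_zero]
    simp only [map_add, map_smul, LinearMap.add_apply, LinearMap.smul_apply, smul_eq_mul, C.z_z,
      C.n_z hm, smul_zero, add_zero, mul_zero, hνζ, e]
  refine (C.hb sx sa rx ra h1 h2 h3 (by rw [← hΔ]; exact h4)).pull φ ?_ ?_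
  · intro u v
    unfold pf
    rw [key1, key2, hθx, hθx]
    ring
  · intro u v
    unfold pf
    rw [key1, key2, hθa, hθa]
    ring

end Ch

end Pool.Agent.Helper55K1.JK
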