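import Pool.Agent.Helper55K1.JKGen

/-!
Adding a Kronecker block of size `2 k + 1` with arbitrary off-diagonal terms to a pair of forms
whose second form is nondegenerate.
-/

namespace Pool.Agent.Helper55K1.JK

open Matrix

section Omega

lemma ex_omega {k : ℕ} (ρ : Fin (k + 1) → ℂ) (hρ : Function.Injective ρ) :
    ∃ ω : Fin (k + 1) → ℂ, (∀ m < k, ∑ z, ω z * ρ z ^ m = 0) ∧ ∀ z, ω z ≠ 0 := by
  have hdet : IsUnit (Matrix.vandermonde ρ).det :=
    isUnit_iff_ne_zero.mpr (Matrix.det_vandermonde_ne_zero_iff.mpr hρ)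
  let ω : Fin (k + 1) → ℂ := (Matrix.vandermonde ρ)⁻¹ (Fin.last k)
  have hω : ∀ m : Fin (k + 1), ∑ z, ω z * ρ z ^ (m : ℕ) = if m = Fin.last k then 1 else 0 := by
    intro m
    have h := congrFun (congrFun (Matrix.nonsing_inv_mul _ hdet) (Fin.last k)) m
    rw [Matrix.mul_apply, Matrix.one_apply] at h
    rw [show (if m = Fin.last k then (1 : ℂ) else 0) = if Fin.last k = m then 1 else 0 by
      simp only [eq_comm], ← h]
    rfl
  have hq : ∀ q : Polynomial ℂ, q.natDegree ≤ k → ∑ z, ω z * q.eval (ρ z) = q.coeff k := by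
    intro q hq
    have h1 : ∀ z, q.eval (ρ z) = ∑ m : Fin (k + 1), q.coeff m * ρ z ^ (m : ℕ) := by
      intro z
      rw [Polynomial.eval_eq_sum_range' (Nat.lt_succ_of_le hq), Finset.sum_range]
    calc ∑ z, ω z * q.eval (ρ z) = ∑ z, ∑ m : Fin (k + 1), q.coeff m * (ω z * ρ z ^ (m : ℕ)) := by
          refine Finset.sum_congr rfl fun z _ => ?_
          rw [h1, Finset.mul_sum]
          exact Finset.sum_congr rfl fun m _ => by ring
      _ = ∑ m : Fin (k + 1), q.coeff m * (if m = Fin.last k then 1 else 0) := by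
          rw [Finset.sum_comm]
          refine Finset.sum_congr rfl fun m _ => ?_
          rw [← hω m, Finset.mul_sum]
      _ = q.coeff k := by
          rw [Finset.sum_eq_single (Fin.last k)]
          · rw [if_pos rfl, mul_one, Fin.val_last]
          · intro m _ hm
            rw [if_neg hm, mul_zero]
          · intro h; exact absurd (Finset.mem_univ _) h
  refine ⟨ω, fun m hm => ?_, fun z h0 => ?_⟩
  · have := hω ⟨m, by omega⟩
    rw [if_neg (by intro h; rw [Fin.ext_iff, Fin.val_last] at h; simp at h; omega)] at this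
    exact this
  · let q : Polynomial ℂ := ∏ j ∈ Finset.univ.erase z, (Polynomial.X - Polynomial.C (ρ j))
    have hmon : q.Monic := Polynomial.monic_prod_of_monic _ _ fun j _ => Polynomial.monic_X_sub_C _
    have hdeg : q.natDegree = k := by
      rw [Polynomial.natDegree_prod_of_monic _ _ fun j _ => Polynomial.monic_X_sub_C _]
      simp only [Polynomial.natDegree_X_sub_C, Finset.sum_const, smul_eq_mul, mul_one]
      rw [Finset.card_erase_of_mem (Finset.mem_univ z), Finset.card_univ, Fintype.card_fin]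
      omega
    have h1 := hq q hdeg.le
    have h2 : q.coeff k = 1 := by
      have := hmon.coeff_natDegree
      rwa [hdeg] at this
    rw [h2, Finset.sum_eq_zero] at h1
    · exact zero_ne_one h1
    · intro j _
      by_cases hj : j = z
      · rw [hj, h0, zero_mul]
      · have : q.eval (ρ j) = 0 := by
          rw [Polynomial.eval_prod]
          exact Finset.prod_eq_zero (Finset.mem_erase.mpr ⟨hj, Finset.mem_univ _⟩) (by simp)
        rw [this, mul_zero]

lemma ex_dual {k : ℕ} (ρ : Fin (k + 1) → ℂ) (hρ : Function.Injective ρ) (c : Fin (k + 1) → ℂ)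
    (hc : ∀ z, c z ≠ 0) :
    ∃ g : Fin (k + 1) → Fin (k + 1) → ℂ, ∀ r j : Fin (k + 1),
      ∑ z, ρ z ^ (r : ℕ) * c z * g j z = if j = r then 1 else 0 := by
  have hdet : IsUnit (Matrix.vandermonde ρ).det :=
    isUnit_iff_ne_zero.mpr (Matrix.det_vandermonde_ne_zero_iff.mpr hρ)
  refine ⟨fun j z => (Matrix.vandermonde ρ)⁻¹ j z * (c z)⁻¹, fun r j => ?_⟩
  have h := congrFun (congrFun (Matrix.nonsing_inv_mul _ hdet) j) r
  rw [Matrix.mul_apply, Matrix.one_apply] at h
  rw [← h]
  refine Finset.sum_congr rfl fun z _ => ?_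
  have h1 : c z * (c z)⁻¹ = 1 := mul_inv_cancel₀ (hc z)
  rw [Matrix.vandermonde_apply]
  linear_combination (ρ z ^ (r : ℕ) * (Matrix.vandermonde ρ)⁻¹ j z) * h1

end Omega

section Semi

variable {U : Type} [AddCommGroup U] [Module ℂ U] {k : ℕ}

/-- The extended space. -/
abbrev XS (U : Type) (k : ℕ) : Type := U × (Fin (k + 1) → ℂ) × (Fin (k + 1) → ℂ)

/-- The extended form. -/
noncomputable def xf (A : U →ₗ[ℂ] U →ₗ[ℂ] ℂ) (x : Fin (k + 1) → ℂ)
    (P : Fin (k + 1) → U →ₗ[ℂ] ℂ) : XS U k →ₗ[ℂ] XS U k →ₗ[ℂ] ℂ :=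
  LinearMap.mk₂ ℂ (fun p q => A p.1 q.1 + ∑ z, (p.2.2 z * (P z q.1 + x z * q.2.1 z) -
      q.2.2 z * (P z p.1 + x z * p.2.1 z)))
    (fun p p' q => by
      have : ∀ z, ((p + p').2.2 z * (P z q.1 + x z * q.2.1 z) -
          q.2.2 z * (P z (p + p').1 + x z * (p + p').2.1 z)) =
          (p.2.2 z * (P z q.1 + x z * q.2.1 z) - q.2.2 z * (P z p.1 + x z * p.2.1 z)) +
          (p'.2.2 z * (P z q.1 + x z * q.2.1 z) - q.2.2 z * (P z p'.1 + x z * p'.2.1 z)) := by
        intro z
        simp only [Prod.fst_add, Prod.snd_add, Pi.add_apply, map_add]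
        ring
      rw [Finset.sum_congr rfl fun z _ => this z, Finset.sum_add_distrib, Prod.fst_add, map_add,
        LinearMap.add_apply]
      ring)
    (fun r p q => by
      have : ∀ z, ((r • p).2.2 z * (P z q.1 + x z * q.2.1 z) -
          q.2.2 z * (P z (r • p).1 + x z * (r • p).2.1 z)) =
          r * (p.2.2 z * (P z q.1 + x z * q.2.1 z) - q.2.2 z * (P z p.1 + x z * p.2.1 z)) := by
        intro z
        simp only [Prod.smul_fst, Prod.smul_snd, Pi.smul_apply, map_smul, smul_eq_mul]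
        ring
      rw [Finset.sum_congr rfl fun z _ => this z, ← Finset.mul_sum, Prod.smul_fst, map_smul,
        LinearMap.smul_apply, smul_eq_mul, smul_eq_mul]
      ring)
    (fun p q q' => by
      have : ∀ z, (p.2.2 z * (P z (q + q').1 + x z * (q + q').2.1 z) -
          (q + q').2.2 z * (P z p.1 + x z * p.2.1 z)) =
          (p.2.2 z * (P z q.1 + x z * q.2.1 z) - q.2.2 z * (P z p.1 + x z * p.2.1 z)) +
          (p.2.2 z * (P z q'.1 + x z * q'.2.1 z) - q'.2.2 z * (P z p.1 + x z * p.2.1 z)) := by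
        intro z
        simp only [Prod.fst_add, Prod.snd_add, Pi.add_apply, map_add]
        ring
      rw [Finset.sum_congr rfl fun z _ => this z, Finset.sum_add_distrib, Prod.fst_add, map_add]
      ring)
    (fun r p q => by
      have : ∀ z, (p.2.2 z * (P z (r • q).1 + x z * (r • q).2.1 z) -
          (r • q).2.2 z * (P z p.1 + x z * p.2.1 z)) =
          r * (p.2.2 z * (P z q.1 + x z * q.2.1 z) - q.2.2 z * (P z p.1 + x z * p.2.1 z)) := by
        intro z
        simp only [Prod.smul_fst, Prod.smul_snd, Pi.smul_apply, map_smul, smul_eq_mul]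
        ring
      rw [Finset.sum_congr rfl fun z _ => this z, ← Finset.mul_sum, Prod.smul_fst, map_smul,
        smul_eq_mul, smul_eq_mul]
      ring)

lemma xf_apply (A : U →ₗ[ℂ] U →ₗ[ℂ] ℂ) (x : Fin (k + 1) → ℂ) (P : Fin (k + 1) → U →ₗ[ℂ] ℂ)
    (p q : XS U k) : xf A x P p q = A p.1 q.1 + ∑ z, (p.2.2 z * (P z q.1 + x z * q.2.1 z) -
      q.2.2 z * (P z p.1 + x z * p.2.1 z)) := rfl

lemma xf_skew {A : U →ₗ[ℂ] U →ₗ[ℂ] ℂ} (hA : ∀ u v, A u v = - A v u) (x : Fin (k + 1) → ℂ)
    (P : Fin (k + 1) → U →ₗ[ℂ] ℂ) (p q : XS U k) : xf A x P p q = - xf A x P q p := by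
  rw [xf_apply, xf_apply, hA, neg_add, ← Finset.sum_neg_distrib]
  congr 1
  exact Finset.sum_congr rfl fun z _ => by ring

lemma xf_rec {A B : U →ₗ[ℂ] U →ₗ[ℂ] ℂ} (hB : ∀ ν : U →ₗ[ℂ] ℂ, ∃ w, ∀ v, B w v = ν v)
    {x a : Fin (k + 1) → ℂ} {P Q : Fin (k + 1) → U →ₗ[ℂ] ℂ} (ha : ∀ z, a z ≠ 0) (e' : XS U k) :
    ∃ e : XS U k, (∀ v, xf B a Q e v = - xf A x P e' v) ∧
      ∀ z, e.2.2 z = -(x z / a z) * e'.2.2 z := by
  obtain ⟨s, hs⟩ : ∃ s : Fin (k + 1) → ℂ, ∀ z, s z = -(x z / a z) * e'.2.2 z :=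
    ⟨fun z => -(x z / a z) * e'.2.2 z, fun z => rfl⟩
  obtain ⟨w, hw⟩ := hB (-(A e'.1) - ∑ z, e'.2.2 z • P z - ∑ z, s z • Q z)
  obtain ⟨h, hh⟩ : ∃ h : Fin (k + 1) → ℂ, ∀ z,
      h z = -((a z)⁻¹ * (x z * e'.2.1 z + Q z w + P z e'.1)) := ⟨_, fun z => rfl⟩
  refine ⟨(w, h, s), fun v => ?_, hs⟩
  have hw' : B w v.1 = -(A e'.1 v.1) - ∑ z, e'.2.2 z * P z v.1 - ∑ z, s z * Q z v.1 := by
    rw [hw]
    simp only [LinearMap.sub_apply, LinearMap.neg_apply, LinearMap.sum_apply,
      LinearMap.smul_apply, smul_eq_mul]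
  have key : ∀ z, s z * (Q z v.1 + a z * v.2.1 z) - v.2.2 z * (Q z w + a z * h z) =
      e'.2.2 z * P z v.1 + s z * Q z v.1 -
        (e'.2.2 z * (P z v.1 + x z * v.2.1 z) - v.2.2 z * (P z e'.1 + x z * e'.2.1 z)) := by
    intro z
    have h1 : s z * a z = - (x z * e'.2.2 z) := by
      rw [hs]
      have := ha z
      field_simp
    have h2 : a z * h z = -(x z * e'.2.1 z + Q z w + P z e'.1) := by
      rw [hh]
      have := ha z
      field_simp
    linear_combination v.2.1 z * h1 - v.2.2 z * h2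
  rw [xf_apply, xf_apply]
  show B w v.1 + ∑ z, (s z * (Q z v.1 + a z * v.2.1 z) - v.2.2 z * (Q z w + a z * h z)) = _
  rw [Finset.sum_congr rfl fun z _ => key z, Finset.sum_sub_distrib, Finset.sum_add_distrib, hw']
  ring

/-- The vectors with vanishing sum of coordinates. -/
noncomputable def SZ (k : ℕ) : Submodule ℂ (Fin (k + 1) → ℂ) :=
  LinearMap.ker (∑ z, LinearMap.proj z : (Fin (k + 1) → ℂ) →ₗ[ℂ] ℂ)

lemma mem_SZ {k : ℕ} (s : Fin (k + 1) → ℂ) : s ∈ SZ k ↔ ∑ z, s z = 0 := by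
  unfold SZ
  rw [LinearMap.mem_ker, LinearMap.sum_apply]
  rfl

lemma finrank_SZ (k : ℕ) : Module.finrank ℂ (SZ k) = k := by
  have h := LinearMap.finrank_range_add_finrank_ker
    (∑ z, LinearMap.proj z : (Fin (k + 1) → ℂ) →ₗ[ℂ] ℂ)
  have hr : LinearMap.range (∑ z, LinearMap.proj z : (Fin (k + 1) → ℂ) →ₗ[ℂ] ℂ) = ⊤ := by
    rw [LinearMap.range_eq_top]
    intro c
    refine ⟨Pi.single 0 c, ?_⟩
    rw [LinearMap.sum_apply]
    simp
  rw [hr, finrank_top, Module.finrank_self, Module.finrank_fin_fun] at h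
  unfold SZ
  omega

/-- The model of a Kronecker block with the two forms exchanged. -/
lemma swap_kron (k : ℕ) : HasBlocks
    (fun p q : (Fin k → ℂ) × (Fin (k + 1) → ℂ) => frm (Block.kronecker k).second p q)
    (fun p q : (Fin k → ℂ) × (Fin (k + 1) → ℂ) => frm (Block.kronecker k).first p q)
    (fun _ : Unit => Block.kronecker k) := by
  obtain ⟨c, hc⟩ : ∃ c : Module.Basis (Block.kronecker k).Ix ℂ ((Fin k → ℂ) × (Fin (k + 1) → ℂ)),
      ∀ s t, frm (Block.kronecker k).second (c s) (c t) = skew (Block.kronecker k).first s t ∧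
        frm (Block.kronecker k).first (c s) (c t) = skew (Block.kronecker k).second s t := by
    obtain ⟨c, hc⟩ := block_change 0 1 1 0 one_ne_zero one_ne_zero (by norm_num)
      (Block.kronecker k) trivial
    have e1 : (fun i j => 0 * (Block.kronecker k).first i j +
        1 * (Block.kronecker k).second i j) = (Block.kronecker k).second := by
      funext i j
      ring
    have e2 : (fun i j => 1 * (Block.kronecker k).first i j +
        0 * (Block.kronecker k).second i j) = (Block.kronecker k).first := by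
      funext i j
      ring
    rw [e1, e2] at hc
    exact ⟨c, hc⟩
  let e : (Block.kronecker k).Ix ≃ (Σ _ : Unit, (Block.kronecker k).Ix) :=
    { toFun := fun s => ⟨(), s⟩
      invFun := fun x => x.2
      left_inv := fun _ => rfl
      right_inv := fun _ => rfl }
  refine ⟨c.reindex e, ?_, ?_⟩
  · intro i s t
    rw [Module.Basis.reindex_apply, Module.Basis.reindex_apply]
    exact hc s t
  · intro i j s t hij
    exact absurd (Subsingleton.elim i j) hij

end Semi

end Pool.Agent.Helper55K1.JK
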