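import Pool.Agent.Helper55K1.JKSemi

/-!
Adding a Kronecker block of size `2 k + 1` with arbitrary off-diagonal terms to a pair of forms
whose second form is nondegenerate: the normal form.
-/

namespace Pool.Agent.Helper55K1.JK

open Matrix

section Main

variable {U : Type} [AddCommGroup U] [Module ℂ U] {k : ℕ}

/-- The total space. -/
abbrev TS (U : Type) (k : ℕ) : Type := U × (Fin (k + 1) → ℂ) × SZ k

/-- The inclusion of the total space. -/
def TS.inc (p : TS U k) : XS U k := (p.1, p.2.1, (p.2.2 : Fin (k + 1) → ℂ))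

lemma xf_zero (A : U →ₗ[ℂ] U →ₗ[ℂ] ℂ) (x : Fin (k + 1) → ℂ) (P : Fin (k + 1) → U →ₗ[ℂ] ℂ)
    {p q : XS U k} (hp : p.2.2 = 0) (hq : q.2.2 = 0) : xf A x P p q = A p.1 q.1 := by
  rw [xf_apply, Finset.sum_eq_zero, add_zero]
  intro z _
  rw [hp, hq]
  simp

lemma kron_nd (hk : 0 < k) (p : (Fin k → ℂ) × (Fin (k + 1) → ℂ))
    (h1 : ∀ y, frm (Block.kronecker k).first p y = 0)
    (h2 : ∀ y, frm (Block.kronecker k).second p y = 0) : p = 0 := by
  have e1 : ∀ (M : ℕ → ℕ → ℂ) (r : Fin k), pr M (Pi.single r 1) p.2 =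
      ∑ j : Fin (k + 1), M r j * p.2 j := by
    intro M r
    unfold pr
    rw [single_dotProduct, one_mul]
    rfl
  have e2 : ∀ (M : ℕ → ℕ → ℂ) (j : Fin (k + 1)), pr M p.1 (Pi.single j 1) =
      ∑ r : Fin k, p.1 r * M r j := by
    intro M j
    unfold pr
    rw [Matrix.mulVec_single_one]
    rfl
  have h3 : ∀ r : Fin k, p.1 r = 0 := by
    intro r
    have h := h1 (0, Pi.single r.castSucc 1)
    unfold frm at h
    rw [pr_zero_left, sub_zero, e2, Finset.sum_eq_single r] at h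
    · simpa [Block.first] using h
    · intro s _ hs
      have : ¬ (r : ℕ) = s := fun e => hs (Fin.ext e.symm)
      simp [Block.first, this]
    · intro hn; exact absurd (Finset.mem_univ _) hn
  have h4 : ∀ r : Fin k, p.2 r.castSucc = 0 := by
    intro r
    have h := h1 (Pi.single r 1, 0)
    unfold frm at h
    rw [pr_zero_right, zero_sub, neg_eq_zero, e1, Finset.sum_eq_single r.castSucc] at h
    · simpa [Block.first] using h
    · intro s _ hs
      have : ¬ (s : ℕ) = r := fun e => hs (Fin.ext e)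
      simp [Block.first, this]
    · intro hn; exact absurd (Finset.mem_univ _) hn
  have h5 : ∀ r : Fin k, p.2 r.succ = 0 := by
    intro r
    have h := h2 (Pi.single r 1, 0)
    unfold frm at h
    rw [pr_zero_right, zero_sub, neg_eq_zero, e1, Finset.sum_eq_single r.succ] at h
    · simpa [Block.second] using h
    · intro s _ hs
      have : ¬ (s : ℕ) = r + 1 := fun e => hs (Fin.ext e)
      simp [Block.second, this]
    · intro hn; exact absurd (Finset.mem_univ _) hn
  refine Prod.ext (funext h3) (funext fun j => ?_)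
  by_cases hj : (j : ℕ) < k
  · have : j = (⟨j, hj⟩ : Fin k).castSucc := Fin.ext rfl
    rw [this, h4]
    rfl
  · have hj2 := j.2
    have : j = (⟨(j : ℕ) - 1, by omega⟩ : Fin k).succ := Fin.ext (by simp; omega)
    rw [this, h5]
    rfl

theorem semi [FiniteDimensional ℂ U] {I : Type} {blk : I → Block} (hk : 0 < k)
    {A B : U →ₗ[ℂ] U →ₗ[ℂ] ℂ} (hA : ∀ u v, A u v = - A v u) (hBsk : ∀ u v, B u v = - B v u)
    (hB : ∀ ν : U →ₗ[ℂ] ℂ, ∃ w, ∀ v, B w v = ν v)
    (hblk : HasBlocks (fun u v => A u v) (fun u v => B u v) blk)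
    {x a : Fin (k + 1) → ℂ} (P Q : Fin (k + 1) → U →ₗ[ℂ] ℂ) (ha : ∀ z, a z ≠ 0)
    (hρ : ∀ z z', z ≠ z' → x z * a z' - a z * x z' ≠ 0) :
    HasBlocks (fun p q : TS U k => xf A x P (TS.inc p) (TS.inc q))
      (fun p q : TS U k => xf B a Q (TS.inc p) (TS.inc q))
      (Sum.elim blk fun _ : Unit => Block.kronecker k) := by
  classical
  obtain ⟨ρ, hρd⟩ : ∃ ρ : Fin (k + 1) → ℂ, ∀ z, ρ z = -(x z / a z) := ⟨_, fun z => rfl⟩
  have hinj : Function.Injective ρ := by
    intro z z' h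
    by_contra hne
    apply hρ z z' hne
    rw [hρd, hρd, neg_inj, div_eq_div_iff (ha z) (ha z')] at h
    linear_combination h
  obtain ⟨ω, hω, hω0⟩ := ex_omega ρ hinj
  obtain ⟨g, hg⟩ := ex_dual ρ hinj (fun z => ω z * a z) (fun z => mul_ne_zero (hω0 z) (ha z))
  choose N hN1 hN2 using fun e' => xf_rec (A := A) (B := B) hB (x := x) (a := a) (P := P)
    (Q := Q) ha e'
  obtain ⟨e, he0, hes⟩ : ∃ e : ℕ → XS U k, e 0 = (0, 0, ω) ∧ ∀ r, e (r + 1) = N (e r) :=
    ⟨fun r => N^[r] (0, 0, ω), rfl, fun r => Function.iterate_succ_apply' N r _⟩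
  have hrec : ∀ r v, xf B a Q (e (r + 1)) v = - xf A x P (e r) v := fun r v => by
    rw [hes]; exact hN1 _ v
  have hs : ∀ r z, (e r).2.2 z = ρ z ^ r * ω z := by
    intro r
    induction r with
    | zero => intro z; rw [he0, pow_zero, one_mul]
    | succ r ih => intro z; rw [hes, hN2, ih, ← hρd, pow_succ]; ring
  have hAs : ∀ p q, xf A x P p q = - xf A x P q p := xf_skew hA x P
  have hBs : ∀ p q, xf B a Q p q = - xf B a Q q p := xf_skew hBsk a Q
  have hA0 : ∀ p q : XS U k, p.2.2 = 0 → q.2.2 = 0 → xf A x P p q = A p.1 q.1 :=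
    fun p q hp hq => xf_zero A x P hp hq
  have hB0 : ∀ p q : XS U k, p.2.2 = 0 → q.2.2 = 0 → xf B a Q p q = B p.1 q.1 :=
    fun p q hp hq => xf_zero B a Q hp hq
  -- the vectors of the second chain
  obtain ⟨G, hG⟩ : ∃ G : Fin (k + 1) → XS U k, ∀ j, G j = (0, g j, 0) := ⟨_, fun j => rfl⟩
  have hBG : ∀ r, r < k + 1 → ∀ j : Fin (k + 1), xf B a Q (e r) (G j) =
      if (j : ℕ) = r then 1 else 0 := by
    intro r hr j
    have h := hg ⟨r, hr⟩ j
    rw [xf_apply, hG]
    have e1 : ∀ z, (e r).2.2 z * (Q z (0 : U) + a z * g j z) -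
        (0 : Fin (k + 1) → ℂ) z * (Q z (e r).1 + a z * (e r).2.1 z) =
        ρ z ^ ((⟨r, hr⟩ : Fin (k + 1)) : ℕ) * (ω z * a z) * g j z := by
      intro z
      rw [hs, map_zero, Pi.zero_apply]
      ring
    show B (e r).1 0 + ∑ z, ((e r).2.2 z * (Q z (0 : U) + a z * g j z) -
        (0 : Fin (k + 1) → ℂ) z * (Q z (e r).1 + a z * (e r).2.1 z)) = _
    rw [map_zero, zero_add, Finset.sum_congr rfl fun z _ => e1 z, h]
    congr 1
    rw [Fin.ext_iff]
  generalize hAh : xf A x P = Ah at hrec hAs hA0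
  generalize hBh : xf B a Q = Bh at hrec hBs hB0 hBG
  have hAe : ∀ r r', Ah (e r) (e r') = 0 := by
    have h1 : ∀ r r', Ah (e r) (e (r' + 1)) = Ah (e (r + 1)) (e r') := by
      intro r r'
      have h2 := hrec r (e (r' + 1))
      have h3 := hrec r' (e (r + 1))
      rw [hBs, h3] at h2
      rw [hAs (e (r + 1))]
      linear_combination h2
    have h4 : ∀ r' r, Ah (e r) (e r') = Ah (e (r + r')) (e 0) := by
      intro r'
      induction r' with
      | zero => intro r; rfl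
      | succ r' ih => intro r; rw [h1, ih, show r + 1 + r' = r + (r' + 1) by ring]
    intro r r'
    have h5 := h4 r' r
    have h6 := h4 r r'
    rw [hAs (e r'), add_comm r' r, ← h5] at h6
    linear_combination (-1 / 2 : ℂ) * h6
  have hBe : ∀ r r', Bh (e r) (e r') = 0 := by
    intro r r'
    rcases r with _ | r
    · rcases r' with _ | r'
      · have := hBs (e 0) (e 0)
        linear_combination (1 / 2 : ℂ) * this
      · rw [hBs, hrec, hAe, neg_zero, neg_zero]
    · rw [hrec, hAe, neg_zero]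
  -- the correction of the vectors of `U`
  obtain ⟨u', hu'⟩ : ∃ u' : U →ₗ[ℂ] XS U k, ∀ u, u' u = (u, 0, 0) -
      ∑ j : Fin (k + 1), Bh (e j) (u, 0, 0) • G j := by
    refine ⟨LinearMap.inl ℂ U _ - ∑ j : Fin (k + 1),
      ((Bh (e j)).comp (LinearMap.inl ℂ U _)).smulRight (G j), fun u => ?_⟩
    rw [LinearMap.sub_apply, LinearMap.sum_apply]
    rfl
  have hG1 : ∀ j, (G j).1 = 0 := fun j => by rw [hG]
  have hG2 : ∀ j, (G j).2.2 = 0 := fun j => by rw [hG]
  have hu1 : ∀ u, (u' u).1 = u := by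
    intro u
    rw [hu', Prod.fst_sub, Prod.fst_sum, Finset.sum_eq_zero, sub_zero]
    intro j _
    rw [Prod.smul_fst, hG1, smul_zero]
  have hu2 : ∀ u, (u' u).2.2 = 0 := by
    intro u
    rw [hu', Prod.snd_sub, Prod.snd_sum, Prod.snd_sub, Prod.snd_sum, Finset.sum_eq_zero, sub_zero]
    intro j _
    rw [Prod.smul_snd, Prod.smul_snd, hG2, smul_zero]
  have hBu : ∀ r, r < k + 1 → ∀ u, Bh (e r) (u' u) = 0 := by
    intro r hr u
    rw [hu', map_sub, map_sum, Finset.sum_eq_single ⟨r, hr⟩]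
    · rw [map_smul, hBG r hr, if_pos rfl, smul_eq_mul, mul_one, sub_self]
    · intro j _ hj
      rw [map_smul, hBG r hr, if_neg (fun h => hj (Fin.ext h)), smul_zero]
    · intro h; exact absurd (Finset.mem_univ _) h
  have hAu : ∀ r, r < k → ∀ u, Ah (e r) (u' u) = 0 := by
    intro r hr u
    have := hrec r (u' u)
    rw [hBu (r + 1) (by omega)] at this
    linear_combination this
  have hAG : ∀ r, r < k → ∀ j : Fin (k + 1), Ah (e r) (G j) =
      (Block.kronecker k).second r j := by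
    intro r hr j
    have := hrec r (G j)
    rw [hBG (r + 1) (by omega)] at this
    simp only [Block.second]
    split_ifs at this ⊢ with h
    · linear_combination this
    · linear_combination this
  have hBG' : ∀ r, r < k → ∀ j : Fin (k + 1), Bh (e r) (G j) = (Block.kronecker k).first r j := by
    intro r hr j
    rw [hBG r (by omega)]
    rfl
  -- the linear maps of the chains
  let X : (Fin k → ℂ) →ₗ[ℂ] XS U k := Fintype.linearCombination ℂ fun r : Fin k => e r
  let Y : (Fin (k + 1) → ℂ) →ₗ[ℂ] XS U k := Fintype.linearCombination ℂ G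
  have hX : ∀ ε, X ε = ∑ r : Fin k, ε r • e r := fun ε => Fintype.linearCombination_apply _ _ _
  have hY : ∀ φ, Y φ = ∑ j, φ j • G j := fun φ => Fintype.linearCombination_apply _ _ _
  clear_value X Y
  have hXl : ∀ (C : XS U k →ₗ[ℂ] XS U k →ₗ[ℂ] ℂ) ε q, C (X ε) q = ∑ r : Fin k, ε r * C (e r) q := by
    intro C ε q
    rw [hX, map_sum, LinearMap.sum_apply]
    exact Finset.sum_congr rfl fun r _ => by rw [map_smul, LinearMap.smul_apply, smul_eq_mul]
  have hYr : ∀ (C : XS U k →ₗ[ℂ] XS U k →ₗ[ℂ] ℂ) p φ, C p (Y φ) = ∑ j, φ j * C p (G j) := by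
    intro C p φ
    rw [hY, map_sum]
    exact Finset.sum_congr rfl fun r _ => by rw [map_smul, smul_eq_mul]
  have hY1 : ∀ φ, (Y φ).1 = 0 := by
    intro φ
    rw [hY, Prod.fst_sum, Finset.sum_eq_zero]
    intro j _
    rw [Prod.smul_fst, hG1, smul_zero]
  have hY2 : ∀ φ, (Y φ).2.2 = 0 := by
    intro φ
    rw [hY, Prod.snd_sum, Prod.snd_sum, Finset.sum_eq_zero]
    intro j _
    rw [Prod.smul_snd, Prod.smul_snd, hG2, smul_zero]
  let Ψ : U × ((Fin k → ℂ) × (Fin (k + 1) → ℂ)) →ₗ[ℂ] XS U k := u'.coprod (X.coprod Y)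
  have hΨ : ∀ p, Ψ p = u' p.1 + (X p.2.1 + Y p.2.2) := fun p => rfl
  clear_value Ψ
  have gen : ∀ (C : XS U k →ₗ[ℂ] XS U k →ₗ[ℂ] ℂ) (C0 : U →ₗ[ℂ] U →ₗ[ℂ] ℂ) (M : ℕ → ℕ → ℂ),
      (∀ p q, C p q = - C q p) → (∀ p q : XS U k, p.2.2 = 0 → q.2.2 = 0 → C p q = C0 p.1 q.1) →
      (∀ r r', C (e r) (e r') = 0) → (∀ r, r < k → ∀ u, C (e r) (u' u) = 0) →
      (∀ r, r < k → ∀ j : Fin (k + 1), C (e r) (G j) = M r j) →
      ∀ p q, C (Ψ p) (Ψ q) = C0 p.1 q.1 + frm M p.2 q.2 := by
    intro C C0 M hsk h0 hee heu heG p q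
    have t1 : ∀ u v, C (u' u) (u' v) = C0 u v := by
      intro u v
      rw [h0 _ _ (hu2 u) (hu2 v), hu1, hu1]
    have t2 : ∀ ε u, C (X ε) (u' u) = 0 := by
      intro ε u
      rw [hXl, Finset.sum_eq_zero]
      intro r _
      rw [heu r r.2, mul_zero]
    have t3 : ∀ ε ε', C (X ε) (X ε') = 0 := by
      intro ε ε'
      rw [hXl, Finset.sum_eq_zero]
      intro r _
      rw [hsk, hXl, Finset.sum_eq_zero, neg_zero, mul_zero]
      intro s _
      rw [hee, mul_zero]
    have t4 : ∀ ε φ, C (X ε) (Y φ) = pr M ε φ := by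
      intro ε φ
      rw [hXl]
      unfold pr
      refine Finset.sum_congr rfl fun r _ => ?_
      rw [hYr]
      congr 1
      refine Finset.sum_congr rfl fun j _ => ?_
      rw [heG r r.2, mul_comm]
      rfl
    have t5 : ∀ u φ, C (u' u) (Y φ) = 0 := by
      intro u φ
      rw [h0 _ _ (hu2 u) (hY2 φ), hY1, map_zero]
    have t6 : ∀ φ φ', C (Y φ) (Y φ') = 0 := by
      intro φ φ'
      rw [h0 _ _ (hY2 φ) (hY2 φ'), hY1 φ', map_zero]
    rw [hΨ, hΨ]
    simp only [map_add, LinearMap.add_apply]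
    rw [t1, t2, t3, t4, t5, t6, hsk (u' p.1) (X q.2.1), t2, hsk (Y p.2.2) (u' q.1), t5,
      hsk (Y p.2.2) (X q.2.1), t4]
    unfold frm
    ring
  have hΨA := gen Ah A (Block.kronecker k).second hAs hA0 hAe hAu hAG
  have hΨB := gen Bh B (Block.kronecker k).first hBs hB0 hBe (fun r hr => hBu r (by omega)) hBG'
  have hΨinj : ∀ p, Ψ p = 0 → p = 0 := by
    intro p hp
    have hA1 : ∀ q : U × ((Fin k → ℂ) × (Fin (k + 1) → ℂ)),
        A p.1 q.1 + frm (Block.kronecker k).second p.2 q.2 = 0 := by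
      intro q
      rw [← hΨA, hp, map_zero, LinearMap.zero_apply]
    have hB1 : ∀ q : U × ((Fin k → ℂ) × (Fin (k + 1) → ℂ)),
        B p.1 q.1 + frm (Block.kronecker k).first p.2 q.2 = 0 := by
      intro q
      rw [← hΨB, hp, map_zero, LinearMap.zero_apply]
    have hp1 : p.1 = 0 := by
      rw [← Module.forall_dual_apply_eq_zero_iff ℂ]
      intro ν
      obtain ⟨w, hw⟩ := hB ν
      have h := hB1 (w, 0)
      rw [frm_zero_right, add_zero] at h
      rw [← hw, hBsk, h, neg_zero]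
    have hp2 : p.2 = 0 := by
      refine kron_nd hk p.2 (fun y => ?_) (fun y => ?_)
      · have h := hB1 (0, y)
        rw [map_zero, zero_add] at h
        exact h
      · have h := hA1 (0, y)
        rw [map_zero, zero_add] at h
        exact h
    exact Prod.ext hp1 hp2
  have hmem : ∀ p, (Ψ p).2.2 ∈ SZ k := by
    intro p
    rw [hΨ, Prod.snd_add, Prod.snd_add, Prod.snd_add, Prod.snd_add, hu2, hY2, zero_add, add_zero,
      hX, Prod.snd_sum, Prod.snd_sum]
    refine Submodule.sum_mem _ fun r _ => ?_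
    rw [Prod.smul_snd, Prod.smul_snd]
    refine Submodule.smul_mem _ _ ?_
    rw [mem_SZ, ← hω r r.2]
    exact Finset.sum_congr rfl fun z _ => by rw [hs, mul_comm]
  let Ψ' : U × ((Fin k → ℂ) × (Fin (k + 1) → ℂ)) →ₗ[ℂ] TS U k :=
    ((LinearMap.fst ℂ _ _).comp Ψ).prod
      ((((LinearMap.fst ℂ _ _).comp (LinearMap.snd ℂ _ _)).comp Ψ).prod
        ((((LinearMap.snd ℂ _ _).comp (LinearMap.snd ℂ _ _)).comp Ψ).codRestrict (SZ k) hmem))
  have hΨ' : ∀ p, TS.inc (Ψ' p) = Ψ p := fun p => rfl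
  have hinj' : Function.Injective Ψ' := by
    rw [← LinearMap.ker_eq_bot, LinearMap.ker_eq_bot']
    intro p hp
    apply hΨinj
    rw [← hΨ', hp]
    rfl
  have hdim : Module.finrank ℂ (U × ((Fin k → ℂ) × (Fin (k + 1) → ℂ))) =
      Module.finrank ℂ (TS U k) := by
    rw [Module.finrank_prod, Module.finrank_prod, Module.finrank_prod, Module.finrank_prod,
      finrank_SZ, Module.finrank_fin_fun, Module.finrank_fin_fun]
    omega
  let Φ : (U × ((Fin k → ℂ) × (Fin (k + 1) → ℂ))) ≃ₗ[ℂ] TS U k :=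
    LinearMap.linearEquivOfInjective Ψ' hinj' hdim
  have hΦ : ∀ p, TS.inc (Φ p) = Ψ p := fun p => hΨ' p
  have hsum := hblk.sum (swap_kron k)
    (A'' := fun p q => A p.1 q.1 + frm (Block.kronecker k).second p.2 q.2)
    (B'' := fun p q => B p.1 q.1 + frm (Block.kronecker k).first p.2 q.2)
    (by intro v; simp) (by intro v; simp [frm_zero_left, frm_zero_right])
    (by intro v w; rfl) (by intro v w; rfl)
  refine hsum.pull Φ.symm ?_ ?_
  · intro v w
    obtain ⟨p, rfl⟩ := Φ.surjective v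
    obtain ⟨q, rfl⟩ := Φ.surjective w
    rw [hΦ, hΦ, LinearEquiv.symm_apply_apply, LinearEquiv.symm_apply_apply]
    exact hΨA p q
  · intro v w
    obtain ⟨p, rfl⟩ := Φ.surjective v
    obtain ⟨q, rfl⟩ := Φ.surjective w
    rw [hΦ, hΦ, LinearEquiv.symm_apply_apply, LinearEquiv.symm_apply_apply]
    exact hΨB p q

end Main

end Pool.Agent.Helper55K1.JK
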