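import Pool.Agent.Helper55K1.JKSemi2

/-!
The Lie algebra `U ⊕ ℂ^(k+1) ⊕ E`, where `E` acts diagonally.
-/

namespace Pool.Agent.Helper55K1.JK

open Matrix

/-- A Lie bracket on `U` with cocycles and commuting derivations. -/
structure SD (U : Type) [AddCommGroup U] [Module ℂ U] (k : ℕ) where
  br : U →ₗ[ℂ] U →ₗ[ℂ] U
  co : U →ₗ[ℂ] U →ₗ[ℂ] (Fin (k + 1) → ℂ)
  dl : (Fin (k + 1) → ℂ) →ₗ[ℂ] U →ₗ[ℂ] U
  br_self : ∀ v, br v v = 0
  co_self : ∀ v, co v v = 0
  jac : ∀ u v w, br u (br v w) = br (br u v) w + br v (br u w)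
  coc : ∀ u v w, co u (br v w) = co (br u v) w + co v (br u w)
  der : ∀ s u v, dl s (br u v) = br (dl s u) v + br u (dl s v)
  dco : ∀ s u v, co (dl s u) v + co u (dl s v) = s * co u v
  comm : ∀ s t u, dl s (dl t u) = dl t (dl s u)

section Tor

variable {U : Type} [AddCommGroup U] [Module ℂ U] {k : ℕ}

lemma SD.br_swap (D : SD U k) (u v : U) : D.br u v = - D.br v u := by
  have h := D.br_self (u + v)
  rw [map_add, map_add, LinearMap.add_apply, LinearMap.add_apply, D.br_self, D.br_self, zero_add,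
    add_zero] at h
  exact eq_neg_of_add_eq_zero_right h

lemma SD.co_swap (D : SD U k) (u v : U) : D.co u v = - D.co v u := by
  have h := D.co_self (u + v)
  rw [map_add, map_add, LinearMap.add_apply, LinearMap.add_apply, D.co_self, D.co_self, zero_add,
    add_zero] at h
  exact eq_neg_of_add_eq_zero_right h

/-- The space of the Lie algebra. -/
def Tor (_D : SD U k) : Type := U × (Fin (k + 1) → ℂ) × SZ k

noncomputable instance (D : SD U k) : AddCommGroup (Tor D) := inferInstanceAs (AddCommGroup (TS U k))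

noncomputable instance (D : SD U k) : Module ℂ (Tor D) := inferInstanceAs (Module ℂ (TS U k))

/-- The bracket. -/
noncomputable def torBr (D : SD U k) (x y : TS U k) : TS U k :=
  (D.br x.1 y.1 + D.dl (x.2.2 : Fin (k + 1) → ℂ) y.1 - D.dl (y.2.2 : Fin (k + 1) → ℂ) x.1,
    D.co x.1 y.1 + (x.2.2 : Fin (k + 1) → ℂ) * y.2.1 - (y.2.2 : Fin (k + 1) → ℂ) * x.2.1, 0)

lemma torBr_add_left (D : SD U k) (x y z : TS U k) :
    torBr D (x + y) z = torBr D x z + torBr D y z := by
  refine Prod.ext ?_ (Prod.ext ?_ ?_)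
  · simp only [torBr, Prod.fst_add, Prod.snd_add, Submodule.coe_add, map_add,
      LinearMap.add_apply]
    abel
  · simp only [torBr, Prod.fst_add, Prod.snd_add, Submodule.coe_add, map_add,
      LinearMap.add_apply]
    ring
  · simp [torBr]

lemma torBr_self (D : SD U k) (x : TS U k) : torBr D x x = 0 := by
  refine Prod.ext ?_ (Prod.ext ?_ ?_)
  · simp [torBr, D.br_self]
  · simp [torBr, D.co_self]
  · simp [torBr]

lemma torBr_add_right (D : SD U k) (x y z : TS U k) :
    torBr D x (y + z) = torBr D x y + torBr D x z := by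
  refine Prod.ext ?_ (Prod.ext ?_ ?_)
  · simp only [torBr, Prod.fst_add, Prod.snd_add, Submodule.coe_add, map_add,
      LinearMap.add_apply]
    abel
  · simp only [torBr, Prod.fst_add, Prod.snd_add, Submodule.coe_add, map_add,
      LinearMap.add_apply]
    ring
  · simp [torBr]

lemma torBr_smul (D : SD U k) (r : ℂ) (x y : TS U k) :
    torBr D x (r • y) = r • torBr D x y := by
  refine Prod.ext ?_ (Prod.ext ?_ ?_)
  · simp only [torBr, Prod.smul_fst, Prod.smul_snd, Submodule.coe_smul, map_smul,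
      LinearMap.smul_apply]
    module
  · simp only [torBr, Prod.smul_fst, Prod.smul_snd, Submodule.coe_smul, map_smul]
    funext z
    simp only [Pi.add_apply, Pi.sub_apply, Pi.mul_apply, Pi.smul_apply, smul_eq_mul]
    ring
  · simp [torBr]

lemma torBr_jacobi (D : SD U k) (x y z : TS U k) :
    torBr D x (torBr D y z) = torBr D (torBr D x y) z + torBr D y (torBr D x z) := by
  refine Prod.ext ?_ (Prod.ext ?_ ?_)
  · have h1 := D.jac x.1 y.1 z.1
    have h2 := D.br_swap y.1 (D.dl (z.2.2 : Fin (k + 1) → ℂ) x.1)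
    have h3 := D.comm (x.2.2 : Fin (k + 1) → ℂ) (y.2.2 : Fin (k + 1) → ℂ) z.1
    have h4 := D.comm (x.2.2 : Fin (k + 1) → ℂ) (z.2.2 : Fin (k + 1) → ℂ) y.1
    have h5 := D.comm (z.2.2 : Fin (k + 1) → ℂ) (y.2.2 : Fin (k + 1) → ℂ) x.1
    simp only [torBr, Prod.fst_add, map_add, map_sub, LinearMap.add_apply, LinearMap.sub_apply,
      D.der, Submodule.coe_zero, map_zero, LinearMap.zero_apply]
    rw [h1, h2, h3, h4, h5]
    abel
  · have h1 := D.coc x.1 y.1 z.1
    have h2 := D.co_swap y.1 (D.dl (z.2.2 : Fin (k + 1) → ℂ) x.1)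
    have h3 := D.dco (x.2.2 : Fin (k + 1) → ℂ) y.1 z.1
    have h4 := D.dco (y.2.2 : Fin (k + 1) → ℂ) x.1 z.1
    have h5 := D.dco (z.2.2 : Fin (k + 1) → ℂ) x.1 y.1
    simp only [torBr, Prod.fst_add, Prod.snd_add, map_add, map_sub, LinearMap.add_apply,
      LinearMap.sub_apply, Submodule.coe_zero, map_zero, LinearMap.zero_apply, zero_mul]
    linear_combination h1 + h2 - h3 + h4 - h5
  · simp [torBr]

noncomputable instance (D : SD U k) : LieRing (Tor D) where
  bracket x y := torBr D x y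
  add_lie := torBr_add_left D
  lie_add := torBr_add_right D
  lie_self := torBr_self D
  leibniz_lie := torBr_jacobi D

noncomputable instance (D : SD U k) : LieAlgebra ℂ (Tor D) where
  lie_smul := torBr_smul D

/-- The coordinates of a functional. -/
noncomputable def Tor.vU (D : SD U k) (y : Module.Dual ℂ (Tor D)) : U →ₗ[ℂ] ℂ :=
  LinearMap.comp (show TS U k →ₗ[ℂ] ℂ from y) (LinearMap.inl ℂ U _)

/-- The vectors of `ℂ^(k+1)`. -/
noncomputable def Tor.c (D : SD U k) (z : Fin (k + 1)) : Tor D :=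
  ((0, Pi.single z 1, 0) : TS U k)

/-- The form on `U`. -/
noncomputable def Tor.A (D : SD U k) (y : Module.Dual ℂ (Tor D)) : U →ₗ[ℂ] U →ₗ[ℂ] ℂ :=
  D.br.compr₂ (Tor.vU D y) + D.co.compr₂ (∑ z, y (Tor.c D z) • LinearMap.proj z)

lemma Tor.A_apply (D : SD U k) (y : Module.Dual ℂ (Tor D)) (u v : U) :
    Tor.A D y u v = Tor.vU D y (D.br u v) + ∑ z, y (Tor.c D z) * D.co u v z := by
  unfold Tor.A
  rw [LinearMap.add_apply, LinearMap.add_apply, LinearMap.compr₂_apply, LinearMap.compr₂_apply,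
    LinearMap.sum_apply]
  rfl

/-- The functionals on `U`. -/
noncomputable def Tor.P (D : SD U k) (y : Module.Dual ℂ (Tor D)) (z : Fin (k + 1)) : U →ₗ[ℂ] ℂ :=
  (Tor.vU D y).comp (D.dl (Pi.single z 1))

lemma Tor.lie_decomp (D : SD U k) (y : Module.Dual ℂ (Tor D)) (p q : Tor D) :
    y ⁅p, q⁆ = xf (Tor.A D y) (fun z => y (Tor.c D z)) (Tor.P D y) (TS.inc p) (TS.inc q) := by
  have hdl : ∀ (s : Fin (k + 1) → ℂ) (u : U), Tor.vU D y (D.dl s u) =
      ∑ z, s z * Tor.P D y z u := by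
    intro s u
    have hs : s = ∑ z, s z • (Pi.single z 1 : Fin (k + 1) → ℂ) := by
      funext i
      rw [Finset.sum_apply, Finset.sum_eq_single i]
      · simp
      · intro j _ hj
        rw [Pi.smul_apply, Pi.single_eq_of_ne hj.symm, smul_zero]
      · intro h; exact absurd (Finset.mem_univ _) h
    conv_lhs => rw [hs]
    rw [map_sum, LinearMap.sum_apply, map_sum]
    refine Finset.sum_congr rfl fun z _ => ?_
    rw [map_smul, LinearMap.smul_apply, map_smul, smul_eq_mul]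
    rfl
  have hy : ∀ (w : U) (h : Fin (k + 1) → ℂ), y ((w, h, 0) : TS U k) =
      Tor.vU D y w + ∑ z, h z * y (Tor.c D z) := by
    intro w h
    have hd : ((w, h, 0) : TS U k) = LinearMap.inl ℂ U _ w +
        ∑ z, h z • ((0, Pi.single z 1, 0) : TS U k) := by
      refine Prod.ext ?_ (Prod.ext ?_ ?_)
      · rw [Prod.fst_add, Prod.fst_sum, Finset.sum_eq_zero, add_zero]
        · rfl
        · intro z _
          rw [Prod.smul_fst, smul_zero]
      · rw [Prod.snd_add, Prod.fst_add, Prod.snd_sum, Prod.fst_sum]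
        funext i
        show h i = (0 : Fin (k + 1) → ℂ) i + _
        rw [Pi.zero_apply, zero_add, Finset.sum_apply, Finset.sum_eq_single i]
        · simp
        · intro j _ hj
          show h j • (Pi.single j (1 : ℂ) : Fin (k + 1) → ℂ) i = 0
          rw [Pi.single_eq_of_ne hj.symm, smul_zero]
        · intro h; exact absurd (Finset.mem_univ _) h
      · rw [Prod.snd_add, Prod.snd_add, Prod.snd_sum, Prod.snd_sum, Finset.sum_eq_zero, add_zero]
        · rfl
        · intro z _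
          rw [Prod.smul_snd, Prod.smul_snd, smul_zero]
    have hy1 : ∀ (y : TS U k →ₗ[ℂ] ℂ), y (w, h, 0) = y (LinearMap.inl ℂ U _ w) +
        ∑ z, h z * y (0, Pi.single z 1, 0) := by
      intro y
      rw [hd, map_add, map_sum]
      congr 1
      exact Finset.sum_congr rfl fun z _ => by rw [map_smul, smul_eq_mul]
    exact hy1 y
  have hb : (⁅p, q⁆ : Tor D) = ((D.br p.1 q.1 + D.dl (p.2.2 : Fin (k + 1) → ℂ) q.1 -
      D.dl (q.2.2 : Fin (k + 1) → ℂ) p.1,
      D.co p.1 q.1 + (p.2.2 : Fin (k + 1) → ℂ) * q.2.1 - (q.2.2 : Fin (k + 1) → ℂ) * p.2.1, 0) :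
        TS U k) := rfl
  rw [hb, hy, xf_apply, map_sub, map_add, hdl, hdl]
  show _ = Tor.A D y p.1 q.1 + ∑ z, ((p.2.2 : Fin (k + 1) → ℂ) z *
    (Tor.P D y z q.1 + y (Tor.c D z) * q.2.1 z) - (q.2.2 : Fin (k + 1) → ℂ) z *
    (Tor.P D y z p.1 + y (Tor.c D z) * p.2.1 z))
  rw [Tor.A_apply]
  have e : ∀ z, (D.co p.1 q.1 + (p.2.2 : Fin (k + 1) → ℂ) * q.2.1 -
      (q.2.2 : Fin (k + 1) → ℂ) * p.2.1) z * y (Tor.c D z) =
      ((p.2.2 : Fin (k + 1) → ℂ) z * (Tor.P D y z q.1 + y (Tor.c D z) * q.2.1 z) -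
      (q.2.2 : Fin (k + 1) → ℂ) z * (Tor.P D y z p.1 + y (Tor.c D z) * p.2.1 z)) +
      y (Tor.c D z) * D.co p.1 q.1 z - (p.2.2 : Fin (k + 1) → ℂ) z * Tor.P D y z q.1 +
      (q.2.2 : Fin (k + 1) → ℂ) z * Tor.P D y z p.1 := by
    intro z
    simp only [Pi.add_apply, Pi.sub_apply, Pi.mul_apply]
    ring
  rw [Finset.sum_congr rfl fun z _ => e z, Finset.sum_add_distrib, Finset.sum_sub_distrib,
    Finset.sum_add_distrib]
  ring

end Tor

/-- The case `k = 0`. -/
lemma semi_zero {U : Type} [AddCommGroup U] [Module ℂ U] {I : Type} {blk : I → Block}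
    {A B : U →ₗ[ℂ] U →ₗ[ℂ] ℂ} (hblk : HasBlocks (fun u v => A u v) (fun u v => B u v) blk)
    {x a : Fin (0 + 1) → ℂ} (P Q : Fin (0 + 1) → U →ₗ[ℂ] ℂ) :
    HasBlocks (fun p q : TS U 0 => xf A x P (TS.inc p) (TS.inc q))
      (fun p q : TS U 0 => xf B a Q (TS.inc p) (TS.inc q))
      (Sum.elim blk fun _ : Unit => Block.kronecker 0) := by
  have hz : ∀ s : SZ 0, (s : Fin (0 + 1) → ℂ) = 0 := by
    intro s
    have h := (mem_SZ _).mp s.2
    funext i
    rw [Fin.sum_univ_one] at h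
    have hi : i = 0 := Fin.fin_one_eq_zero i
    rw [hi, h]
    rfl
  have hz' : ∀ s : SZ 0, s = 0 := fun s => Subtype.ext (hz s)
  let φ : TS U 0 ≃ₗ[ℂ] U × (Fin 1 → ℂ) :=
    { toFun := fun p => (p.1, p.2.1)
      map_add' := fun p q => rfl
      map_smul' := fun r p => rfl
      invFun := fun p => (p.1, p.2, 0)
      left_inv := fun p => Prod.ext rfl (Prod.ext rfl (hz' _).symm)
      right_inv := fun p => rfl }
  have hsum := hblk.sum (trivial_blocks (Fin 1))
    (A'' := fun p q => A p.1 q.1 + 0)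
    (B'' := fun p q => B p.1 q.1 + 0)
    (by intro v; simp) (by intro v; simp) (by intro v w; rfl) (by intro v w; rfl)
  refine (hsum.pull φ (A' := fun p q : TS U 0 => xf A x P (TS.inc p) (TS.inc q))
    (B' := fun p q : TS U 0 => xf B a Q (TS.inc p) (TS.inc q)) ?_ ?_).reindex
    (Equiv.sumCongr (Equiv.refl I) (Equiv.ofUnique Unit (Fin 1))) _ ?_
  · intro v w
    rw [xf_zero A x P (hz v.2.2) (hz w.2.2), add_zero]
    rfl
  · intro v w
    rw [xf_zero B a Q (hz v.2.2) (hz w.2.2), add_zero]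
    rfl
  · rintro (i | i)
    · rfl
    · rfl

end Pool.Agent.Helper55K1.JK
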