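import Pool.Agent.Helper55K1.JKTor

/-!
The derivation of the Lie algebra of one label, and the Lie algebra of a family of labels with one
Kronecker block.
-/

namespace Pool.Agent.Helper55K1.JK

open Matrix

section MkDer

variable {V : Type} [AddCommGroup V] [Module ℂ V] {Ds : V →ₗ[ℂ] ℂ} {H : V →ₗ[ℂ] V}
  {φ : V →ₗ[ℂ] V →ₗ[ℂ] ℂ} {ζ : V}

lemma mk_der {δ : V →ₗ[ℂ] V} (h1 : ∀ v, Ds (δ v) = 0) (h2 : ∀ v, δ (H v) = H (δ v))
    (h3 : δ ζ = ζ) (h4 : ∀ u v, φ (δ u) v + φ u (δ v) = φ u v) (u v : V) :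
    δ (mkBr Ds H φ ζ u v) = mkBr Ds H φ ζ (δ u) v + mkBr Ds H φ ζ u (δ v) := by
  rw [mkBr_apply, mkBr_apply, mkBr_apply, map_add, map_sub, map_smul, map_smul, map_smul, h1, h1,
    h2, h2, h3, ← h4]
  module

end MkDer

namespace Ch

variable {V : Type} [AddCommGroup V] [Module ℂ V] {ι : Type} {d : ι → ℕ} (C : Ch V d)

/-- The derivation. -/
def IsDl (δ : V →ₗ[ℂ] V) : Prop := (∀ j s, δ (C.E j s) = 0) ∧ ∀ j s, δ (C.G j s) = C.G j s

lemma ex_dl : ∃ δ : V →ₗ[ℂ] V, C.IsDl δ := by
  obtain ⟨δ, h⟩ := C.con (fun _ _ => 0) C.G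
  refine ⟨δ, fun j s => ?_, fun j s => ?_⟩
  · by_cases hs : s < d j
    · exact (h j s hs).1
    · rw [C.hE0 _ _ (by omega), map_zero]
  · by_cases hs : s < d j
    · exact (h j s hs).2
    · rw [C.hG0 _ _ (by omega), map_zero]

variable {δ : V →ₗ[ℂ] V}

lemma dl_I (h : C.IsDl δ) (u v : V) : C.I (δ u) v + C.I u (δ v) = C.I u v := by
  refine C.der C.sk ?_ ?_ ?_ u v
  · intro i j s t
    rw [h.1, h.1, map_zero, LinearMap.zero_apply, map_zero, C.IEE, add_zero]
  · intro i j s t
    rw [h.1, h.2, map_zero, LinearMap.zero_apply, zero_add]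
  · intro i j s t
    rw [h.2, h.2, C.IGG, add_zero]

lemma dl_comm (h : C.IsDl δ) (H : V →ₗ[ℂ] V) (hE : ∀ j s, δ (H (C.E j s)) = 0)
    (hG : ∀ j s, δ (H (C.G j s)) = H (C.G j s)) (v : V) : δ (H v) = H (δ v) := by
  refine C.ext1 (A := δ.comp H) (B := H.comp δ) (fun j s => ?_) (fun j s => ?_) v
  · rw [LinearMap.comp_apply, LinearMap.comp_apply, hE, h.1, map_zero]
  · rw [LinearMap.comp_apply, LinearMap.comp_apply, hG, h.2]

lemma dl_n (h : C.IsDl δ) (v : V) : δ (C.n v) = C.n (δ v) :=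
  C.dl_comm h C.n (fun j s => by rw [C.n_E, h.1]) (fun j s => by rw [C.n_G, h.2]) v

lemma dl_H1 (h : C.IsDl δ) (v : V) : δ (C.H1 v) = C.H1 (δ v) :=
  C.dl_comm h C.H1 (fun j s => by rw [C.H1_E, map_smul, h.1, smul_zero])
    (fun j s => by rw [C.H1_G, map_smul, h.2]) v

lemma dl_H2 (h : C.IsDl δ) (v : V) : δ (C.H2 v) = C.H2 (δ v) :=
  C.dl_comm h C.H2 (fun j s => by rw [C.H2_E, map_smul, h.1, smul_zero])
    (fun j s => by rw [C.H2_G, map_smul, h.2]) v

lemma dl_z (h : C.IsDl δ) (j₀ : ι) : δ (C.z j₀) = C.z j₀ := h.2 _ _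

lemma dl_Ds (h : C.IsDl δ) (j₀ : ι) (v : V) : C.I.flip (C.z j₀) (δ v) = 0 := by
  have := C.dl_I h v (C.z j₀)
  rw [C.dl_z h] at this
  show C.I (δ v) (C.z j₀) = 0
  linear_combination this

lemma good_der (h : C.IsDl δ) {j₀ : ι} (hm : 0 < d j₀) (u v : V) :
    δ ((C.good hm).br u v) = (C.good hm).br (δ u) v + (C.good hm).br u (δ v) :=
  mk_der (C.dl_Ds h j₀) (C.dl_H1 h) (C.dl_z h j₀) (C.dl_I h) u v

lemma good_dco (h : C.IsDl δ) {j₀ : ι} (hm : 0 < d j₀) (u v : V) :
    (C.good hm).co (δ u) v + (C.good hm).co u (δ v) = (C.good hm).co u v := by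
  show C.I (C.n (δ u)) v + C.I (C.n u) (δ v) = C.I (C.n u) v
  rw [← C.dl_n h, C.dl_I h]

lemma bad_der (h : C.IsDl δ) {j₀ : ι} (hm : 0 < d j₀) (u v : V) :
    δ ((C.bad hm).br u v) = (C.bad hm).br (δ u) v + (C.bad hm).br u (δ v) :=
  mk_der (C.dl_Ds h j₀) (C.dl_H2 h) (C.dl_z h j₀) (by
    intro u v
    show C.I (C.n (δ u)) v + C.I (C.n u) (δ v) = C.I (C.n u) v
    rw [← C.dl_n h, C.dl_I h]) u v

lemma bad_dco (h : C.IsDl δ) {j₀ : ι} (hm : 0 < d j₀) (u v : V) :
    (C.bad hm).co (δ u) v + (C.bad hm).co u (δ v) = (C.bad hm).co u v :=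
  C.dl_I h u v

end Ch

/-- The statement for one eigenvalue, with the derivation. -/
lemma loc2 {ι : Type} [Fintype ι] [DecidableEq ι] (d : ι → ℕ) (hne : Nonempty ι)
    (hd : ∀ j, 0 < d j) (g : Prop) [Decidable g] (hg : g → ∃ j₀, ∀ j, j ≠ j₀ → d j < d j₀) :
    ∃ (D : LD (MV d)) (δ : MV d →ₗ[ℂ] MV d) (z f : Σ j : ι, Fin (d j) ⊕ Fin (d j)) (c : ℂ),
      (∀ u v, δ (D.br u v) = D.br (δ u) v + D.br u (δ v)) ∧
      (∀ u v, D.co (δ u) v + D.co u (δ v) = D.co u v) ∧
      ∀ (x a : Module.Dual ℂ (MV d)) (tx ta : ℂ), x (sb d z) ≠ 0 → a (sb d z) ≠ 0 → tx ≠ 0 →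
        ta ≠ 0 → x (sb d z) * ta - a (sb d z) * tx ≠ 0 →
        x (sb d z) * ta - a (sb d z) * tx +
          c * (x (sb d z) * a (sb d f) - a (sb d z) * x (sb d f)) ≠ 0 →
        HasBlocks (fun u v => x (D.br u v) + tx * D.co u v)
          (fun u v => a (D.br u v) + ta * D.co u v)
          fun j : ι => Block.jordan (d j) (if g then -x (sb d z) / a (sb d z) else -tx / ta) := by
  have hz : ∀ j₀, ∃ z, (mCh d).z j₀ = sb d z := by
    intro j₀
    exact ⟨_, mG_pos d j₀ (d j₀ - 1) (by have := hd j₀; omega)⟩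
  have hf : ∀ j₀, ∃ f, (mCh d).G j₀ (d j₀ - 2) = sb d f := by
    intro j₀
    exact ⟨_, mG_pos d j₀ (d j₀ - 2) (by have := hd j₀; omega)⟩
  obtain ⟨δ, hδ⟩ := (mCh d).ex_dl
  by_cases hgt : g
  · obtain ⟨j₀, hmax⟩ := hg hgt
    obtain ⟨z, hz⟩ := hz j₀
    obtain ⟨f, hf⟩ := hf j₀
    refine ⟨(mCh d).good (hd j₀), δ, z, f, ((d j₀ - 2 : ℕ) : ℂ) + 1 - d j₀,
      (mCh d).good_der hδ (hd j₀), (mCh d).good_dco hδ (hd j₀),
      fun x a tx ta h1 h2 h3 h4 h5 h6 => ?_⟩
    have := (mCh d).good_blocks (hd j₀) hmax x a tx ta (by rw [hz]; exact h1) h4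
      (by rw [hz]; exact h2) (by rw [hz]; exact h5) (by rw [hz, hf]; exact h6)
    rw [hz] at this
    simp only [if_pos hgt]
    exact this
  · obtain ⟨j₀, _, hmax⟩ := Finset.exists_max_image Finset.univ d ⟨hne.some, Finset.mem_univ _⟩
    obtain ⟨z, hz⟩ := hz j₀
    refine ⟨(mCh d).bad (hd j₀), δ, z, z, 0, (mCh d).bad_der hδ (hd j₀),
      (mCh d).bad_dco hδ (hd j₀), fun x a tx ta h1 h2 h3 h4 h5 _ => ?_⟩
    have := (mCh d).bad_blocks (hd j₀) (fun j => hmax j (Finset.mem_univ j)) x a tx ta h3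
      (by rw [hz]; exact h2) h4 (by rw [hz]; exact h5)
    simp only [if_neg hgt]
    exact this

section Fam

variable {K : Type} [Fintype K] {V : K → Type} [∀ e, AddCommGroup (V e)] [∀ e, Module ℂ (V e)]
variable {k : ℕ}

/-- The family of labels. -/
noncomputable def famSD (D : ∀ e, LD (V e)) (δ : ∀ e, V e →ₗ[ℂ] V e)
    (hder : ∀ e u v, δ e ((D e).br u v) = (D e).br (δ e u) v + (D e).br u (δ e v))
    (hdco : ∀ e u v, (D e).co (δ e u) v + (D e).co u (δ e v) = (D e).co u v)
    (τ : K → Fin (k + 1)) : SD (∀ e, V e) k where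
  br := LinearMap.mk₂ ℂ (fun u v e => (D e).br (u e) (v e))
    (fun u u' v => by funext e; simp)
    (fun r u v => by funext e; simp)
    (fun u v v' => by funext e; simp)
    (fun r u v => by funext e; simp)
  co := LinearMap.mk₂ ℂ (fun u v z => ∑ e, if τ e = z then (D e).co (u e) (v e) else 0)
    (fun u u' v => by
      funext z
      rw [Pi.add_apply, ← Finset.sum_add_distrib]
      refine Finset.sum_congr rfl fun e _ => ?_
      split_ifs <;> simp)
    (fun r u v => by
      funext z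
      rw [Pi.smul_apply, smul_eq_mul, Finset.mul_sum]
      refine Finset.sum_congr rfl fun e _ => ?_
      split_ifs <;> simp)
    (fun u v v' => by
      funext z
      rw [Pi.add_apply, ← Finset.sum_add_distrib]
      refine Finset.sum_congr rfl fun e _ => ?_
      split_ifs <;> simp)
    (fun r u v => by
      funext z
      rw [Pi.smul_apply, smul_eq_mul, Finset.mul_sum]
      refine Finset.sum_congr rfl fun e _ => ?_
      split_ifs <;> simp)
  dl := LinearMap.mk₂ ℂ (fun s u e => s (τ e) • δ e (u e))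
    (fun s s' u => by funext e; simp only [Pi.add_apply]; module)
    (fun r s u => by funext e; simp only [Pi.smul_apply, smul_eq_mul]; module)
    (fun s u u' => by funext e; simp only [Pi.add_apply, map_add]; module)
    (fun r s u => by funext e; simp only [Pi.smul_apply, map_smul]; module)
  br_self := fun v => by funext e; exact (D e).br_self _
  co_self := fun v => by
    funext z
    show ∑ e, (if τ e = z then (D e).co (v e) (v e) else 0) = 0
    refine Finset.sum_eq_zero fun e _ => ?_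
    rw [(D e).co_self]
    simp
  jac := fun u v w => by funext e; exact (D e).jac _ _ _
  coc := fun u v w => by
    funext z
    show ∑ e, (if τ e = z then (D e).co (u e) ((D e).br (v e) (w e)) else 0) =
      ∑ e, (if τ e = z then (D e).co ((D e).br (u e) (v e)) (w e) else 0) +
      ∑ e, (if τ e = z then (D e).co (v e) ((D e).br (u e) (w e)) else 0)
    rw [← Finset.sum_add_distrib]
    refine Finset.sum_congr rfl fun e _ => ?_
    split_ifs
    · exact (D e).coc _ _ _
    · rw [add_zero]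
  der := fun s u v => by
    funext e
    show s (τ e) • δ e ((D e).br (u e) (v e)) = (D e).br (s (τ e) • δ e (u e)) (v e) +
      (D e).br (u e) (s (τ e) • δ e (v e))
    rw [hder, map_smul, LinearMap.smul_apply, map_smul, smul_add]
  dco := fun s u v => by
    funext z
    show ∑ e, (if τ e = z then (D e).co (s (τ e) • δ e (u e)) (v e) else 0) +
      ∑ e, (if τ e = z then (D e).co (u e) (s (τ e) • δ e (v e)) else 0) =
      s z * ∑ e, (if τ e = z then (D e).co (u e) (v e) else 0)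
    rw [← Finset.sum_add_distrib, Finset.mul_sum]
    refine Finset.sum_congr rfl fun e _ => ?_
    split_ifs with h
    · rw [map_smul, LinearMap.smul_apply, map_smul, smul_eq_mul, smul_eq_mul, ← mul_add, hdco, h]
    · rw [add_zero, mul_zero]
  comm := fun s t u => by
    funext e
    show s (τ e) • δ e (t (τ e) • δ e (u e)) = t (τ e) • δ e (s (τ e) • δ e (u e))
    rw [map_smul, map_smul, smul_comm]

variable [DecidableEq K]

lemma fam_form (D : ∀ e, LD (V e)) (δ : ∀ e, V e →ₗ[ℂ] V e)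
    (hder : ∀ e u v, δ e ((D e).br u v) = (D e).br (δ e u) v + (D e).br u (δ e v))
    (hdco : ∀ e u v, (D e).co (δ e u) v + (D e).co u (δ e v) = (D e).co u v)
    (τ : K → Fin (k + 1)) (y : Module.Dual ℂ (Tor (famSD D δ hder hdco τ))) (u v : ∀ e, V e) :
    Tor.A (famSD D δ hder hdco τ) y u v =
      ∑ e, (((Tor.vU (famSD D δ hder hdco τ) y).comp (LinearMap.single ℂ V e))
        ((D e).br (u e) (v e)) + y (Tor.c (famSD D δ hder hdco τ) (τ e)) *
          (D e).co (u e) (v e)) := by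
  rw [Tor.A_apply, Finset.sum_add_distrib]
  congr 1
  · have e1 : (famSD D δ hder hdco τ).br u v = ∑ e, LinearMap.single ℂ V e ((D e).br (u e) (v e)) := by
      refine Eq.trans ?_ (Finset.univ_sum_single fun e => (D e).br (u e) (v e)).symm
      rfl
    rw [e1, map_sum]
    rfl
  · have e2 : ∀ z, (famSD D δ hder hdco τ).co u v z =
        ∑ e, (if τ e = z then (D e).co (u e) (v e) else 0) := fun z => rfl
    rw [Finset.sum_congr rfl fun z _ => by rw [e2 z, Finset.mul_sum], Finset.sum_comm]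
    refine Finset.sum_congr rfl fun e _ => ?_
    rw [Finset.sum_eq_single (τ e)]
    · rw [if_pos rfl]
    · intro z _ hz
      rw [if_neg (Ne.symm hz), mul_zero]
    · intro h; exact absurd (Finset.mem_univ _) h

end Fam

/-- The second form of a sum of Jordan blocks is nondegenerate. -/
lemma jordan_nd {U : Type} [AddCommGroup U] [Module ℂ U] {I : Type} {A : U → U → ℂ}
    {B : U →ₗ[ℂ] U →ₗ[ℂ] ℂ} {d : I → ℕ} {μ : I → ℂ}
    (h : HasBlocks A (fun u v => B u v) fun i => Block.jordan (d i) (μ i)) (u : U)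
    (hu : ∀ v, B u v = 0) : u = 0 := by
  classical
  obtain ⟨b, h1, h2⟩ := h
  have hl : ∀ (i : I) (t : Fin (d i)), b.repr u ⟨i, Sum.inl t⟩ = 0 := by
    intro i t
    have e : B.flip (b ⟨i, Sum.inr t⟩) = - b.coord ⟨i, Sum.inl t⟩ := by
      refine b.ext fun x => ?_
      obtain ⟨j, s⟩ := x
      rw [LinearMap.flip_apply, LinearMap.neg_apply, Module.Basis.coord_apply,
        Module.Basis.repr_self]
      by_cases hij : j = i
      · subst hij
        have h3 : B (b ⟨j, s⟩) (b ⟨j, Sum.inr t⟩) = _ := (h1 j s (Sum.inr t)).2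
        rw [h3]
        rcases s with s | s
        · show (if (t : ℕ) = s then (-1 : ℂ) else 0) = _
          by_cases hst : (t : ℕ) = s
          · have : s = t := Fin.ext hst.symm
            subst this
            rw [if_pos rfl, Finsupp.single_eq_same]
          · have hne : (⟨j, Sum.inl t⟩ : Σ i, (Block.jordan (d i) (μ i)).Ix) ≠ ⟨j, Sum.inl s⟩ := by
              intro h
              apply hst
              have := eq_of_heq (Sigma.mk.inj h).2
              rw [Sum.inl.inj this]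
            rw [if_neg hst, Finsupp.single_apply, if_neg (Ne.symm hne), neg_zero]
        · have hne : (⟨j, Sum.inl t⟩ : Σ i, (Block.jordan (d i) (μ i)).Ix) ≠ ⟨j, Sum.inr s⟩ := by
            intro h
            have := eq_of_heq (Sigma.mk.inj h).2
            exact absurd this (by simp)
          rw [Finsupp.single_apply, if_neg (Ne.symm hne), neg_zero]
          rfl
      · have h3 : B (b ⟨j, s⟩) (b ⟨i, Sum.inr t⟩) = 0 := (h2 j i s (Sum.inr t) hij).2
        have hne : (⟨i, Sum.inl t⟩ : Σ i, (Block.jordan (d i) (μ i)).Ix) ≠ ⟨j, s⟩ := by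
          intro h
          exact hij (Sigma.mk.inj h).1.symm
        rw [h3, Finsupp.single_apply, if_neg (Ne.symm hne), neg_zero]
    have h3 := LinearMap.congr_fun e u
    rw [LinearMap.flip_apply, hu, LinearMap.neg_apply, Module.Basis.coord_apply] at h3
    linear_combination h3
  have hr : ∀ (i : I) (t : Fin (d i)), b.repr u ⟨i, Sum.inr t⟩ = 0 := by
    intro i t
    have e : B.flip (b ⟨i, Sum.inl t⟩) = b.coord ⟨i, Sum.inr t⟩ := by
      refine b.ext fun x => ?_
      obtain ⟨j, s⟩ := x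
      rw [LinearMap.flip_apply, Module.Basis.coord_apply, Module.Basis.repr_self]
      by_cases hij : j = i
      · subst hij
        have h3 : B (b ⟨j, s⟩) (b ⟨j, Sum.inl t⟩) = _ := (h1 j s (Sum.inl t)).2
        rw [h3]
        rcases s with s | s
        · have hne : (⟨j, Sum.inr t⟩ : Σ i, (Block.jordan (d i) (μ i)).Ix) ≠ ⟨j, Sum.inl s⟩ := by
            intro h
            have := eq_of_heq (Sigma.mk.inj h).2
            exact absurd this (by simp)
          rw [Finsupp.single_apply, if_neg (Ne.symm hne)]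
          rfl
        · show -(if (s : ℕ) = t then (-1 : ℂ) else 0) = _
          by_cases hst : (s : ℕ) = t
          · have : s = t := Fin.ext hst
            subst this
            rw [if_pos rfl, Finsupp.single_eq_same, neg_neg]
          · have hne : (⟨j, Sum.inr t⟩ : Σ i, (Block.jordan (d i) (μ i)).Ix) ≠ ⟨j, Sum.inr s⟩ := by
              intro h
              apply hst
              have := eq_of_heq (Sigma.mk.inj h).2
              rw [Sum.inr.inj this]
            rw [if_neg hst, Finsupp.single_apply, if_neg (Ne.symm hne), neg_zero]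
      · have h3 : B (b ⟨j, s⟩) (b ⟨i, Sum.inl t⟩) = 0 := (h2 j i s (Sum.inl t) hij).2
        have hne : (⟨i, Sum.inr t⟩ : Σ i, (Block.jordan (d i) (μ i)).Ix) ≠ ⟨j, s⟩ := by
          intro h
          exact hij (Sigma.mk.inj h).1.symm
        rw [h3, Finsupp.single_apply, if_neg (Ne.symm hne)]
    have h3 := LinearMap.congr_fun e u
    rw [LinearMap.flip_apply, hu, Module.Basis.coord_apply] at h3
    exact h3.symm
  have h0 : b.repr u = 0 := by
    refine Finsupp.ext fun x => ?_
    obtain ⟨i, t | t⟩ := x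
    · exact hl i t
    · exact hr i t
  simpa using h0

end Pool.Agent.Helper55K1.JK
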